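import Pool.Agent.Run7.h915.Str

/-!
# Base four digits
-/

set_option linter.unusedSectionVars false

namespace Run7.h915

universe u v w

variable {M : Type u} [CommSemiring M] [LinearOrder M] [IsStrictOrderedRing M]
  [CanonicallyOrderedAdd M] [Disc M] [IS1 M]

/-- Powers of four. -/
noncomputable def p4 (n : M) : M := exp2 n * exp2 n

/-- The `n`-th digit in base four. -/
noncomputable def dg (a n : M) : M := rm (dv a (p4 n)) 4

/-- The digits below `n` agree. -/
def cg (n a b : M) : Prop := Ball n (fun i => dg a i = dg b i)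

section
variable {S : Set (Set M)} [IndS S] {α : Type v} [Cod M α]

@[fun_prop] protected theorem Comp.p4 {f : α → M} (hf : Comp S f) :
    Comp S (fun x => p4 (f x)) := by
  unfold h915.p4; fun_prop

@[fun_prop] protected theorem Comp.dg {f g : α → M} (hf : Comp S f) (hg : Comp S g) :
    Comp S (fun x => dg (f x) (g x)) := by
  unfold h915.dg; fun_prop

@[fun_prop] protected theorem Comp.cg {f g h : α → M} (hf : Comp S f) (hg : Comp S g)
    (hh : Comp S h) : Comp S (fun x => cg (f x) (g x) (h x)) := by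
  unfold h915.cg; fun_prop

end

theorem p4_zero : p4 (0 : M) = 1 := by unfold p4; rw [exp2_zero, one_mul]

theorem p4_succ (n : M) : p4 (n + 1) = 4 * p4 n := by
  unfold p4; rw [exp2_succ]; ring

theorem p4_pos (n : M) : 0 < p4 n := mul_pos (exp2_pos n) (exp2_pos n)

theorem p4_add (m n : M) : p4 (m + n) = p4 m * p4 n := by
  unfold p4; rw [exp2_add]; ring

theorem four_pos' : (0 : M) < 4 := by norm_num

theorem lt_p4 (n : M) : n < p4 n := by
  unfold p4
  calc n < exp2 n := lt_exp2 n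
    _ = exp2 n * 1 := by ring
    _ ≤ exp2 n * exp2 n := by gcongr; exact pos_iff_one_le.1 (exp2_pos n)

theorem dg_lt (a n : M) : dg a n < 4 := rm_lt four_pos'

theorem dv_dv (a b c : M) (hb : 0 < b) (hc : 0 < c) : dv (dv a b) c = dv a (b * c) := by
  symm
  have h1 := dv_rm a b
  have h2 := dv_rm (dv a b) c
  have h3 := rm_lt (x := a) hb
  have h4 := rm_lt (x := dv a b) hc
  apply dv_unique (r := rm (dv a b) c * b + rm a b)
  · calc a = dv a b * b + rm a b := h1
      _ = (dv (dv a b) c * c + rm (dv a b) c) * b + rm a b := by rw [← h2]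
      _ = _ := by ring
  · calc rm (dv a b) c * b + rm a b < rm (dv a b) c * b + b := by gcongr
      _ = (rm (dv a b) c + 1) * b := by ring
      _ ≤ c * b := by gcongr; exact succ_le.2 h4
      _ = _ := by ring

theorem dg_dv (a k n : M) : dg (dv a (p4 k)) n = dg a (k + n) := by
  unfold dg
  rw [dv_dv _ _ _ (p4_pos k) (p4_pos n), p4_add]

theorem rm_p4_succ (a n : M) : rm a (p4 (n + 1)) = dg a n * p4 n + rm a (p4 n) := by
  have h1 := dv_rm a (p4 n)
  have h2 := dv_rm (dv a (p4 n)) 4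
  have h3 := rm_lt (x := a) (p4_pos n)
  have h4 := dg_lt a n
  apply rm_unique (q := dv (dv a (p4 n)) 4)
  · calc a = dv a (p4 n) * p4 n + rm a (p4 n) := h1
      _ = (dv (dv a (p4 n)) 4 * 4 + dg a n) * p4 n + rm a (p4 n) := by unfold dg; rw [← h2]
      _ = _ := by rw [p4_succ]; ring
  · calc dg a n * p4 n + rm a (p4 n) < dg a n * p4 n + p4 n := by gcongr
      _ = (dg a n + 1) * p4 n := by ring
      _ ≤ 4 * p4 n := by gcongr; exact succ_le.2 h4
      _ = _ := by rw [p4_succ]

theorem cg_rm {n a b : M} (h : cg n a b) : rm a (p4 n) = rm b (p4 n) := by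
  have key : ∀ m : M, m ≤ n → rm a (p4 m) = rm b (p4 m) := by
    intro m
    refine Comp.induct (S := ∅) (Comp.imp (by fun_prop) (by fun_prop)) ?_ ?_ m
    · intro _
      have h1 : rm a (p4 (0 : M)) < 0 + 1 := by
        rw [p4_zero, zero_add]; exact rm_lt one_pos
      have h2 : rm b (p4 (0 : M)) < 0 + 1 := by
        rw [p4_zero, zero_add]; exact rm_lt one_pos
      rw [le_antisymm (lt_succ.1 h1) zero_le, le_antisymm (lt_succ.1 h2) zero_le]
    · intro x ih hx
      have hx' := succ_le.1 hx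
      rw [rm_p4_succ, rm_p4_succ, ih hx'.le, h x hx']
  exact key n le_rfl

theorem cg_refl (n a : M) : cg n a a := fun _ _ => rfl

theorem cg_zero (a b : M) : cg 0 a b := fun i hi => absurd hi (not_lt_zero' i)

theorem cg_symm {n a b : M} (h : cg n a b) : cg n b a := fun i hi => (h i hi).symm

theorem cg_trans {n a b c : M} (h : cg n a b) (h' : cg n b c) : cg n a c :=
  fun i hi => (h i hi).trans (h' i hi)

theorem cg_mono {m n a b : M} (hm : m ≤ n) (h : cg n a b) : cg m a b :=
  fun i hi => h i (lt_of_lt_of_le hi hm)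

theorem cg_eq {n a b : M} (h : cg n a b) (ha : a < p4 n) (hb : b < p4 n) : a = b := by
  have := cg_rm h
  rwa [rm_of_lt ha, rm_of_lt hb] at this

theorem exists_dg_ne {a b : M} (h : a ≠ b) : ∃ n, dg a n ≠ dg b n := by
  by_contra hc
  push Not at hc
  apply h
  refine cg_eq (n := max a b) (fun i _ => hc i) ?_ ?_
  · exact lt_of_le_of_lt (le_max_left a b) (lt_p4 _)
  · exact lt_of_le_of_lt (le_max_right a b) (lt_p4 _)

theorem dg_zero_left (n : M) : dg (0 : M) n = 0 := by
  unfold dg
  rw [dv_of_lt (p4_pos n), rm_of_lt four_pos']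

theorem dg_of_lt {a n : M} (h : a < p4 n) : dg a n = 0 := by
  unfold dg
  rw [dv_of_lt h, rm_of_lt four_pos']

theorem cg_zero_iff {n a : M} : cg n a 0 ↔ ∀ i < n, dg a i = 0 := by
  constructor
  · intro h i hi
    have := h i hi
    rw [← dg_zero_left i]; exact this
  · intro h i hi
    show dg a i = dg 0 i
    rw [dg_zero_left]; exact h i hi

/-- The digits of `a + p4 n * b` for `a < p4 n`. -/
theorem dv_concat {a b n : M} (ha : a < p4 n) : dv (a + p4 n * b) (p4 n) = b :=
  dv_unique (r := a) (by ring) ha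

theorem rm_concat {a b n : M} (ha : a < p4 n) : rm (a + p4 n * b) (p4 n) = a :=
  rm_unique (q := b) (by ring) ha

theorem dg_rm {a n i : M} (hi : i < n) : dg (rm a (p4 n)) i = dg a i := by
  obtain ⟨k, hk⟩ := le_iff_exists_add.1 (succ_le.2 hi)
  have h1 := dv_rm a (p4 n)
  unfold dg
  have h2 : dv a (p4 i) = dv a (p4 n) * p4 k * 4 + dv (rm a (p4 n)) (p4 i) := by
    have h3 := dv_rm (rm a (p4 n)) (p4 i)
    have h4 := rm_lt (x := rm a (p4 n)) (p4_pos i)
    apply dv_unique (r := rm (rm a (p4 n)) (p4 i)) _ h4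
    calc a = dv a (p4 n) * p4 n + rm a (p4 n) := h1
      _ = dv a (p4 n) * p4 (i + 1 + k) + (dv (rm a (p4 n)) (p4 i) * p4 i +
        rm (rm a (p4 n)) (p4 i)) := by rw [← h3, ← hk]
      _ = _ := by rw [p4_add, p4_succ]; ring
  rw [h2]
  symm
  have h5 := dv_rm (dv (rm a (p4 n)) (p4 i)) 4
  apply rm_unique (q := dv a (p4 n) * p4 k + dv (dv (rm a (p4 n)) (p4 i)) 4) _ (rm_lt four_pos')
  calc dv a (p4 n) * p4 k * 4 + dv (rm a (p4 n)) (p4 i)
      = dv a (p4 n) * p4 k * 4 + (dv (dv (rm a (p4 n)) (p4 i)) 4 * 4 +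
        rm (dv (rm a (p4 n)) (p4 i)) 4) := by rw [← h5]
    _ = _ := by ring

theorem dg_concat_lt {a b n i : M} (ha : a < p4 n) (hi : i < n) : dg (a + p4 n * b) i = dg a i := by
  rw [← dg_rm (a := a + p4 n * b) hi, rm_concat ha]

theorem dg_concat_ge {a b n i : M} (ha : a < p4 n) : dg (a + p4 n * b) (n + i) = dg b i := by
  rw [← dg_dv, dv_concat ha]

/-- There is a number with prescribed digits. -/
theorem exists_digits {S : Set (Set M)} [IndS S] {δ : M → M} (hδ : Comp S δ) (h4 : ∀ n, δ n < 4)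
    (N : M) : ∃ a, a < p4 N ∧ ∀ i < N, dg a i = δ i := by
  have := Comp.induct1 (S := S) (Q := fun n a => a < p4 n ∧ Ball n (fun i => dg a i = δ i))
    (by
      have : Comp S (fun z : (M × M) × M => δ z.2) := Comp.comp hδ (by fun_prop)
      fun_prop)
    ⟨0, by rw [p4_zero]; exact one_pos, fun i hi => absurd hi (not_lt_zero' i)⟩ (by
      rintro x ⟨a, ha, h⟩
      refine ⟨a + p4 x * δ x, ?_, ?_⟩
      · calc a + p4 x * δ x < p4 x + p4 x * δ x := by gcongr
          _ = p4 x * (δ x + 1) := by ring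
          _ ≤ p4 x * 4 := by gcongr; exact succ_le.2 (h4 x)
          _ = _ := by rw [p4_succ]; ring
      · intro i hi
        rcases (lt_succ.1 hi).lt_or_eq with h1 | h1
        · rw [dg_concat_lt ha h1]; exact h i h1
        · subst h1
          have := dg_concat_ge (b := δ i) (i := 0) ha
          rw [add_zero] at this
          rw [this]
          unfold dg
          have h5 : dv (δ i) (p4 (0 : M)) = δ i := dv_unique (r := 0) (by rw [p4_zero]; ring)
            (by rw [p4_zero]; exact one_pos)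
          rw [h5, rm_of_lt (h4 i)]) N
  exact this

/-! ### The numbers `4^e (1 + 4 τ)` -/

/-- The number with digits `0^e 1 τ`. -/
noncomputable def bl (e t : M) : M := p4 e * (1 + 4 * t)

section
variable {S : Set (Set M)} [IndS S] {α : Type v} [Cod M α]

@[fun_prop] protected theorem Comp.bl {f g : α → M} (hf : Comp S f) (hg : Comp S g) :
    Comp S (fun x => bl (f x) (g x)) := by
  unfold h915.bl; fun_prop

end

theorem bl_eq (e t : M) : bl e t = 0 + p4 e * (1 + 4 * t) := by unfold bl; ring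

theorem bl_eq' (e t : M) : bl e t = p4 e + p4 (e + 1) * t := by
  unfold bl; rw [p4_succ]; ring

theorem p4_lt_succ (e : M) : p4 e < p4 (e + 1) := by
  rw [p4_succ]
  calc p4 e = 1 * p4 e := by ring
    _ < 4 * p4 e := mul_lt_mul_of_pos_right (by norm_num) (p4_pos e)

theorem dg_bl_lt {e t i : M} (hi : i < e) : dg (bl e t) i = 0 := by
  rw [bl_eq, dg_concat_lt (p4_pos e) hi, dg_zero_left]

theorem dg_bl_self (e t : M) : dg (bl e t) e = 1 := by
  rw [bl_eq]
  have := dg_concat_ge (b := 1 + 4 * t) (i := 0) (p4_pos e)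
  rw [add_zero] at this
  rw [this]
  unfold dg
  have h5 : dv (1 + 4 * t) (p4 (0 : M)) = 1 + 4 * t := dv_unique (r := 0) (by rw [p4_zero]; ring)
            (by rw [p4_zero]; exact one_pos)
  rw [h5]
  exact rm_unique (q := t) (by ring) (by norm_num)

theorem dv_bl (e t : M) : dv (bl e t) (p4 (e + 1)) = t := by
  rw [bl_eq', dv_concat (p4_lt_succ e)]

theorem dg_bl_gt (e t n : M) : dg (bl e t) (e + 1 + n) = dg t n := by
  rw [bl_eq', dg_concat_ge (p4_lt_succ e)]

theorem cg_bl_zero {e t : M} : cg e (bl e t) 0 := cg_zero_iff.2 (fun _ hi => dg_bl_lt hi)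

theorem eq_bl {a e : M} (h0 : cg e a 0) (h1 : dg a e = 1) : a = bl e (dv a (p4 (e + 1))) := by
  have h2 := cg_rm h0
  rw [rm_of_lt (p4_pos e)] at h2
  have h3 := dv_rm a (p4 (e + 1))
  rw [rm_p4_succ, h1, h2] at h3
  rw [bl_eq']
  conv_lhs => rw [h3]
  ring

theorem bl_cg {e t t' m : M} (h : cg m t t') : cg (e + 1 + m) (bl e t) (bl e t') := by
  intro i hi
  rcases lt_trichotomy i e with h1 | h1 | h1
  · rw [dg_bl_lt h1, dg_bl_lt h1]
  · subst h1; rw [dg_bl_self, dg_bl_self]
  · obtain ⟨k, rfl⟩ := le_iff_exists_add.1 (succ_le.2 h1)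
    rw [dg_bl_gt, dg_bl_gt]
    exact h k (lt_of_add_lt_add_left hi)

/-- The position of the first nonzero digit. -/
theorem first_digit {a n : M} (h : ¬ cg n a 0) : ∃ e, e < n ∧ cg e a 0 ∧ dg a e ≠ 0 := by
  have h1 : ∃ e, e < n ∧ dg a e ≠ 0 := by
    by_contra hc
    push Not at hc
    exact h (cg_zero_iff.2 hc)
  have hc : Comp (∅ : Set (Set M)) (fun e => e < n ∧ dg a e ≠ 0) := by fun_prop
  obtain ⟨e, ⟨h2, h3⟩, h4⟩ := hc.lnp h1
  refine ⟨e, h2, cg_zero_iff.2 (fun i hi => ?_), h3⟩
  by_contra h5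
  exact h4 i hi ⟨hi.trans h2, h5⟩

theorem first_unique {a e e' : M} (h : cg e a 0) (h1 : dg a e ≠ 0) (h' : cg e' a 0)
    (h1' : dg a e' ≠ 0) : e = e' := by
  rcases lt_trichotomy e e' with h2 | h2 | h2
  · exact absurd (cg_zero_iff.1 h' e h2) h1
  · exact h2
  · exact absurd (cg_zero_iff.1 h e' h2) h1'

end Run7.h915
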