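import Pool.Agent.Run7.h915.Bridge

/-!
# Arithmetic: division, the beta function, primitive recursion
-/

set_option linter.unusedSectionVars false

namespace Run7.h915

universe u v w

variable {M : Type u} [CommSemiring M] [LinearOrder M] [IsStrictOrderedRing M]
  [CanonicallyOrderedAdd M] [Disc M]

class IS1 (M : Type u) [CommSemiring M] [LinearOrder M] : Prop where
  ind : IndS (∅ : Set (Set M))

instance [h : IS1 M] : IndS (∅ : Set (Set M)) := h.ind

theorem IS1.of (S : Set (Set M)) [IndS S] : IS1 M := ⟨IndS.mono (Set.empty_subset S)⟩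

/-! ### Division -/

/-- Quotient. -/
noncomputable def dv (x y : M) : M := mu (fun q => x < (q + 1) * y ∨ y = 0)

section
variable {S : Set (Set M)} [IndS S] {α : Type v} [Cod M α]

theorem dv_ex (x y : M) : ∃ q, x < (q + 1) * y ∨ y = 0 := by
  rcases eq_or_ne y 0 with h | h
  · exact ⟨0, Or.inr h⟩
  · refine ⟨x, Or.inl ?_⟩
    have h1 := pos_iff_one_le.1 (pos_iff_ne_zero.2 h)
    calc x < x + 1 := lt_add_one x
      _ = (x + 1) * 1 := by ring
      _ ≤ (x + 1) * y := by gcongr

@[fun_prop] protected theorem Comp.dv {f g : α → M} (hf : Comp S f) (hg : Comp S g) :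
    Comp S (fun x => dv (f x) (g x)) := by
  unfold h915.dv
  refine Comp.mu (P := fun x q => f x < (q + 1) * g x ∨ g x = 0) (by fun_prop)
    (fun x => dv_ex _ _)

end

variable [IS1 M]

theorem dv_unique {x y q r : M} (h : x = q * y + r) (hr : r < y) : dv x y = q := by
  have hy : y ≠ 0 := fun h0 => not_lt_zero' r (h0 ▸ hr)
  apply mu_eq
  · left
    rw [h, add_mul, one_mul]
    exact add_lt_add_right hr _
  · intro q' hq' h2
    rcases h2 with h2 | h2
    · rw [h] at h2
      have h3 : (q' + 1) * y ≤ q * y := by gcongr; exact succ_le.2 hq'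
      exact absurd (lt_of_lt_of_le h2 h3) (not_lt.2 le_self_add)
    · exact hy h2

theorem dv_mul_le (x y : M) : dv x y * y ≤ x := by
  by_contra h
  rw [not_le] at h
  have hq : dv x y ≠ 0 := by
    intro h0; rw [h0, zero_mul] at h; exact not_lt_zero' _ h
  have hy : y ≠ 0 := by
    intro h0; rw [h0, mul_zero] at h; exact not_lt_zero' _ h
  obtain ⟨q', hq'⟩ := le_iff_exists_add.1 (pos_iff_one_le.1 (pos_iff_ne_zero.2 hq))
  have hc : Comp (∅ : Set (Set M)) (fun q => x < (q + 1) * y ∨ y = 0) := by fun_prop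
  have h2 : dv x y ≤ q' := mu_min hc (by left; rwa [add_comm q' 1, ← hq'])
  rw [hq'] at h2
  have h3 : q' < 1 + q' := by rw [add_comm]; exact lt_add_one q'
  exact absurd h2 (not_le.2 h3)

/-- Remainder. -/
noncomputable def rm (x y : M) : M := mu (fun r => x = dv x y * y + r)

theorem rm_ex (x y : M) : ∃ r, x = dv x y * y + r := le_iff_exists_add.1 (dv_mul_le x y)

theorem dv_rm (x y : M) : x = dv x y * y + rm x y := by
  have hc : Comp (∅ : Set (Set M)) (fun r => x = dv x y * y + r) := by fun_prop
  exact mu_spec hc (rm_ex x y)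

theorem rm_lt {x y : M} (hy : 0 < y) : rm x y < y := by
  have hc : Comp (∅ : Set (Set M)) (fun q => x < (q + 1) * y ∨ y = 0) := by fun_prop
  have h := mu_spec hc (dv_ex x y)
  change x < (dv x y + 1) * y ∨ y = 0 at h
  rcases h with h | h
  · have h2 := dv_rm x y
    rw [add_mul, one_mul] at h
    have h3 : dv x y * y + rm x y < dv x y * y + y := by rw [← h2]; exact h
    exact lt_of_add_lt_add_left h3
  · exact absurd h hy.ne'

theorem rm_unique {x y q r : M} (h : x = q * y + r) (hr : r < y) : rm x y = r := by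
  have h1 := dv_unique h hr
  have h2 := dv_rm x y
  rw [h1] at h2
  exact (add_left_cancel (h.symm.trans h2)).symm

@[fun_prop] protected theorem Comp.rm {S : Set (Set M)} [IndS S] {α : Type v} [Cod M α]
    {f g : α → M} (hf : Comp S f) (hg : Comp S g) :
    Comp S (fun x => rm (f x) (g x)) := by
  unfold h915.rm
  exact Comp.mu (P := fun x r => f x = h915.dv (f x) (g x) * g x + r) (by fun_prop)
    (fun x => rm_ex _ _)

theorem rm_mul_left (u D m : M) (hm : 0 < m) : rm (rm u m * D) m = rm (u * D) m := by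
  have h1 := dv_rm u m
  have h2 := dv_rm (rm u m * D) m
  have h3 := rm_lt (x := rm u m * D) hm
  symm
  apply rm_unique (q := dv u m * D + dv (rm u m * D) m) _ h3
  calc u * D = (dv u m * m + rm u m) * D := by rw [← h1]
    _ = dv u m * D * m + rm u m * D := by ring
    _ = dv u m * D * m + (dv (rm u m * D) m * m + rm (rm u m * D) m) := by rw [← h2]
    _ = _ := by ring

theorem rm_add_mul (c k m : M) (hm : 0 < m) : rm (c + k * m) m = rm c m := by
  apply rm_unique (q := dv c m + k) _ (rm_lt hm)
  have h1 := dv_rm c m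
  calc c + k * m = dv c m * m + rm c m + k * m := by rw [← h1]
    _ = _ := by ring

theorem rm_of_lt {x m : M} (h : x < m) : rm x m = x := rm_unique (q := 0) (by ring) h

theorem dv_of_lt {x m : M} (h : x < m) : dv x m = 0 := dv_unique (r := x) (by ring) h

/-! ### The beta function -/

noncomputable def md (d i : M) : M := 1 + (i + 1) * d

theorem md_pos (d i : M) : 0 < md d i := lt_of_lt_of_le zero_lt_one le_self_add

noncomputable def be (c d i : M) : M := rm c (md d i)

section
variable {S : Set (Set M)} [IndS S] {α : Type v} [Cod M α]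

@[fun_prop] protected theorem Comp.md {f g : α → M} (hf : Comp S f) (hg : Comp S g) :
    Comp S (fun x => md (f x) (g x)) := by
  unfold h915.md; fun_prop

@[fun_prop] protected theorem Comp.be {f g h : α → M} (hf : Comp S f) (hg : Comp S g)
    (hh : Comp S h) : Comp S (fun x => be (f x) (g x) (h x)) := by
  unfold h915.be; fun_prop

end

/-- `D` is invertible modulo `m`. -/
def Inv (D m : M) : Prop := Bex m (fun u => rm (u * D) m = 1)

theorem inv_of {D m u v : M} (hm : 1 < m) (h : u * D = v * m + 1) : Inv D m := by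
  have hm0 : 0 < m := lt_trans zero_lt_one hm
  refine ⟨rm u m, rm_lt hm0, ?_⟩
  show rm (rm u m * D) m = 1
  rw [rm_mul_left _ _ _ hm0]
  exact rm_unique h hm

theorem inv_elim {D m : M} (h : Inv D m) : ∃ u v, u * D = v * m + 1 := by
  obtain ⟨u, _, hu⟩ := h
  exact ⟨u, dv (u * D) m, by conv_lhs => rw [dv_rm (u * D) m, hu]⟩

theorem inv_mul {D D' m : M} (hm : 1 < m) (h : Inv D m) (h' : Inv D' m) : Inv (D * D') m := by
  obtain ⟨u, v, h1⟩ := inv_elim h
  obtain ⟨u', v', h2⟩ := inv_elim h'
  apply inv_of (u := u * u') (v := v * v' * m + v + v') hm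
  calc u * u' * (D * D') = (u * D) * (u' * D') := by ring
    _ = (v * m + 1) * (v' * m + 1) := by rw [h1, h2]
    _ = _ := by ring

theorem inv_md {d i l : M} (hd : 0 < d) (hil : i < l) (hdiv : ∀ e, 0 < e → e ≤ l → ∃ q, d = e * q) :
    Inv (md d i) (md d l) := by
  obtain ⟨e, he⟩ := le_iff_exists_add.1 hil.le
  have he0 : 0 < e := by
    rcases eq_or_ne e 0 with h | h
    · subst h; rw [add_zero] at he; exact absurd he hil.ne'
    · exact pos_iff_ne_zero.2 h
  obtain ⟨q, hq⟩ := hdiv e he0 (by rw [he]; exact le_add_self)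
  apply inv_of (u := (i + 1) * (l + 1) * (l + 1) * d * q + 1)
    (v := (i + 1) * q * (e + (i + 1) * (l + 1) * d))
  · unfold md
    have : 0 < (l + 1) * d := mul_pos (lt_of_lt_of_le zero_lt_one le_add_self) hd
    exact lt_add_of_pos_right 1 this
  · unfold md
    rw [he, hq]
    ring

theorem crt_step {c D m h : M} (hh : h < m) (hi : Inv D m) : ∃ k, rm (c + k * D) m = h := by
  obtain ⟨u, v, huv⟩ := inv_elim hi
  have hm0 : 0 < m := lt_of_le_of_lt zero_le hh
  obtain ⟨m', hm'⟩ := le_iff_exists_add.1 (pos_iff_one_le.1 hm0)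
  refine ⟨u * (h + m' * c), ?_⟩
  apply rm_unique (q := c + (h + m' * c) * v) _ hh
  calc c + u * (h + m' * c) * D = c + (h + m' * c) * (u * D) := by ring
    _ = c + (h + m' * c) * (v * m + 1) := by rw [huv]
    _ = (c + (h + m' * c) * v) * m + h := by rw [hm']; ring

theorem divs_exist (B N : M) : ∃ d, B < d ∧ ∀ e, 0 < e → e ≤ N → ∃ q, d = e * q := by
  have key : ∀ n : M, ∃ d, B < d ∧ Ball n (fun e => Bex (d + 1) (fun q => d = (e + 1) * q)) := by
    apply Comp.induct1 (S := ∅) (Q := fun n d => B < d ∧ Ball n (fun e => Bex (d + 1)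
      (fun q => d = (e + 1) * q)))
    · fun_prop
    · exact ⟨B + 1, lt_add_one B, fun e he => absurd he (not_lt_zero' e)⟩
    · rintro x ⟨d, hd, hd2⟩
      refine ⟨d * (x + 1), ?_, ?_⟩
      · calc B < d := hd
          _ = d * 1 := by ring
          _ ≤ d * (x + 1) := by gcongr; exact le_add_self
      · intro e he
        rcases (lt_succ.1 he).lt_or_eq with h | h
        · obtain ⟨q, _, hq⟩ := hd2 e h
          refine ⟨q * (x + 1), ?_, by rw [hq]; ring⟩
          rw [lt_succ, hq]
          calc q * (x + 1) ≤ (e + 1) * (q * (x + 1)) := by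
                calc q * (x + 1) = 1 * (q * (x + 1)) := by ring
                  _ ≤ _ := by gcongr; exact le_add_self
            _ = _ := by ring
        · subst h
          refine ⟨d, ?_, by ring⟩
          rw [lt_succ]
          calc d = d * 1 := by ring
            _ ≤ _ := by gcongr; exact le_add_self
  obtain ⟨d, hd, hd2⟩ := key N
  refine ⟨d, hd, fun e he heN => ?_⟩
  obtain ⟨e', he'⟩ := le_iff_exists_add.1 (pos_iff_one_le.1 he)
  obtain ⟨q, _, hq⟩ := hd2 e' (by
    rw [← succ_le]; rw [add_comm, ← he']; exact heN)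
  exact ⟨q, by rw [he', add_comm 1 e']; exact hq⟩

section
variable {S : Set (Set M)} [IndS S]

theorem Comp.bounded {h : M → M} (hh : Comp S h) (N : M) : ∃ B, ∀ i < N, h i < B := by
  have := Comp.induct1 (S := S) (Q := fun n B => Ball n (fun i => h i < B)) (by fun_prop)
    ⟨0, fun i hi => absurd hi (not_lt_zero' i)⟩ (by
      rintro x ⟨B, hB⟩
      refine ⟨max B (h x + 1), fun i hi => ?_⟩
      rcases (lt_succ.1 hi).lt_or_eq with h1 | h1
      · exact lt_of_lt_of_le (hB i h1) (le_max_left _ _)
      · subst h1; exact lt_of_lt_of_le (lt_add_one _) (le_max_right _ _)) N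
  exact this

theorem beta_exists {h : M → M} (hh : Comp S h) (N : M) : ∃ c d, ∀ i < N, be c d i = h i := by
  obtain ⟨B, hB⟩ := hh.bounded N
  obtain ⟨d, hd1, hd2⟩ := divs_exist B N
  have hd0 : 0 < d := lt_of_le_of_lt zero_le hd1
  have hmd : ∀ i, 1 < md d i := fun i => by
    unfold md
    exact lt_add_of_pos_right 1 (mul_pos (lt_of_lt_of_le zero_lt_one le_add_self) hd0)
  have hlt : ∀ i < N, h i < md d i := by
    intro i hi
    calc h i < B := hB i hi
      _ ≤ d := hd1.le
      _ = 1 * d := by ring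
      _ ≤ (i + 1) * d := by gcongr; exact le_add_self
      _ ≤ _ := le_add_self
  have key := Comp.induct1 (S := S) (Q := fun n w => n ≤ N →
      (Ball n (fun j => rm (fs w) (md d j) = 0)) ∧ (Ball n (fun j => be (sn w) d j = h j)) ∧
      Ball N (fun l => l < n ∨ Inv (fs w) (md d l))) (by
        refine Comp.imp (by fun_prop) ?_
        unfold Inv
        fun_prop)
    ⟨pr 1 0, fun _ => ⟨fun i hi => absurd hi (not_lt_zero' i), fun i hi => absurd hi (not_lt_zero' i),
      fun l _ => Or.inr (by
        rw [fs_pr]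
        exact inv_of (u := 1) (v := 0) (hmd l) (by ring))⟩⟩ (by
      rintro x ⟨w, hw⟩
      by_cases hx : x + 1 ≤ N
      · obtain ⟨h1, h2, h3⟩ := hw (le_trans le_self_add hx)
        have hxN : x < N := succ_le.1 hx
        obtain ⟨k, hk⟩ := crt_step (c := sn w) (hlt x hxN)
          ((h3 x hxN).resolve_left (lt_irrefl x))
        refine ⟨pr (fs w * md d x) (sn w + k * fs w), fun _ => ?_⟩
        rw [fs_pr, sn_pr]
        have hdiv : ∀ j < x, fs w = dv (fs w) (md d j) * md d j := fun j hj => by
          conv_lhs => rw [dv_rm (fs w) (md d j), h1 j hj, add_zero]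
        refine ⟨fun j hj => ?_, fun j hj => ?_, fun l hl => ?_⟩
        · rcases (lt_succ.1 hj).lt_or_eq with h4 | h4
          · apply rm_unique (q := dv (fs w) (md d j) * md d x) _ (md_pos d j)
            conv_lhs => rw [hdiv j h4]
            ring
          · subst h4
            exact rm_unique (q := fs w) (by ring) (md_pos d j)
        · rcases (lt_succ.1 hj).lt_or_eq with h4 | h4
          · rw [← h2 j h4]
            unfold be
            conv_lhs => rw [hdiv j h4, ← mul_assoc]
            exact rm_add_mul _ _ _ (md_pos d j)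
          · subst h4
            exact hk
        · by_cases hl2 : l < x + 1
          · exact Or.inl hl2
          · right
            have hl3 : x < l := succ_le.1 (not_lt.1 hl2)
            apply inv_mul (hmd l)
            · exact (h3 l hl).resolve_left (not_lt.2 hl3.le)
            · exact inv_md hd0 hl3 (fun e he hel => hd2 e he (hel.trans hl.le))
      · exact ⟨0, fun h' => absurd h' hx⟩) N
  obtain ⟨w, hw⟩ := key
  obtain ⟨_, h2, _⟩ := hw le_rfl
  exact ⟨sn w, d, h2⟩

/-! ### Primitive recursion -/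

def GoodRec (g : M) (k : M → M → M) (n w : M) : Prop :=
  be (fs w) (sn w) 0 = g ∧
    Ball n (fun i => be (fs w) (sn w) (i + 1) = k i (be (fs w) (sn w) i))

noncomputable def prec (g : M) (k : M → M → M) (n : M) : M :=
  be (fs (mu (GoodRec g k n))) (sn (mu (GoodRec g k n))) n

theorem goodRec_ex {g : M} {k : M → M → M} (hk : Comp S (fun z : M × M => k z.1 z.2)) (n : M) :
    ∃ w, GoodRec g k n w := by
  revert n
  apply Comp.induct1 (S := S) (Q := fun n w => GoodRec g k n w)
  · unfold GoodRec
    have : Comp S (fun z : (M × M) × M => k z.2 (be (fs z.1.2) (sn z.1.2) z.2)) :=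
      Comp.app2 hk (by fun_prop) (by fun_prop)
    fun_prop
  · obtain ⟨c, d, h⟩ := beta_exists (S := S) (h := fun _ => g) (by fun_prop) 1
    refine ⟨pr c d, ?_, fun i hi => absurd hi (not_lt_zero' i)⟩
    rw [fs_pr, sn_pr]
    exact h 0 zero_lt_one
  · rintro x ⟨w, hw1, hw2⟩
    have hc : Comp S (fun i => Ite (i ≤ x) (be (fs w) (sn w) i) (k x (be (fs w) (sn w) x))) := by
      have : Comp S (fun _ : M => k x (be (fs w) (sn w) x)) := Comp.const _
      fun_prop
    obtain ⟨c, d, h⟩ := beta_exists (S := S) hc (x + 1 + 1)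
    have h1 : ∀ i ≤ x, be c d i = be (fs w) (sn w) i := fun i hi => by
      rw [h i (lt_succ.2 (hi.trans le_self_add)), Ite_pos hi]
    have h2 : be c d (x + 1) = k x (be (fs w) (sn w) x) := by
      rw [h (x + 1) (lt_add_one _), Ite_neg (not_le.2 (lt_add_one x))]
    refine ⟨pr c d, ?_, ?_⟩
    · rw [fs_pr, sn_pr, h1 0 zero_le, hw1]
    · intro i hi
      rw [fs_pr, sn_pr]
      rcases (lt_succ.1 hi).lt_or_eq with h3 | h3
      · rw [h1 (i + 1) (succ_le.2 h3), h1 i h3.le]
        exact hw2 i h3
      · subst h3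
        rw [h2, h1 i le_rfl]

theorem goodRec_comp {g : M} {k : M → M → M} (hk : Comp S (fun z : M × M => k z.1 z.2)) (n : M) :
    Comp S (GoodRec g k n) := by
  unfold GoodRec
  have : Comp S (fun z : M × M => k z.2 (be (fs z.1) (sn z.1) z.2)) :=
    Comp.app2 hk (by fun_prop) (by fun_prop)
  fun_prop

theorem prec_zero {g : M} {k : M → M → M} (hk : Comp S (fun z : M × M => k z.1 z.2)) :
    prec g k 0 = g :=
  (mu_spec (goodRec_comp hk 0) (goodRec_ex hk 0)).1

theorem prec_succ {g : M} {k : M → M → M} (hk : Comp S (fun z : M × M => k z.1 z.2)) (n : M) :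
    prec g k (n + 1) = k n (prec g k n) := by
  have h1 := mu_spec (goodRec_comp (g := g) hk n) (goodRec_ex hk n)
  have h2 := mu_spec (goodRec_comp (g := g) hk (n + 1)) (goodRec_ex hk (n + 1))
  unfold prec
  set w := mu (GoodRec g k n)
  set w' := mu (GoodRec g k (n + 1))
  rw [h2.2 n (lt_add_one n)]
  have key : ∀ i : M, i ≤ n → be (fs w) (sn w) i = be (fs w') (sn w') i := by
    intro i
    refine Comp.induct (S := ∅) ?_ ?_ ?_ i
    · exact Comp.imp (by fun_prop) (by fun_prop)
    · intro _; rw [h1.1, h2.1]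
    · intro x ih hx
      have hx' : x < n := succ_le.1 hx
      rw [h1.2 x hx', h2.2 x (lt_trans hx' (lt_add_one n)), ih hx'.le]
  rw [key n le_rfl]

theorem prec_unique {g : M} {k : M → M → M} (hk : Comp S (fun z : M × M => k z.1 z.2))
    {f : M → M} (hf : Comp S f) (h0 : f 0 = g) (hs : ∀ n, f (n + 1) = k n (f n)) (n : M) :
    f n = prec g k n := by
  have hp : Comp S (fun n => prec g k n) := by
    unfold prec
    have : Comp S (fun z : (M × M) × M => k z.2 (be (fs z.1.2) (sn z.1.2) z.2)) :=
      Comp.app2 hk (by fun_prop) (by fun_prop)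
    have h1 : Comp S (fun n => mu (GoodRec g k n)) :=
      Comp.mu (P := fun n w => GoodRec g k n w) (by unfold GoodRec; fun_prop)
        (fun n => goodRec_ex hk n)
    fun_prop
  refine Comp.induct (S := S) ?_ ?_ ?_ n
  · fun_prop
  · rw [h0, prec_zero hk]
  · intro x hx
    rw [hs, hx, prec_succ hk]

@[fun_prop] protected theorem Comp.prec {α : Type v} [Cod M α] {g n : α → M} {k : α → M → M → M}
    (hg : Comp S g) (hk : Comp S (fun z : α × M × M => k z.1 z.2.1 z.2.2)) (hn : Comp S n) :
    Comp S (fun x => prec (g x) (k x) (n x)) := by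
  have h1 : Comp S (fun x => h915.mu (GoodRec (g x) (k x) (n x))) := by
    refine Comp.mu (P := fun x w => GoodRec (g x) (k x) (n x) w) ?_ (fun x => ?_)
    · unfold GoodRec
      have : Comp S (fun z : (α × M) × M =>
          k z.1.1 z.2 (h915.be (h915.fs z.1.2) (h915.sn z.1.2) z.2)) :=
        Comp.comp (f := fun z : α × M × M => k z.1 z.2.1 z.2.2) (g := fun z : (α × M) × M =>
          (z.1.1, z.2, h915.be (h915.fs z.1.2) (h915.sn z.1.2) z.2)) hk (by fun_prop)
      fun_prop
    · exact goodRec_ex (S := S) (Comp.comp (f := fun z : α × M × M => k z.1 z.2.1 z.2.2)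
        (g := fun z : M × M => (x, z)) hk (by fun_prop)) (n x)
  unfold h915.prec
  fun_prop

end

end Run7.h915
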