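import Pool.Agent.Run7.h915.Comp

/-!
# Formulas versus the calculus of computable functions
-/

set_option linter.unusedSectionVars false

namespace Run7.h915

universe u v w

variable {M : Type u} [CommSemiring M] [LinearOrder M] [IsStrictOrderedRing M]
  [CanonicallyOrderedAdd M] [Disc M]

variable {S : Set (Set M)}

theorem IndS.mono {S S' : Set (Set M)} (h : S ⊆ S') [hS : IndS S'] : IndS S :=
  ⟨fun φ v hφ => hS.ind φ v (BFml.SetsIn.mono h φ hφ)⟩

theorem Comp.oracle {B : Set M} (hB : B ∈ S) : Comp S (fun x : M => x ∈ B) :=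
  CompI.oracle B hB

theorem Tm.comp (t : Tm M) (F : M → ℕ → M) (hF : ∀ i, Comp S (fun z => F z i)) :
    Comp S (fun z => t.val (F z)) := by
  induction t with
  | var i => exact hF i
  | const c => exact Comp.const c
  | add s t hs ht => exact hs.add ht
  | mul s t hs ht => exact hs.mul ht

theorem BFml.comp [IndS S] (φ : BFml M) : φ.SetsIn S → ∀ (F : M → ℕ → M),
    (∀ i, Comp S (fun z => F z i)) → Comp S (fun z => φ.Holds (F z)) := by
  induction φ with
  | eq s t => intro _ F hF; exact (s.comp F hF).eq (t.comp F hF)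
  | lt s t => intro _ F hF; exact (s.comp F hF).lt (t.comp F hF)
  | mem t A =>
    intro hA F hF
    exact Comp.comp (f := fun x => x ∈ A) (Comp.oracle hA) (t.comp F hF)
  | neg φ ih => intro h F hF; exact (ih h F hF).not
  | and φ ψ ih1 ih2 => intro h F hF; exact (ih1 h.1 F hF).and (ih2 h.2 F hF)
  | ball t φ ih =>
    intro h F hF
    have h1 : Comp S (fun z => Ball (t.val (F z)) (fun a => φ.Holds (cons a (F z)))) := by
      refine Comp.ball (t.comp F hF) ?_
      have h2 := ih h (fun z => cons (sn z) (F (fs z))) (fun i => by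
        cases i with
        | zero => exact Comp.sn Comp.id
        | succ n => exact (hF n).comp (Comp.fs Comp.id))
      have h3 : Comp S (fun z : M × M => (fun z : M => φ.Holds (cons (sn z) (F (fs z)))) (pr z.1 z.2)) :=
        h2.comp (by fun_prop)
      simpa only [fs_pr, sn_pr] using h3
    exact h1

theorem Comp.of_re {α : Type v} [Cod M α] [IndS S] {P : α → Prop} {Q R : α → M → Prop}
    (hQ : Comp S (fun z : α × M => Q z.1 z.2)) (hR : Comp S (fun z : α × M => R z.1 z.2))
    (h1 : ∀ x, P x ↔ ∃ w, Q x w) (h2 : ∀ x, ¬ P x ↔ ∃ w, R x w) : Comp S P := by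
  have h3 : Comp S (fun x => h915.mu (fun w => Q x w ∨ R x w)) := by
    refine Comp.mu (P := fun x w => Q x w ∨ R x w) (hQ.or hR) (fun x => ?_)
    by_cases h : P x
    · obtain ⟨w, hw⟩ := (h1 x).1 h
      exact ⟨w, Or.inl hw⟩
    · obtain ⟨w, hw⟩ := (h2 x).1 h
      exact ⟨w, Or.inr hw⟩
  have h4 : Comp S (fun x => Q x (h915.mu (fun w => Q x w ∨ R x w))) :=
    Comp.comp hQ (Comp.mk Comp.id h3)
  refine h4.congrP (fun x => ?_)
  constructor
  · intro h
    exact (h1 x).2 ⟨_, h⟩
  · intro h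
    have h5 : Comp S (fun w => Q x w ∨ R x w) := by
      have : Comp S (fun w : M => (fun z : α × M => Q z.1 z.2 ∨ R z.1 z.2) (x, w)) :=
        Comp.comp (hQ.or hR) (by fun_prop)
      exact this
    obtain ⟨w, hw⟩ := (h1 x).1 h
    rcases mu_spec h5 ⟨w, Or.inl hw⟩ with h6 | h6
    · exact h6
    · exact absurd h ((h2 x).2 ⟨_, h6⟩)

/-- A computable predicate is defined by a `Σ^0_1` formula. -/
theorem Comp.sigma [IndS S] {P : M → Prop} (hP : Comp S P) :
    ∃ φ : BFml M, φ.SetsIn S ∧ sigmaSet φ (fun _ => 0) = {x | P x} := by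
  obtain ⟨Q, ⟨φ, h1, h2⟩, h3⟩ := hP.sg1
  refine ⟨φ, h1, ?_⟩
  ext x
  show (∃ w, φ.Holds (cons w (cons x fun _ => 0))) ↔ P x
  rw [show P x ↔ _ from h3 (cons x fun _ => 0)]
  exact exists_congr fun w => h2 _

theorem turingLE_iff {X Y : Set M} [IndS ({Y} : Set (Set M))] :
    TuringLE X Y ↔ Comp {Y} (fun x => x ∈ X) := by
  constructor
  · rintro ⟨φ, ψ, v, hφ, hψ, h1, h2⟩
    have key : ∀ θ : BFml M, θ.SetsIn {Y} →
        Comp {Y} (fun z : M × M => θ.Holds (cons z.2 (cons z.1 v))) := by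
      intro θ hθ
      have h3 := θ.comp hθ (fun z => cons (sn z) (cons (fs z) v)) (fun i => by
        rcases i with _ | _ | n
        · exact Comp.sn Comp.id
        · exact Comp.fs Comp.id
        · exact Comp.const _)
      have h4 : Comp {Y} (fun z : M × M =>
          (fun z : M => θ.Holds (cons (sn z) (cons (fs z) v))) (pr z.1 z.2)) :=
        h3.comp (by fun_prop)
      simpa only [fs_pr, sn_pr] using h4
    exact Comp.of_re (Q := fun x w => φ.Holds (cons w (cons x v)))
      (R := fun x w => ψ.Holds (cons w (cons x v))) (key φ hφ) (key ψ hψ) h1 h2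
  · intro h
    obtain ⟨φ, hφ, h1⟩ := h.sigma
    obtain ⟨ψ, hψ, h2⟩ := h.not.sigma
    exact ⟨φ, ψ, _, hφ, hψ, fun x => by rw [h1]; rfl, fun x => by rw [h2]; rfl⟩

theorem Comp.comprehension [IndS S] (hS : DeltaOneComprehension S) {P : M → Prop}
    (hP : Comp S P) : {x | P x} ∈ S := by
  obtain ⟨φ, hφ, h1⟩ := hP.sigma
  obtain ⟨ψ, hψ, h2⟩ := hP.not.sigma
  rw [← h1]
  refine hS φ ψ _ hφ hψ (fun x => ?_)
  rw [h1, h2]
  show P x ↔ ¬ ¬ P x
  exact not_not.symm

end Run7.h915
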