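import Pool.Agent.Run7.h915.Sacks

/-!
# The approximating chains and the tree
-/

set_option linter.unusedSectionVars false

namespace Run7.h915

universe u v w

variable {M : Type u} [CommSemiring M] [LinearOrder M] [IsStrictOrderedRing M]
  [CanonicallyOrderedAdd M] [Disc M] [IS1 M]

/-- The initial segment of `X` of length `n`. -/
noncomputable def xs (X : Set M) (n : M) : M := str (fun i => i ∈ X) n

/-- The dense-or-not conditions. -/
def DD (X : Set M) (j τ : M) : Prop :=
  (fs j = 0 ∧ Bex (len τ) (fun n => ev (sn j) τ n = chi (¬ n ∈ X))) ∨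
  (fs j ≠ 0 ∧ Bex (len τ) (fun n => ev (sn j) (xs X (len τ)) n = chi (bit τ n = 0)))

/-- `τ` is an extension of `σ` of length `t` which meets the condition `j`. -/
def Ext (X : Set M) (σ j t τ : M) : Prop := 0 < τ ∧ len τ = t ∧ pre σ τ ∧ DD X j τ

def Hit (X : Set M) (σ j t : M) : Prop := Bex (exp2 (t + 1)) (fun τ => Ext X σ j t τ)

/-- The least length `≤ s` of an extension meeting the condition, or `s + 1`. -/
noncomputable def T0 (X : Set M) (s σ j : M) : M := mu (fun t => Hit X σ j t ∨ s < t)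

noncomputable def tau0 (X : Set M) (σ j t : M) : M :=
  mu (fun τ => Ext X σ j t τ ∨ exp2 (t + 1) ≤ τ)

def Act (X : Set M) (e s k σ : M) : Prop :=
  ¬ DD X (fs k) σ ∧ T0 X s σ (fs k) ≤ s ∧
    cK e (xs X k) (T0 X s σ (fs k)) * exp2 (pr e (fs k) + 2) ≤ exp2 (T0 X s σ (fs k))

noncomputable def step (X : Set M) (e s k σ : M) : M :=
  Ite (Act X e s k σ) (2 * tau0 X σ (fs k) (T0 X s σ (fs k))) (2 * σ)

noncomputable def chain (X : Set M) (e s k : M) : M := prec 1 (fun k σ => step X e s k σ) k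

section
variable {S : Set (Set M)} [IndS S] {α : Type v} [Cod M α] {X : Set M}
  (hX : Comp S (fun i : M => i ∈ X)) {f g h k l : α → M}
include hX

@[fun_prop] protected theorem Comp.xs (hf : Comp S f) : Comp S (fun x => xs X (f x)) := by
  unfold h915.xs; fun_prop

@[fun_prop] protected theorem Comp.DD (hf : Comp S f) (hg : Comp S g) :
    Comp S (fun x => DD X (f x) (g x)) := by
  unfold h915.DD; fun_prop

@[fun_prop] protected theorem Comp.Ext (hf : Comp S f) (hg : Comp S g) (hh : Comp S h)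
    (hk : Comp S k) : Comp S (fun x => Ext X (f x) (g x) (h x) (k x)) := by
  unfold h915.Ext; fun_prop

@[fun_prop] protected theorem Comp.Hit (hf : Comp S f) (hg : Comp S g) (hh : Comp S h) :
    Comp S (fun x => Hit X (f x) (g x) (h x)) := by
  unfold h915.Hit; fun_prop

@[fun_prop] protected theorem Comp.T0 (hf : Comp S f) (hg : Comp S g) (hh : Comp S h) :
    Comp S (fun x => T0 X (f x) (g x) (h x)) := by
  unfold h915.T0
  exact Comp.mu (P := fun x t => h915.Hit X (g x) (h x) t ∨ f x < t) (by fun_prop)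
    (fun x => ⟨f x + 1, Or.inr (lt_add_one _)⟩)

@[fun_prop] protected theorem Comp.tau0 (hf : Comp S f) (hg : Comp S g) (hh : Comp S h) :
    Comp S (fun x => tau0 X (f x) (g x) (h x)) := by
  unfold h915.tau0
  exact Comp.mu (P := fun x τ => h915.Ext X (f x) (g x) (h x) τ ∨ h915.exp2 (h x + 1) ≤ τ)
    (by fun_prop) (fun x => ⟨_, Or.inr le_rfl⟩)

@[fun_prop] protected theorem Comp.Act (hf : Comp S f) (hg : Comp S g) (hh : Comp S h)
    (hk : Comp S k) : Comp S (fun x => Act X (f x) (g x) (h x) (k x)) := by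
  unfold h915.Act; fun_prop

@[fun_prop] protected theorem Comp.step (hf : Comp S f) (hg : Comp S g) (hh : Comp S h)
    (hk : Comp S k) : Comp S (fun x => step X (f x) (g x) (h x) (k x)) := by
  unfold h915.step; fun_prop

@[fun_prop] protected theorem Comp.chain (hf : Comp S f) (hg : Comp S g) (hh : Comp S h) :
    Comp S (fun x => chain X (f x) (g x) (h x)) := by
  unfold h915.chain
  exact Comp.prec (k := fun x k σ => h915.step X (f x) (g x) k σ) (by fun_prop) (by fun_prop) hh

end

section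
variable {S : Set (Set M)} [IndS S] {X : Set M} (hX : Comp S (fun i : M => i ∈ X))

theorem DD.mono {j τ τ' : M} (hX : Comp S (fun i : M => i ∈ X)) (hτ' : 0 < τ') (h : pre τ τ')
    (hd : DD X j τ) : DD X j τ' := by
  rcases hd with ⟨h1, n, hn, h2⟩ | ⟨h1, n, hn, h2⟩
  · left
    refine ⟨h1, n, lt_of_lt_of_le hn h.1, ?_⟩
    show ev (sn j) τ' n = chi (¬ n ∈ X)
    have h3 : ev (sn j) τ n = chi (¬ n ∈ X) := h2
    rw [ev_mono hτ' h (by rw [h3]; exact chi_lt_two hX _), h3]
  · right
    refine ⟨h1, n, lt_of_lt_of_le hn h.1, ?_⟩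
    show ev (sn j) (xs X (len τ')) n = chi (bit τ' n = 0)
    have h3 : ev (sn j) (xs X (len τ)) n = chi (bit τ n = 0) := h2
    have h4 : ev (sn j) (xs X (len τ')) n = ev (sn j) (xs X (len τ)) n :=
      ev_mono (s := xs X (len τ)) (t := xs X (len τ')) (str_pos hX _) (pre_str hX h.1)
        (by rw [h3]; exact chi_lt_two hX _)
    rw [h4, h3, pre_bit hτ' h hn]

theorem Hit_iff {σ j t : M} : Hit X σ j t ↔ ∃ τ, Ext X σ j t τ := by
  constructor
  · rintro ⟨τ, _, h⟩; exact ⟨τ, h⟩
  · rintro ⟨τ, h⟩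
    refine ⟨τ, ?_, h⟩
    have := lt_exp2_len τ
    rwa [h.2.1] at this

include hX

theorem T0_spec (s σ j : M) : (Hit X σ j (T0 X s σ j) ∧ T0 X s σ j ≤ s) ∨ s < T0 X s σ j := by
  have hc : Comp S (fun t => Hit X σ j t ∨ s < t) := by fun_prop
  have h : Hit X σ j (T0 X s σ j) ∨ s < T0 X s σ j :=
    mu_spec hc ⟨s + 1, Or.inr (lt_add_one s)⟩
  rcases lt_or_ge s (T0 X s σ j) with h1 | h1
  · exact Or.inr h1
  · exact Or.inl ⟨h.resolve_right (not_lt.2 h1), h1⟩

theorem T0_min {s σ j t : M} (h : Hit X σ j t) : T0 X s σ j ≤ t := by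
  have hc : Comp S (fun t => Hit X σ j t ∨ s < t) := by fun_prop
  exact mu_min hc (Or.inl h)

theorem T0_eq {s s' σ j : M} (hs : s' ≤ s) (h : T0 X s' σ j ≤ s') : T0 X s σ j = T0 X s' σ j := by
  rcases T0_spec hX s' σ j with ⟨h1, _⟩ | h1
  · refine mu_eq (P := fun t => Hit X σ j t ∨ s < t) (Or.inl h1) ?_
    intro y hy h2
    rcases h2 with h2 | h2
    · exact absurd (T0_min hX (s := s') h2) (not_le.2 hy)
    · exact absurd (lt_trans h2 hy) (not_lt.2 (h.trans hs))
  · exact absurd h (not_le.2 h1)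

theorem T0_gt {s s' σ j : M} (hs : s' ≤ s) (h : s' < T0 X s' σ j) : s' < T0 X s σ j := by
  by_contra h1
  rw [not_lt] at h1
  rcases T0_spec hX s σ j with ⟨h2, _⟩ | h2
  · exact absurd (T0_min hX (s := s') h2) (not_le.2 (lt_of_le_of_lt h1 h))
  · exact absurd (lt_of_le_of_lt hs h2) (not_lt.2 h1)

theorem tau0_spec {σ j t : M} (h : Hit X σ j t) : Ext X σ j t (tau0 X σ j t) := by
  have hc : Comp S (fun τ => Ext X σ j t τ ∨ exp2 (t + 1) ≤ τ) := by fun_prop
  obtain ⟨τ, hτ, hτ2⟩ := h
  have h1 : Ext X σ j t (tau0 X σ j t) ∨ exp2 (t + 1) ≤ tau0 X σ j t :=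
    mu_spec hc ⟨τ, Or.inl hτ2⟩
  have h2 : tau0 X σ j t ≤ τ := mu_min hc (Or.inl hτ2)
  exact h1.resolve_right (not_le.2 (lt_of_le_of_lt h2 hτ))

theorem Act.ext {e s k σ : M} (h : Act X e s k σ) :
    Ext X σ (fs k) (T0 X s σ (fs k)) (tau0 X σ (fs k) (T0 X s σ (fs k))) := by
  rcases T0_spec hX s σ (fs k) with ⟨h1, _⟩ | h1
  · exact tau0_spec hX h1
  · exact absurd h.2.1 (not_le.2 h1)

theorem step_prop {e s k σ : M} (hσ : 0 < σ) :
    0 < step X e s k σ ∧ pre σ (step X e s k σ) ∧ len σ + 1 ≤ len (step X e s k σ) := by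
  unfold step
  have two (y : M) (hy : 0 < y) : 0 < 2 * y ∧ pre y (2 * y) ∧ len (2 * y) = len y + 1 := by
    have h1 := pre_two_mul hy (b := 0) two_pos
    have h2 := len_two_mul hy (b := 0) two_pos
    rw [add_zero] at h1 h2
    exact ⟨mul_pos two_pos hy, h1, h2⟩
  by_cases h : Act X e s k σ
  · rw [Ite_pos h]
    obtain ⟨h1, h2, h3, _⟩ := h.ext hX
    obtain ⟨h4, h5, h6⟩ := two _ h1
    refine ⟨h4, pre_trans h4 h3 h5, ?_⟩
    rw [h6]
    gcongr
    exact h3.1
  · rw [Ite_neg h]
    obtain ⟨h4, h5, h6⟩ := two _ hσ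
    exact ⟨h4, h5, h6.ge⟩

theorem step_act {e s k σ : M} (h : Act X e s k σ) : DD X (fs k) (step X e s k σ) := by
  unfold step
  rw [Ite_pos h]
  obtain ⟨h1, h2, h3, h4⟩ := h.ext hX
  have h5 := pre_two_mul h1 (b := 0) two_pos
  rw [add_zero] at h5
  exact h4.mono hX (mul_pos two_pos h1) h5

theorem chain_zero (e s : M) : chain X e s 0 = 1 :=
  prec_zero (S := S) (k := fun k σ => step X e s k σ) (by fun_prop)

theorem chain_succ (e s k : M) : chain X e s (k + 1) = step X e s k (chain X e s k) :=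
  prec_succ (S := S) (k := fun k σ => step X e s k σ) (by fun_prop) k

theorem chain_pos (e s k : M) : 0 < chain X e s k := by
  refine Comp.induct (S := S) (by fun_prop) ?_ ?_ k
  · rw [chain_zero hX]; exact zero_lt_one
  · intro x hx; rw [chain_succ hX]; exact (step_prop hX hx).1

theorem chain_pre (e s k d : M) : pre (chain X e s k) (chain X e s (k + d)) := by
  refine Comp.induct (S := S) (by fun_prop) ?_ ?_ d
  · rw [add_zero]; exact pre_refl (chain_pos hX _ _ _)
  · intro x hx
    have h1 := step_prop hX (e := e) (s := s) (k := k + x) (chain_pos hX e s (k + x))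
    rw [← chain_succ hX, add_assoc] at h1
    exact pre_trans h1.1 hx h1.2.1

end

/-- The condition acted upon in the chain at step `k`. -/
def ACT (X : Set M) (e s k : M) : Prop := Act X e s k (chain X e s k)

noncomputable def tt (X : Set M) (e s k : M) : M := T0 X s (chain X e s k) (fs k)

/-- The first family of forbidden strings. -/
def BB (X : Set M) (s z : M) : Prop :=
  Bex s (fun e => Bex s (fun k => ACT X e s k ∧ KK e (res z (tt X e s k)) (xs X k)))

/-- The second family of forbidden strings. -/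
def CC (X : Set M) (s z : M) : Prop :=
  Bex s (fun r => r + 2 ≤ s ∧ KK r (xs X s) (res z (r + 2)))

/-- The tree. -/
def TT (X : Set M) (z : M) : Prop := 0 < z ∧ ¬ BB X (len z) z ∧ ¬ CC X (len z) z

section
variable {S : Set (Set M)} [IndS S] {α : Type v} [Cod M α] {X : Set M}
  (hX : Comp S (fun i : M => i ∈ X)) {f g h k l : α → M}
include hX

@[fun_prop] protected theorem Comp.ACT (hf : Comp S f) (hg : Comp S g) (hh : Comp S h) :
    Comp S (fun x => ACT X (f x) (g x) (h x)) := by
  unfold h915.ACT; fun_prop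

@[fun_prop] protected theorem Comp.tt (hf : Comp S f) (hg : Comp S g) (hh : Comp S h) :
    Comp S (fun x => tt X (f x) (g x) (h x)) := by
  unfold h915.tt; fun_prop

@[fun_prop] protected theorem Comp.BB (hf : Comp S f) (hg : Comp S g) :
    Comp S (fun x => BB X (f x) (g x)) := by
  unfold h915.BB; fun_prop

@[fun_prop] protected theorem Comp.CC (hf : Comp S f) (hg : Comp S g) :
    Comp S (fun x => CC X (f x) (g x)) := by
  unfold h915.CC; fun_prop

@[fun_prop] protected theorem Comp.TT (hf : Comp S f) :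
    Comp S (fun x => TT X (f x)) := by
  unfold h915.TT; fun_prop

end

section
variable {S : Set (Set M)} [IndS S] {X : Set M} (hX : Comp S (fun i : M => i ∈ X))
include hX

theorem step_congr {e s s' k σ : M} (hs : s' ≤ s) (h : T0 X s' σ (fs k) ≤ s') :
    (Act X e s k σ ↔ Act X e s' k σ) ∧ step X e s k σ = step X e s' k σ := by
  have h1 := T0_eq hX hs h
  have h2 : Act X e s k σ ↔ Act X e s' k σ := by
    unfold Act
    rw [h1]
    constructor
    · rintro ⟨h3, _, h5⟩; exact ⟨h3, h, h5⟩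
    · rintro ⟨h3, h4, h5⟩; exact ⟨h3, h4.trans hs, h5⟩
  refine ⟨h2, ?_⟩
  unfold step
  rw [h1, propext h2]

theorem chain_dich {e s s' : M} (hs : s' ≤ s) (k : M) :
    chain X e s k = chain X e s' k ∨ Bex k (fun k0 => ACT X e s k0 ∧ s' < tt X e s k0) := by
  refine Comp.induct (S := S) (by fun_prop) ?_ ?_ k
  · left; rw [chain_zero hX, chain_zero hX]
  · intro x hx
    rcases hx with hx | ⟨k0, hk0, h⟩
    · rw [chain_succ hX, chain_succ hX]
      by_cases h1 : T0 X s' (chain X e s' x) (fs x) ≤ s'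
      · left
        rw [hx]
        exact (step_congr hX hs h1).2
      · rw [not_le] at h1
        by_cases h2 : Act X e s x (chain X e s x)
        · right
          refine ⟨x, lt_add_one x, h2, ?_⟩
          show s' < T0 X s (chain X e s x) (fs x)
          rw [hx]
          exact T0_gt hX hs h1
        · left
          have h3 : ¬ Act X e s' x (chain X e s' x) := fun h4 => absurd h4.2.1 (not_le.2 h1)
          unfold step
          rw [Ite_neg h2, Ite_neg h3, hx]
    · exact Or.inr ⟨k0, lt_trans hk0 (lt_add_one x), h⟩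

theorem len_xs (n : M) : len (xs X n) = n := len_str hX n

theorem xs_pos (n : M) : 0 < xs X n := str_pos hX n

theorem pre_xs {m n : M} (h : m ≤ n) : pre (xs X m) (xs X n) := pre_str hX h

theorem BB_mono {z b : M} (hz : 0 < z) (hb : b < 2) (h : BB X (len z) z) :
    BB X (len z + 1) (2 * z + b) := by
  obtain ⟨e, he, k, hk, hact, hK⟩ := h
  set s' := len z with hs'
  have hz' : 0 < 2 * z + b := lt_of_lt_of_le (mul_pos two_pos hz) le_self_add
  have hl' : len (2 * z + b) = s' + 1 := len_two_mul hz hb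
  have ht : tt X e s' k ≤ s' := hact.2.1
  rcases chain_dich hX (e := e) (le_self_add : s' ≤ s' + 1) k with h1 | ⟨k0, hk0, h2, h3⟩
  · refine ⟨e, lt_trans he (lt_add_one _), k, lt_trans hk (lt_add_one _), ?_⟩
    have h4 : tt X e (s' + 1) k = tt X e s' k := by
      unfold tt
      rw [h1]
      exact T0_eq hX le_self_add ht
    have h5 : ACT X e (s' + 1) k := by
      unfold ACT
      rw [h1]
      exact (step_congr hX (e := e) (le_self_add : s' ≤ s' + 1) ht).1.2 hact
    refine ⟨h5, ?_⟩
    show KK e (res (2 * z + b) (tt X e (s' + 1) k)) (xs X k)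
    rw [h4, res_two_mul hz hb ht]
    exact hK
  · refine ⟨e, lt_trans he (lt_add_one _), k0, lt_trans (lt_trans hk0 hk) (lt_add_one _), h2, ?_⟩
    show KK e (res (2 * z + b) (tt X e (s' + 1) k0)) (xs X k0)
    have ht2 : tt X e (s' + 1) k0 ≤ s' + 1 := h2.2.1
    have h6 : KK e (res z (tt X e s' k)) (xs X k0) := hK.anti (xs_pos hX k) (pre_xs hX hk0.le)
    rw [← res_two_mul hz hb ht] at h6
    have h7 : pre (res (2 * z + b) (tt X e s' k)) (res (2 * z + b) (tt X e (s' + 1) k0)) := by
      apply pre_of_pre hz' (pre_res hz' (by rw [hl']; exact ht.trans le_self_add))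
        (pre_res hz' (by rw [hl']; exact ht2))
      rw [len_res hz' (by rw [hl']; exact ht.trans le_self_add),
        len_res hz' (by rw [hl']; exact ht2)]
      exact ht.trans h3.le
    exact h6.mono (res_pos hz' (by rw [hl']; exact ht2)) h7

theorem CC_mono {z b : M} (hz : 0 < z) (hb : b < 2) (h : CC X (len z) z) :
    CC X (len z + 1) (2 * z + b) := by
  obtain ⟨r, hr, hr2, hK⟩ := h
  refine ⟨r, lt_trans hr (lt_add_one _), hr2.trans le_self_add, ?_⟩
  show KK r (xs X (len z + 1)) (res (2 * z + b) (r + 2))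
  rw [res_two_mul hz hb hr2]
  exact hK.mono (xs_pos hX _) (pre_xs hX le_self_add)

theorem TT_tree : IsBinaryTree {z | TT X z} := by
  refine ⟨fun h => not_lt_zero' _ h.1, fun z hz h => ?_⟩
  have hz' := pos_iff_ne_zero.2 hz
  have main : ∀ b : M, b < 2 → TT X (2 * z + b) → TT X z := by
    rintro b hb ⟨_, h1, h2⟩
    rw [len_two_mul hz' hb] at h1 h2
    exact ⟨hz', fun h3 => h1 (BB_mono hX hz' hb h3), fun h3 => h2 (CC_mono hX hz' hb h3)⟩
  rcases h with h | h
  · apply main 0 two_pos
    rw [add_zero]; exact h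
  · exact main 1 one_lt_two h

end

end Run7.h915
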