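import Mathlib.Algebra.Order.Ring.Canonical
import Mathlib.Algebra.Ring.MinimalAxioms
import Mathlib.Tactic

/-!
# The ring of differences of a linearly ordered cancellative semiring

Used only to transfer arithmetical facts, so that ordered ring automation is available.
-/

set_option linter.unusedSectionVars false

namespace Run7.h915

universe u

variable (M : Type u) [CommSemiring M] [LinearOrder M] [IsStrictOrderedRing M]
  [CanonicallyOrderedAdd M]

def zrSetoid : Setoid (M × M) where
  r p q := p.1 + q.2 = q.1 + p.2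
  iseqv :=
    { refl := fun p => rfl
      symm := fun {p q} h => h.symm
      trans := fun {p q r} h1 h2 => by
        have : (p.1 + r.2) + (q.1 + q.2) = (r.1 + p.2) + (q.1 + q.2) := by
          calc (p.1 + r.2) + (q.1 + q.2) = (p.1 + q.2) + (q.1 + r.2) := by ring
            _ = (q.1 + p.2) + (r.1 + q.2) := by rw [h1, h2]
            _ = (r.1 + p.2) + (q.1 + q.2) := by ring
        exact add_right_cancel this }

/-- The ring of differences. -/
def ZR : Type u := Quotient (zrSetoid M)

variable {M}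

def ZR.mk (a b : M) : ZR M := Quotient.mk (zrSetoid M) (a, b)

theorem ZR.mk_eq {a b c d : M} : ZR.mk a b = ZR.mk c d ↔ a + d = c + b := by
  constructor
  · intro h
    exact Quotient.exact h
  · intro h
    exact Quotient.sound h

theorem ZR.ind' {p : ZR M → Prop} (h : ∀ a b, p (ZR.mk a b)) (x : ZR M) : p x :=
  Quotient.ind (fun ab => h ab.1 ab.2) x

instance : Zero (ZR M) := ⟨ZR.mk 0 0⟩
instance : One (ZR M) := ⟨ZR.mk 1 0⟩
instance : Add (ZR M) := ⟨Quotient.map₂ (fun p q => (p.1 + q.1, p.2 + q.2)) (by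
  rintro ⟨a, b⟩ ⟨a', b'⟩ h ⟨c, d⟩ ⟨c', d'⟩ h'
  change a + b' = a' + b at h
  change c + d' = c' + d at h'
  change (a + c) + (b' + d') = (a' + c') + (b + d)
  linear_combination h + h')⟩
instance : Neg (ZR M) := ⟨Quotient.map (fun p => (p.2, p.1)) (by
  rintro ⟨a, b⟩ ⟨a', b'⟩ h
  change a + b' = a' + b at h
  change b + a' = b' + a
  linear_combination h.symm)⟩
instance : Mul (ZR M) := ⟨Quotient.map₂ (fun p q => (p.1 * q.1 + p.2 * q.2, p.1 * q.2 + p.2 * q.1)) (by
  rintro ⟨a, b⟩ ⟨a', b'⟩ h ⟨c, d⟩ ⟨c', d'⟩ h'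
  change a + b' = a' + b at h
  change c + d' = c' + d at h'
  change (a * c + b * d) + (a' * d' + b' * c') = (a' * c' + b' * d') + (a * d + b * c)
  have e1 : (a * c + b * d) + (a' * d' + b' * c') + (b' * c + a' * d) =
    (a' * c' + b' * d') + (a * d + b * c) + (b' * c + a' * d) := by
    calc (a * c + b * d) + (a' * d' + b' * c') + (b' * c + a' * d)
        = (a + b') * c + (a' + b) * d + (a' * d' + b' * c') := by ring
      _ = (a' + b) * c + (a + b') * d + (a' * d' + b' * c') := by rw [h]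
      _ = a' * (c + d') + b' * (c' + d) + (a * d + b * c) := by ring
      _ = a' * (c' + d) + b' * (c + d') + (a * d + b * c) := by rw [h']
      _ = (a' * c' + b' * d') + (a * d + b * c) + (b' * c + a' * d) := by ring
  exact add_right_cancel e1)⟩

theorem ZR.mk_add (a b c d : M) : ZR.mk a b + ZR.mk c d = ZR.mk (a + c) (b + d) := rfl
theorem ZR.mk_mul (a b c d : M) : ZR.mk a b * ZR.mk c d = ZR.mk (a * c + b * d) (a * d + b * c) := rfl
theorem ZR.neg_mk (a b : M) : - ZR.mk a b = ZR.mk b a := rfl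
theorem ZR.zero_def : (0 : ZR M) = ZR.mk 0 0 := rfl
theorem ZR.one_def : (1 : ZR M) = ZR.mk 1 0 := rfl

instance : CommRing (ZR M) := CommRing.ofMinimalAxioms
  (by
    refine ZR.ind' fun a b => ZR.ind' fun c d => ZR.ind' fun e f => ?_
    simp only [ZR.mk_add, ZR.mk_eq]; ring)
  (by
    refine ZR.ind' fun a b => ?_
    rw [ZR.zero_def, ZR.mk_add, ZR.mk_eq]; ring)
  (by
    refine ZR.ind' fun a b => ?_
    rw [ZR.neg_mk, ZR.mk_add, ZR.zero_def, ZR.mk_eq]; ring)
  (by
    refine ZR.ind' fun a b => ZR.ind' fun c d => ZR.ind' fun e f => ?_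
    simp only [ZR.mk_mul, ZR.mk_eq]; ring)
  (by
    refine ZR.ind' fun a b => ZR.ind' fun c d => ?_
    simp only [ZR.mk_mul, ZR.mk_eq]; ring)
  (by
    refine ZR.ind' fun a b => ?_
    rw [ZR.one_def, ZR.mk_mul, ZR.mk_eq]; ring)
  (by
    refine ZR.ind' fun a b => ZR.ind' fun c d => ZR.ind' fun e f => ?_
    simp only [ZR.mk_mul, ZR.mk_add, ZR.mk_eq]; ring)

instance : LE (ZR M) := ⟨Quotient.lift₂ (fun p q => p.1 + q.2 ≤ q.1 + p.2) (by
  rintro ⟨a, b⟩ ⟨c, d⟩ ⟨a', b'⟩ ⟨c', d'⟩ h h'
  change a + b' = a' + b at h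
  change c + d' = c' + d at h'
  apply propext
  change a + d ≤ c + b ↔ a' + d' ≤ c' + b'
  have e1 : (a + d) + (b' + d') = (a' + d') + (b + d) := by linear_combination h
  have e2 : (c + b) + (b' + d') = (c' + b') + (b + d) := by linear_combination h'
  constructor
  · intro hh
    have := add_le_add_left hh (b' + d')
    rw [e1, e2] at this
    exact le_of_add_le_add_right this
  · intro hh
    have := add_le_add_left hh (b + d)
    rw [← e1, ← e2] at this
    exact le_of_add_le_add_right this)⟩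

theorem ZR.mk_le {a b c d : M} : ZR.mk a b ≤ ZR.mk c d ↔ a + d ≤ c + b := Iff.rfl

noncomputable instance : LinearOrder (ZR M) where
  le_refl := by
    refine ZR.ind' fun a b => ?_
    rw [ZR.mk_le]
  le_trans := by
    refine ZR.ind' fun a b => ZR.ind' fun c d => ZR.ind' fun e f => ?_
    simp only [ZR.mk_le]
    intro h1 h2
    have : (a + f) + (c + d) ≤ (e + b) + (c + d) := by
      calc (a + f) + (c + d) = (a + d) + (c + f) := by ring
        _ ≤ (c + b) + (e + d) := add_le_add h1 h2
        _ = (e + b) + (c + d) := by ring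
    exact le_of_add_le_add_right this
  le_antisymm := by
    refine ZR.ind' fun a b => ZR.ind' fun c d => ?_
    simp only [ZR.mk_le, ZR.mk_eq]
    intro h1 h2
    exact le_antisymm h1 h2
  le_total := by
    refine ZR.ind' fun a b => ZR.ind' fun c d => ?_
    simp only [ZR.mk_le]
    exact le_total _ _
  toDecidableLE := Classical.decRel _

theorem ZR.mk_lt {a b c d : M} : ZR.mk a b < ZR.mk c d ↔ a + d < c + b := by
  rw [← not_le, ← not_le, ZR.mk_le]

instance : IsOrderedAddMonoid (ZR M) where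
  add_le_add_left := by
    refine ZR.ind' fun a b => ZR.ind' fun c d => ?_
    intro h
    refine ZR.ind' fun e f => ?_
    rw [ZR.mk_le] at h
    rw [ZR.mk_add, ZR.mk_add, ZR.mk_le]
    calc a + e + (d + f) = (a + d) + (e + f) := by ring
      _ ≤ (c + b) + (e + f) := by gcongr
      _ = _ := by ring

instance : Nontrivial (ZR M) := ⟨⟨0, 1, by
  rw [ZR.zero_def, ZR.one_def, Ne, ZR.mk_eq]; simp⟩⟩

instance : ZeroLEOneClass (ZR M) := ⟨by rw [ZR.zero_def, ZR.one_def, ZR.mk_le]; simp⟩

instance : IsStrictOrderedRing (ZR M) := IsStrictOrderedRing.of_mul_pos (by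
  refine ZR.ind' fun a b => ZR.ind' fun c d => ?_
  intro h1 h2
  rw [ZR.zero_def, ZR.mk_lt] at h1 h2
  rw [ZR.zero_def, ZR.mk_mul, ZR.mk_lt]
  simp only [zero_add, add_zero] at *
  obtain ⟨x, rfl⟩ := le_iff_exists_add.1 h1.le
  obtain ⟨y, rfl⟩ := le_iff_exists_add.1 h2.le
  have hx : 0 < x := by simpa using h1
  have hy : 0 < y := by simpa using h2
  have := mul_pos hx hy
  linear_combination this)

/-- The canonical embedding. -/
def iz : M →+* ZR M where
  toFun a := ZR.mk a 0
  map_zero' := rfl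
  map_one' := rfl
  map_add' a b := by rw [ZR.mk_add, add_zero]
  map_mul' a b := by rw [ZR.mk_mul]; simp

theorem iz_le {a b : M} : iz a ≤ iz b ↔ a ≤ b := by
  show ZR.mk a 0 ≤ ZR.mk b 0 ↔ _
  rw [ZR.mk_le]; simp

theorem iz_lt {a b : M} : iz a < iz b ↔ a < b := by
  rw [← not_le, ← not_le, iz_le]

theorem iz_inj {a b : M} : iz a = iz b ↔ a = b := by
  rw [le_antisymm_iff, le_antisymm_iff, iz_le, iz_le]

theorem iz_nonneg (a : M) : 0 ≤ iz a := by
  rw [← map_zero (iz (M := M)), iz_le]; exact zero_le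

end Run7.h915
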