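import Pool.Agent.Run7.h915.Sigma
import Pool.Agent.Run7.h915.Ring

/-!
# A calculus of computable functions on a model of `IΣ_1`
-/

set_option linter.unusedSectionVars false

namespace Run7.h915

universe u v w

variable {M : Type u} [CommSemiring M] [LinearOrder M] [IsStrictOrderedRing M]
  [CanonicallyOrderedAdd M] [Disc M]

/-! ### Pairing -/

def pr (x y : M) : M := (x + y) * (x + y) + x

theorem pos_iff_one_le {x : M} : 0 < x ↔ 1 ≤ x :=
  ⟨Disc.one_le x, fun h => lt_of_lt_of_le zero_lt_one h⟩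

theorem le_pr_left (x y : M) : x ≤ pr x y := by
  unfold pr; exact le_add_self

theorem le_mul_self' (y : M) : y ≤ y * y := by
  rcases eq_or_ne y 0 with h | h
  · subst h; simp
  · have := pos_iff_one_le.1 (pos_iff_ne_zero.2 h)
    calc y = y * 1 := by ring
      _ ≤ y * y := by gcongr

theorem le_pr_right (x y : M) : y ≤ pr x y := by
  unfold pr
  calc y ≤ y * y := le_mul_self' y
    _ ≤ (x + y) * (x + y) := by gcongr <;> exact le_add_self
    _ ≤ _ := le_self_add

theorem pr_aux {x y x' y' : M} (h : pr x y = pr x' y') (h2 : x + y < x' + y') : False := by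
  have h3 := succ_le.2 h2
  unfold pr at h
  simp only [← iz_le, ← iz_inj, map_add, map_mul, map_one] at *
  have := iz_nonneg x
  have := iz_nonneg y
  have := iz_nonneg x'
  have := iz_nonneg y'
  nlinarith

theorem pr_inj {x y x' y' : M} (h : pr x y = pr x' y') : x = x' ∧ y = y' := by
  rcases lt_trichotomy (x + y) (x' + y') with h1 | h1 | h1
  · exact (pr_aux h h1).elim
  · have hx : x = x' := by
      unfold pr at h
      rw [h1] at h
      exact add_left_cancel h
    subst hx
    exact ⟨rfl, add_left_cancel h1⟩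
  · exact (pr_aux h.symm h1).elim

open Classical in
noncomputable def fs (z : M) : M := if h : ∃ x y, pr x y = z then h.choose else 0

open Classical in
noncomputable def sn (z : M) : M := if h : ∃ y x, pr x y = z then h.choose else 0

@[simp] theorem fs_pr (x y : M) : fs (pr x y) = x := by
  have h : ∃ x' y', pr x' y' = pr x y := ⟨x, y, rfl⟩
  rw [fs, dif_pos h]
  obtain ⟨y', h'⟩ := h.choose_spec
  exact (pr_inj h').1

@[simp] theorem sn_pr (x y : M) : sn (pr x y) = y := by
  have h : ∃ y' x', pr x' y' = pr x y := ⟨y, x, rfl⟩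
  rw [sn, dif_pos h]
  obtain ⟨y', h'⟩ := h.choose_spec
  exact (pr_inj h').2

theorem fs_le (z : M) : fs z ≤ z := by
  by_cases h : ∃ x y, pr x y = z
  · obtain ⟨x, y, rfl⟩ := h
    rw [fs_pr]; exact le_pr_left x y
  · rw [fs, dif_neg h]; exact zero_le

theorem sn_le (z : M) : sn z ≤ z := by
  by_cases h : ∃ y x, pr x y = z
  · obtain ⟨y, x, rfl⟩ := h
    rw [sn_pr]; exact le_pr_right x y
  · rw [sn, dif_neg h]; exact zero_le

/-! ### Basic functions -/

open Classical in
noncomputable def chi (p : Prop) : M := if p then 1 else 0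

theorem chi_true {p : Prop} (h : p) : (chi p : M) = 1 := by unfold chi; rw [if_pos h]
theorem chi_false {p : Prop} (h : ¬ p) : (chi p : M) = 0 := by unfold chi; rw [if_neg h]
@[simp] theorem chi_True : (chi True : M) = 1 := chi_true trivial
@[simp] theorem chi_False : (chi False : M) = 0 := chi_false (fun h => h)
theorem chi_ne_zero {p : Prop} : (chi p : M) ≠ 0 ↔ p := by
  unfold chi; by_cases h : p <;> simp [h]
theorem chi_eq_one {p : Prop} : (chi p : M) = 1 ↔ p := by
  unfold chi; by_cases h : p <;> simp [h]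
theorem chi_eq_zero {p : Prop} : (chi p : M) = 0 ↔ ¬ p := by
  unfold chi; by_cases h : p <;> simp [h]

/-- The basic functions: addition, multiplication, order, projections, identity. -/
noncomputable def Gf (k x : M) : M :=
  @ite _ (k = 0) (Classical.propDecidable _) (fs x + sn x)
  (@ite _ (k = 1) (Classical.propDecidable _) (fs x * sn x)
  (@ite _ (k = 2) (Classical.propDecidable _) (chi (fs x < sn x))
  (@ite _ (k = 3) (Classical.propDecidable _) (fs x)
  (@ite _ (k = 4) (Classical.propDecidable _) (sn x) x))))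

theorem Gf_zero (x : M) : Gf 0 x = fs x + sn x := by simp [Gf]
theorem Gf_one (x : M) : Gf 1 x = fs x * sn x := by simp [Gf]
theorem Gf_two (x : M) : Gf 2 x = chi (fs x < sn x) := by
  unfold Gf; rw [if_neg (by norm_num), if_neg (by norm_num)]; simp
theorem Gf_three (x : M) : Gf 3 x = fs x := by
  unfold Gf; rw [if_neg (by norm_num), if_neg (by norm_num), if_neg (by norm_num)]; simp
theorem Gf_four (x : M) : Gf 4 x = sn x := by
  unfold Gf
  rw [if_neg (by norm_num), if_neg (by norm_num), if_neg (by norm_num), if_neg (by norm_num)]; simp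
theorem Gf_five (x : M) : Gf 5 x = x := by
  unfold Gf
  rw [if_neg (by norm_num), if_neg (by norm_num), if_neg (by norm_num), if_neg (by norm_num),
    if_neg (by norm_num)]

/-- The total functions computable from oracles in `S`. -/
inductive CompI (S : Set (Set M)) : (M → M) → Prop
  | prim (k : M) : CompI S (fun x => Gf k x)
  | const (c : M) : CompI S (fun _ => c)
  | oracle (B : Set M) (hB : B ∈ S) : CompI S (fun x => chi (x ∈ B))
  | comp {f g : M → M} (hf : CompI S f) (hg : CompI S g) : CompI S (fun x => f (g x))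
  | pair {f g : M → M} (hf : CompI S f) (hg : CompI S g) : CompI S (fun x => pr (f x) (g x))
  | search {f h : M → M} (hf : CompI S f) (h1 : ∀ x, f (pr (h x) x) ≠ 0)
      (h2 : ∀ x, ∀ i < h x, f (pr i x) = 0) : CompI S h

/-! ### Graphs are `Σ^0_1` -/

def Gr (S : Set (Set M)) (f : M → M) : Prop := Sg S (fun v => v 1 = f (v 0))

variable {S : Set (Set M)} {f g : M → M}

theorem Gr.tm (h : Gr S f) {s t : (ℕ → M) → M} (hs : TmF s) (ht : TmF t) :
    Sg S (fun v => s v = f (t v)) :=
  Sg.subst (τ := fun v => cons (t v) (cons (s v) v)) h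
    (TmF.consS ht (TmF.consS hs (fun i => TmF.var i)))

theorem TmF.pr {s t : (ℕ → M) → M} (hs : TmF s) (ht : TmF t) : TmF (fun v => pr (s v) (t v)) :=
  ((hs.add ht).mul (hs.add ht)).add hs

theorem gr_fs : Gr S (fs : M → M) := by
  apply D0.sg
  have h : D0 S (fun v : ℕ → M => (∃ y < v 0 + 1, pr (v 1) y = v 0) ∨
      (¬ (∃ x < v 0 + 1, ∃ y < v 0 + 1, pr x y = v 0) ∧ v 1 = 0)) := by
    apply D0.or
    · exact D0.bex (P := fun u => pr (u 2) (u 0) = u 1) ((TmF.var 0).add (TmF.const 1))
        (D0.eq ((TmF.var 2).pr (TmF.var 0)) (TmF.var 1))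
    · apply D0.and
      · apply D0.not
        refine D0.bex (P := fun u => ∃ y < u 1 + 1, pr (u 0) y = u 1)
          ((TmF.var 0).add (TmF.const 1)) ?_
        exact D0.bex (P := fun u => pr (u 1) (u 0) = u 2)
          ((TmF.var 1).add (TmF.const 1)) (D0.eq ((TmF.var 1).pr (TmF.var 0)) (TmF.var 2))
      · exact D0.eq (TmF.var 1) (TmF.const 0)
  refine h.congr (fun v => ?_)
  by_cases hz : ∃ x y, pr x y = v 0
  · obtain ⟨x, y, hxy⟩ := hz
    rw [← hxy, fs_pr]
    constructor
    · rintro (⟨y', _, h1⟩ | ⟨h1, _⟩)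
      · exact (pr_inj h1).1
      · exact (h1 ⟨x, lt_succ.2 (le_pr_left x y), y, lt_succ.2 (le_pr_right x y), rfl⟩).elim
    · intro h1
      exact Or.inl ⟨y, lt_succ.2 (le_pr_right x y), by rw [h1]⟩
  · rw [fs, dif_neg hz]
    constructor
    · rintro (⟨y', _, h1⟩ | ⟨_, h1⟩)
      · exact (hz ⟨_, _, h1⟩).elim
      · exact h1
    · intro h1
      refine Or.inr ⟨?_, h1⟩
      rintro ⟨x, _, y, _, h2⟩
      exact hz ⟨x, y, h2⟩

theorem gr_sn : Gr S (sn : M → M) := by
  apply D0.sg
  have h : D0 S (fun v : ℕ → M => (∃ y < v 0 + 1, pr y (v 1) = v 0) ∨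
      (¬ (∃ x < v 0 + 1, ∃ y < v 0 + 1, pr x y = v 0) ∧ v 1 = 0)) := by
    apply D0.or
    · exact D0.bex (P := fun u => pr (u 0) (u 2) = u 1) ((TmF.var 0).add (TmF.const 1))
        (D0.eq ((TmF.var 0).pr (TmF.var 2)) (TmF.var 1))
    · apply D0.and
      · apply D0.not
        refine D0.bex (P := fun u => ∃ y < u 1 + 1, pr (u 0) y = u 1)
          ((TmF.var 0).add (TmF.const 1)) ?_
        exact D0.bex (P := fun u => pr (u 1) (u 0) = u 2)
          ((TmF.var 1).add (TmF.const 1)) (D0.eq ((TmF.var 1).pr (TmF.var 0)) (TmF.var 2))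
      · exact D0.eq (TmF.var 1) (TmF.const 0)
  refine h.congr (fun v => ?_)
  by_cases hz : ∃ y x, pr x y = v 0
  · obtain ⟨y, x, hxy⟩ := hz
    rw [← hxy, sn_pr]
    constructor
    · rintro (⟨y', _, h1⟩ | ⟨h1, _⟩)
      · exact (pr_inj h1).2
      · exact (h1 ⟨x, lt_succ.2 (le_pr_left x y), y, lt_succ.2 (le_pr_right x y), rfl⟩).elim
    · intro h1
      exact Or.inl ⟨x, lt_succ.2 (le_pr_left x y), by rw [h1]⟩
  · rw [sn, dif_neg hz]
    constructor
    · rintro (⟨y', _, h1⟩ | ⟨_, h1⟩)
      · exact (hz ⟨_, _, h1⟩).elim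
      · exact h1
    · intro h1
      refine Or.inr ⟨?_, h1⟩
      rintro ⟨x, _, y, _, h2⟩
      exact hz ⟨y, x, h2⟩

theorem gr_two (h : (ℕ → M) → Prop) (F : M → M) (hh : D0 S h)
    (h2 : ∀ v : ℕ → M, (v 3 = F (v 2) ↔ ∃ a b, a = fs (v 2) ∧ b = sn (v 2) ∧
      h (cons b (cons a (fun i => v (i + 2)))))) : Gr S F := by
  have e : Sg S (fun v => ∃ a b, a = fs (v 0) ∧ b = sn (v 0) ∧ h (cons b (cons a v))) := by
    refine Sg.ex (P := fun u => ∃ b, u 0 = fs (u 1) ∧ b = sn (u 1) ∧ h (cons b u)) ?_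
    refine Sg.ex (P := fun u => u 1 = fs (u 2) ∧ u 0 = sn (u 2) ∧ h u) ?_
    exact (gr_fs.tm (TmF.var 1) (TmF.var 2)).and
      ((gr_sn.tm (TmF.var 0) (TmF.var 2)).and hh.sg)
  refine e.congr (fun v => ?_)
  exact (h2 (cons 0 (cons 0 v))).symm

theorem gr_Gf (k : M) : Gr S (fun x => Gf k x) := by
  by_cases h0 : k = 0
  · subst h0
    refine gr_two (fun u => u 3 = u 1 + u 0) _ (D0.eq (TmF.var 3) ((TmF.var 1).add (TmF.var 0))) ?_
    intro v
    rw [Gf_zero]
    constructor
    · intro h
      exact ⟨_, _, rfl, rfl, h⟩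
    · rintro ⟨a, b, rfl, rfl, h⟩
      exact h
  by_cases h1 : k = 1
  · subst h1
    refine gr_two (fun u => u 3 = u 1 * u 0) _ (D0.eq (TmF.var 3) ((TmF.var 1).mul (TmF.var 0))) ?_
    intro v
    rw [Gf_one]
    constructor
    · intro h
      exact ⟨_, _, rfl, rfl, h⟩
    · rintro ⟨a, b, rfl, rfl, h⟩
      exact h
  by_cases h2 : k = 2
  · subst h2
    refine gr_two (fun u => (u 1 < u 0 ∧ u 3 = 1) ∨ (¬ u 1 < u 0 ∧ u 3 = 0)) _ ?_ ?_
    · exact ((D0.lt (TmF.var 1) (TmF.var 0)).and (D0.eq (TmF.var 3) (TmF.const 1))).or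
        ((D0.lt (TmF.var 1) (TmF.var 0)).not.and (D0.eq (TmF.var 3) (TmF.const 0)))
    intro v
    rw [Gf_two]
    constructor
    · intro h
      refine ⟨_, _, rfl, rfl, ?_⟩
      by_cases hh : fs (v 2) < sn (v 2)
      · rw [chi_true hh] at h
        exact Or.inl ⟨hh, h⟩
      · rw [chi_false hh] at h
        exact Or.inr ⟨hh, h⟩
    · rintro ⟨a, b, rfl, rfl, ⟨h, h'⟩ | ⟨h, h'⟩⟩
      · change fs (v 2) < sn (v 2) at h
        rw [chi_true h]; exact h'
      · change ¬ fs (v 2) < sn (v 2) at h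
        rw [chi_false h]; exact h'
  by_cases h3 : k = 3
  · subst h3
    exact gr_fs.congr (fun v => by simp only [Gf_three])
  by_cases h4 : k = 4
  · subst h4
    exact gr_sn.congr (fun v => by simp only [Gf_four])
  · refine (D0.eq (TmF.var 1) (TmF.var 0)).sg.congr (fun v => ?_)
    have : Gf k (v 0) = v 0 := by
      unfold Gf
      rw [if_neg h0, if_neg h1, if_neg h2, if_neg h3, if_neg h4]
    show v 1 = v 0 ↔ v 1 = Gf k (v 0)
    rw [this]

theorem CompI.graph [IndS S] (hf : CompI S f) : Gr S f := by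
  induction hf with
  | prim k => exact gr_Gf k
  | const c => exact (D0.eq (TmF.var 1) (TmF.const c)).sg
  | oracle B hB =>
    refine (((D0.mem (TmF.var 0) hB).and (D0.eq (TmF.var 1) (TmF.const 1))).or
      ((D0.mem (TmF.var 0) hB).not.and (D0.eq (TmF.var 1) (TmF.const 0)))).sg.congr (fun v => ?_)
    by_cases h : v 0 ∈ B
    · simp [h]
    · simp [h]
  | @comp f g _ _ hf hg =>
    have : Sg S (fun v => ∃ a, a = g (v 0) ∧ v 1 = f a) :=
      Sg.ex (P := fun u => u 0 = g (u 1) ∧ u 2 = f (u 0))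
        ((hg.tm (TmF.var 0) (TmF.var 1)).and (hf.tm (TmF.var 2) (TmF.var 0)))
    exact this.congr (fun v => by simp)
  | @pair f g _ _ hf hg =>
    have : Sg S (fun v => ∃ a, ∃ b, a = f (v 0) ∧ b = g (v 0) ∧ v 1 = pr a b) := by
      refine Sg.ex (P := fun u => ∃ b, u 0 = f (u 1) ∧ b = g (u 1) ∧ u 2 = pr (u 0) b) ?_
      refine Sg.ex (P := fun u => u 1 = f (u 2) ∧ u 0 = g (u 2) ∧ u 3 = pr (u 1) (u 0)) ?_
      exact (hf.tm (TmF.var 1) (TmF.var 2)).and ((hg.tm (TmF.var 0) (TmF.var 2)).and
        (D0.eq (TmF.var 3) ((TmF.var 1).pr (TmF.var 0))).sg)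
    exact this.congr (fun v => by simp)
  | @search f h _ h1 h2 hf =>
    have : Sg S (fun v => (∃ a, a = f (pr (v 1) (v 0)) ∧ ¬ a = 0) ∧
        ∀ i < v 1, 0 = f (pr i (v 0))) := by
      apply Sg.and
      · exact Sg.ex (P := fun u => u 0 = f (pr (u 2) (u 1)) ∧ ¬ u 0 = 0)
          ((hf.tm (TmF.var 0) ((TmF.var 2).pr (TmF.var 1))).and
            (D0.eq (TmF.var 0) (TmF.const 0)).not.sg)
      · exact Sg.ball (P := fun u => 0 = f (pr (u 0) (u 1))) (TmF.var 1)
          (hf.tm (TmF.const 0) ((TmF.var 0).pr (TmF.var 1)))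
    refine this.congr (fun v => ?_)
    constructor
    · rintro ⟨⟨a, rfl, h3⟩, h4⟩
      rcases lt_trichotomy (v 1) (h (v 0)) with h5 | h5 | h5
      · exact (h3 (h2 _ _ h5)).elim
      · exact h5
      · exact (h1 _ (h4 _ h5).symm).elim
    · intro h3
      rw [h3]
      exact ⟨⟨_, rfl, h1 _⟩, fun i hi => (h2 _ _ hi).symm⟩

theorem CompI.mono {S' : Set (Set M)} (hS : S ⊆ S') (hf : CompI S f) : CompI S' f := by
  induction hf with
  | prim k => exact .prim k
  | const c => exact .const c
  | oracle B hB => exact .oracle B (hS hB)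
  | comp _ _ hf hg => exact .comp hf hg
  | pair _ _ hf hg => exact .pair hf hg
  | search _ h1 h2 hf => exact .search hf h1 h2

theorem CompI.trans {S' : Set (Set M)} (hS : ∀ B ∈ S, CompI S' (fun x => chi (x ∈ B)))
    (hf : CompI S f) : CompI S' f := by
  induction hf with
  | prim k => exact .prim k
  | const c => exact .const c
  | oracle B hB => exact hS B hB
  | comp _ _ hf hg => exact .comp hf hg
  | pair _ _ hf hg => exact .pair hf hg
  | search _ h1 h2 hf => exact .search hf h1 h2

theorem CompI.lnp [IndS S] (hf : CompI S f) (h : ∃ i, f i ≠ 0) :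
    ∃ i, f i ≠ 0 ∧ ∀ j < i, f j = 0 := by
  by_contra hc
  push Not at hc
  have hS : Sg S (fun v : ℕ → M => ∀ a < v 0, 0 = f a) :=
    Sg.ball (P := fun u => 0 = f (u 0)) (TmF.var 0) (hf.graph.tm (TmF.const 0) (TmF.var 0))
  have key := hS.induct (fun _ => 0) (fun a ha => absurd ha (not_lt_zero' a)) (by
    intro x hx a ha
    rcases (lt_succ.1 ha).lt_or_eq with h1 | h1
    · exact hx a h1
    · subst h1
      by_contra h2
      obtain ⟨j, hj, hj2⟩ := hc a (fun h3 => h2 h3.symm)
      exact hj2 (hx j hj).symm)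
  obtain ⟨i, hi⟩ := h
  exact hi (key (i + 1) i (lt_add_one i)).symm

protected theorem CompI.id : CompI S (fun x : M => x) := by
  have := CompI.prim (S := S) (5 : M)
  simpa only [Gf_five] using this

protected theorem CompI.fs (hf : CompI S f) : CompI S (fun x => fs (f x)) := by
  have := CompI.prim (S := S) (3 : M)
  simp only [Gf_three] at this
  exact this.comp hf

protected theorem CompI.sn (hf : CompI S f) : CompI S (fun x => sn (f x)) := by
  have := CompI.prim (S := S) (4 : M)
  simp only [Gf_four] at this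
  exact this.comp hf

protected theorem CompI.add (hf : CompI S f) (hg : CompI S g) : CompI S (fun x => f x + g x) := by
  have := CompI.prim (S := S) (0 : M)
  simp only [Gf_zero] at this
  have h2 := this.comp (hf.pair hg)
  simpa using h2

protected theorem CompI.mul (hf : CompI S f) (hg : CompI S g) : CompI S (fun x => f x * g x) := by
  have := CompI.prim (S := S) (1 : M)
  simp only [Gf_one] at this
  have h2 := this.comp (hf.pair hg)
  simpa using h2

protected theorem CompI.lt (hf : CompI S f) (hg : CompI S g) : CompI S (fun x => chi (f x < g x)) := by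
  have := CompI.prim (S := S) (2 : M)
  simp only [Gf_two] at this
  have h2 := this.comp (hf.pair hg)
  simpa using h2

theorem CompI.congr (hf : CompI S f) (h : ∀ x, f x = g x) : CompI S g := by
  have : f = g := funext h
  exact this ▸ hf

protected theorem CompI.not {p : M → Prop} (hf : CompI S (fun x => chi (p x))) :
    CompI S (fun x => chi (¬ p x)) := by
  refine (hf.lt (CompI.const 1)).congr (fun x => ?_)
  by_cases h : p x
  · simp [chi, h]
  · simp [chi, h]

protected theorem CompI.and {p q : M → Prop} (hf : CompI S (fun x => chi (p x)))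
    (hg : CompI S (fun x => chi (q x))) : CompI S (fun x => chi (p x ∧ q x)) := by
  refine (hf.mul hg).congr (fun x => ?_)
  by_cases h : p x <;> by_cases h' : q x <;> simp [chi, h, h']

/-! ### Coded types -/

class Cod (M : Type u) [CommSemiring M] [LinearOrder M] [IsStrictOrderedRing M]
    [CanonicallyOrderedAdd M] [Disc M] (α : Type v) where
  enc : α → M
  dec : M → α
  dec_enc : ∀ x, dec (enc x) = x
  comp : ∀ S : Set (Set M), CompI S (fun z => enc (dec z))

instance codM : Cod M M := ⟨id, id, fun _ => rfl, fun _ => CompI.id⟩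

noncomputable instance codProp : Cod M Prop :=
  ⟨chi, fun z => z ≠ 0, fun p => propext chi_ne_zero, fun S => by
    refine ((CompI.const 0).lt CompI.id).congr (fun x => ?_)
    congr 1
    exact propext pos_iff_ne_zero⟩

noncomputable instance codProd {α : Type v} {β : Type w} [Cod M α] [Cod M β] : Cod M (α × β) :=
  ⟨fun x => pr (Cod.enc x.1) (Cod.enc x.2), fun z => (Cod.dec (fs z), Cod.dec (sn z)),
    fun x => by simp [Cod.dec_enc], fun S =>
      ((Cod.comp (α := α) S).comp CompI.id.fs).pair ((Cod.comp (α := β) S).comp CompI.id.sn)⟩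

/-- Computability of a function between coded types, from oracles in `S`. -/
@[fun_prop]
def Comp {α : Type v} {β : Type w} [Cod M α] [Cod M β] (S : Set (Set M)) (f : α → β) : Prop :=
  CompI S (fun z => Cod.enc (f (Cod.dec z)))

section
variable {α : Type v} {β : Type w} [Cod M α] [Cod M β]

@[fun_prop] protected theorem Comp.id : Comp S (fun x : α => x) := Cod.comp S
@[fun_prop] protected theorem Comp.const (c : β) : Comp S (fun _ : α => c) := CompI.const _

theorem Comp.mono {S' : Set (Set M)} (hS : S ⊆ S') {f : α → β} (hf : Comp S f) : Comp S' f :=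
  CompI.mono hS hf

theorem Comp.trans {S' : Set (Set M)} (hS : ∀ B ∈ S, Comp S' (fun x => x ∈ B)) {f : α → β}
    (hf : Comp S f) : Comp S' f :=
  CompI.trans hS hf

end

section
universe w'
variable {α : Type v} {β : Type w} {γ : Type w'} [Cod M α] [Cod M β] [Cod M γ]

@[fun_prop] protected theorem Comp.comp {f : β → γ} {g : α → β} (hf : Comp S f) (hg : Comp S g) :
    Comp S (fun x => f (g x)) := by
  have := CompI.comp hf hg
  simp only [Cod.dec_enc] at this
  exact this

@[fun_prop] protected theorem Comp.mk {f : α → β} {g : α → γ} (hf : Comp S f) (hg : Comp S g) :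
    Comp S (fun x => (f x, g x)) := CompI.pair hf hg

@[fun_prop] protected theorem Comp.fst {f : α → β × γ} (hf : Comp S f) : Comp S (fun x => (f x).1) := by
  have := CompI.fs hf
  refine this.congr (fun x => ?_)
  exact fs_pr _ _

@[fun_prop] protected theorem Comp.snd {f : α → β × γ} (hf : Comp S f) : Comp S (fun x => (f x).2) := by
  have := CompI.sn hf
  refine this.congr (fun x => ?_)
  exact sn_pr _ _

@[fun_prop] protected theorem Comp.add {f g : α → M} (hf : Comp S f) (hg : Comp S g) :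
    Comp S (fun x => f x + g x) := CompI.add hf hg

@[fun_prop] protected theorem Comp.mul {f g : α → M} (hf : Comp S f) (hg : Comp S g) :
    Comp S (fun x => f x * g x) := CompI.mul hf hg

@[fun_prop] protected theorem Comp.pr {f g : α → M} (hf : Comp S f) (hg : Comp S g) :
    Comp S (fun x => pr (f x) (g x)) := CompI.pair hf hg

@[fun_prop] protected theorem Comp.fs {f : α → M} (hf : Comp S f) :
    Comp S (fun x => fs (f x)) := CompI.fs hf

@[fun_prop] protected theorem Comp.sn {f : α → M} (hf : Comp S f) :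
    Comp S (fun x => sn (f x)) := CompI.sn hf

@[fun_prop] protected theorem Comp.lt {f g : α → M} (hf : Comp S f) (hg : Comp S g) :
    Comp S (fun x => f x < g x) := CompI.lt hf hg

@[fun_prop] protected theorem Comp.not {p : α → Prop} (hp : Comp S p) : Comp S (fun x => ¬ p x) :=
  CompI.not hp

@[fun_prop] protected theorem Comp.and {p q : α → Prop} (hp : Comp S p) (hq : Comp S q) :
    Comp S (fun x => p x ∧ q x) := CompI.and hp hq

theorem Comp.app2 {k : M → M → β} {f g : α → M} (hk : Comp S (fun z : M × M => k z.1 z.2))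
    (hf : Comp S f) (hg : Comp S g) : Comp S (fun x => k (f x) (g x)) :=
  Comp.comp (f := fun z : M × M => k z.1 z.2) (g := fun x => (f x, g x)) hk (Comp.mk hf hg)

theorem Comp.congr {f g : α → β} (hf : Comp S f) (h : ∀ x, f x = g x) : Comp S g := by
  have : f = g := funext h
  exact this ▸ hf

theorem Comp.congrP {f g : α → Prop} (hf : Comp S f) (h : ∀ x, f x ↔ g x) : Comp S g :=
  hf.congr (fun x => propext (h x))

@[fun_prop] protected theorem Comp.or {p q : α → Prop} (hp : Comp S p) (hq : Comp S q) :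
    Comp S (fun x => p x ∨ q x) := (hp.not.and hq.not).not.congrP (fun x => by tauto)

@[fun_prop] protected theorem Comp.le {f g : α → M} (hf : Comp S f) (hg : Comp S g) :
    Comp S (fun x => f x ≤ g x) := (hg.lt hf).not.congrP (fun x => not_lt)

@[fun_prop] protected theorem Comp.eq {f g : α → M} (hf : Comp S f) (hg : Comp S g) :
    Comp S (fun x => f x = g x) := ((hf.le hg).and (hg.le hf)).congrP (fun x => le_antisymm_iff.symm)

@[fun_prop] protected theorem Comp.ne {f g : α → M} (hf : Comp S f) (hg : Comp S g) :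
    Comp S (fun x => f x ≠ g x) := (hf.eq hg).not

@[fun_prop] protected theorem Comp.iff {p q : α → Prop} (hp : Comp S p) (hq : Comp S q) :
    Comp S (fun x => p x ↔ q x) := ((hp.and hq).or (hp.not.and hq.not)).congrP (fun x => by tauto)

@[fun_prop] protected theorem Comp.chi {p : α → Prop} (hp : Comp S p) : Comp S (fun x => (chi (p x) : M)) :=
  hp

protected theorem Comp.imp {p q : α → Prop} (hp : Comp S p) (hq : Comp S q) :
    Comp S (fun x => p x → q x) := (hp.not.or hq).congrP (fun x => by tauto)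

/-- If-then-else with values in `M`. -/
noncomputable def Ite (p : Prop) (a b : M) : M := chi p * a + chi (¬ p) * b

theorem Ite_pos {p : Prop} (h : p) (a b : M) : Ite p a b = a := by
  unfold Ite; rw [chi_true h, chi_false (by simpa using h)]; simp

theorem Ite_neg {p : Prop} (h : ¬ p) (a b : M) : Ite p a b = b := by
  unfold Ite; rw [chi_false h, chi_true h]; simp

@[fun_prop] protected theorem Comp.Ite {p : α → Prop} {f g : α → M} (hp : Comp S p) (hf : Comp S f)
    (hg : Comp S g) : Comp S (fun x => Ite (p x) (f x) (g x)) := by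
  unfold h915.Ite
  fun_prop

/-! ### Minimization -/

open Classical in
/-- The least element satisfying `P`. -/
noncomputable def mu (P : M → Prop) : M :=
  if h : ∃ x, P x ∧ ∀ y < x, ¬ P y then h.choose else 0

theorem mu_eq {P : M → Prop} {x : M} (h : P x) (h2 : ∀ y < x, ¬ P y) : mu P = x := by
  have h3 : ∃ x, P x ∧ ∀ y < x, ¬ P y := ⟨x, h, h2⟩
  rw [mu, dif_pos h3]
  obtain ⟨h4, h5⟩ := h3.choose_spec
  rcases lt_trichotomy h3.choose x with h6 | h6 | h6
  · exact (h2 _ h6 h4).elim
  · exact h6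
  · exact (h5 _ h6 h).elim

theorem Comp.lnp [IndS S] {P : M → Prop} (hP : Comp S P) (h : ∃ x, P x) :
    ∃ x, P x ∧ ∀ y < x, ¬ P y := by
  obtain ⟨x, hx⟩ := h
  obtain ⟨i, h1, h2⟩ := CompI.lnp hP ⟨x, chi_ne_zero.2 hx⟩
  exact ⟨i, chi_ne_zero.1 h1, fun j hj => chi_eq_zero.1 (h2 j hj)⟩

theorem mu_spec [IndS S] {P : M → Prop} (hP : Comp S P) (h : ∃ x, P x) : P (mu P) := by
  obtain ⟨x, hx, hx2⟩ := hP.lnp h
  rw [mu_eq hx hx2]; exact hx

theorem mu_min [IndS S] {P : M → Prop} (hP : Comp S P) {y : M} (hy : P y) : mu P ≤ y := by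
  obtain ⟨x, hx, hx2⟩ := hP.lnp ⟨y, hy⟩
  rw [mu_eq hx hx2]
  by_contra h
  exact hx2 y (not_le.1 h) hy

protected theorem Comp.mu [IndS S] {P : α → M → Prop} (hP : Comp S (fun z : α × M => P z.1 z.2))
    (h : ∀ x, ∃ y, P x y) : Comp S (fun x => mu (P x)) := by
  have h1 : Comp S (fun z : M × M => P (Cod.dec z.2) z.1) := by
    have : Comp S (fun z : M × M => (fun z : α × M => P z.1 z.2) (Cod.dec z.2, z.1)) := by
      have hd : Comp S (fun x : M => (Cod.dec x : α)) := Cod.comp (α := α) S
      fun_prop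
    exact this
  have key : ∀ x : M, (P (Cod.dec x) (h915.mu (P (Cod.dec x)))) ∧
      ∀ y < h915.mu (P (Cod.dec x)), ¬ P (Cod.dec x) y := by
    intro x
    have h2 : Comp S (fun y => P (Cod.dec x) y) := by
      have : Comp S (fun y : M => (fun z : M × M => P (Cod.dec z.2) z.1) (y, x)) :=
        Comp.comp h1 (by fun_prop)
      exact this
    refine ⟨mu_spec h2 (h _), fun y hy hy2 => ?_⟩
    exact absurd (mu_min h2 hy2) (not_le.2 hy)
  refine CompI.search (f := fun z => chi (P (Cod.dec (h915.sn z)) (h915.fs z))) h1 ?_ ?_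
  · intro x
    simp only [fs_pr, sn_pr]
    exact chi_ne_zero.2 (key x).1
  · intro x i hi
    simp only [fs_pr, sn_pr]
    exact chi_eq_zero.2 ((key x).2 i hi)

def Ball (n : M) (P : M → Prop) : Prop := ∀ i < n, P i
def Bex (n : M) (P : M → Prop) : Prop := ∃ i < n, P i

@[fun_prop] protected theorem Comp.bex [IndS S] {P : α → M → Prop} {b : α → M} (hb : Comp S b)
    (hP : Comp S (fun z : α × M => P z.1 z.2)) : Comp S (fun x => Bex (b x) (P x)) := by
  have h1 : Comp S (fun z : α × M => P z.1 z.2 ∨ b z.1 ≤ z.2) := by fun_prop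
  have h2 := h1.mu (P := fun x y => P x y ∨ b x ≤ y) (fun x => ⟨b x, Or.inr le_rfl⟩)
  have h3 : Comp S (fun x => h915.mu (fun y => P x y ∨ b x ≤ y) < b x) := by fun_prop
  refine h3.congrP (fun x => ?_)
  have h4 : Comp S (fun y => P x y ∨ b x ≤ y) := by
    have : Comp S (fun y : M => (fun z : α × M => P z.1 z.2 ∨ b z.1 ≤ z.2) (x, y)) := by fun_prop
    exact this
  constructor
  · intro h
    refine ⟨_, h, ?_⟩
    rcases mu_spec h4 ⟨b x, Or.inr le_rfl⟩ with h5 | h5
    · exact h5
    · exact absurd h5 (not_le.2 h)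
  · rintro ⟨i, hi, hPi⟩
    exact lt_of_le_of_lt (mu_min h4 (Or.inl hPi)) hi

@[fun_prop] protected theorem Comp.ball [IndS S] {P : α → M → Prop} {b : α → M} (hb : Comp S b)
    (hP : Comp S (fun z : α × M => P z.1 z.2)) : Comp S (fun x => Ball (b x) (P x)) := by
  refine (Comp.bex (P := fun x y => ¬ P x y) hb hP.not).not.congrP (fun x => ?_)
  unfold Bex Ball
  push Not
  rfl

end

/-! ### Induction -/

theorem Comp.sgM [IndS S] {Q : M → M → Prop} (hQ : Comp S (fun z : M × M => Q z.1 z.2)) :
    Sg S (fun v => Q (v 0) (v 1)) := by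
  have : Gr S (fun z => chi (Q (h915.fs z) (h915.sn z))) := CompI.graph hQ
  have h2 := this.tm (TmF.const 1) ((TmF.var 0).pr (TmF.var 1))
  refine h2.congr (fun v => ?_)
  simp only [fs_pr, sn_pr]
  rw [eq_comm]
  exact chi_eq_one

theorem Comp.sg1 [IndS S] {Q : M → Prop} (hQ : Comp S Q) :
    Sg S (fun v => Q (v 0)) := by
  have : Gr S (fun z => chi (Q z)) := CompI.graph hQ
  have h2 := this.tm (TmF.const 1) (TmF.var 0)
  refine h2.congr (fun v => ?_)
  rw [eq_comm]
  exact chi_eq_one

theorem Comp.induct1 [IndS S] {Q : M → M → Prop} (hQ : Comp S (fun z : M × M => Q z.1 z.2))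
    (h0 : ∃ w, Q 0 w) (hs : ∀ x, (∃ w, Q x w) → ∃ w, Q (x + 1) w) (x : M) : ∃ w, Q x w := by
  have h1 : Sg S (fun v => ∃ w, Q (v 0) w) := by
    refine Sg.ex (P := fun u => Q (u 1) (u 0)) ?_
    exact Sg.subst (P := fun v => Q (v 0) (v 1)) (τ := fun v => cons (v 1) (cons (v 0) v))
      hQ.sgM (TmF.consS (TmF.var 1) (TmF.consS (TmF.var 0) (fun i => TmF.var i)))
  exact h1.induct (fun _ => 0) h0 hs x

@[elab_as_elim]
theorem Comp.induct [IndS S] {P : M → Prop} (hP : Comp S P)
    (h0 : P 0) (hs : ∀ x, P x → P (x + 1)) (x : M) : P x :=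
  hP.sg1.induct (fun _ => 0) h0 hs x

end Run7.h915
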