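import Pool.Agent.Run7.h915.Univ

/-!
# Counting strings
-/

set_option linter.unusedSectionVars false

namespace Run7.h915

universe u v w

variable {M : Type u} [CommSemiring M] [LinearOrder M] [IsStrictOrderedRing M]
  [CanonicallyOrderedAdd M] [Disc M] [IS1 M]

/-- The number of `i < n` with `P i`. -/
noncomputable def cnt (P : M → Prop) (n : M) : M := prec 0 (fun i y => y + chi (P i)) n

/-- The number of strings of length `t` with `P`. -/
noncomputable def lev (P : M → Prop) (t : M) : M := cnt (fun i => P (exp2 t + i)) (exp2 t)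

section
variable {S : Set (Set M)} [IndS S] {α : Type v} [Cod M α]

@[fun_prop] protected theorem Comp.cnt {P : α → M → Prop} {f : α → M}
    (hP : Comp S (fun z : α × M => P z.1 z.2)) (hf : Comp S f) :
    Comp S (fun x => cnt (P x) (f x)) := by
  unfold h915.cnt
  refine Comp.prec (k := fun x i y => y + h915.chi (P x i)) (by fun_prop) ?_ hf
  have : Comp S (fun z : α × M × M => P z.1 z.2.1) :=
    Comp.comp (f := fun z : α × M => P z.1 z.2) (g := fun z : α × M × M => (z.1, z.2.1)) hP
      (by fun_prop)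
  fun_prop

@[fun_prop] protected theorem Comp.lev {P : α → M → Prop} {f : α → M}
    (hP : Comp S (fun z : α × M => P z.1 z.2)) (hf : Comp S f) :
    Comp S (fun x => lev (P x) (f x)) := by
  unfold h915.lev
  refine Comp.cnt (P := fun x i => P x (h915.exp2 (f x) + i)) ?_ (by fun_prop)
  exact Comp.comp (f := fun z : α × M => P z.1 z.2)
    (g := fun z : α × M => (z.1, h915.exp2 (f z.1) + z.2)) hP (by fun_prop)

variable {P Q : M → Prop} (hP : Comp S P) (hQ : Comp S Q)

section
include hP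

theorem cnt_comp_aux : Comp S (fun z : M × M => z.2 + chi (P z.1)) := by
  have : Comp S (fun z : M × M => P z.1) := Comp.comp hP (by fun_prop)
  fun_prop

theorem cnt_zero : cnt P 0 = 0 := prec_zero (S := S) (cnt_comp_aux hP)

theorem cnt_succ (n : M) : cnt P (n + 1) = cnt P n + chi (P n) :=
  prec_succ (S := S) (cnt_comp_aux hP) n

theorem cnt_le (n : M) : cnt P n ≤ n := by
  refine Comp.induct (S := S) (by fun_prop) ?_ ?_ n
  · rw [cnt_zero hP]
  · intro x hx
    rw [cnt_succ hP]
    gcongr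
    exact le_of_lt_add_one' _
  where
  le_of_lt_add_one' (x : M) : chi (P x) ≤ (1 : M) := by
    by_cases h : P x
    · rw [chi_true h]
    · rw [chi_false h]; exact zero_le

theorem cnt_lt_ex {n : M} (h : cnt P n < n) : ∃ i < n, ¬ P i := by
  by_contra hc
  push Not at hc
  have key : ∀ m : M, m ≤ n → cnt P m = m := by
    intro m
    refine Comp.induct (S := S) (Comp.imp (by fun_prop) (by fun_prop)) ?_ ?_ m
    · intro _; exact cnt_zero hP
    · intro x ih hx
      have hx' := succ_le.1 hx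
      rw [cnt_succ hP, ih hx'.le, chi_true (hc x hx')]
  rw [key n le_rfl] at h
  exact lt_irrefl _ h

theorem cnt_double (n : M) : cnt P (2 * n) = cnt (fun i => P (2 * i)) n +
    cnt (fun i => P (2 * i + 1)) n := by
  have h1 : Comp S (fun i => P (2 * i)) := Comp.comp hP (by fun_prop)
  have h2 : Comp S (fun i => P (2 * i + 1)) := Comp.comp hP (by fun_prop)
  refine Comp.induct (S := S) (by fun_prop) ?_ ?_ n
  · rw [mul_zero, cnt_zero hP, cnt_zero h1, cnt_zero h2, add_zero]
  · intro x hx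
    have e : 2 * (x + 1) = 2 * x + 1 + 1 := by ring
    rw [e, cnt_succ hP, cnt_succ hP, cnt_succ h1, cnt_succ h2, hx]
    ring

end

section
include hP hQ

theorem cnt_mono {n : M} (h : ∀ i < n, P i → Q i) : cnt P n ≤ cnt Q n := by
  have key : ∀ m : M, m ≤ n → cnt P m ≤ cnt Q m := by
    intro m
    refine Comp.induct (S := S) (Comp.imp (by fun_prop) (by fun_prop)) ?_ ?_ m
    · intro _; rw [cnt_zero hP]; exact zero_le
    · intro x ih hx
      have hx' := succ_le.1 hx
      rw [cnt_succ hP, cnt_succ hQ]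
      refine add_le_add (ih hx'.le) ?_
      by_cases h1 : P x
      · rw [chi_true h1, chi_true (h x hx' h1)]
      · rw [chi_false h1]; exact zero_le
  exact key n le_rfl

theorem cnt_or (n : M) : cnt (fun i => P i ∨ Q i) n ≤ cnt P n + cnt Q n := by
  have h1 : Comp S (fun i => P i ∨ Q i) := by fun_prop
  refine Comp.induct (S := S) (by fun_prop) ?_ ?_ n
  · rw [cnt_zero h1]; exact zero_le
  · intro x hx
    rw [cnt_succ hP, cnt_succ hQ, cnt_succ h1]
    calc cnt (fun i => P i ∨ Q i) x + chi (P x ∨ Q x)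
        ≤ (cnt P x + cnt Q x) + (chi (P x) + chi (Q x)) := by
          refine add_le_add hx ?_
          by_cases h2 : P x <;> by_cases h3 : Q x <;> simp [h2, h3]
      _ = _ := by ring

theorem cnt_or_disj {n : M} (h : ∀ i < n, ¬ (P i ∧ Q i)) :
    cnt (fun i => P i ∨ Q i) n = cnt P n + cnt Q n := by
  have h1 : Comp S (fun i => P i ∨ Q i) := by fun_prop
  have key : ∀ m : M, m ≤ n → cnt (fun i => P i ∨ Q i) m = cnt P m + cnt Q m := by
    intro m
    refine Comp.induct (S := S) (Comp.imp (by fun_prop) (by fun_prop)) ?_ ?_ m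
    · intro _; rw [cnt_zero h1, cnt_zero hP, cnt_zero hQ, add_zero]
    · intro x ih hx
      have hx' := succ_le.1 hx
      have h4 : (chi (P x ∨ Q x) : M) = chi (P x) + chi (Q x) := by
        have := h x hx'
        by_cases h2 : P x <;> by_cases h3 : Q x <;> simp_all
      rw [cnt_succ hP, cnt_succ hQ, cnt_succ h1, ih hx'.le, h4]
      ring
  exact key n le_rfl

end

/-! ### Levels -/

theorem string_iff {z t : M} : (0 < z ∧ len z = t) ↔ ∃ i < exp2 t, z = exp2 t + i := by
  constructor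
  · rintro ⟨h1, h2⟩
    have h3 := exp2_len_le h1
    have h4 := lt_exp2_len z
    rw [h2] at h3 h4
    obtain ⟨i, hi⟩ := le_iff_exists_add.1 h3
    refine ⟨i, ?_, hi⟩
    rw [hi, exp2_succ, two_mul] at h4
    exact lt_of_add_lt_add_left h4
  · rintro ⟨i, hi, rfl⟩
    refine ⟨lt_of_lt_of_le (exp2_pos t) le_self_add, len_unique le_self_add ?_⟩
    rw [exp2_succ, two_mul]
    gcongr

omit [IndS S] in
theorem lev_comp_aux (hP : Comp S P) (t : M) : Comp S (fun i => P (exp2 t + i)) :=
  Comp.comp hP (by fun_prop)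

theorem lev_succ (hP : Comp S P) (t : M) : lev P (t + 1) = lev (fun z => P (2 * z)) t +
    lev (fun z => P (2 * z + 1)) t := by
  unfold lev
  rw [exp2_succ, cnt_double (lev_comp_aux' hP t)]
  congr 1
  · congr 1; funext i; congr 1; ring
  · congr 1; funext i; congr 1; ring
  where
  lev_comp_aux' (hP : Comp S P) (t : M) : Comp S (fun i => P (2 * exp2 t + i)) :=
    Comp.comp hP (by fun_prop)

theorem lev_mono {t : M} (hP : Comp S P) (hQ : Comp S Q)
    (h : ∀ z, 0 < z → len z = t → P z → Q z) : lev P t ≤ lev Q t := by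
  refine cnt_mono (lev_comp_aux hP t) (lev_comp_aux hQ t) (fun i hi => ?_)
  obtain ⟨h1, h2⟩ := string_iff.2 ⟨i, hi, rfl⟩
  exact h _ h1 h2

theorem lev_congr {t : M} (hP : Comp S P) (hQ : Comp S Q)
    (h : ∀ z, 0 < z → len z = t → (P z ↔ Q z)) : lev P t = lev Q t :=
  le_antisymm (lev_mono hP hQ fun z h1 h2 => (h z h1 h2).1)
    (lev_mono hQ hP fun z h1 h2 => (h z h1 h2).2)

theorem lev_le (hP : Comp S P) (t : M) : lev P t ≤ exp2 t := cnt_le (lev_comp_aux hP t) _

theorem lev_or (hP : Comp S P) (hQ : Comp S Q) (t : M) :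
    lev (fun z => P z ∨ Q z) t ≤ lev P t + lev Q t :=
  cnt_or (lev_comp_aux hP t) (lev_comp_aux hQ t) _

theorem lev_or_disj {t : M} (hP : Comp S P) (hQ : Comp S Q)
    (h : ∀ z, 0 < z → len z = t → ¬ (P z ∧ Q z)) :
    lev (fun z => P z ∨ Q z) t = lev P t + lev Q t := by
  refine cnt_or_disj (lev_comp_aux hP t) (lev_comp_aux hQ t) (fun i hi => ?_)
  obtain ⟨h1, h2⟩ := string_iff.2 ⟨i, hi, rfl⟩
  exact h _ h1 h2

theorem lev_lt_ex {t : M} (hP : Comp S P) (h : lev P t < exp2 t) :
    ∃ z, 0 < z ∧ len z = t ∧ ¬ P z := by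
  obtain ⟨i, hi, h2⟩ := cnt_lt_ex (lev_comp_aux hP t) h
  obtain ⟨h3, h4⟩ := string_iff.2 ⟨i, hi, rfl⟩
  exact ⟨_, h3, h4, h2⟩

theorem lev_up {t : M} (hP : Comp S P) (hQ : Comp S Q)
    (h : ∀ z, 0 < z → len z = t → P z → Q (2 * z) ∧ Q (2 * z + 1)) :
    2 * lev P t ≤ lev Q (t + 1) := by
  have h1 : Comp S (fun z => Q (2 * z)) := Comp.comp hQ (by fun_prop)
  have h2 : Comp S (fun z => Q (2 * z + 1)) := Comp.comp hQ (by fun_prop)
  rw [lev_succ hQ, two_mul]
  exact add_le_add (lev_mono hP h1 fun z hz hl hp => (h z hz hl hp).1)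
    (lev_mono hP h2 fun z hz hl hp => (h z hz hl hp).2)

theorem lev_down {t : M} (hP : Comp S P) (hQ : Comp S Q)
    (h : ∀ z, 0 < z → len z = t → (Q (2 * z) ∨ Q (2 * z + 1)) → P z) :
    lev Q (t + 1) ≤ 2 * lev P t := by
  have h1 : Comp S (fun z => Q (2 * z)) := Comp.comp hQ (by fun_prop)
  have h2 : Comp S (fun z => Q (2 * z + 1)) := Comp.comp hQ (by fun_prop)
  rw [lev_succ hQ, two_mul]
  exact add_le_add (lev_mono h1 hP fun z hz hl hp => h z hz hl (Or.inl hp))
    (lev_mono h2 hP fun z hz hl hp => h z hz hl (Or.inr hp))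

end

/-! ### The relation `K` -/

/-- The computation `e` with oracle string `z` computes the string `ξ`. -/
def KK (e z ξ : M) : Prop := Ball (len ξ) (fun i => ev e z i = bit ξ i)

@[fun_prop] protected theorem Comp.KK {S : Set (Set M)} [IndS S] {α : Type v} [Cod M α]
    {f g h : α → M} (hf : Comp S f) (hg : Comp S g) (hh : Comp S h) :
    Comp S (fun x => KK (f x) (g x) (h x)) := by
  unfold h915.KK; fun_prop

theorem KK.mono {e z z' ξ : M} (hz' : 0 < z') (h : pre z z') (hk : KK e z ξ) : KK e z' ξ := by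
  intro i hi
  have h1 : ev e z i = bit ξ i := hk i hi
  show ev e z' i = bit ξ i
  rw [ev_mono hz' h (by rw [h1]; exact bit_lt _ _), h1]

theorem KK.anti {e z ξ ξ' : M} (hξ : 0 < ξ) (h : pre ξ' ξ) (hk : KK e z ξ) : KK e z ξ' := by
  intro i hi
  have h1 : ev e z i = bit ξ i := hk i (lt_of_lt_of_le hi h.1)
  show ev e z i = bit ξ' i
  rw [h1, pre_bit hξ h hi]

theorem KK.pre {e z ξ ξ' : M} (hξ : 0 < ξ) (hξ' : 0 < ξ') (hl : len ξ ≤ len ξ')
    (hk : KK e z ξ) (hk' : KK e z ξ') : pre ξ ξ' := by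
  apply pre_of_bits hξ hξ' hl
  intro i hi
  have h1 : ev e z i = bit ξ i := hk i hi
  have h2 : ev e z i = bit ξ' i := hk' i (lt_of_lt_of_le hi hl)
  rw [← h1, h2]

/-- The number of strings of length `t` which compute `ξ`. -/
noncomputable def cK (e ξ t : M) : M := lev (fun z => KK e z ξ) t

@[fun_prop] protected theorem Comp.cK {S : Set (Set M)} [IndS S] {α : Type v} [Cod M α]
    {f g h : α → M} (hf : Comp S f) (hg : Comp S g) (hh : Comp S h) :
    Comp S (fun x => cK (f x) (g x) (h x)) := by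
  unfold h915.cK; fun_prop

end Run7.h915
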