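import Pool.Agent.Run7.h915.TK

/-!
# Decoding an extension of the function
-/

set_option linter.unusedSectionVars false

namespace Run7.h915

universe u v w

variable {M : Type u} [CommSemiring M] [LinearOrder M] [IsStrictOrderedRing M]
  [CanonicallyOrderedAdd M] [Disc M] [IS1 M]

variable {S : Set (Set M)}

/-! ### Codes of functions at elements of the dense set -/

/-- The quintuple `u` of `Φ` applies to `p` and has accuracy better than `2^{-n}`. -/
def Hit (Φ : Set M) (p n u : M) : Prop := u ∈ Φ ∧ dd p (fs (sn u)) < qv (fs (sn (sn u))) ∧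
  qv (sn (sn (sn (sn u)))) < hf n

section
variable [IndS S] {α : Type v} [Cod M α]

theorem Comp.hit {Φ : Set M} (hΦ : Φ ∈ S) {f g k : α → M} (hf : Comp S f) (hg : Comp S g)
    (hk : Comp S k) : Comp S (fun x => Hit Φ (f x) (g x) (k x)) := by
  have h1 : Comp S (fun x => k x ∈ Φ) := Comp.comp (f := fun x => x ∈ Φ) (Comp.oracle hΦ) hk
  unfold Hit
  fun_prop

variable {Φ : Set M} (hC : InC S (X4 M) (fun _ => True) Φ) (hS : DeltaOneComprehension S)
include hC hS

theorem isPoint_const (a : M) : IsPoint S (X4 M) (fun _ => a) :=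
  X4_isPoint.2 ⟨Comp.inS hS (Comp.const _), coh_const a⟩

theorem hit_ex (p n : M) : ∃ u, Hit Φ p n u := by
  obtain ⟨a, r, b, s, ⟨k, h1⟩, h2, h3⟩ := hC.dom (fun _ => p) (isPoint_const hC hS p) trivial n
  rw [X4_dp, limLT_const] at h2
  refine ⟨_, h1, ?_, ?_⟩
  · simp only [sn_pr, fs_pr]; exact h2
  · simp only [sn_pr]; exact h3

theorem hit_rel {p n u : M} (h : Hit Φ p n u) :
    Rel Φ (fs (sn u)) (fs (sn (sn u))) (fs (sn (sn (sn u)))) (sn (sn (sn (sn u)))) := by
  obtain ⟨k, a, r, b, s, h1, _⟩ := hC.code.shape u h.1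
  refine ⟨k, ?_⟩
  have h2 := h.1
  rw [h1]
  simp only [fs_pr, sn_pr]
  rw [← h1]
  exact h2

/-- Two quintuples which apply to the same element are compatible. -/
theorem compat {p a r b s a' r' b' s' : M} (h : Rel Φ a r b s) (h' : Rel Φ a' r' b' s')
    (hp : dd p a < qv r) (hp' : dd p a' < qv r') : |qv b - qv b'| ≤ qv s + qv s' := by
  rw [dd_symm] at hp hp'
  set t : QF M := min (qv r - dd a p) (qv r' - dd a' p) / 2 with ht
  have h1 : 0 < min (qv r - dd a p) (qv r' - dd a' p) := lt_min (by linarith) (by linarith)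
  have h2 : min (qv r - dd a p) (qv r' - dd a' p) ≤ qv r - dd a p := min_le_left _ _
  have h3 : min (qv r - dd a p) (qv r' - dd a' p) ≤ qv r' - dd a' p := min_le_right _ _
  have h4 : 0 < qv (qc t) := by rw [qv_qc]; linarith
  have h5 := hC.code.shrink a r b s p (qc t) h trivial h4 (by
    rw [X4_da]
    simp only [qv_qc]
    rw [limLT_const]
    linarith)
  have h6 := hC.code.shrink a' r' b' s' p (qc t) h' trivial h4 (by
    rw [X4_da]
    simp only [qv_qc]
    rw [limLT_const]
    linarith)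
  exact hC.code.consistent _ _ _ _ _ _ h5 h6

/-- The value at an element of the dense set exists. -/
theorem value_ex (p : M) : ∃ y, IsVal S (X4 M) Φ (fun _ => p) y := by
  have hu : Comp S (fun k : M => mu (fun u => Hit Φ p (k + 1) u)) :=
    Comp.mu (P := fun k u => Hit Φ p (k + 1) u)
      (Comp.hit hC.code.mem (by fun_prop) (by fun_prop) (by fun_prop))
      (fun k => hit_ex hC hS p (k + 1))
  have hsp : ∀ k : M, Hit Φ p (k + 1) (mu (fun u => Hit Φ p (k + 1) u)) := fun k =>
    mu_spec (Comp.hit hC.code.mem (by fun_prop) (by fun_prop) (by fun_prop))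
      (hit_ex hC hS p (k + 1))
  refine ⟨fun k => fs (sn (sn (sn (mu (fun u => Hit Φ p (k + 1) u))))), ⟨?_, ?_⟩, ?_⟩
  · exact Comp.inS hS (by fun_prop)
  · intro k i
    have h1 := compat hC hS (hit_rel hC hS (hsp k)) (hit_rel hC hS (hsp (k + i))) (hsp k).2.1
      (hsp (k + i)).2.1
    have h2 := (hsp k).2.2
    have h3 := (hsp (k + i)).2.2
    have h4 : hf (k + i + 1) ≤ hf (k + 1) := hf_le (by gcongr; exact le_self_add)
    have h5 := hf_succ k
    linarith
  · intro a r b s h1 h2 n
    rw [X4_dp, limLT_const] at h2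
    refine ⟨n, fun k hk => ?_⟩
    have h3 := compat hC hS (hit_rel hC hS (hsp k)) h1 (hsp k).2.1 h2
    have h4 := (hsp k).2.2
    have h5 : hf (k + 1) ≤ hf n := hf_le (hk.trans le_self_add)
    linarith

end

namespace Dat

variable (d : Dat S)

/-- The value of the function at the point `0^e 1 t`. -/
theorem value_bl [IndS S] (hS : DeltaOneComprehension S) {e k t : M} {c : QF M}
    (hk : (d.A0 e k ∧ c = 0) ∨ (d.A1 e k ∧ c = hf e)) :
    IsVal S (X4 M) d.Ph (fun _ => bl e t) (fun _ => qc c) := by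
  refine ⟨⟨Comp.inS hS (Comp.const _), fun k i => ?_⟩, ?_⟩
  · rw [sub_self, abs_zero]; exact (hf_pos k).le
  · intro a r b s h1 h2
    rw [rel_Ph] at h1
    obtain ⟨k', h1⟩ := h1
    have hr := h1.1
    rw [X4_lt (coh_const _) (coh_const _) hr] at h2
    rw [limLE_const, qv_qc]
    have hc0 : 0 ≤ c := by
      rcases hk with hk | hk
      · rw [hk.2]
      · rw [hk.2]; exact (hf_pos e).le
    have hc1 : c ≤ hf e := by
      rcases hk with hk | hk
      · rw [hk.2]; exact (hf_pos e).le
      · rw [hk.2]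
    have conv : ∀ c' : QF M, hf e ≤ c' → |qv b| ≤ qv s → |qv b - c'| ≤ qv s →
        |c - qv b| ≤ qv s := by
      intro c' h6 h7 h8
      rw [abs_le] at *
      constructor <;> linarith
    by_cases he : e < nr (qv r)
    · have h3 : cg e a 0 := cg_trans (cg_symm (cg_mono he.le h2)) cg_bl_zero
      have h4 : dg a e = 1 := by
        have : dg (bl e t) e = dg a e := h2 e he
        rw [← this, dg_bl_self]
      rcases FR.known0 d h1 he h3 (by rw [h4]; exact one_ne_zero) with h5 | h5 | h5
      · exact conv _ le_rfl h5.1 h5.2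
      · rcases hk with hk | hk
        · rw [hk.2, zero_sub, abs_neg]; exact h5.2
        · exact (d.dj _ _ _ h5.1 hk.1).elim
      · rcases hk with hk | hk
        · exact (d.dj _ _ _ hk.1 h5.1).elim
        · rw [hk.2, abs_sub_comm]; exact h5.2
    · rw [not_lt] at he
      obtain ⟨_, _, h3 | ⟨e', he', h3, h4, _⟩⟩ := h1
      · exact conv _ (hf_le he) h3.2.1 h3.2.2
      · have h5 : cg (nr (qv r)) a 0 := cg_trans (cg_symm h2) (cg_mono he cg_bl_zero)
        exact absurd (cg_zero_iff.1 h5 e' he') h4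

/-- `t` belongs to `K_e`. -/
def InK (e t : M) : Prop := ∀ m, ¬ d.Hv e m → d.T m t

section
variable [IndS S] {Φ : Set M} (hC : InC S (X4 M) (fun _ => True) Φ)
  (hS : DeltaOneComprehension S)
  (hext : ∀ x, IsPoint S (X4 M) x → ¬ InOpen (X4 M) d.U x → ∀ y, IsVal S (X4 M) d.Ph x y →
    IsVal S (X4 M) Φ x y)
  {h : M → M} (hmod : ∀ n : M, ∀ x x', IsPoint S (X4 M) x → True → IsPoint S (X4 M) x' → True →
    LimLT ((X4 M).dp x x') (fun _ => hf (h n)) → ∀ y y', IsVal S (X4 M) Φ x y →
      IsVal S (X4 M) Φ x' y' → LimLT (fun k => |qv (y k) - qv (y' k)|) (fun _ => hf n))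

/-- The approximate value of the extension at `0^e 1 t`. -/
noncomputable def vl (Φ : Set M) (e t : M) : QF M :=
  qv (fs (sn (sn (sn (mu (fun u => Hit Φ (bl e t) (e + 1 + 1 + 1) u))))))

include hC hS hext hmod

theorem vl_close {e k t t' : M} {c : QF M}
    (hk : (d.A0 e k ∧ c = 0) ∨ (d.A1 e k ∧ c = hf e)) (ht : d.InK e t')
    (hcg : cg (h (e + 1 + 1 + 1)) t t') : |vl Φ e t - c| < hf (e + 1 + 1) := by
  have hsp : Hit Φ (bl e t) (e + 1 + 1 + 1) (mu (fun u => Hit Φ (bl e t) (e + 1 + 1 + 1) u)) :=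
    mu_spec (Comp.hit hC.code.mem (by fun_prop) (by fun_prop) (by fun_prop))
      (hit_ex hC hS (bl e t) (e + 1 + 1 + 1))
  have hx' := isPoint_const hC hS (bl e t')
  have hx := isPoint_const hC hS (bl e t)
  have h1 := hext _ hx' (by
    rw [d.inOpen_iff (coh_const _)]
    push Not
    intro L
    exact d.not_bad_bl (fun m _ hm => ht m hm)) _ (d.value_bl hS hk)
  obtain ⟨y, hy⟩ := value_ex hC hS (bl e t)
  have h2 := hmod (e + 1 + 1 + 1) _ _ hx trivial hx' trivial (by
    rw [X4_lt (coh_const _) (coh_const _) (hf_pos _), nr_hf]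
    refine cg_mono ?_ (bl_cg hcg)
    calc h (e + 1 + 1 + 1) + 1 ≤ e + (h (e + 1 + 1 + 1) + 1) := le_add_self
      _ = _ := by ring) y _ hy h1
  obtain ⟨n, N, h2⟩ := h2
  have h3 := hy.2 _ _ _ _ (hit_rel hC hS hsp) (by
    rw [X4_dp, limLT_const]; exact hsp.2.1)
  obtain ⟨N', h3⟩ := h3 n
  have h4 := h2 (max N N') (le_max_left _ _)
  have h5 := h3 (max N N') (le_max_right _ _)
  rw [qv_qc] at h4
  have h6 := hsp.2.2
  have h7 := abs_sub (qv (y (max N N')) - c) (qv (y (max N N')) - vl Φ e t)
  rw [sub_sub_sub_cancel_left] at h7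
  have h8 := hf_succ (e + 1 + 1)
  have h9 : |qv (y (max N N')) - vl Φ e t| ≤ qv (sn (sn (sn (sn (mu (fun u =>
    Hit Φ (bl e t) (e + 1 + 1 + 1) u)))))) + hf n := h5
  linarith

end

/-- The first `m` digits of `c` and `t` are different. -/
def Avoid (m c t : M) : Prop := Ball m (fun n => dg c n ≠ dg t n)

theorem cAvoid [IndS S] {α : Type v} [Cod M α] {f g h : α → M} (hf : Comp S f) (hg : Comp S g)
    (hh : Comp S h) : Comp S (fun x => Avoid (f x) (g x) (h x)) := by
  unfold Avoid
  fun_prop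

theorem lt_four {v : M} (h : v < 4) : v = 0 ∨ v = 1 ∨ v = 2 ∨ v = 3 := by
  have e4 : (4 : M) = 3 + 1 := by norm_num
  have e3 : (3 : M) = 2 + 1 := by norm_num
  rw [e4, lt_succ] at h
  rcases h.lt_or_eq with h | h
  · rw [e3, lt_succ] at h
    rcases h.lt_or_eq with h | h
    · rcases lt_two.1 h with h | h
      · exact Or.inl h
      · exact Or.inr (Or.inl h)
    · exact Or.inr (Or.inr (Or.inl h))
  · exact Or.inr (Or.inr (Or.inr h))

/-- When the value at `e` becomes known after stage `m`, there is a code `c` such that all `t`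
avoiding `c` can be continued to elements of `K_e`. -/
theorem forb_code [IndS S] {e k m : M} (hk : d.Hv e k) (hm : ¬ d.Hv e m) :
    ∃ c, c < p4 m ∧ ∀ t, Avoid m c t → ∃ t', cg m t t' ∧ d.InK e t' := by
  set s := k with hs
  have c1 : Comp S (fun n : M => d.F n s 1) := d.cF (by fun_prop) (by fun_prop) (by fun_prop)
  have c2 : Comp S (fun n : M => d.F n s 2) := d.cF (by fun_prop) (by fun_prop) (by fun_prop)
  have c3 : Comp S (fun n : M => d.F n s 3) := d.cF (by fun_prop) (by fun_prop) (by fun_prop)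
  have c0 : Comp S (fun n : M => d.F n s 0) := d.cF (by fun_prop) (by fun_prop) (by fun_prop)
  have h3 : (3 : M) < 4 := by norm_num
  have h2 : (2 : M) < 4 := by norm_num
  have h1 : (1 : M) < 4 := by norm_num
  have hδ4 : ∀ n, Ite (d.F n s 1) 1 (Ite (d.F n s 2) 2 (Ite (d.F n s 3) (3 : M) 0)) < 4 := by
    intro n
    by_cases g1 : d.F n s 1
    · rw [Ite_pos g1]; exact h1
    · rw [Ite_neg g1]
      by_cases g2 : d.F n s 2
      · rw [Ite_pos g2]; exact h2
      · rw [Ite_neg g2]
        by_cases g3 : d.F n s 3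
        · rw [Ite_pos g3]; exact h3
        · rw [Ite_neg g3]; exact four_pos'
  obtain ⟨c, hc, hcd⟩ := exists_digits (S := S)
    (δ := fun n => Ite (d.F n s 1) 1 (Ite (d.F n s 2) 2 (Ite (d.F n s 3) (3 : M) 0)))
    (by fun_prop) hδ4 m
  refine ⟨c, hc, fun t ht => ?_⟩
  have hδ4' : ∀ n, Ite (n < m) (dg t n) (Ite (d.F n s 0) (1 : M) 0) < 4 := by
    intro n
    by_cases g1 : n < m
    · rw [Ite_pos g1]; exact dg_lt _ _
    · rw [Ite_neg g1]
      by_cases g2 : d.F n s 0
      · rw [Ite_pos g2]; exact h1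
      · rw [Ite_neg g2]; exact four_pos'
  have hms : m ≤ s := by
    by_contra hlt
    rw [not_le] at hlt
    rcases hk with hk | hk
    · exact hm (Or.inl (d.mono0 _ _ _ hlt.le hk))
    · exact hm (Or.inr (d.mono1 _ _ _ hlt.le hk))
  obtain ⟨t', _, ht'⟩ := exists_digits (S := S)
    (δ := fun n => Ite (n < m) (dg t n) (Ite (d.F n s 0) (1 : M) 0)) (by fun_prop) hδ4' s
  refine ⟨t', fun n hn => ?_, ?_⟩
  · show dg t n = dg t' n
    rw [ht' n (lt_of_lt_of_le hn hms), Ite_pos hn]
  · intro m' hm' n hn hF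
    have hms' : m' ≤ s := by
      by_contra hlt
      rw [not_le] at hlt
      rcases hk with hk | hk
      · exact hm' (Or.inl (d.mono0 _ _ _ hlt.le hk))
      · exact hm' (Or.inr (d.mono1 _ _ _ hlt.le hk))
    have hns : n < s := lt_of_lt_of_le hn hms'
    have hF' := d.monoF _ _ _ _ hms' hF
    rw [ht' n hns] at hF'
    by_cases hnm : n < m
    · rw [Ite_pos hnm] at hF'
      apply ht n hnm
      rw [hcd n hnm]
      rcases lt_four (dg_lt t n) with hv | hv | hv | hv
      · rw [hv] at hF' ⊢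
        rw [Ite_neg (fun g => by
            have := d.uniq _ _ _ _ _ hF' g
            exact zero_ne_one this),
          Ite_neg (fun g => by
            have := d.uniq _ _ _ _ _ hF' g
            norm_num at this),
          Ite_neg (fun g => by
            have := d.uniq _ _ _ _ _ hF' g
            norm_num at this)]
      · rw [hv] at hF' ⊢
        rw [Ite_pos hF']
      · rw [hv] at hF' ⊢
        rw [Ite_neg (fun g => by
            have := d.uniq _ _ _ _ _ hF' g
            norm_num at this),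
          Ite_pos hF']
      · rw [hv] at hF' ⊢
        rw [Ite_neg (fun g => by
            have := d.uniq _ _ _ _ _ hF' g
            norm_num at this),
          Ite_neg (fun g => by
            have := d.uniq _ _ _ _ _ hF' g
            norm_num at this),
          Ite_pos hF']
    · rw [Ite_neg hnm] at hF'
      by_cases g : d.F n s 0
      · rw [Ite_pos g] at hF'
        exact zero_ne_one (d.uniq _ _ _ _ _ g hF')
      · rw [Ite_neg g] at hF'
        exact g hF'

end Dat

end Run7.h915
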