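import Mathlib.Algebra.Order.Ring.Canonical
import Mathlib.Tactic

/-!
# Models of `WKL_0` and Turing reducibility inside them

A structure for the language of second order arithmetic is a set `M` of numbers together with a
family `S` of subsets of `M`.  The number part is a discretely ordered commutative semiring in
which `x ≤ y` iff `y = x + z` for some `z` (this is `P^-`).  Formulas are written with parameters
from the structure: a term may contain a constant for an element of `M`, and an atomic formula
`t ∈ A` may mention a set `A` of the structure.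
-/

namespace Run7.h915

universe u

/-- Terms of arithmetic with parameters from `M`; `var i` is the `i`-th variable (de Bruijn
indexing). -/
inductive Tm (M : Type u) : Type u
  | var (i : ℕ) : Tm M
  | const (c : M) : Tm M
  | add (s t : Tm M) : Tm M
  | mul (s t : Tm M) : Tm M

/-- Bounded (`Δ^0_0`) formulas of second order arithmetic with number parameters from `M` and
set parameters (subsets of `M`).  In `ball t φ` (meaning: for all `a < t`, `φ`) the variable `0`
of `φ` is bound and the other variables are shifted by one. -/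
inductive BFml (M : Type u) : Type u
  | eq (s t : Tm M) : BFml M
  | lt (s t : Tm M) : BFml M
  | mem (t : Tm M) (A : Set M) : BFml M
  | neg (φ : BFml M) : BFml M
  | and (φ ψ : BFml M) : BFml M
  | ball (t : Tm M) (φ : BFml M) : BFml M

/-- The assignment sending variable `0` to `a` and variable `n + 1` to `v n`. -/
def cons {M : Type u} (a : M) (v : ℕ → M) : ℕ → M
  | 0 => a
  | n + 1 => v n

variable {M : Type u}

/-- The value of a term under an assignment of elements of `M` to the variables. -/
def Tm.val [CommSemiring M] (v : ℕ → M) : Tm M → M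
  | Tm.var i => v i
  | Tm.const c => c
  | Tm.add s t => s.val v + t.val v
  | Tm.mul s t => s.val v * t.val v

/-- Truth of a bounded formula under an assignment. -/
def BFml.Holds [CommSemiring M] [LinearOrder M] : BFml M → (ℕ → M) → Prop
  | BFml.eq s t, v => s.val v = t.val v
  | BFml.lt s t, v => s.val v < t.val v
  | BFml.mem t A, v => t.val v ∈ A
  | BFml.neg φ, v => ¬ φ.Holds v
  | BFml.and φ ψ, v => φ.Holds v ∧ ψ.Holds v
  | BFml.ball t φ, v => ∀ a : M, a < t.val v → φ.Holds (cons a v)

/-- All set parameters of the formula belong to the family `S`. -/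
def BFml.SetsIn (S : Set (Set M)) : BFml M → Prop
  | BFml.eq _ _ => True
  | BFml.lt _ _ => True
  | BFml.mem _ A => A ∈ S
  | BFml.neg φ => φ.SetsIn S
  | BFml.and φ ψ => φ.SetsIn S ∧ ψ.SetsIn S
  | BFml.ball _ φ => φ.SetsIn S

section
variable [CommSemiring M] [LinearOrder M]

/-- The set defined by the `Σ^0_1` formula `∃ w, φ(w, x)` (variable `0` of `φ` is `w`, variable
`1` is `x`, the remaining variables are parameters, interpreted by `v`). -/
def sigmaSet (φ : BFml M) (v : ℕ → M) : Set M :=
  {x | ∃ w : M, φ.Holds (cons w (cons x v))}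

/-- `(M, S)` satisfies the induction axiom for every `Σ^0_1` formula with parameters from
`(M, S)`. -/
def SigmaOneInduction (S : Set (Set M)) : Prop :=
  ∀ (φ : BFml M) (v : ℕ → M), φ.SetsIn S →
    (0 : M) ∈ sigmaSet φ v → (∀ x : M, x ∈ sigmaSet φ v → x + 1 ∈ sigmaSet φ v) →
      ∀ x : M, x ∈ sigmaSet φ v

/-- `(M, S)` satisfies the comprehension axiom for every `Δ^0_1` formula with parameters from
`(M, S)`. -/
def DeltaOneComprehension (S : Set (Set M)) : Prop :=
  ∀ (φ ψ : BFml M) (v : ℕ → M), φ.SetsIn S → ψ.SetsIn S →
    (∀ x : M, x ∈ sigmaSet φ v ↔ x ∉ sigmaSet ψ v) → sigmaSet φ v ∈ S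

/-- `T` is a tree of binary strings.  The string `b_1 ... b_n` is coded by the number whose
binary expansion is `1 b_1 ... b_n`, so that the codes are the positive numbers, the empty string
is `1` and the children of `s` are `2 * s` and `2 * s + 1`. -/
def IsBinaryTree (T : Set M) : Prop :=
  (0 : M) ∉ T ∧ ∀ s : M, s ≠ 0 → 2 * s ∈ T ∨ 2 * s + 1 ∈ T → s ∈ T

/-- `P` is (the set of initial segments of) an infinite path through the binary tree `T`. -/
def IsPath (P T : Set M) : Prop :=
  P ⊆ T ∧ IsBinaryTree P ∧ (1 : M) ∈ P ∧
    ∀ s ∈ P, (2 * s ∈ P ∧ 2 * s + 1 ∉ P) ∨ (2 * s ∉ P ∧ 2 * s + 1 ∈ P)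

/-- Weak Koenig's lemma in `(M, S)`: every infinite binary tree has an infinite path. -/
def WeakKoenig (S : Set (Set M)) : Prop :=
  ∀ T ∈ S, IsBinaryTree T → (∀ n : M, ∃ s ∈ T, n ≤ s) → ∃ P ∈ S, IsPath P T

/-- `X ≤_T Y` in the sense of the structure with number part `M`: both `X` and its complement
are defined by `Σ^0_1` formulas whose only set parameter is `Y` (number parameters from `M`
are allowed). -/
def TuringLE (X Y : Set M) : Prop :=
  ∃ (φ ψ : BFml M) (v : ℕ → M), φ.SetsIn {Y} ∧ ψ.SetsIn {Y} ∧
    (∀ x : M, x ∈ X ↔ x ∈ sigmaSet φ v) ∧ (∀ x : M, x ∉ X ↔ x ∈ sigmaSet ψ v)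

end

/-- `(M, S)` is a model of `WKL_0`: `M` is a discretely ordered commutative semiring with
`x ≤ y ↔ ∃ z, y = x + z` (that is `P^-`, expressed by the type classes and the field `disc`),
and `(M, S)` satisfies `Σ^0_1` induction, `Δ^0_1` comprehension and weak Koenig's lemma. -/
structure IsModelWKL0 (M : Type u) [CommSemiring M] [LinearOrder M] [IsStrictOrderedRing M]
    [CanonicallyOrderedAdd M] (S : Set (Set M)) : Prop where
  disc : ∀ x : M, 0 < x → 1 ≤ x
  induction : SigmaOneInduction S
  comprehension : DeltaOneComprehension S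
  koenig : WeakKoenig S

end Run7.h915
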