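import Pool.Agent.Run7.h915.Measure

/-!
# Incomparable sets in models of `WKL_0`
-/

set_option linter.unusedSectionVars false

namespace Run7.h915

universe u v w

variable {M : Type u} [CommSemiring M] [LinearOrder M] [IsStrictOrderedRing M]
  [CanonicallyOrderedAdd M] [Disc M] [IS1 M]

section
variable {S : Set (Set M)} [IndS S]

/-- If all bits of `W` are computed by finite parts of `Z` then so are all finite parts. -/
theorem collect_KK {Z W : Set M} (hZ : Comp S (fun i : M => i ∈ Z))
    (hW : Comp S (fun i : M => i ∈ W)) {e : M}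
    (h : ∀ n, ∃ s, ev e (xs Z s) n = chi (n ∈ W)) (m : M) : ∃ s, KK e (xs Z s) (xs W m) := by
  refine Comp.induct1 (S := S) (Q := fun m s => KK e (xs Z s) (xs W m)) (by fun_prop) ?_ ?_ m
  · refine ⟨0, fun i hi => ?_⟩
    rw [len_xs hW] at hi
    exact absurd hi (not_lt_zero' i)
  · rintro x ⟨s, hs⟩
    obtain ⟨s', hs'⟩ := h x
    refine ⟨max s s', fun i hi => ?_⟩
    rw [len_xs hW] at hi
    show ev e (xs Z (max s s')) i = bit (xs W (x + 1)) i
    rcases (lt_succ.1 hi).lt_or_eq with h1 | h1
    · have h2 : ev e (xs Z s) i = bit (xs W x) i := hs i (by rw [len_xs hW]; exact h1)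
      have h3 : bit (xs W x) i = bit (xs W (x + 1)) i :=
        pre_bit (xs_pos hW _) (pre_xs hW (le_self_add)) (by rw [len_xs hW]; exact h1)
      rw [ev_mono (xs_pos hZ _) (pre_xs hZ (le_max_left s s')) (by rw [h2]; exact bit_lt _ _), h2, h3]
    · subst h1
      have h3 : bit (xs W (i + 1)) i = chi (i ∈ W) := bit_str hW hi
      rw [ev_mono (xs_pos hZ _) (pre_xs hZ (le_max_right s s'))
        (by rw [hs']; exact chi_lt_two hW _), hs', h3]

/-- The canonical branch through a set of strings in which every member has a child. -/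
noncomputable def pz (P : Set M) (n : M) : M := prec 1 (fun _ z => Ite (2 * z ∈ P) (2 * z) (2 * z + 1)) n

theorem pz_prop {P : Set M} (hP : Comp S (fun i : M => i ∈ P)) (h1 : (1 : M) ∈ P)
    (hpos : (0 : M) ∉ P) (hch : ∀ s ∈ P, 2 * s ∈ P ∨ 2 * s + 1 ∈ P) :
    ∃ Z : Set M, Comp S (fun i : M => i ∈ Z) ∧ ∀ n, xs Z n ∈ P := by
  have hk : Comp S (fun z : M × M =>
      (fun (_ z : M) => Ite (2 * z ∈ P) (2 * z) (2 * z + 1)) z.1 z.2) := by
    show Comp S (fun z : M × M => Ite (2 * z.2 ∈ P) (2 * z.2) (2 * z.2 + 1))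
    fun_prop
  have hk3 : Comp S (fun z : M × M × M =>
      (fun (_ _ z : M) => Ite (2 * z ∈ P) (2 * z) (2 * z + 1)) z.1 z.2.1 z.2.2) := by
    show Comp S (fun z : M × M × M => Ite (2 * z.2.2 ∈ P) (2 * z.2.2) (2 * z.2.2 + 1))
    fun_prop
  have hpz : Comp S (fun n => pz P n) :=
    Comp.prec (g := fun _ : M => (1 : M)) (by fun_prop) hk3 (by fun_prop)
  have hz0 : pz P 0 = 1 := prec_zero hk
  have hzs : ∀ n, pz P (n + 1) = Ite (2 * pz P n ∈ P) (2 * pz P n) (2 * pz P n + 1) :=
    fun n => prec_succ hk n
  have hmem : ∀ n, pz P n ∈ P := by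
    intro n
    refine Comp.induct (S := S) (by fun_prop) ?_ ?_ n
    · rw [hz0]; exact h1
    · intro x hx
      rw [hzs]
      by_cases h2 : 2 * pz P x ∈ P
      · rw [Ite_pos h2]; exact h2
      · rw [Ite_neg h2]; exact (hch _ hx).resolve_left h2
  have hzp : ∀ n, 0 < pz P n := fun n =>
    pos_iff_ne_zero.2 (fun h0 => hpos (h0 ▸ hmem n))
  have hlen : ∀ n, len (pz P n) = n := by
    intro n
    refine Comp.induct (S := S) (by fun_prop) ?_ ?_ n
    · rw [hz0]; exact len_one
    · intro x hx
      rw [hzs]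
      by_cases h2 : 2 * pz P x ∈ P
      · have h3 := len_two_mul (hzp x) (b := 0) two_pos
        rw [add_zero] at h3
        rw [Ite_pos h2, h3, hx]
      · rw [Ite_neg h2, len_two_mul (hzp x) one_lt_two, hx]
  have hZ : Comp S (fun i : M => i ∈ {i : M | bit (pz P (i + 1)) i = 1}) := by
    show Comp S (fun i : M => bit (pz P (i + 1)) i = 1)
    fun_prop
  refine ⟨{i | bit (pz P (i + 1)) i = 1}, hZ, ?_⟩
  have heq : ∀ n, xs {i : M | bit (pz P (i + 1)) i = 1} n = pz P n := by
    intro n
    refine Comp.induct (S := S) (by fun_prop) ?_ ?_ n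
    · rw [hz0]; exact str_zero hZ
    · intro x hx
      have h2 : xs {i : M | bit (pz P (i + 1)) i = 1} (x + 1) =
          2 * xs {i : M | bit (pz P (i + 1)) i = 1} x + chi (bit (pz P (x + 1)) x = 1) :=
        str_succ hZ x
      rw [h2, hx, hzs]
      by_cases h3 : 2 * pz P x ∈ P
      · have h4 := bit_last (hzp x) (b := 0) two_pos
        rw [add_zero, hlen] at h4
        rw [Ite_pos h3, h4, chi_false (by simp), add_zero]
      · have h4 := bit_last (hzp x) (b := 1) one_lt_two
        rw [hlen] at h4
        rw [Ite_neg h3, h4, chi_true rfl]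
  intro n
  rw [heq]; exact hmem n

end

section
variable {S : Set (Set M)} [IndS S] {X Z : Set M} (hX : Comp S (fun i : M => i ∈ X))
  (hZ : Comp S (fun i : M => i ∈ Z)) (hT : ∀ n, TT X (xs Z n))
include hX hZ hT

/-- Case A: the path is not computable from `X`. -/
theorem case_A [IndS ({X} : Set (Set M))] : ¬ Comp {X} (fun i : M => i ∈ Z) := by
  intro h
  obtain ⟨r, hr⟩ := ev_univ h
  obtain ⟨s0, hs0⟩ := collect_KK hX hZ (e := r) hr (r + 2)
  have h1 := (hT (max s0 (r + 2))).2.2
  apply h1
  rw [len_xs hZ]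
  refine ⟨r, lt_of_lt_of_le (lt_of_lt_of_le (lt_add_one r) ?_) (le_max_right _ _),
    le_max_right _ _, ?_⟩
  · gcongr; exact one_le_two
  · show KK r (xs X (max s0 (r + 2))) (res (xs Z (max s0 (r + 2))) (r + 2))
    have h2 : res (xs Z (max s0 (r + 2))) (r + 2) = xs Z (r + 2) := res_str hZ (le_max_right _ _)
    rw [h2]
    exact hs0.mono (xs_pos hX _) (pre_xs hX (le_max_left _ _))

/-- Case B: if the path computes `X`, it also computes a set which is incomparable with `X`. -/
theorem case_B [IndS ({X} : Set (Set M))] [IndS ({Z} : Set (Set M))]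
    (hS : ∀ P : M → Prop, Comp S P → {x | P x} ∈ S)
    (hIndY : ∀ Y ∈ S, IndS ({Y} : Set (Set M)))
    (hnc : ¬ Comp (∅ : Set (Set M)) (fun i : M => i ∈ X))
    (h : Comp {Z} (fun i : M => i ∈ X)) :
    ∃ Y ∈ S, ¬ Comp {Y} (fun i : M => i ∈ X) ∧ ¬ Comp {X} (fun i : M => i ∈ Y) := by
  obtain ⟨e, he⟩ := ev_univ h
  have hcol := collect_KK hZ hX (e := e) he
  -- the modulus
  let sk : M → M := fun k => mu (fun s => KK e (xs Z s) (xs X k))
  have hsk : Comp S sk := Comp.mu (P := fun k s => KK e (xs Z s) (xs X k)) (by fun_prop) hcol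
  have hsk1 : ∀ k, KK e (xs Z (sk k)) (xs X k) := fun k =>
    mu_spec (S := S) (P := fun s => KK e (xs Z s) (xs X k)) (by fun_prop) (hcol k)
  have hsk2 : ∀ k s, KK e (xs Z s) (xs X k) → sk k ≤ s := fun k s hs =>
    mu_min (S := S) (P := fun s => KK e (xs Z s) (xs X k)) (by fun_prop) hs
  have hsk3 : ∀ k s, sk k ≤ s → KK e (xs Z s) (xs X k) := fun k s hs =>
    (hsk1 k).mono (xs_pos hZ _) (pre_xs hZ hs)
  have hsk4 : ∀ k k', k ≤ k' → sk k ≤ sk k' := fun k k' hk =>
    hsk2 _ _ ((hsk1 k').anti (xs_pos hX _) (pre_xs hX hk))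
  -- the limit chain
  let rho : M → M := fun k => prec 1 (fun k σ => step X e (sk k) k σ) k
  have hrk : Comp S (fun z : M × M => (fun k σ => step X e (sk k) k σ) z.1 z.2) := by
    show Comp S (fun z : M × M => step X e (sk z.1) z.1 z.2)
    fun_prop
  have hrho : Comp S rho :=
    Comp.prec (g := fun _ : M => (1 : M)) (k := fun (_ k σ : M) => step X e (sk k) k σ)
      (by fun_prop) (by
        show Comp S (fun z : M × M × M => step X e (sk z.2.1) z.2.1 z.2.2)
        fun_prop) (by fun_prop)
  have hr0 : rho 0 = 1 := prec_zero hrk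
  have hrs : ∀ k, rho (k + 1) = step X e (sk k) k (rho k) := fun k => prec_succ hrk k
  have hrp : ∀ k, 0 < rho k := by
    intro k
    refine Comp.induct (S := S) (by fun_prop) ?_ ?_ k
    · rw [hr0]; exact zero_lt_one
    · intro x hx; rw [hrs]; exact (step_prop hX hx).1
  have hrpre : ∀ k d, pre (rho k) (rho (k + d)) := by
    intro k d
    refine Comp.induct (S := S) (by fun_prop) ?_ ?_ d
    · rw [add_zero]; exact pre_refl (hrp k)
    · intro x hx
      have h1 := step_prop hX (e := e) (s := sk (k + x)) (k := k + x) (hrp (k + x))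
      rw [← hrs, add_assoc] at h1
      exact pre_trans h1.1 hx h1.2.1
  have hrlen : ∀ k, k ≤ len (rho k) := by
    intro k
    refine Comp.induct (S := S) (by fun_prop) ?_ ?_ k
    · exact zero_le
    · intro x hx
      rw [hrs]
      exact le_trans (by gcongr) (step_prop hX (hrp x)).2.2
  -- the chains stabilize
  have noB : ∀ s k t, e < s → k < s → t ≤ s → Act X e s k (chain X e s k) →
      T0 X s (chain X e s k) (fs k) = t → sk k ≤ t → False := by
    intro s k t hes hks hts hact ht hskt
    apply (hT s).2.1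
    rw [len_xs hZ]
    refine ⟨e, hes, k, hks, hact, ?_⟩
    have h1 : tt X e s k = t := ht
    show KK e (res (xs Z s) (tt X e s k)) (xs X k)
    rw [h1]
    have h2 : res (xs Z s) t = xs Z t := res_str hZ hts
    rw [h2]
    exact hsk3 k t hskt
  have stab : ∀ s, e < s → ∀ k, (k ≤ s ∧ Ball k (fun k' => sk k' ≤ s)) →
      chain X e s k = rho k := by
    intro s hes k
    refine Comp.induct (S := S) (Comp.imp (by fun_prop) (by fun_prop)) ?_ ?_ k
    · intro _; rw [hr0, chain_zero hX]
    · rintro x ih ⟨hxs, hball⟩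
      have hxs' := succ_le.1 hxs
      have h1 := ih ⟨hxs'.le, fun k' hk' => hball k' (lt_trans hk' (lt_add_one x))⟩
      have h2 : sk x ≤ s := hball x (lt_add_one x)
      rw [chain_succ hX, hrs, h1]
      by_cases h3 : T0 X (sk x) (rho x) (fs x) ≤ sk x
      · exact (step_congr hX h2 h3).2
      · have h4 : ¬ Act X e (sk x) x (rho x) := fun h5 => h3 h5.2.1
        have h5 : ¬ Act X e s x (rho x) := by
          intro h6
          rw [not_le] at h3
          have h7 := T0_gt hX h2 h3
          refine noB s x (T0 X s (rho x) (fs x)) hes hxs' h6.2.1 (by rw [h1]; exact h6)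
            (by rw [h1]) h7.le
        unfold step
        rw [Ite_neg h4, Ite_neg h5]
  -- genericity
  have gen : ∀ j, (∃ k, DD X j (rho k)) ∨ (∃ k, ∀ τ, 0 < τ → pre (rho k) τ → ¬ DD X j τ) := by
    intro j
    by_contra hc
    push Not at hc
    obtain ⟨hc1, hc2⟩ := hc
    apply hnc
    apply sacks hX (e := e) (q := pr e j + 2)
    intro n
    let k : M := pr j n
    have hfk : fs k = j := fs_pr j n
    have hnk : n ≤ k := le_pr_right j n
    obtain ⟨τ, hτ, hpre, hDD⟩ := hc2 k
    have hex : ∃ t, Hit X (rho k) j t := ⟨len τ, Hit_iff.2 ⟨τ, hτ, rfl, hpre, hDD⟩⟩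
    obtain ⟨t, ht1, ht2⟩ := Comp.lnp (S := S) (P := fun t => Hit X (rho k) j t) (by fun_prop) hex
    have hT0 : ∀ s, t ≤ s → T0 X s (rho k) j = t := by
      intro s hs
      refine mu_eq (P := fun t => Hit X (rho k) j t ∨ s < t) (Or.inl ht1) ?_
      intro y hy h2
      rcases h2 with h2 | h2
      · exact ht2 y hy h2
      · exact absurd (lt_trans h2 hy) (not_lt.2 hs)
    refine ⟨t, ?_⟩
    suffices hV : VV e (pr e j + 2) (xs X k) t from
      hV.anti (xs_pos hX k) (pre_xs hX hnk)
    by_contra hV
    unfold VV at hV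
    rw [not_lt] at hV
    have hAct : ∀ s, t ≤ s → Act X e s k (rho k) := by
      intro s hs
      unfold Act
      rw [hfk, hT0 s hs]
      exact ⟨hc1 k, hs, hV⟩
    rcases le_or_gt t (sk k) with h1 | h1
    · have h2 := step_act hX (hAct _ h1)
      rw [hfk, ← hrs] at h2
      exact hc1 _ h2
    · let s : M := max t (max (e + 1) (k + 1))
      have hts : t ≤ s := le_max_left _ _
      have hes : e < s := lt_of_lt_of_le (lt_add_one e) ((le_max_left _ _).trans (le_max_right _ _))
      have hks : k < s := lt_of_lt_of_le (lt_add_one k) ((le_max_right _ _).trans (le_max_right _ _))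
      have h2 : chain X e s k = rho k := by
        refine stab s hes k ⟨hks.le, fun k' hk' => ?_⟩
        exact (hsk4 _ _ hk'.le).trans (h1.le.trans hts)
      exact noB s k t hes hks hts (by rw [h2]; exact hAct s hts) (by rw [h2, hfk]; exact hT0 s hts)
        h1.le
  -- the set
  have hYc : Comp S (fun n : M => bit (rho (n + 1)) n = 1) := by fun_prop
  let Y : Set M := {n | bit (rho (n + 1)) n = 1}
  have hY : Comp S (fun n : M => n ∈ Y) := hYc
  have hYS : Y ∈ S := hS _ hYc
  haveI := hIndY Y hYS
  have hxsY : ∀ k, xs Y (len (rho k)) = rho k := by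
    intro k
    apply str_ext (xs_pos hY _) (hrp k) (len_xs hY _)
    intro i hi
    rw [len_xs hY] at hi
    have h1 : bit (xs Y (len (rho k))) i = chi (i ∈ Y) := bit_str hY hi
    have h2 : bit (rho k) i = bit (rho (i + 1)) i := by
      have hi2 : i < len (rho (i + 1)) := lt_of_lt_of_le (lt_add_one i) (hrlen _)
      rcases le_total k (i + 1) with h3 | h3
      · obtain ⟨d, hd⟩ := le_iff_exists_add.1 h3
        exact pre_bit (hrp _) (by rw [hd]; exact hrpre _ _) hi
      · obtain ⟨d, hd⟩ := le_iff_exists_add.1 h3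
        exact (pre_bit (hrp _) (by rw [hd]; exact hrpre _ _) hi2).symm
    rw [h1, h2]
    rcases lt_two.1 (bit_lt (rho (i + 1)) i) with h3 | h3
    · rw [h3, chi_false]
      show ¬ bit (rho (i + 1)) i = 1
      rw [h3]; exact zero_ne_one
    · rw [h3, chi_true]
      exact h3
  refine ⟨Y, hYS, ?_, ?_⟩
  · -- X is not computable from Y
    intro hc
    obtain ⟨i, hi⟩ := ev_univ hc
    rcases gen (pr 0 i) with ⟨k, hk⟩ | ⟨k, hk⟩
    · rcases hk with ⟨_, n, hn, h2⟩ | ⟨h1, _⟩
      · rw [sn_pr] at h2
        obtain ⟨s, hs⟩ := hi n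
        have h3 : ev i (rho k) n = chi (¬ n ∈ X) := h2
        rw [← hxsY k] at h3
        have h4 : ev i (xs Y (len (rho k))) n = ev i (xs Y s) n :=
          ev_unique (r := xs Y (max (len (rho k)) s)) (xs_pos hY _)
            (pre_xs hY (le_max_left _ _)) (pre_xs hY (le_max_right _ _))
            (by rw [h3]; exact chi_lt_two hY _) (by rw [show ev i (xs Y s) n = _ from hs];
                                                    exact chi_lt_two hY _)
        rw [h3, show ev i (xs Y s) n = _ from hs] at h4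
        by_cases hn : n ∈ X
        · rw [chi_true hn, chi_false (by simpa using hn)] at h4
          exact zero_ne_one h4
        · rw [chi_false hn, chi_true hn] at h4
          exact one_ne_zero h4
      · exact h1 (fs_pr _ _)
    · apply hnc
      have key : ∀ n τ, 0 < τ → pre (rho k) τ → n < len τ → ev i τ n < 2 →
          ev i τ n = chi (n ∈ X) := by
        intro n τ h1 h2 h3 h4
        have h5 := hk τ h1 h2
        have h6 : ev i τ n ≠ chi (¬ n ∈ X) := by
          intro h7
          exact h5 (Or.inl ⟨fs_pr _ _, n, h3, by rw [sn_pr]; exact h7⟩)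
        rcases lt_two.1 h4 with h7 | h7
        · rw [h7] at h6 ⊢
          rw [chi_false]
          intro h8
          exact h6 (chi_false (by simpa using h8)).symm
        · rw [h7] at h6 ⊢
          rw [chi_true]
          by_contra h8
          exact h6 (chi_true h8).symm
      have ex : ∀ n, ∃ τ, 0 < τ ∧ pre (rho k) τ ∧ n < len τ ∧ ev i τ n = chi (n ∈ X) := by
        intro n
        obtain ⟨s, hs⟩ := hi n
        refine ⟨xs Y (max s (max (n + 1) (len (rho k)))), xs_pos hY _, ?_, ?_, ?_⟩
        · have h1 := pre_xs hY (m := len (rho k)) (n := max s (max (n + 1) (len (rho k))))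
            ((le_max_right _ _).trans (le_max_right _ _))
          rwa [hxsY] at h1
        · rw [len_xs hY]
          exact lt_of_lt_of_le (lt_add_one n) ((le_max_left _ _).trans (le_max_right _ _))
        · rw [ev_mono (s := xs Y s) (xs_pos hY _) (pre_xs hY (le_max_left _ _))
            (by rw [show ev i (xs Y s) n = _ from hs]; exact chi_lt_two hY _)]
          exact hs
      refine Comp.of_re (S := ∅)
        (Q := fun n τ => 0 < τ ∧ pre (rho k) τ ∧ n < len τ ∧ ev i τ n = 1)
        (R := fun n τ => 0 < τ ∧ pre (rho k) τ ∧ n < len τ ∧ ev i τ n = 0)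
        (by fun_prop) (by fun_prop) ?_ ?_
      · intro n
        constructor
        · intro hn
          obtain ⟨τ, h1, h2, h3, h4⟩ := ex n
          exact ⟨τ, h1, h2, h3, by rw [h4, chi_true hn]⟩
        · rintro ⟨τ, h1, h2, h3, h4⟩
          have h5 := key n τ h1 h2 h3 (by rw [h4]; exact one_lt_two)
          rw [h4] at h5
          exact chi_eq_one.1 h5.symm
      · intro n
        constructor
        · intro hn
          obtain ⟨τ, h1, h2, h3, h4⟩ := ex n
          exact ⟨τ, h1, h2, h3, by rw [h4, chi_false hn]⟩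
        · rintro ⟨τ, h1, h2, h3, h4⟩
          have h5 := key n τ h1 h2 h3 (by rw [h4]; exact two_pos)
          rw [h4] at h5
          exact chi_eq_zero.1 h5.symm
  · -- Y is not computable from X
    intro hc
    obtain ⟨i, hi⟩ := ev_univ hc
    rcases gen (pr 1 i) with ⟨k, hk⟩ | ⟨k, hk⟩
    · rcases hk with ⟨h1, _⟩ | ⟨_, n, hn, h2⟩
      · rw [fs_pr] at h1; exact one_ne_zero h1
      · rw [sn_pr] at h2
        obtain ⟨s, hs⟩ := hi n
        have h3 : ev i (xs X (len (rho k))) n = chi (bit (rho k) n = 0) := h2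
        have h4 : ev i (xs X (len (rho k))) n = ev i (xs X s) n :=
          ev_unique (r := xs X (max (len (rho k)) s)) (xs_pos hX _)
            (pre_xs hX (le_max_left _ _)) (pre_xs hX (le_max_right _ _))
            (by rw [h3]; exact chi_lt_two hX _) (by rw [show ev i (xs X s) n = _ from hs];
                                                    exact chi_lt_two hX _)
        rw [h3, show ev i (xs X s) n = _ from hs] at h4
        have h5 : bit (rho k) n = chi (n ∈ Y) := by
          rw [← hxsY k]; exact bit_str hY hn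
        rw [h5] at h4
        by_cases hn : n ∈ Y
        · rw [chi_true hn, chi_false one_ne_zero] at h4
          exact zero_ne_one h4
        · rw [chi_false hn, chi_true rfl] at h4
          exact one_ne_zero h4
    · obtain ⟨s, hs⟩ := hi (len (rho k))
      let n : M := len (rho k)
      let m : M := max s (n + 1)
      have hnm : n < m := lt_of_lt_of_le (lt_add_one n) (le_max_right _ _)
      have hQ : Comp S (fun i : M => (i < n ∧ i ∈ Y) ∨ (i = n ∧ ¬ n ∈ Y)) := by fun_prop
      let τ : M := str (fun i => (i < n ∧ i ∈ Y) ∨ (i = n ∧ ¬ n ∈ Y)) m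
      have hτ : 0 < τ := str_pos hQ m
      have hτl : len τ = m := len_str hQ m
      refine hk τ hτ ?_ ?_
      · apply pre_of_bits (hrp k) hτ
        · rw [hτl]; exact hnm.le
        · intro j hj
          have h1 : bit τ j = chi ((j < n ∧ j ∈ Y) ∨ (j = n ∧ ¬ n ∈ Y)) :=
            bit_str hQ (lt_trans hj hnm)
          have h2 : bit (rho k) j = chi (j ∈ Y) := by
            rw [← hxsY k]; exact bit_str hY hj
          rw [h1, h2]
          congr 1
          apply propext
          constructor
          · intro h3; exact Or.inl ⟨hj, h3⟩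
          · rintro (h3 | h3)
            · exact h3.2
            · exact absurd h3.1 (ne_of_lt hj)
      · right
        refine ⟨by rw [fs_pr]; exact one_ne_zero, n, by rw [hτl]; exact hnm, ?_⟩
        show ev (sn (pr 1 i)) (xs X (len τ)) n = chi (bit τ n = 0)
        rw [sn_pr, hτl]
        have h1 : bit τ n = chi ((n < n ∧ n ∈ Y) ∨ (n = n ∧ ¬ n ∈ Y)) := bit_str hQ hnm
        have h2 : ev i (xs X m) n = ev i (xs X s) n :=
          ev_mono (xs_pos hX _) (pre_xs hX (le_max_left _ _))
            (by rw [show ev i (xs X s) n = _ from hs]; exact chi_lt_two hX _)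
        rw [h1, h2, show ev i (xs X s) n = chi (n ∈ Y) from hs]
        by_cases h3 : n ∈ Y
        · rw [chi_true h3, chi_true]
          rw [chi_false]
          rintro (h4 | h4)
          · exact lt_irrefl _ h4.1
          · exact h4.2 h3
        · rw [chi_false h3, chi_false]
          rw [chi_true (Or.inr ⟨rfl, h3⟩)]
          exact one_ne_zero

end

end Run7.h915
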