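import Pool.Agent.Run7.h915.Chain

/-!
# The tree is infinite
-/

set_option linter.unusedSectionVars false

namespace Run7.h915

universe u v w

variable {M : Type u} [CommSemiring M] [LinearOrder M] [IsStrictOrderedRing M]
  [CanonicallyOrderedAdd M] [Disc M] [IS1 M]

section
variable {S : Set (Set M)} [IndS S] {P Q : M → Prop}

theorem lev_false {t : M} (hP : Comp S P) (h : ∀ z, 0 < z → len z = t → ¬ P z) : lev P t = 0 := by
  have h1 := lev_or_disj (t := t) hP hP (fun z hz hl hp => h z hz hl hp.1)
  have h2 : lev (fun z => P z ∨ P z) t = lev P t :=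
    lev_congr (by fun_prop) hP (fun z _ _ => by tauto)
  rw [h2] at h1
  have h3 : lev P t + 0 = lev P t + lev P t := by rw [add_zero]; exact h1
  exact (add_left_cancel h3).symm

theorem cnt_single_le (a n : M) : cnt (fun i => i = a) n ≤ chi (a < n) := by
  have hc : Comp (∅ : Set (Set M)) (fun i => i = a) := by fun_prop
  refine Comp.induct (S := ∅) (by fun_prop) ?_ ?_ n
  · rw [cnt_zero hc]; exact zero_le
  · intro x hx
    rw [cnt_succ hc]
    rcases lt_trichotomy a x with h | h | h
    · rw [chi_false (show ¬ x = a from h.ne'), add_zero,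
        chi_true (show a < x + 1 from lt_trans h (lt_add_one x))]
      rw [chi_true h] at hx
      exact hx
    · subst h
      rw [chi_false (lt_irrefl a)] at hx
      rw [chi_true rfl, chi_true (lt_add_one a)]
      calc cnt (fun i => i = a) a + 1 ≤ 0 + 1 := by gcongr
        _ = 1 := by ring
    · rw [chi_false (show ¬ x = a from h.ne), add_zero]
      rw [chi_false (show ¬ a < x from not_lt.2 h.le)] at hx
      exact hx.trans zero_le

theorem chi_le_one (p : Prop) : (chi p : M) ≤ 1 := by
  by_cases h : p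
  · rw [chi_true h]
  · rw [chi_false h]; exact zero_le

theorem lev_le_one {t : M} (hP : Comp S P)
    (h : ∀ z z', 0 < z → len z = t → 0 < z' → len z' = t → P z → P z' → z = z') :
    lev P t ≤ 1 := by
  by_cases hex : ∃ z, 0 < z ∧ len z = t ∧ P z
  · obtain ⟨z, hz, hl, hp⟩ := hex
    obtain ⟨i, hi, hzi⟩ := string_iff.1 ⟨hz, hl⟩
    have h1 : Comp S (fun j => P (exp2 t + j)) := lev_comp_aux hP t
    have h2 : cnt (fun j => P (exp2 t + j)) (exp2 t) ≤ cnt (fun j => j = i) (exp2 t) := by
      refine cnt_mono h1 (by fun_prop) (fun j hj hpj => ?_)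
      obtain ⟨h3, h4⟩ := string_iff.2 ⟨j, hj, rfl⟩
      have h5 := h _ _ h3 h4 hz hl hpj hp
      rw [hzi] at h5
      exact add_left_cancel h5
    exact h2.trans ((cnt_single_le _ _).trans (chi_le_one _))
  · rw [lev_false hP (fun z hz hl hp => hex ⟨z, hz, hl, hp⟩)]
    exact zero_le

theorem lev_res {t : M} (hP : Comp S P) (d : M) :
    lev (fun z => P (res z t)) (t + d) ≤ lev P t * exp2 d := by
  have h1 : Comp S (fun z => P (res z t)) := Comp.comp hP (by fun_prop)
  refine Comp.induct (S := S) (by fun_prop) ?_ ?_ d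
  · rw [add_zero, exp2_zero, mul_one]
    refine lev_mono h1 hP (fun z hz hl hp => ?_)
    rw [← hl, res_len hz] at hp
    exact hp
  · intro x hx
    rw [← add_assoc, exp2_succ]
    have h2 : lev (fun z => P (res z t)) (t + x + 1) ≤ 2 * lev (fun z => P (res z t)) (t + x) := by
      refine lev_down h1 h1 (fun z hz hl hp => ?_)
      have h3 : t ≤ len z := by rw [hl]; exact le_self_add
      rcases hp with hp | hp
      · have h4 := res_two_mul hz (b := 0) two_pos h3
        rw [add_zero] at h4
        rwa [h4] at hp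
      · rwa [res_two_mul hz one_lt_two h3] at hp
    calc lev (fun z => P (res z t)) (t + x + 1) ≤ 2 * lev (fun z => P (res z t)) (t + x) := h2
      _ ≤ 2 * (lev P t * exp2 x) := by gcongr
      _ = _ := by ring

theorem union_bound {A : M → M → Prop} (hA : Comp S (fun z : M × M => A z.1 z.2)) {s m : M}
    (h : ∀ q < m, lev (fun z => A q z) s * exp2 (q + 2) ≤ exp2 s) :
    lev (fun z => Bex m (fun q => A q z)) s * 2 < exp2 s := by
  have hAq : ∀ q, Comp S (fun z => A q z) := fun q => by
    exact Comp.comp (f := fun z : M × M => A z.1 z.2) (g := fun z => (q, z)) hA (by fun_prop)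
  have hAz : Comp S (fun z : M × M => A z.2 z.1) :=
    Comp.comp (f := fun z : M × M => A z.1 z.2) (g := fun z : M × M => (z.2, z.1)) hA (by fun_prop)
  have hAz2 : Comp S (fun z : (M × M) × M => A z.2 z.1.2) :=
    Comp.comp (f := fun z : M × M => A z.1 z.2) (g := fun z : (M × M) × M => (z.2, z.1.2)) hA
      (by fun_prop)
  have hB : ∀ n, Comp S (fun z => Bex n (fun q => A q z)) := fun n => by fun_prop
  have key : ∀ n : M, n ≤ m →
      lev (fun z => Bex n (fun q => A q z)) s * exp2 (n + 1) + exp2 s ≤ exp2 n * exp2 s := by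
    intro n
    refine Comp.induct (S := S) (Comp.imp (by fun_prop) (by fun_prop)) ?_ ?_ n
    · intro _
      rw [lev_false (hB 0) (fun z _ _ hz => by
        obtain ⟨i, hi, _⟩ := hz; exact not_lt_zero' _ hi), exp2_zero]
      simp
    · intro x ih hx
      have hx' := succ_le.1 hx
      have h1 : lev (fun z => Bex (x + 1) (fun q => A q z)) s ≤
          lev (fun z => Bex x (fun q => A q z)) s + lev (fun z => A x z) s := by
        refine le_trans (lev_mono (Q := fun z => Bex x (fun q => A q z) ∨ A x z) (hB _)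
          ((hB x).or (hAq x)) (fun z _ _ hz => ?_)) (lev_or (hB x) (hAq x) s)
        obtain ⟨i, hi, hi2⟩ := hz
        rcases (lt_succ.1 hi).lt_or_eq with h3 | h3
        · exact Or.inl ⟨i, h3, hi2⟩
        · subst h3; exact Or.inr hi2
      have h2 := ih hx'.le
      have h3 := h x hx'
      have e2 : exp2 (x + 2) = exp2 (x + 1 + 1) := by congr 1; ring
      rw [e2] at h3
      calc lev (fun z => Bex (x + 1) (fun q => A q z)) s * exp2 (x + 1 + 1) + exp2 s
          ≤ (lev (fun z => Bex x (fun q => A q z)) s + lev (fun z => A x z) s) *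
            exp2 (x + 1 + 1) + exp2 s := by gcongr
        _ = 2 * (lev (fun z => Bex x (fun q => A q z)) s * exp2 (x + 1)) +
            lev (fun z => A x z) s * exp2 (x + 1 + 1) + exp2 s := by
            rw [exp2_succ (x + 1)]; ring
        _ ≤ 2 * (lev (fun z => Bex x (fun q => A q z)) s * exp2 (x + 1)) + exp2 s + exp2 s := by
            gcongr
        _ = 2 * (lev (fun z => Bex x (fun q => A q z)) s * exp2 (x + 1) + exp2 s) := by ring
        _ ≤ 2 * (exp2 x * exp2 s) := by gcongr
        _ = exp2 (x + 1) * exp2 s := by rw [exp2_succ]; ring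
  have h1 := key m le_rfl
  have h2 := exp2_pos s
  have h3 := exp2_pos m
  by_contra hc
  rw [not_lt] at hc
  have h4 : exp2 m * exp2 s + exp2 s ≤ exp2 m * exp2 s := by
    calc exp2 m * exp2 s + exp2 s ≤ exp2 m * (lev (fun z => Bex m (fun q => A q z)) s * 2) +
          exp2 s := by gcongr
      _ = lev (fun z => Bex m (fun q => A q z)) s * exp2 (m + 1) + exp2 s := by
          rw [exp2_succ]; ring
      _ ≤ _ := h1
  exact absurd h4 (not_le.2 (lt_add_of_pos_right _ h2))

variable {X : Set M} (hX : Comp S (fun i : M => i ∈ X))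
include hX

theorem CC_bound (s : M) : lev (fun z => CC X s z) s * 2 < exp2 s := by
  refine union_bound (S := S) (A := fun r z => r + 2 ≤ s ∧ KK r (xs X s) (res z (r + 2)))
    (by fun_prop) (fun r _ => ?_)
  by_cases hr : r + 2 ≤ s
  · obtain ⟨d, hd⟩ := le_iff_exists_add.1 hr
    have h1 : lev (fun z => r + 2 ≤ s ∧ KK r (xs X s) (res z (r + 2))) s ≤
        lev (fun z => KK r (xs X s) (res z (r + 2))) s :=
      lev_mono (S := S) (by fun_prop) (by fun_prop) (fun z _ _ h => h.2)
    have h2 : lev (fun z => KK r (xs X s) (res z (r + 2))) (r + 2 + d) ≤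
        lev (fun z => KK r (xs X s) z) (r + 2) * exp2 d :=
      lev_res (S := S) (P := fun z => KK r (xs X s) z) (by fun_prop) d
    have h3 : lev (fun z => KK r (xs X s) z) (r + 2) ≤ 1 := by
      refine lev_le_one (S := S) (by fun_prop) (fun z z' hz hl hz' hl' h h' => ?_)
      exact pre_eq hz' (h.pre hz hz' (by rw [hl, hl']) h') (by rw [hl, hl'])
    rw [← hd] at h2
    calc lev (fun z => r + 2 ≤ s ∧ KK r (xs X s) (res z (r + 2))) s * exp2 (r + 2)
        ≤ (lev (fun z => KK r (xs X s) z) (r + 2) * exp2 d) * exp2 (r + 2) := by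
          gcongr
          exact h1.trans h2
      _ ≤ (1 * exp2 d) * exp2 (r + 2) := by gcongr
      _ = exp2 s := by rw [hd, exp2_add (r + 2) d]; ring
  · rw [lev_false (S := S) (by fun_prop) (fun z _ _ h => hr h.1), zero_mul]
    exact zero_le

theorem ACT_unique {e s k k' : M} (hk : fs k = fs k') (h : ACT X e s k) (h' : ACT X e s k') :
    k = k' := by
  have main : ∀ k k' : M, fs k = fs k' → ACT X e s k → ACT X e s k' → k < k' → False := by
    intro k k' hk h h' hlt
    have h1 := step_act hX h
    rw [← chain_succ hX] at h1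
    obtain ⟨d, hd⟩ := le_iff_exists_add.1 (succ_le.2 hlt)
    have h2 : DD X (fs k) (chain X e s k') := by
      rw [hd]
      exact h1.mono hX (chain_pos hX _ _ _) (chain_pre hX _ _ _ _)
    rw [hk] at h2
    exact h'.1 h2
  rcases lt_trichotomy k k' with h1 | h1 | h1
  · exact (main k k' hk h h' h1).elim
  · exact h1
  · exact (main k' k hk.symm h' h h1).elim

theorem pr_lt_of {e j s : M} (he : e < s) (hj : j < s) : pr e j < pr s s + 1 := by
  rw [lt_succ]
  unfold pr
  gcongr

theorem BB_bound (s : M) : lev (fun z => BB X s z) s * 2 < exp2 s := by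
  let A : M → M → Prop := fun q z => Bex s (fun e => Bex s (fun k => q = pr e (fs k) ∧
    ACT X e s k ∧ KK e (res z (tt X e s k)) (xs X k)))
  have hA : Comp S (fun z : M × M => A z.1 z.2) := by
    show Comp S (fun z : M × M => Bex s (fun e => Bex s (fun k => z.1 = pr e (fs k) ∧
      ACT X e s k ∧ KK e (res z.2 (tt X e s k)) (xs X k))))
    fun_prop
  have hAq : ∀ q, Comp S (fun z => A q z) := fun q =>
    Comp.comp (f := fun z : M × M => A z.1 z.2) (g := fun z => (q, z)) hA (by fun_prop)
  have hAz : Comp S (fun z : M × M => A z.2 z.1) :=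
    Comp.comp (f := fun z : M × M => A z.1 z.2) (g := fun z : M × M => (z.2, z.1)) hA (by fun_prop)
  have h0 : lev (fun z => BB X s z) s ≤
      lev (fun z => Bex (pr s s + 1) (fun q => A q z)) s := by
    refine lev_mono (S := S) (by fun_prop) (by fun_prop) (fun z _ _ h => ?_)
    obtain ⟨e, he, k, hk, h1, h2⟩ := h
    exact ⟨pr e (fs k), pr_lt_of hX he (lt_of_le_of_lt (fs_le k) hk), e, he, k, hk, rfl, h1, h2⟩
  have h1 : lev (fun z => Bex (pr s s + 1) (fun q => A q z)) s * 2 < exp2 s := by
    refine union_bound (S := S) hA (fun q _ => ?_)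
    by_cases hex : ∃ e < s, ∃ k < s, q = pr e (fs k) ∧ ACT X e s k
    · obtain ⟨e, he, k, hk, hq, hact⟩ := hex
      have ht : tt X e s k ≤ s := hact.2.1
      obtain ⟨d, hd⟩ := le_iff_exists_add.1 ht
      have h2 : lev (fun z => A q z) s ≤ lev (fun z => KK e (res z (tt X e s k)) (xs X k)) s := by
        refine lev_mono (S := S) (hAq q) (by fun_prop) (fun z _ _ h => ?_)
        obtain ⟨e', he', k', hk', hq', hact', hK⟩ := h
        rw [hq] at hq'
        obtain ⟨e1, e2⟩ := pr_inj hq'
        subst e1
        have e3 := ACT_unique hX e2 hact hact'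
        subst e3
        exact hK
      have h3 : lev (fun z => KK e (res z (tt X e s k)) (xs X k)) (tt X e s k + d) ≤
          cK e (xs X k) (tt X e s k) * exp2 d :=
        lev_res (S := S) (P := fun z => KK e z (xs X k)) (by fun_prop) d
      rw [← hd] at h3
      have h4 : cK e (xs X k) (tt X e s k) * exp2 (pr e (fs k) + 2) ≤ exp2 (tt X e s k) :=
        hact.2.2
      calc lev (fun z => A q z) s * exp2 (q + 2)
          ≤ (cK e (xs X k) (tt X e s k) * exp2 d) * exp2 (q + 2) := by
            gcongr
            exact h2.trans h3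
        _ = (cK e (xs X k) (tt X e s k) * exp2 (pr e (fs k) + 2)) * exp2 d := by rw [hq]; ring
        _ ≤ exp2 (tt X e s k) * exp2 d := by gcongr
        _ = exp2 s := by rw [← exp2_add, ← hd]
    · rw [lev_false (hAq q) (fun z _ _ h => ?_), zero_mul]
      · exact zero_le
      · obtain ⟨e, he, k, hk, hq, hact, _⟩ := h
        exact hex ⟨e, he, k, hk, hq, hact⟩
  exact lt_of_le_of_lt (by gcongr) h1

theorem TT_ex (s : M) : ∃ z, TT X z ∧ len z = s := by
  have h1 := BB_bound hX s
  have h2 := CC_bound hX s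
  have h3 : lev (fun z => BB X s z ∨ CC X s z) s < exp2 s := by
    have h4 : lev (fun z => BB X s z ∨ CC X s z) s ≤ lev (fun z => BB X s z) s +
        lev (fun z => CC X s z) s := lev_or (S := S) (by fun_prop) (by fun_prop) s
    by_contra hc
    rw [not_lt] at hc
    have h5 := hc.trans h4
    have h6 : exp2 s + exp2 s < exp2 s + exp2 s := by
      calc exp2 s + exp2 s ≤ (lev (fun z => BB X s z) s + lev (fun z => CC X s z) s) +
            (lev (fun z => BB X s z) s + lev (fun z => CC X s z) s) := by gcongr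
        _ = lev (fun z => BB X s z) s * 2 + lev (fun z => CC X s z) s * 2 := by ring
        _ < exp2 s + exp2 s := add_lt_add h1 h2
    exact lt_irrefl _ h6
  obtain ⟨z, hz, hl, h4⟩ := lev_lt_ex (S := S) (by fun_prop) h3
  push Not at h4
  refine ⟨z, ⟨hz, ?_, ?_⟩, hl⟩
  · rw [hl]; exact h4.1
  · rw [hl]; exact h4.2

theorem TT_unbounded (n : M) : ∃ z, TT X z ∧ n ≤ z := by
  obtain ⟨z, hz, hl⟩ := TT_ex hX n
  refine ⟨z, hz, ?_⟩
  have := len_lt_self hz.1
  rw [hl] at this
  exact this.le

end

end Run7.h915
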