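import Pool.Agent.Run7.h915.Str
import Mathlib.Algebra.Order.Ring.Cone
import Mathlib.RingTheory.Localization.FractionRing

/-!
# The ordered field of rational numbers of a model
-/

set_option linter.unusedSectionVars false

namespace Run7.h915

universe u v w

section Field

variable (M : Type u) [CommSemiring M] [LinearOrder M] [IsStrictOrderedRing M]
  [CanonicallyOrderedAdd M]

/-- The field of fractions of the ring of differences of `M`. -/
def QF : Type u := FractionRing (ZR M)

noncomputable instance : Field (QF M) := inferInstanceAs (Field (FractionRing (ZR M)))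

variable {M}

/-- The embedding of the ring of differences. -/
noncomputable def zq : ZR M →+* QF M := algebraMap (ZR M) (FractionRing (ZR M))

theorem zq_inj {a b : ZR M} (h : zq a = zq b) : a = b :=
  IsFractionRing.injective (ZR M) (FractionRing (ZR M)) h

theorem zq_ne_zero {a : ZR M} (h : a ≠ 0) : zq a ≠ 0 := by
  intro h2
  exact h (zq_inj (by rw [h2, map_zero]))

theorem qf_rep (x : QF M) : ∃ a b : ZR M, 0 < b ∧ x = zq a / zq b := by
  obtain ⟨a, b, hb, rfl⟩ := IsFractionRing.div_surjective (A := ZR M) (K := FractionRing (ZR M)) x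
  have hb0 : b ≠ 0 := nonZeroDivisors.ne_zero hb
  rcases lt_or_gt_of_ne hb0 with h | h
  · refine ⟨-a, -b, neg_pos.2 h, ?_⟩
    rw [map_neg, map_neg, neg_div_neg_eq]
    rfl
  · exact ⟨a, b, h, rfl⟩

variable (M) in
/-- The cone of nonnegative elements. -/
noncomputable def qfCone : RingCone (QF M) where
  carrier := {x | ∃ a b : ZR M, 0 ≤ a ∧ 0 < b ∧ x = zq a / zq b}
  mul_mem' := by
    rintro x y ⟨a, b, ha, hb, rfl⟩ ⟨c, d, hc, hd, rfl⟩
    refine ⟨a * c, b * d, mul_nonneg ha hc, mul_pos hb hd, ?_⟩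
    rw [map_mul, map_mul, div_mul_div_comm]
  one_mem' := ⟨1, 1, zero_le_one, one_pos, by simp⟩
  add_mem' := by
    rintro x y ⟨a, b, ha, hb, rfl⟩ ⟨c, d, hc, hd, rfl⟩
    refine ⟨a * d + b * c, b * d, add_nonneg (mul_nonneg ha hd.le) (mul_nonneg hb.le hc),
      mul_pos hb hd, ?_⟩
    rw [map_add, map_mul, map_mul, map_mul, div_add_div _ _ (zq_ne_zero hb.ne') (zq_ne_zero hd.ne')]
  zero_mem' := ⟨0, 1, le_rfl, one_pos, by simp⟩
  eq_zero_of_mem_of_neg_mem' := by
    rintro x ⟨a, b, ha, hb, rfl⟩ ⟨c, d, hc, hd, h⟩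
    have hb' := zq_ne_zero hb.ne'
    have hd' := zq_ne_zero hd.ne'
    rw [← neg_div, div_eq_div_iff hb' hd', ← map_neg, ← map_mul, ← map_mul] at h
    have h2 := zq_inj h
    have h3 : a * d ≤ 0 := by
      have := mul_nonneg hc hb.le
      linarith
    have h4 : a ≤ 0 := by
      by_contra h5
      have := mul_pos (not_le.1 h5) hd
      linarith
    have h5 : a = 0 := le_antisymm h4 ha
    rw [h5]; simp

instance : HasMemOrNegMem (qfCone M) := ⟨by
  intro x
  obtain ⟨a, b, hb, rfl⟩ := qf_rep x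
  rcases le_total 0 a with h | h
  · exact Or.inl ⟨a, b, h, hb, rfl⟩
  · exact Or.inr ⟨-a, b, neg_nonneg.2 h, hb, by rw [map_neg, neg_div]⟩⟩

open Classical in
noncomputable instance : LinearOrder (QF M) := LinearOrder.mkOfAddGroupCone (qfCone M)

instance : IsOrderedRing (QF M) := IsOrderedRing.mkOfCone (qfCone M)

instance : IsStrictOrderedRing (QF M) := IsOrderedRing.toIsStrictOrderedRing _

theorem zq_nonneg {a : ZR M} (h : 0 ≤ a) : 0 ≤ zq a := by
  show zq a - 0 ∈ qfCone M
  exact ⟨a, 1, h, one_pos, by simp⟩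

theorem zq_mono {a b : ZR M} (h : a ≤ b) : zq a ≤ zq b := by
  have := zq_nonneg (sub_nonneg.2 h)
  rw [map_sub] at this
  linarith

theorem zq_lt {a b : ZR M} (h : a < b) : zq a < zq b :=
  lt_of_le_of_ne (zq_mono h.le) (fun h2 => h.ne (zq_inj h2))

/-- The embedding of the numbers of the model in its field of rational numbers. -/
noncomputable def iq : M →+* QF M := zq.comp iz

theorem iq_le {a b : M} : iq a ≤ iq b ↔ a ≤ b := by
  constructor
  · intro h
    by_contra h2
    have := zq_lt (iz_lt.2 (not_le.1 h2))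
    exact absurd h (not_le.2 this)
  · intro h
    exact zq_mono (iz_le.2 h)

theorem iq_lt {a b : M} : iq a < iq b ↔ a < b := by
  rw [← not_le, ← not_le, iq_le]

theorem iq_inj {a b : M} : iq a = iq b ↔ a = b := by
  rw [le_antisymm_iff, le_antisymm_iff, iq_le, iq_le]

theorem iq_nonneg (a : M) : 0 ≤ iq a := by
  rw [← map_zero (iq (M := M)), iq_le]; exact zero_le

theorem zq_mk (a b : M) : zq (ZR.mk a b) = iq a - iq b := by
  have h : ZR.mk a b = iz a - iz b := by
    show ZR.mk a b = ZR.mk a 0 - ZR.mk b 0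
    rw [sub_eq_add_neg, ZR.neg_mk, ZR.mk_add, add_zero, zero_add]
  rw [h, map_sub]; rfl

end Field

/-- The rational number `(a - b) / (c + 1)` coded by `z = (a, (b, c))`. -/
noncomputable def qv {M : Type u} [CommSemiring M] [LinearOrder M] [IsStrictOrderedRing M]
    [CanonicallyOrderedAdd M] (z : M) : QF M :=
  (iq (fs z) - iq (fs (sn z))) / (iq (sn (sn z)) + 1)

variable {M : Type u} [CommSemiring M] [LinearOrder M] [IsStrictOrderedRing M]
  [CanonicallyOrderedAdd M]

theorem iq_succ_pos (c : M) : 0 < iq c + 1 := by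
  have := iq_nonneg c
  linarith

theorem qv_lt {z w : M} : qv z < qv w ↔ fs z * (sn (sn w) + 1) + fs (sn w) * (sn (sn z) + 1) <
    fs w * (sn (sn z) + 1) + fs (sn z) * (sn (sn w) + 1) := by
  unfold qv
  have key := @iq_lt M _ _ _ _ (fs z * (sn (sn w) + 1) + fs (sn w) * (sn (sn z) + 1))
    (fs w * (sn (sn z) + 1) + fs (sn z) * (sn (sn w) + 1))
  rw [← key, div_lt_div_iff₀ (iq_succ_pos _) (iq_succ_pos _)]
  simp only [map_add, map_mul, map_one]
  constructor <;> intro h <;> linarith

variable [Disc M]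

theorem qv_pr (a b c : M) : qv (pr a (pr b c)) = (iq a - iq b) / (iq c + 1) := by
  unfold qv; simp only [fs_pr, sn_pr]

theorem qv_surj (x : QF M) : ∃ z : M, qv z = x := by
  obtain ⟨a, b, hb, rfl⟩ := qf_rep x
  have hrep : ∀ a : ZR M, ∃ a1 a2, a = ZR.mk a1 a2 := ZR.ind' (fun a1 a2 => ⟨a1, a2, rfl⟩)
  obtain ⟨a1, a2, rfl⟩ := hrep a
  obtain ⟨b1, b2, rfl⟩ := hrep b
  rw [ZR.zero_def, ZR.mk_lt] at hb
  rw [zero_add, add_zero] at hb
  obtain ⟨c, hc⟩ := le_iff_exists_add.1 (succ_le.2 hb)
  refine ⟨pr a1 (pr a2 c), ?_⟩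
  rw [qv_pr, zq_mk, zq_mk, hc]
  congr 1
  simp only [map_add, map_one]
  ring

section
variable {S : Set (Set M)} {α : Type v} [Cod M α]

theorem comp_qv_lt {f g : α → M} (hf : Comp S f) (hg : Comp S g) :
    Comp S (fun x => qv (f x) < qv (g x)) := by
  simp only [qv_lt]
  fun_prop

theorem comp_qv_eq {f g : α → M} (hf : Comp S f) (hg : Comp S g) :
    Comp S (fun x => qv (f x) = qv (g x)) := by
  refine ((comp_qv_lt hf hg).or (comp_qv_lt hg hf)).not.congrP (fun x => ?_)
  rw [← ne_iff_lt_or_gt]; simp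

end

variable [IS1 M]

/-- The canonical code of a rational number: the least one. -/
noncomputable def qc (x : QF M) : M := mu (fun z => qv z = x)

theorem qv_qc (x : QF M) : qv (qc x) = x := by
  obtain ⟨z, rfl⟩ := qv_surj x
  have hc : Comp (∅ : Set (Set M)) (fun w => qv w = qv z) := comp_qv_eq Comp.id (Comp.const _)
  exact mu_spec hc ⟨z, rfl⟩

noncomputable instance codQF : Cod M (QF M) := ⟨qc, qv, qv_qc, fun S => by
  have h : Comp (∅ : Set (Set M)) (fun z : M => mu (fun w => qv w = qv z)) :=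
    Comp.mu (P := fun z w => qv w = qv z) (comp_qv_eq (by fun_prop) (by fun_prop))
      (fun z => ⟨z, rfl⟩)
  exact CompI.mono (Set.empty_subset S) h⟩

section
variable {S : Set (Set M)} {α : Type v} [Cod M α]

@[fun_prop] protected theorem Comp.qv {f : α → M} (hf : Comp S f) : Comp S (fun x => qv (f x)) := by
  have h := (codQF (M := M)).comp S
  exact CompI.comp h hf

theorem Comp.qc_val {f : α → QF M} (hf : Comp S f) : Comp S (fun x => qc (f x)) := hf

@[fun_prop] protected theorem Comp.qc {f : α → QF M} (hf : Comp S f) : Comp S (fun x => qc (f x)) :=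
  hf

theorem Comp.of_code {f : α → QF M} {g : α → M} (hg : Comp S g) (h : ∀ x, qv (g x) = f x) :
    Comp S f := by
  have : Comp S (fun x => qv (g x)) := by fun_prop
  exact this.congr h

@[fun_prop] protected theorem Comp.iq {f : α → M} (hf : Comp S f) : Comp S (fun x => iq (f x)) := by
  refine Comp.of_code (g := fun x => h915.pr (f x) (h915.pr 0 0)) (by fun_prop) (fun _ => ?_)
  rw [qv_pr]; simp

@[fun_prop] protected theorem Comp.qlt {f g : α → QF M} (hf : Comp S f) (hg : Comp S g) :
    Comp S (fun x => f x < g x) := by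
  have := comp_qv_lt hf.qc hg.qc
  simpa only [qv_qc] using this

@[fun_prop] protected theorem Comp.qle {f g : α → QF M} (hf : Comp S f) (hg : Comp S g) :
    Comp S (fun x => f x ≤ g x) := (hg.qlt hf).not.congrP (fun x => not_lt)

@[fun_prop] protected theorem Comp.qeq {f g : α → QF M} (hf : Comp S f) (hg : Comp S g) :
    Comp S (fun x => f x = g x) :=
  ((hf.qle hg).and (hg.qle hf)).congrP (fun x => le_antisymm_iff.symm)

@[fun_prop] protected theorem Comp.qadd {f g : α → QF M} (hf : Comp S f) (hg : Comp S g) :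
    Comp S (fun x => f x + g x) := by
  have h1 := hf.qc
  have h2 := hg.qc
  refine Comp.of_code (g := fun x =>
    h915.pr (h915.fs (qc (f x)) * (h915.sn (h915.sn (qc (g x))) + 1) +
        h915.fs (qc (g x)) * (h915.sn (h915.sn (qc (f x))) + 1))
      (h915.pr (h915.fs (h915.sn (qc (f x))) * (h915.sn (h915.sn (qc (g x))) + 1) +
        h915.fs (h915.sn (qc (g x))) * (h915.sn (h915.sn (qc (f x))) + 1))
      (h915.sn (h915.sn (qc (f x))) * h915.sn (h915.sn (qc (g x))) +
        h915.sn (h915.sn (qc (f x))) + h915.sn (h915.sn (qc (g x)))))) ?_ (fun x => ?_)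
  · fun_prop
  · rw [qv_pr]
    conv_rhs => rw [← qv_qc (f x), ← qv_qc (g x)]
    unfold h915.qv
    have h3 := iq_succ_pos (h915.sn (h915.sn (qc (f x))))
    have h4 := iq_succ_pos (h915.sn (h915.sn (qc (g x))))
    rw [div_add_div _ _ h3.ne' h4.ne']
    simp only [map_add, map_mul, map_one]
    congr 1
    · ring
    · ring

@[fun_prop] protected theorem Comp.qneg {f : α → QF M} (hf : Comp S f) :
    Comp S (fun x => - f x) := by
  have h1 := hf.qc
  refine Comp.of_code (g := fun x => h915.pr (h915.fs (h915.sn (qc (f x))))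
    (h915.pr (h915.fs (qc (f x))) (h915.sn (h915.sn (qc (f x)))))) ?_ (fun x => ?_)
  · fun_prop
  · rw [qv_pr]
    conv_rhs => rw [← qv_qc (f x)]
    unfold h915.qv
    rw [← neg_div]
    congr 1
    ring

@[fun_prop] protected theorem Comp.qsub {f g : α → QF M} (hf : Comp S f) (hg : Comp S g) :
    Comp S (fun x => f x - g x) := by
  simp only [sub_eq_add_neg]
  fun_prop

@[fun_prop] protected theorem Comp.qmul {f g : α → QF M} (hf : Comp S f) (hg : Comp S g) :
    Comp S (fun x => f x * g x) := by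
  have h1 := hf.qc
  have h2 := hg.qc
  refine Comp.of_code (g := fun x =>
    h915.pr (h915.fs (qc (f x)) * h915.fs (qc (g x)) +
        h915.fs (h915.sn (qc (f x))) * h915.fs (h915.sn (qc (g x))))
      (h915.pr (h915.fs (qc (f x)) * h915.fs (h915.sn (qc (g x))) +
        h915.fs (h915.sn (qc (f x))) * h915.fs (qc (g x)))
      (h915.sn (h915.sn (qc (f x))) * h915.sn (h915.sn (qc (g x))) +
        h915.sn (h915.sn (qc (f x))) + h915.sn (h915.sn (qc (g x)))))) ?_ (fun x => ?_)
  · fun_prop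
  · rw [qv_pr]
    conv_rhs => rw [← qv_qc (f x), ← qv_qc (g x)]
    unfold h915.qv
    rw [div_mul_div_comm]
    simp only [map_add, map_mul]
    congr 1
    · ring
    · ring

@[fun_prop] protected theorem Comp.qabs {f : α → QF M} (hf : Comp S f) :
    Comp S (fun x => |f x|) := by
  have h1 : Comp S (fun x => iq (h915.chi (0 ≤ f x)) * f x + iq (h915.chi (¬ 0 ≤ f x)) * (- f x)) := by
    fun_prop
  refine h1.congr (fun x => ?_)
  by_cases h : 0 ≤ f x
  · rw [chi_true h, chi_false (by simpa using h), abs_of_nonneg h]; simp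
  · rw [chi_false h, chi_true h, abs_of_neg (not_le.1 h)]; simp

end

/-! ### Powers of one half -/

/-- The rational number `2 ^ (-n)`. -/
noncomputable def hf (n : M) : QF M := 1 / iq (exp2 n)

theorem iq_exp2_pos (n : M) : 0 < iq (exp2 n) := by
  rw [← map_zero (iq (M := M)), iq_lt]; exact exp2_pos n

theorem hf_pos (n : M) : 0 < hf n := one_div_pos.2 (iq_exp2_pos n)

theorem hf_zero : hf (0 : M) = 1 := by unfold hf; rw [exp2_zero]; simp

theorem hf_succ (n : M) : 2 * hf (n + 1) = hf n := by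
  unfold hf
  rw [exp2_succ, map_mul]
  have := iq_exp2_pos n
  have h2 : iq (2 : M) = 2 := map_ofNat iq 2
  rw [h2]
  field_simp

theorem hf_le {m n : M} (h : m ≤ n) : hf n ≤ hf m := by
  unfold hf
  exact one_div_le_one_div_of_le (iq_exp2_pos m) (iq_le.2 (exp2_le h))

theorem hf_lt {m n : M} (h : m < n) : hf n < hf m := by
  unfold hf
  exact one_div_lt_one_div_of_lt (iq_exp2_pos m) (iq_lt.2 (exp2_lt h))

theorem hf_lt_iff {m n : M} : hf n < hf m ↔ m < n := by
  constructor
  · intro h
    by_contra h2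
    exact absurd (hf_le (not_lt.1 h2)) (not_le.2 h)
  · exact hf_lt

theorem hf_le_iff {m n : M} : hf n ≤ hf m ↔ m ≤ n := by
  rw [← not_lt, hf_lt_iff, not_lt]

/-- Every positive rational number of the model exceeds some `2 ^ (-n)`. -/
theorem exists_hf_lt {r : QF M} (hr : 0 < r) : ∃ n : M, hf n < r := by
  obtain ⟨z, rfl⟩ := qv_surj r
  refine ⟨sn (sn z) + 1, ?_⟩
  have h3 := iq_succ_pos (sn (sn z))
  have h1 : (1 : QF M) / (iq (sn (sn z)) + 1) ≤ qv z := by
    unfold qv at hr ⊢
    rw [div_pos_iff_of_pos_right h3, sub_pos, iq_lt, ← succ_le, ← iq_le, map_add, map_one] at hr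
    gcongr
    linarith
  refine lt_of_lt_of_le ?_ h1
  unfold hf
  apply one_div_lt_one_div_of_lt h3
  have h4 : sn (sn z) + 1 < exp2 (sn (sn z) + 1) := lt_exp2 _
  rw [← iq_lt, map_add, map_one] at h4
  exact h4

section
variable {S : Set (Set M)} [IndS S] {α : Type v} [Cod M α]

@[fun_prop] protected theorem Comp.hf {f : α → M} (hf' : Comp S f) :
    Comp S (fun x => hf (f x)) := by
  have h1 : Comp S (fun x => h915.sb (h915.exp2 (f x)) 1) := by fun_prop
  refine Comp.of_code (g := fun x => h915.pr 1 (h915.pr 0 (h915.sb (h915.exp2 (f x)) 1)))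
    (by fun_prop) (fun x => ?_)
  rw [qv_pr]
  have h2 := add_sb (pos_iff_one_le.1 (exp2_pos (f x)))
  have h3 : iq (h915.sb (h915.exp2 (f x)) 1) + 1 = iq (h915.exp2 (f x)) := by
    conv_rhs => rw [← h2]
    rw [map_add, map_one]; ring
  rw [h3]
  unfold h915.hf
  simp

end

/-- The least `n` with `2 ^ (-n) < r`, for positive `r`. -/
noncomputable def nr (r : QF M) : M := mu (fun n => hf n < r ∨ r ≤ 0)

theorem nr_ex (r : QF M) : ∃ n : M, hf n < r ∨ r ≤ 0 := by
  rcases lt_or_ge 0 r with h | h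
  · obtain ⟨n, hn⟩ := exists_hf_lt h
    exact ⟨n, Or.inl hn⟩
  · exact ⟨0, Or.inr h⟩

theorem nr_spec {r : QF M} (hr : 0 < r) : hf (nr r) < r := by
  have hc : Comp (∅ : Set (Set M)) (fun n => hf n < r ∨ r ≤ 0) := by fun_prop
  exact (mu_spec hc (nr_ex r)).resolve_right (not_le.2 hr)

theorem nr_le {r : QF M} {n : M} (h : hf n < r) : nr r ≤ n := by
  have hc : Comp (∅ : Set (Set M)) (fun n => hf n < r ∨ r ≤ 0) := by fun_prop
  exact mu_min hc (Or.inl h)

@[fun_prop] protected theorem Comp.nr {S : Set (Set M)} [IndS S] {α : Type v} [Cod M α]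
    {f : α → QF M} (hf' : Comp S f) : Comp S (fun x => nr (f x)) := by
  unfold h915.nr
  exact Comp.mu (P := fun x n => hf n < f x ∨ f x ≤ 0) (by fun_prop) (fun x => nr_ex _)

end Run7.h915
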