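import Pool.Agent.Run7.h915.SRDefs
import Pool.Agent.H986R3.SOABasic
import Pool.Agent.Helper180.ArithDef

/-! Arithmetical definability in the standard model: every recursively enumerable set is defined
by an arithmetical formula with one free variable. -/

set_option autoImplicit false

namespace Pool.Agent.Run7.h915.SR

open Pool.Agent.H986R3.SOA Function Pool.Agent.Helper180.ArithDef

/-- Predicates on sequences of naturals which depend on finitely many places and are defined by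
arithmetical formulas without set variables. -/
def AD (R : (ℕ → ℕ) → Prop) : Prop :=
  ∃ B : ℕ, (∀ w w' : ℕ → ℕ, (∀ i < B, w i = w' i) → (R w ↔ R w')) ∧
    ∀ ρ : ℕ → ℕ, ∃ φ : Fm, φ.Arithmetical ∧ φ.fvS = ∅ ∧ (∀ x ∈ φ.fvN, ∃ i < B, ρ i = x) ∧
      ∀ (v : ℕ → ℕ) (V : ℕ → Set ℕ), Sat std v V φ ↔ R (fun i => v (ρ i))

theorem ad_add : AD (fun w => w 0 + w 1 = w 2) := by
  refine ⟨3, fun w w' h => by simp only [h 0 (by norm_num), h 1 (by norm_num), h 2 (by norm_num)],
    fun ρ => ⟨.eq (.add (.var (ρ 0)) (.var (ρ 1))) (.var (ρ 2)), trivial, rfl, ?_, ?_⟩⟩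
  · intro x hx
    simp only [Fm.fvN, Tm.fv, Set.mem_union, Set.mem_singleton_iff] at hx
    rcases hx with (h | h) | h
    · exact ⟨0, by norm_num, h.symm⟩
    · exact ⟨1, by norm_num, h.symm⟩
    · exact ⟨2, by norm_num, h.symm⟩
  · intro v V; exact Iff.rfl

theorem ad_mul : AD (fun w => w 0 * w 1 = w 2) := by
  refine ⟨3, fun w w' h => by simp only [h 0 (by norm_num), h 1 (by norm_num), h 2 (by norm_num)],
    fun ρ => ⟨.eq (.mul (.var (ρ 0)) (.var (ρ 1))) (.var (ρ 2)), trivial, rfl, ?_, ?_⟩⟩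
  · intro x hx
    simp only [Fm.fvN, Tm.fv, Set.mem_union, Set.mem_singleton_iff] at hx
    rcases hx with (h | h) | h
    · exact ⟨0, by norm_num, h.symm⟩
    · exact ⟨1, by norm_num, h.symm⟩
    · exact ⟨2, by norm_num, h.symm⟩
  · intro v V; exact Iff.rfl

theorem ad_bot : AD (fun _ => False) := by
  refine ⟨0, fun w w' h => Iff.rfl, fun ρ => ⟨.lt .zero .zero, trivial, rfl, ?_, ?_⟩⟩
  · intro x hx
    simp only [Fm.fvN, Tm.fv, Set.mem_union, Set.mem_empty_iff_false, or_self] at hx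
  · intro v V
    exact ⟨fun h => Nat.lt_irrefl 0 h, fun h => h.elim⟩

theorem ad_imp {R S : (ℕ → ℕ) → Prop} (hR : AD R) (hS : AD S) : AD (fun w => R w → S w) := by
  obtain ⟨B, hB, hR⟩ := hR
  obtain ⟨C, hC, hS⟩ := hS
  refine ⟨max B C, fun w w' h => ?_, fun ρ => ?_⟩
  · exact imp_congr (hB w w' (fun i hi => h i (lt_of_lt_of_le hi (le_max_left _ _))))
      (hC w w' (fun i hi => h i (lt_of_lt_of_le hi (le_max_right _ _))))
  · obtain ⟨φ, h1, h2, h3, h4⟩ := hR ρ
    obtain ⟨ψ, g1, g2, g3, g4⟩ := hS ρ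
    refine ⟨φ.imp ψ, ⟨h1, g1⟩, ?_, ?_, ?_⟩
    · simp only [Fm.imp, Fm.fvS, h2, g2, Set.union_empty]
    · intro x hx
      simp only [Fm.imp, Fm.fvN] at hx
      rcases hx with hx | hx
      · obtain ⟨i, hi, e⟩ := h3 x hx
        exact ⟨i, lt_of_lt_of_le hi (le_max_left _ _), e⟩
      · obtain ⟨i, hi, e⟩ := g3 x hx
        exact ⟨i, lt_of_lt_of_le hi (le_max_right _ _), e⟩
    · intro v V
      rw [Sat_imp, h4, g4]

theorem exists_fresh (ρ : ℕ → ℕ) (B : ℕ) : ∃ k : ℕ, ∀ i < B, ρ i ≠ k := by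
  induction B with
  | zero => exact ⟨0, fun i hi => absurd hi (Nat.not_lt_zero _)⟩
  | succ B _ =>
    refine ⟨(Finset.range (B + 1)).sup ρ + 1, fun i hi h => ?_⟩
    have : ρ i ≤ (Finset.range (B + 1)).sup ρ := Finset.le_sup (Finset.mem_range.2 hi)
    omega

theorem ad_all {R : (ℕ → ℕ) → Prop} (hR : AD R) : AD (fun w => ∀ a, R (cns a w)) := by
  obtain ⟨B, hB, hR⟩ := hR
  refine ⟨B, fun w w' h => forall_congr' fun a => hB _ _ (fun i hi => ?_), fun ρ => ?_⟩
  · cases i with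
    | zero => rfl
    | succ i => exact h i (by omega)
  · obtain ⟨k, hk⟩ := exists_fresh ρ B
    obtain ⟨φ, h1, h2, h3, h4⟩ := hR (cns k ρ)
    refine ⟨.all k φ, h1, h2, ?_, ?_⟩
    · rintro x ⟨hx, hxk⟩
      obtain ⟨i, hi, e⟩ := h3 x hx
      cases i with
      | zero => exact absurd e.symm hxk
      | succ i => exact ⟨i, by omega, e⟩
    · intro v V
      simp only [Sat]
      refine forall_congr' fun a => ?_
      rw [h4]
      refine hB _ _ (fun i hi => ?_)
      cases i with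
      | zero => simp
      | succ i =>
        simp only [cns_succ]
        exact update_of_ne (hk i (by omega)) _ _

theorem ad_ren {R : (ℕ → ℕ) → Prop} (ρ : ℕ → ℕ) (hR : AD R) :
    AD (fun w => R (fun i => w (ρ i))) := by
  obtain ⟨B, hB, hR⟩ := hR
  refine ⟨(Finset.range B).sup ρ + 1, fun w w' h => hB _ _ (fun i hi => h _ ?_), fun σ => ?_⟩
  · exact Nat.lt_succ_of_le (Finset.le_sup (Finset.mem_range.2 hi))
  · obtain ⟨φ, h1, h2, h3, h4⟩ := hR (fun i => σ (ρ i))
    refine ⟨φ, h1, h2, ?_, h4⟩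
    intro x hx
    obtain ⟨i, hi, e⟩ := h3 x hx
    exact ⟨ρ i, Nat.lt_succ_of_le (Finset.le_sup (Finset.mem_range.2 hi)), e⟩

theorem ad_dc : DC AD where
  add := ad_add
  mul := ad_mul
  bot := ad_bot
  imp := ad_imp
  all := ad_all
  ren := ad_ren

/-- The range of a computable function is definable. -/
theorem ad_range {f : ℕ → ℕ} (hf : Computable f) : AD (fun w => ∃ n, w 0 = f n) := by
  have hp : Nat.Partrec (fun n => Part.some (f n)) := Partrec.nat_iff.1 hf.partrec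
  refine ad_dc.iff (fun w => ?_) (ad_dc.ex' (S := fun n w => w 0 ∈ Part.some (f n))
    (ad_dc.app2 (R := fun x y => y ∈ Part.some (f x)) (ad_dc.partrec hp) (ad_dc.tvar 0)
      (ad_dc.tvar 1)))
  simp

theorem ad_const (c : ℕ) : AD (fun w => w 0 = c) := by
  refine ad_dc.iff (fun w => ?_) (ad_range (f := fun _ => c) (Computable.const c))
  simp

/-- From definability on sequences to a formula in one free variable. -/
theorem formula_of_ad {R : ℕ → Prop} (h : AD (fun w => R (w 0))) :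
    ∃ φ : Fm, φ.Arithmetical ∧ φ.FreeIn {0} ∧ ∀ (v : ℕ → ℕ) (V : ℕ → Set ℕ),
      Sat std v V φ ↔ R (v 0) := by
  obtain ⟨B, hB, h⟩ := h
  obtain ⟨φ, h1, h2, h3, h4⟩ := h (fun _ => 0)
  refine ⟨φ, h1, ⟨?_, h2⟩, h4⟩
  intro x hx
  obtain ⟨i, _, e⟩ := h3 x hx
  exact e.symm

end Pool.Agent.Run7.h915.SR
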