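import Pool.Agent.Run7.h915.SRArith

/-! A recursive axiomatization by sentences, all true in the standard model, of a theory which
contains full comprehension and full choice: the set of Goedel numbers is arithmetically
definable. -/

set_option autoImplicit false

namespace Pool.Agent.Run7.h915.SR

open Pool.Agent.H986R3.SOA Function Pool.Agent.Helper180.ArithDef

theorem primrec_pr : Primrec₂ pr := by
  have h1 : Primrec (fun p : ℕ × ℕ => p.1 + p.2) := Primrec.nat_add.comp Primrec.fst Primrec.snd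
  exact Primrec.nat_add.comp (Primrec.nat_mul.comp h1 h1) Primrec.fst

theorem pr2 {α : Type*} [Primcodable α] {f g : α → ℕ} (hf : Primrec f) (hg : Primrec g) :
    Primrec (fun a => pr (f a) (g a)) := primrec_pr.comp hf hg

/-- The lists of previous values in a course-of-values recursion. -/
def hist (G : List ℕ → ℕ) : ℕ → List ℕ
  | 0 => []
  | n + 1 => hist G n ++ [G (hist G n)]

/-- Course-of-values recursion. -/
def cov (G : List ℕ → ℕ) (n : ℕ) : ℕ := G (hist G n)

theorem hist_length (G : List ℕ → ℕ) (n : ℕ) : (hist G n).length = n := by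
  induction n with
  | zero => rfl
  | succ n ih => simp [hist, ih]

theorem hist_getD (G : List ℕ → ℕ) (n : ℕ) : ∀ a < n, (hist G n).getD a 0 = cov G a := by
  induction n with
  | zero => intro a ha; exact absurd ha (Nat.not_lt_zero _)
  | succ n ih =>
    intro a ha
    rcases Nat.lt_succ_iff_lt_or_eq.1 ha with h | h
    · rw [hist, List.getD_append _ _ _ _ (by rw [hist_length]; exact h), ih a h]
    · subst h
      rw [hist, List.getD_append_right _ _ _ _ (by rw [hist_length]), hist_length]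
      simp [cov]

theorem primrec_hist {G : List ℕ → ℕ} (hG : Primrec G) : Primrec (hist G) := by
  have h : Primrec (fun n : ℕ => (Nat.rec ([] : List ℕ) (fun _ l => l ++ [G l]) n : List ℕ)) := by
    refine Primrec.nat_rec₁ (f := fun _ l => l ++ [G l]) [] ?_
    refine Primrec.list_append.comp Primrec.snd ?_
    exact Primrec.list_cons.comp (hG.comp Primrec.snd) (Primrec.const [])
  refine h.of_eq (fun n => ?_)
  induction n with
  | zero => rfl
  | succ n ih => simp only [hist] at ih ⊢; rw [← ih]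

theorem primrec_cov {G : List ℕ → ℕ} (hG : Primrec G) : Primrec (cov G) :=
  hG.comp (primrec_hist hG)

/-- tag, payload and the two halves of the payload of the number `n` -/
def tg (n : ℕ) : ℕ := n.unpair.1
def pl (n : ℕ) : ℕ := n.unpair.2
def pa (n : ℕ) : ℕ := n.unpair.2.unpair.1
def pb (n : ℕ) : ℕ := n.unpair.2.unpair.2

theorem primrec_tg : Primrec tg := Primrec.fst.comp Primrec.unpair
theorem primrec_pl : Primrec pl := Primrec.snd.comp Primrec.unpair
theorem primrec_pa : Primrec pa := Primrec.fst.comp (Primrec.unpair.comp primrec_pl)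
theorem primrec_pb : Primrec pb := Primrec.snd.comp (Primrec.unpair.comp primrec_pl)

theorem pl_lt {n : ℕ} (h : tg n ≠ 0) : pl n < n := by
  have h1 : tg n + pl n ≤ n := by
    have := Nat.add_le_pair n.unpair.1 n.unpair.2
    rwa [Nat.pair_unpair] at this
  omega

theorem pa_lt {n : ℕ} (h : tg n ≠ 0) : pa n < n :=
  lt_of_le_of_lt (Nat.unpair_left_le _) (pl_lt h)

theorem pb_lt {n : ℕ} (h : tg n ≠ 0) : pb n < n :=
  lt_of_le_of_lt (Nat.unpair_right_le _) (pl_lt h)

/-- Step function for the enumeration of codes of terms. -/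
def tmStep (l : List ℕ) : ℕ :=
  if tg l.length = 0 then pr 0 (pl l.length)
  else if tg l.length = 1 then pr 1 0
  else if tg l.length = 2 then pr 2 0
  else if tg l.length = 3 then pr 3 (pr (l.getD (pa l.length) 0) (l.getD (pb l.length) 0))
  else pr 4 (pr (l.getD (pa l.length) 0) (l.getD (pb l.length) 0))

theorem primrec_tmStep : Primrec tmStep := by
  have hl : Primrec (fun l : List ℕ => l.length) := Primrec.list_length
  have ht : Primrec (fun l : List ℕ => tg l.length) := primrec_tg.comp hl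
  have hp : Primrec (fun l : List ℕ => pl l.length) := primrec_pl.comp hl
  have ha : Primrec (fun l : List ℕ => l.getD (pa l.length) 0) :=
    (Primrec.list_getD 0).comp Primrec.id (primrec_pa.comp hl)
  have hb : Primrec (fun l : List ℕ => l.getD (pb l.length) 0) :=
    (Primrec.list_getD 0).comp Primrec.id (primrec_pb.comp hl)
  have e : ∀ c : ℕ, PrimrecPred (fun l : List ℕ => tg l.length = c) := fun c =>
    Primrec.eq.comp ht (Primrec.const c)
  refine Primrec.ite (e 0) (pr2 (Primrec.const 0) hp) ?_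
  refine Primrec.ite (e 1) (Primrec.const _) ?_
  refine Primrec.ite (e 2) (Primrec.const _) ?_
  exact Primrec.ite (e 3) (pr2 (Primrec.const 3) (pr2 ha hb)) (pr2 (Primrec.const 4) (pr2 ha hb))

/-- An enumeration of the codes of terms. -/
def tmc : ℕ → ℕ := cov tmStep

theorem primrec_tmc : Primrec tmc := primrec_cov primrec_tmStep

theorem tmc_eq (n : ℕ) : tmc n =
    if tg n = 0 then pr 0 (pl n)
    else if tg n = 1 then pr 1 0
    else if tg n = 2 then pr 2 0
    else if tg n = 3 then pr 3 (pr (tmc (pa n)) (tmc (pb n)))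
    else pr 4 (pr (tmc (pa n)) (tmc (pb n))) := by
  show tmStep (hist tmStep n) = _
  rw [tmStep, hist_length]
  by_cases h0 : tg n = 0
  · rw [if_pos h0, if_pos h0]
  · rw [if_neg h0, if_neg h0, hist_getD _ _ _ (pa_lt h0), hist_getD _ _ _ (pb_lt h0)]
    rfl

theorem tg_pair (a b : ℕ) : tg (Nat.pair a b) = a := by simp [tg]
theorem pl_pair (a b : ℕ) : pl (Nat.pair a b) = b := by simp [pl]
theorem pa_pair (a b c : ℕ) : pa (Nat.pair a (Nat.pair b c)) = b := by simp [pa]
theorem pb_pair (a b c : ℕ) : pb (Nat.pair a (Nat.pair b c)) = c := by simp [pb]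

theorem tmc_code (n : ℕ) : ∃ t : Tm, t.code = tmc n := by
  induction n using Nat.strong_induction_on with
  | _ n ih =>
    rw [tmc_eq]
    by_cases h0 : tg n = 0
    · exact ⟨.var (pl n), by rw [if_pos h0]; rfl⟩
    · obtain ⟨s, hs⟩ := ih _ (pa_lt h0)
      obtain ⟨t, ht⟩ := ih _ (pb_lt h0)
      rw [if_neg h0, ← hs, ← ht]
      split_ifs
      · exact ⟨.zero, rfl⟩
      · exact ⟨.one, rfl⟩
      · exact ⟨.add s t, rfl⟩
      · exact ⟨.mul s t, rfl⟩

theorem exists_tmc (t : Tm) : ∃ n, tmc n = t.code := by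
  induction t with
  | var i => exact ⟨Nat.pair 0 i, by rw [tmc_eq, tg_pair, pl_pair, if_pos rfl]; rfl⟩
  | zero => exact ⟨Nat.pair 1 0, by rw [tmc_eq, tg_pair, if_neg (by norm_num), if_pos rfl]; rfl⟩
  | one =>
    exact ⟨Nat.pair 2 0, by
      rw [tmc_eq, tg_pair, if_neg (by norm_num), if_neg (by norm_num), if_pos rfl]; rfl⟩
  | add s t hs ht =>
    obtain ⟨a, ha⟩ := hs
    obtain ⟨b, hb⟩ := ht
    refine ⟨Nat.pair 3 (Nat.pair a b), ?_⟩
    rw [tmc_eq, tg_pair, pa_pair, pb_pair, if_neg (by norm_num), if_neg (by norm_num),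
      if_neg (by norm_num), if_pos rfl, ha, hb]
    rfl
  | mul s t hs ht =>
    obtain ⟨a, ha⟩ := hs
    obtain ⟨b, hb⟩ := ht
    refine ⟨Nat.pair 4 (Nat.pair a b), ?_⟩
    rw [tmc_eq, tg_pair, pa_pair, pb_pair, if_neg (by norm_num), if_neg (by norm_num),
      if_neg (by norm_num), if_neg (by norm_num), ha, hb]
    rfl

/-- Step function for the enumeration of codes of formulas. -/
def fmStep (l : List ℕ) : ℕ :=
  if tg l.length = 0 then pr 0 (pr (tmc (pa l.length)) (tmc (pb l.length)))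
  else if tg l.length = 1 then pr 1 (pr (tmc (pa l.length)) (tmc (pb l.length)))
  else if tg l.length = 2 then pr 2 (pr (tmc (pa l.length)) (pb l.length))
  else if tg l.length = 3 then pr 3 (l.getD (pl l.length) 0)
  else if tg l.length = 4 then pr 4 (pr (l.getD (pa l.length) 0) (l.getD (pb l.length) 0))
  else if tg l.length = 5 then pr 5 (pr (pa l.length) (l.getD (pb l.length) 0))
  else pr 6 (pr (pa l.length) (l.getD (pb l.length) 0))

theorem primrec_fmStep : Primrec fmStep := by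
  have hl : Primrec (fun l : List ℕ => l.length) := Primrec.list_length
  have ht : Primrec (fun l : List ℕ => tg l.length) := primrec_tg.comp hl
  have hpa : Primrec (fun l : List ℕ => pa l.length) := primrec_pa.comp hl
  have hpb : Primrec (fun l : List ℕ => pb l.length) := primrec_pb.comp hl
  have hp : Primrec (fun l : List ℕ => l.getD (pl l.length) 0) :=
    (Primrec.list_getD 0).comp Primrec.id (primrec_pl.comp hl)
  have ha : Primrec (fun l : List ℕ => l.getD (pa l.length) 0) :=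
    (Primrec.list_getD 0).comp Primrec.id (primrec_pa.comp hl)
  have hb : Primrec (fun l : List ℕ => l.getD (pb l.length) 0) :=
    (Primrec.list_getD 0).comp Primrec.id (primrec_pb.comp hl)
  have hta : Primrec (fun l : List ℕ => tmc (pa l.length)) := primrec_tmc.comp hpa
  have htb : Primrec (fun l : List ℕ => tmc (pb l.length)) := primrec_tmc.comp hpb
  have e : ∀ c : ℕ, PrimrecPred (fun l : List ℕ => tg l.length = c) := fun c =>
    Primrec.eq.comp ht (Primrec.const c)
  refine Primrec.ite (e 0) (pr2 (Primrec.const 0) (pr2 hta htb)) ?_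
  refine Primrec.ite (e 1) (pr2 (Primrec.const 1) (pr2 hta htb)) ?_
  refine Primrec.ite (e 2) (pr2 (Primrec.const 2) (pr2 hta hpb)) ?_
  refine Primrec.ite (e 3) (pr2 (Primrec.const 3) hp) ?_
  refine Primrec.ite (e 4) (pr2 (Primrec.const 4) (pr2 ha hb)) ?_
  exact Primrec.ite (e 5) (pr2 (Primrec.const 5) (pr2 hpa hb)) (pr2 (Primrec.const 6) (pr2 hpa hb))

/-- An enumeration of the codes of formulas. -/
def fmc : ℕ → ℕ := cov fmStep

theorem primrec_fmc : Primrec fmc := primrec_cov primrec_fmStep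

theorem fmc_eq (n : ℕ) : fmc n =
    if tg n = 0 then pr 0 (pr (tmc (pa n)) (tmc (pb n)))
    else if tg n = 1 then pr 1 (pr (tmc (pa n)) (tmc (pb n)))
    else if tg n = 2 then pr 2 (pr (tmc (pa n)) (pb n))
    else if tg n = 3 then pr 3 (fmc (pl n))
    else if tg n = 4 then pr 4 (pr (fmc (pa n)) (fmc (pb n)))
    else if tg n = 5 then pr 5 (pr (pa n) (fmc (pb n)))
    else pr 6 (pr (pa n) (fmc (pb n))) := by
  show fmStep (hist fmStep n) = _
  rw [fmStep, hist_length]
  by_cases h0 : tg n = 0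
  · rw [if_pos h0, if_pos h0]
  · rw [if_neg h0, if_neg h0, hist_getD _ _ _ (pa_lt h0), hist_getD _ _ _ (pb_lt h0),
      hist_getD _ _ _ (pl_lt h0)]
    rfl

theorem fmc_code (n : ℕ) : ∃ φ : Fm, φ.code = fmc n := by
  induction n using Nat.strong_induction_on with
  | _ n ih =>
    rw [fmc_eq]
    obtain ⟨s, hs⟩ := tmc_code (pa n)
    obtain ⟨t, ht⟩ := tmc_code (pb n)
    rw [← hs, ← ht]
    by_cases h0 : tg n = 0
    · exact ⟨.eq s t, by rw [if_pos h0]; rfl⟩
    · obtain ⟨φ, hφ⟩ := ih _ (pa_lt h0)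
      obtain ⟨ψ, hψ⟩ := ih _ (pb_lt h0)
      obtain ⟨χ, hχ⟩ := ih _ (pl_lt h0)
      rw [if_neg h0, ← hφ, ← hψ, ← hχ]
      split_ifs
      · exact ⟨.lt s t, rfl⟩
      · exact ⟨.mem s (pb n), rfl⟩
      · exact ⟨.neg χ, rfl⟩
      · exact ⟨.and φ ψ, rfl⟩
      · exact ⟨.all (pa n) ψ, rfl⟩
      · exact ⟨.allS (pa n) ψ, rfl⟩

theorem exists_fmc (φ : Fm) : ∃ n, fmc n = φ.code := by
  induction φ with
  | eq s t =>
    obtain ⟨a, ha⟩ := exists_tmc s
    obtain ⟨b, hb⟩ := exists_tmc t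
    refine ⟨Nat.pair 0 (Nat.pair a b), ?_⟩
    rw [fmc_eq, tg_pair, pa_pair, pb_pair, if_pos rfl, ha, hb]
    rfl
  | lt s t =>
    obtain ⟨a, ha⟩ := exists_tmc s
    obtain ⟨b, hb⟩ := exists_tmc t
    refine ⟨Nat.pair 1 (Nat.pair a b), ?_⟩
    rw [fmc_eq, tg_pair, pa_pair, pb_pair, if_neg (by norm_num), if_pos rfl, ha, hb]
    rfl
  | mem s i =>
    obtain ⟨a, ha⟩ := exists_tmc s
    refine ⟨Nat.pair 2 (Nat.pair a i), ?_⟩
    rw [fmc_eq, tg_pair, pa_pair, pb_pair, if_neg (by norm_num), if_neg (by norm_num), if_pos rfl,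
      ha]
    rfl
  | neg φ ih =>
    obtain ⟨a, ha⟩ := ih
    refine ⟨Nat.pair 3 a, ?_⟩
    rw [fmc_eq, tg_pair, pl_pair, if_neg (by norm_num), if_neg (by norm_num),
      if_neg (by norm_num), if_pos rfl, ha]
    rfl
  | and φ ψ ih1 ih2 =>
    obtain ⟨a, ha⟩ := ih1
    obtain ⟨b, hb⟩ := ih2
    refine ⟨Nat.pair 4 (Nat.pair a b), ?_⟩
    rw [fmc_eq, tg_pair, pa_pair, pb_pair, if_neg (by norm_num), if_neg (by norm_num),
      if_neg (by norm_num), if_neg (by norm_num), if_pos rfl, ha, hb]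
    rfl
  | all i φ ih =>
    obtain ⟨a, ha⟩ := ih
    refine ⟨Nat.pair 5 (Nat.pair i a), ?_⟩
    rw [fmc_eq, tg_pair, pa_pair, pb_pair, if_neg (by norm_num), if_neg (by norm_num),
      if_neg (by norm_num), if_neg (by norm_num), if_neg (by norm_num), if_pos rfl, ha]
    rfl
  | allS i φ ih =>
    obtain ⟨a, ha⟩ := ih
    refine ⟨Nat.pair 6 (Nat.pair i a), ?_⟩
    rw [fmc_eq, tg_pair, pa_pair, pb_pair, if_neg (by norm_num), if_neg (by norm_num),
      if_neg (by norm_num), if_neg (by norm_num), if_neg (by norm_num), if_neg (by norm_num), ha]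
    rfl

/-! ### Schemas and closures -/

/-- Comprehension for the formula `φ`. -/
def compr (i : ℕ) (φ : Fm) : Fm :=
  .exS (φ.code + 1) (.all i (.iff (.mem (.var i) (φ.code + 1)) φ))

/-- Choice for the formula `φ`. -/
def choice (i j : ℕ) (φ : Fm) : Fm :=
  .imp (.all i (.exS j φ)) (.exS (j + φ.code + 1)
    (.all i (.exS j (.and (isSection j (j + φ.code + 1) i (i + 1)) φ))))

/-- Quantify the number variables `< n`. -/
def clN : ℕ → Fm → Fm
  | 0, φ => φ
  | n + 1, φ => .all n (clN n φ)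

/-- Quantify the set variables `< n`. -/
def clS : ℕ → Fm → Fm
  | 0, φ => φ
  | n + 1, φ => .allS n (clS n φ)

/-- A universal closure. -/
def cl (φ : Fm) : Fm := clS (φ.code + 1) (clN (φ.code + 1) φ)

def cneg (a : ℕ) : ℕ := pr 3 a
def cand (a b : ℕ) : ℕ := pr 4 (pr a b)
def cimp (a b : ℕ) : ℕ := cneg (cand a (cneg b))
def ciff (a b : ℕ) : ℕ := cand (cimp a b) (cimp b a)
def call (i a : ℕ) : ℕ := pr 5 (pr i a)
def cexS (i a : ℕ) : ℕ := cneg (pr 6 (pr i (cneg a)))
def cmem (t i : ℕ) : ℕ := pr 2 (pr t i)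
def cpair (s t : ℕ) : ℕ := pr 3 (pr (pr 4 (pr (pr 3 (pr s t)) (pr 3 (pr s t)))) s)

def ccompr (i x : ℕ) : ℕ := cexS (x + 1) (call i (ciff (cmem (pr 0 i) (x + 1)) x))

def csec (j k i l : ℕ) : ℕ :=
  call l (ciff (cmem (pr 0 l) j) (cmem (cpair (pr 0 i) (pr 0 l)) k))

def cchoice (i j x : ℕ) : ℕ :=
  cimp (call i (cexS j x)) (cexS (j + x + 1)
    (call i (cexS j (cand (csec j (j + x + 1) i (i + 1)) x))))

theorem compr_code (i : ℕ) (φ : Fm) : (compr i φ).code = ccompr i φ.code := rfl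

theorem choice_code (i j : ℕ) (φ : Fm) : (choice i j φ).code = cchoice i j φ.code := rfl

def cclN (n x : ℕ) : ℕ := Nat.rec x (fun m y => pr 5 (pr m y)) n
def cclS (n x : ℕ) : ℕ := Nat.rec x (fun m y => pr 6 (pr m y)) n
def ccl (x : ℕ) : ℕ := cclS (x + 1) (cclN (x + 1) x)

theorem clN_code (n : ℕ) (φ : Fm) : (clN n φ).code = cclN n φ.code := by
  induction n with
  | zero => rfl
  | succ n ih => simp only [clN, cclN, Fm.code] at ih ⊢; rw [ih]

theorem clS_code (n : ℕ) (φ : Fm) : (clS n φ).code = cclS n φ.code := by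
  induction n with
  | zero => rfl
  | succ n ih => simp only [clS, cclS, Fm.code] at ih ⊢; rw [ih]

theorem cl_code (φ : Fm) : (cl φ).code = ccl φ.code := by
  rw [cl, ccl, clS_code, clN_code]

section prim
variable {α : Type*} [Primcodable α] {f g h k : α → ℕ}

theorem p_succ (hf : Primrec f) : Primrec (fun a => f a + 1) := Primrec.succ.comp hf
theorem p_add (hf : Primrec f) (hg : Primrec g) : Primrec (fun a => f a + g a) :=
  Primrec.nat_add.comp hf hg
theorem p_neg (hf : Primrec f) : Primrec (fun a => cneg (f a)) := pr2 (Primrec.const 3) hf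
theorem p_and (hf : Primrec f) (hg : Primrec g) : Primrec (fun a => cand (f a) (g a)) :=
  pr2 (Primrec.const 4) (pr2 hf hg)
theorem p_imp (hf : Primrec f) (hg : Primrec g) : Primrec (fun a => cimp (f a) (g a)) :=
  p_neg (p_and hf (p_neg hg))
theorem p_iff (hf : Primrec f) (hg : Primrec g) : Primrec (fun a => ciff (f a) (g a)) :=
  p_and (p_imp hf hg) (p_imp hg hf)
theorem p_all (hf : Primrec f) (hg : Primrec g) : Primrec (fun a => call (f a) (g a)) :=
  pr2 (Primrec.const 5) (pr2 hf hg)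
theorem p_exS (hf : Primrec f) (hg : Primrec g) : Primrec (fun a => cexS (f a) (g a)) :=
  p_neg (pr2 (Primrec.const 6) (pr2 hf (p_neg hg)))
theorem p_mem (hf : Primrec f) (hg : Primrec g) : Primrec (fun a => cmem (f a) (g a)) :=
  pr2 (Primrec.const 2) (pr2 hf hg)
theorem p_var (hf : Primrec f) : Primrec (fun a => pr 0 (f a)) := pr2 (Primrec.const 0) hf
theorem p_pair (hf : Primrec f) (hg : Primrec g) : Primrec (fun a => cpair (f a) (g a)) :=
  pr2 (Primrec.const 3) (pr2 (pr2 (Primrec.const 4) (pr2 (pr2 (Primrec.const 3) (pr2 hf hg))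
    (pr2 (Primrec.const 3) (pr2 hf hg)))) hf)

theorem p_compr (hf : Primrec f) (hg : Primrec g) : Primrec (fun a => ccompr (f a) (g a)) :=
  p_exS (p_succ hg) (p_all hf (p_iff (p_mem (p_var hf) (p_succ hg)) hg))

theorem p_sec (hf : Primrec f) (hg : Primrec g) (hh : Primrec h) (hk : Primrec k) :
    Primrec (fun a => csec (f a) (g a) (h a) (k a)) :=
  p_all hk (p_iff (p_mem (p_var hk) hf) (p_mem (p_pair (p_var hh) (p_var hk)) hg))

theorem p_choice (hf : Primrec f) (hg : Primrec g) (hh : Primrec h) :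
    Primrec (fun a => cchoice (f a) (g a) (h a)) :=
  p_imp (p_all hf (p_exS hg hh)) (p_exS (p_succ (p_add hg hh))
    (p_all hf (p_exS hg (p_and (p_sec hg (p_succ (p_add hg hh)) hf (p_succ hf)) hh))))

theorem p_clN (hf : Primrec f) (hg : Primrec g) : Primrec (fun a => cclN (f a) (g a)) := by
  have hs : Primrec₂ (fun (_ : α) (p : ℕ × ℕ) => pr 5 (pr p.1 p.2)) :=
    pr2 (Primrec.const 5) (pr2 (Primrec.fst.comp Primrec.snd) (Primrec.snd.comp Primrec.snd))
  exact Primrec.nat_rec' hf hg hs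

theorem p_clS (hf : Primrec f) (hg : Primrec g) : Primrec (fun a => cclS (f a) (g a)) := by
  have hs : Primrec₂ (fun (_ : α) (p : ℕ × ℕ) => pr 6 (pr p.1 p.2)) :=
    pr2 (Primrec.const 6) (pr2 (Primrec.fst.comp Primrec.snd) (Primrec.snd.comp Primrec.snd))
  exact Primrec.nat_rec' hf hg hs

theorem p_cl (hf : Primrec f) : Primrec (fun a => ccl (f a)) :=
  p_clS (p_succ hf) (p_clN (p_succ hf) hf)

end prim

/-- The finitely many remaining axioms of `ACA_0`. -/
def basics : List Fm :=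
  [.neg (.eq (.add (.var 0) .one) .zero),
   .imp (.eq (.add (.var 0) .one) (.add (.var 1) .one)) (.eq (.var 0) (.var 1)),
   .eq (.add (.var 0) .zero) (.var 0),
   .eq (.add (.var 0) (.add (.var 1) .one)) (.add (.add (.var 0) (.var 1)) .one),
   .eq (.mul (.var 0) .zero) .zero,
   .eq (.mul (.var 0) (.add (.var 1) .one)) (.add (.mul (.var 0) (.var 1)) (.var 0)),
   .neg (.lt (.var 0) .zero),
   .iff (.lt (.var 0) (.add (.var 1) .one)) (.or (.lt (.var 0) (.var 1)) (.eq (.var 0) (.var 1))),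
   .imp (.and (.mem .zero 0)
      (.all 0 (.imp (.mem (.var 0) 0) (.mem (.add (.var 0) .one) 0)))) (.all 0 (.mem (.var 0) 0))]

/-- The base theory: universal closures of the basic axioms, of all instances of comprehension and
of all instances of choice. -/
def U : Set Fm := {χ | (∃ ψ ∈ basics, χ = cl ψ) ∨ (∃ i ψ, χ = cl (compr i ψ)) ∨
  ∃ i j ψ, χ = cl (choice i j ψ)}

theorem ad_list (l : List Fm) : AD (fun w => ∃ ψ ∈ l, w 0 = (cl ψ).code) := by
  induction l with
  | nil => exact ad_dc.iff (fun w => by simp) ad_dc.bot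
  | cons a l ih =>
    refine ad_dc.iff (fun w => ?_) (ad_dc.or (ad_const (cl a).code) ih)
    simp

theorem ad_U : AD (fun w => ∃ χ ∈ U, χ.code = w 0) := by
  have h1 : Computable (fun n : ℕ => ccl (ccompr n.unpair.1 (fmc n.unpair.2))) :=
    (p_cl (p_compr (Primrec.fst.comp Primrec.unpair)
      (primrec_fmc.comp (Primrec.snd.comp Primrec.unpair)))).to_comp
  have h2 : Computable (fun n : ℕ => ccl (cchoice (tg n) (pa n) (fmc (pb n)))) :=
    (p_cl (p_choice primrec_tg primrec_pa (primrec_fmc.comp primrec_pb))).to_comp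
  refine ad_dc.iff (fun w => ?_) (ad_dc.or (ad_list basics)
    (ad_dc.or (ad_range h1) (ad_range h2)))
  constructor
  · rintro (⟨ψ, hψ, h⟩ | ⟨n, h⟩ | ⟨n, h⟩)
    · exact ⟨cl ψ, Or.inl ⟨ψ, hψ, rfl⟩, h.symm⟩
    · obtain ⟨ψ, hψ⟩ := fmc_code n.unpair.2
      refine ⟨cl (compr n.unpair.1 ψ), Or.inr (Or.inl ⟨_, _, rfl⟩), ?_⟩
      rw [h, cl_code, compr_code, hψ]
    · obtain ⟨ψ, hψ⟩ := fmc_code (pb n)
      refine ⟨cl (choice (tg n) (pa n) ψ), Or.inr (Or.inr ⟨_, _, _, rfl⟩), ?_⟩
      rw [h, cl_code, choice_code, hψ]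
  · rintro ⟨χ, (⟨ψ, hψ, rfl⟩ | ⟨i, ψ, rfl⟩ | ⟨i, j, ψ, rfl⟩), h⟩
    · exact Or.inl ⟨ψ, hψ, h.symm⟩
    · obtain ⟨n, hn⟩ := exists_fmc ψ
      refine Or.inr (Or.inl ⟨Nat.pair i n, ?_⟩)
      rw [← h, cl_code, compr_code, ← hn]
      simp
    · obtain ⟨n, hn⟩ := exists_fmc ψ
      refine Or.inr (Or.inr ⟨Nat.pair i (Nat.pair j n), ?_⟩)
      rw [← h, cl_code, choice_code, ← hn, tg_pair, pa_pair, pb_pair]

end Pool.Agent.Run7.h915.SR
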