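import Pool.Agent.H986R3.SOADefs

/-!
`Pi^1_1`-definable theories which prove their own `Pi^1_1`-soundness: definitions.

The language of second-order arithmetic, its structures, provability, `ACA_0`, Goedel numbers,
the classes `Sigma^1_1` and `Pi^1_1` and arithmetizations of the metamathematics are those of
`Pool.Agent.H986R3.SOADefs`.
-/

set_option autoImplicit false

namespace Pool.Agent.Run7.h915.SR

open Pool.Agent.H986R3.SOA

/-- The term `(s + t) * (s + t) + s` for the pair `(s, t)`. -/
def pairTm (s t : Tm) : Tm := .add (.mul (.add s t) (.add s t)) s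

/-- `X_j` is the section of `X_k` at the number `x_i`:
`∀ m (m ∈ X_j ↔ (x_i, m) ∈ X_k)`, where `m` is the number variable `x_l`. -/
def isSection (j k i l : ℕ) : Fm :=
  .all l (.iff (.mem (.var l) j) (.mem (pairTm (.var i) (.var l)) k))

/-- The axioms of `Sigma^1_1-AC_0` (free variables being universally quantified): those of `ACA_0`
and all instances `∀ x ∃ X η(x, X) → ∃ Z ∀ x ∃ X (X = (Z)_x ∧ η(x, X))` of the choice schema for
`Sigma^1_1` formulas `η` in which `Z` is not free. -/
inductive Sigma11AC0 : Fm → Prop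
  | aca (φ : Fm) : ACA0 φ → Sigma11AC0 φ
  | choice (η : Fm) (i j k l : ℕ) : η.IsSigma11 → k ∉ η.fvS → k ≠ j → l ≠ i →
      Sigma11AC0 (.imp (.all i (.exS j η))
        (.exS k (.all i (.exS j (.and (isSection j k i l) η)))))

/-- `T` is a set of sentences that proves all axioms of `Sigma^1_1-AC_0`. -/
def ExtendsSigma11AC0 (T : Set Fm) : Prop :=
  (∀ φ ∈ T, φ.IsSentence) ∧ ∀ φ, Sigma11AC0 φ → Proves T φ

/-- The `Pi^1_1` formula `τ(a)` defines (the set of Goedel numbers of the members of) `T` in the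
standard model. -/
def Pi11Defines (τ : Fm) (T : Set Fm) : Prop :=
  τ.IsPi11 ∧ τ.FreeIn {0} ∧ ∀ n : ℕ, SatN n 0 0 τ ↔ ∃ φ ∈ T, φ.code = n

/-- `T` proves its own `Pi^1_1`-soundness, for some `Pi^1_1` definition `τ` of `T`. -/
def ProvesOwnSoundnessPi (𝒜 : Arithmetization) (T : Set Fm) : Prop :=
  ∃ τ : Fm, Pi11Defines τ T ∧ Proves T (𝒜.reflection τ)

/-- In the arithmetization `𝒜` each (standard) proof uses only finitely many axioms. -/
def FiniteUse (𝒜 : Arithmetization) : Prop :=
  ∀ p : ℕ, {a : ℕ | SatN a p 0 𝒜.axIn}.Finite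

end Pool.Agent.Run7.h915.SR
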