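import Pool.Agent.Run7.h915.SRSem

/-! The theory `T = U + sig0 + sig1` and its `Pi^1_1` definition `tau` (Feferman's trick): `T`
is true in the standard model and proves the `Pi^1_1`-reflection sentence for `tau`. -/

set_option autoImplicit false

namespace Pool.Agent.Run7.h915.SR

open Pool.Agent.H986R3.SOA Function Pool.Agent.Helper180.ArithDef

/-- Satisfaction of a formula without free set variables only depends on its free variables. -/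
theorem Sat_free {M : Model} {φ : Fm} {s : Set ℕ} (h : φ.FreeIn s) {v v' : ℕ → M.Num}
    {V V' : ℕ → Set M.Num} (hv : ∀ i ∈ s, v i = v' i) : Sat M v V φ ↔ Sat M v' V' φ := by
  refine Sat_congr M φ v v' V V' (fun i hi => hv i (h.1 hi)) (fun i hi => ?_)
  rw [h.2] at hi
  exact hi.elim

section sem
variable (𝒜 : Arithmetization) (M : Model)

/-- The axiom `b` is used in the proof `p`, in `M`. -/
def AxP (b p : M.Num) : Prop := Sat M (asg b p p) (fun _ => ∅) 𝒜.axIn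

/-- `p` is a proof of `x`, in `M`. -/
def PrfP (p x : M.Num) : Prop := Sat M (asg p p x) (fun _ => ∅) 𝒜.prf

/-- `x` is a `Pi^1_1` sentence, in `M`. -/
def PiP (x : M.Num) : Prop := Sat M (asg x x x) (fun _ => ∅) 𝒜.isPi

/-- `x` is a true `Pi^1_1` sentence, in `M`. -/
def TrP (x : M.Num) : Prop := Sat M (asg x x x) (fun _ => ∅) 𝒜.tr

/-- `φ(a)` in `M`, for a formula `φ` with free variable `0`. -/
def At (φ : Fm) (a : M.Num) : Prop := Sat M (asg a a a) (fun _ => ∅) φ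

variable {𝒜 M}
variable {v : ℕ → M.Num} {V : ℕ → Set M.Num}

theorem Sat_axIn : Sat M v V 𝒜.axIn ↔ AxP 𝒜 M (v 0) (v 1) :=
  Sat_free 𝒜.axIn_free (by rintro i (rfl | rfl) <;> rfl)

theorem Sat_prf : Sat M v V 𝒜.prf ↔ PrfP 𝒜 M (v 1) (v 2) :=
  Sat_free 𝒜.prf_free (by rintro i (rfl | rfl) <;> rfl)

theorem Sat_isPi : Sat M v V 𝒜.isPi ↔ PiP 𝒜 M (v 2) :=
  Sat_free 𝒜.isPi_free (by rintro i rfl; rfl)

theorem Sat_tr : Sat M v V 𝒜.tr ↔ TrP 𝒜 M (v 2) :=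
  Sat_free 𝒜.tr_free (by rintro i rfl; rfl)

theorem Sat_at {φ : Fm} (h : φ.FreeIn {0}) : Sat M v V φ ↔ At M φ (v 0) :=
  Sat_free h (by rintro i rfl; rfl)

end sem

/-- The sentence saying that `Pi^1_1` sentences provable without non-logical axioms are true. -/
def sig0 (𝒜 : Arithmetization) : Fm :=
  .all 2 (.imp (.and 𝒜.isPi (.ex 1 (.and 𝒜.prf (.all 0 (.neg 𝒜.axIn))))) 𝒜.tr)

/-- The sentence saying that each proof which uses an axiom uses a largest one. -/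
def sig1 (𝒜 : Arithmetization) : Fm :=
  .all 1 (.imp (.ex 0 𝒜.axIn) (.ex 3 (.and (.all 0 (.imp (.eq (.var 0) (.var 3)) 𝒜.axIn))
    (.all 0 (.imp 𝒜.axIn (.neg (.lt (.var 3) (.var 0))))))))

/-- The `Pi^1_1` definition: `a` satisfies `ax`, and the axioms satisfying `ax` which are not
larger than `a` are `Pi^1_1`-sound. Here `True_{Pi^1_1}` is `∀ X_i θ`. -/
def tau (𝒜 : Arithmetization) (ax : Fm) (i : ℕ) (θ : Fm) : Fm :=
  .allS i (.and ax (.all 3 (.imp (.eq (.var 3) (.var 0)) (.all 2 (.imp (.and 𝒜.isPi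
    (.ex 1 (.and 𝒜.prf (.all 0 (.imp 𝒜.axIn (.and ax (.neg (.lt (.var 3) (.var 0)))))))))
      θ)))))

section sat
variable {𝒜 : Arithmetization} {M : Model} {v : ℕ → M.Num} {V : ℕ → Set M.Num}

theorem Sat_sig0 : Sat M v V (sig0 𝒜) ↔
    ∀ x, PiP 𝒜 M x → (∃ p, PrfP 𝒜 M p x ∧ ∀ b, ¬ AxP 𝒜 M b p) → TrP 𝒜 M x := by
  simp only [sig0, Sat, Sat_imp, Sat_ex, Sat_isPi, Sat_tr, Sat_prf, Sat_axIn, update_self]
  simp only [ne_eq, OfNat.ofNat_ne_zero, OfNat.zero_ne_ofNat, not_false_eq_true, update_of_ne,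
    Nat.reduceEqDiff, OfNat.ofNat_ne_one, OfNat.one_ne_ofNat, zero_ne_one, one_ne_zero,
    update_self, and_imp]

theorem Sat_sig1 : Sat M v V (sig1 𝒜) ↔
    ∀ p, (∃ b, AxP 𝒜 M b p) → ∃ c, AxP 𝒜 M c p ∧ ∀ b, AxP 𝒜 M b p → ¬ M.lt c b := by
  simp only [sig1, Sat, Sat_imp, Sat_ex, Sat_axIn, update_self, Tm.val]
  simp only [ne_eq, OfNat.ofNat_ne_zero, OfNat.zero_ne_ofNat, not_false_eq_true, update_of_ne,
    Nat.reduceEqDiff, OfNat.ofNat_ne_one, OfNat.one_ne_ofNat, zero_ne_one, one_ne_zero,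
    update_self, forall_eq]

theorem Sat_refl {τ : Fm} (hτ : τ.FreeIn {0}) : Sat M v V (𝒜.reflection τ) ↔
    ∀ x, PiP 𝒜 M x → (∃ p, PrfP 𝒜 M p x ∧ ∀ b, AxP 𝒜 M b p → At M τ b) → TrP 𝒜 M x := by
  simp only [Arithmetization.reflection, Arithmetization.Pr, Sat, Sat_imp, Sat_ex, Sat_isPi,
    Sat_tr, Sat_prf, Sat_axIn, Sat_at hτ, update_self]
  simp only [ne_eq, OfNat.ofNat_ne_zero, OfNat.zero_ne_ofNat, not_false_eq_true, update_of_ne,
    Nat.reduceEqDiff, OfNat.ofNat_ne_one, OfNat.one_ne_ofNat, zero_ne_one, one_ne_zero,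
    update_self, and_imp]

theorem Sat_tau {ax : Fm} (hax : ax.FreeIn {0}) {i : ℕ} {θ : Fm} (htr : 𝒜.tr = .allS i θ) :
    Sat M v V (tau 𝒜 ax i θ) ↔ At M ax (v 0) ∧
      ∀ x, PiP 𝒜 M x → (∃ p, PrfP 𝒜 M p x ∧
        ∀ b, AxP 𝒜 M b p → At M ax b ∧ ¬ M.lt (v 0) b) → TrP 𝒜 M x := by
  have h1 : Sat M v V (tau 𝒜 ax i θ) ↔ ∀ A ∈ M.sets, (At M ax (v 0) ∧
      ∀ x, PiP 𝒜 M x → (∃ p, PrfP 𝒜 M p x ∧
        ∀ b, AxP 𝒜 M b p → At M ax b ∧ ¬ M.lt (v 0) b) →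
        Sat M (update (update v 3 (v 0)) 2 x) (update V i A) θ) := by
    simp only [tau, Sat, Sat_imp, Sat_ex, Sat_isPi, Sat_prf, Sat_axIn, Sat_at hax, update_self,
      Tm.val]
    simp only [ne_eq, OfNat.ofNat_ne_zero, OfNat.zero_ne_ofNat, not_false_eq_true, update_of_ne,
      Nat.reduceEqDiff, OfNat.ofNat_ne_one, OfNat.one_ne_ofNat, zero_ne_one, one_ne_zero,
      update_self, and_imp, forall_eq]
  have h2 : ∀ x, TrP 𝒜 M x ↔ ∀ A ∈ M.sets,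
      Sat M (update (update v 3 (v 0)) 2 x) (update V i A) θ := by
    intro x
    have h3 : Sat M (update (update v 3 (v 0)) 2 x) V 𝒜.tr ↔ TrP 𝒜 M x := by
      rw [Sat_tr, update_self]
    rw [← h3, htr]
    rfl
  rw [h1]
  constructor
  · intro h
    obtain ⟨A₀, hA₀⟩ := M.sets_nonempty
    refine ⟨(h A₀ hA₀).1, fun x hx hp => (h2 x).2 fun A hA => (h A hA).2 x hx hp⟩
  · rintro ⟨h3, h4⟩ A hA
    exact ⟨h3, fun x hx hp => (h2 x).1 (h4 x hx hp) A hA⟩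

end sat

/-- The main step, in an arbitrary structure. -/
theorem refl_of_sig {𝒜 : Arithmetization} {M : Model} {ax : Fm} (hax : ax.FreeIn {0}) {i : ℕ}
    {θ : Fm} (htr : 𝒜.tr = .allS i θ) (hfree : (tau 𝒜 ax i θ).FreeIn {0})
    (h0 : M.Holds (sig0 𝒜)) (h1 : M.Holds (sig1 𝒜)) :
    M.Holds (𝒜.reflection (tau 𝒜 ax i θ)) := by
  intro v V hV
  have g0 := Sat_sig0.1 (h0 v V hV)
  have g1 := Sat_sig1.1 (h1 v V hV)
  rw [Sat_refl hfree]
  rintro x hx ⟨p, hp, hb⟩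
  by_cases hne : ∃ b, AxP 𝒜 M b p
  · obtain ⟨c, hc, hmax⟩ := g1 p hne
    have hc' := (Sat_tau hax htr).1 (hb c hc)
    refine hc'.2 x hx ⟨p, hp, fun b hbp => ⟨?_, ?_⟩⟩
    · exact ((Sat_tau hax htr).1 (hb b hbp)).1
    · exact hmax b hbp
  · exact g0 x hx ⟨p, hp, fun b hb => hne ⟨b, hb⟩⟩

/-! ### The standard model -/

theorem std_aca : ∀ ψ, ACA0 ψ → std.Holds ψ := aca_of_U std_U

/-- In the standard model the truth predicate is true of true `Pi^1_1` sentences. -/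
theorem std_tr {𝒜 : Arithmetization} {φ : Fm} (h : φ.IsPi11Sentence) (ht : std.Holds φ) :
    TrP 𝒜 std (φ.code : ℕ) := by
  have h1 := 𝒜.tr_proves φ h std std_aca (fun _ => (0 : ℕ)) (fun _ => ∅) (fun _ => trivial)
  rw [Sat_iff] at h1
  have h2 := h1.2 (ht _ _ (fun _ => trivial))
  have h3 := h2 (φ.code : ℕ)
  rw [Sat_imp] at h3
  have h4 := h3 (by
    simp only [Sat, Tm.val, update_self, val_numeral]
    exact (std_num φ.code).symm)
  rw [Sat_tr, update_self] at h4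
  exact h4

theorem std_sound {𝒜 : Arithmetization} (T : Set Fm) (hT : ∀ φ ∈ T, φ.IsSentence)
    (hT' : ∀ φ ∈ T, std.Holds φ) (x p : ℕ) (hx : PiP 𝒜 std x) (hp : PrfP 𝒜 std p x)
    (h : ∀ b : ℕ, AxP 𝒜 std b p → ∃ ψ ∈ T, ψ.code = b) : TrP 𝒜 std x := by
  have hx' : SatN 0 0 x 𝒜.isPi := (Sat_isPi (𝒜 := 𝒜) (M := std)).2 hx
  obtain ⟨φ, hφ, rfl⟩ := (𝒜.isPi_std x).1 hx'
  refine std_tr hφ ?_
  have hprov : Proves T φ := by
    refine (𝒜.prf_correct T hT φ hφ.2).2 ⟨p, (Sat_prf (𝒜 := 𝒜) (M := std)).2 hp, fun a ha => ?_⟩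
    exact h a ((Sat_axIn (𝒜 := 𝒜) (M := std)).1 ha)
  exact hprov std hT'

theorem std_sig0 (𝒜 : Arithmetization) : std.Holds (sig0 𝒜) := by
  intro v V _
  rw [Sat_sig0]
  rintro x hx ⟨p, hp, hb⟩
  exact std_sound ∅ (fun _ h => h.elim) (fun _ h => h.elim) x p hx hp
    (fun b h => absurd h (hb b))

theorem std_sig1 {𝒜 : Arithmetization} (hfin : FiniteUse 𝒜) : std.Holds (sig1 𝒜) := by
  intro v V _
  rw [Sat_sig1]
  rintro p ⟨b, hb⟩
  have hF : {a : ℕ | AxP 𝒜 std a p}.Finite := by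
    refine (hfin p).subset fun a ha => ?_
    exact (Sat_axIn (𝒜 := 𝒜) (M := std)).2 ha
  obtain ⟨c, hc, hmax⟩ := Set.exists_max_image {a : ℕ | AxP 𝒜 std a p} id hF ⟨b, hb⟩
  exact ⟨c, hc, fun b' hb' => Nat.not_lt.2 (hmax b' hb')⟩

/-- The theory. -/
def TT (𝒜 : Arithmetization) : Set Fm := U ∪ {sig0 𝒜, sig1 𝒜}

theorem sig0_sentence (𝒜 : Arithmetization) : (sig0 𝒜).IsSentence := by
  have h1 := 𝒜.prf_free
  have h2 := 𝒜.axIn_free
  have h3 := 𝒜.isPi_free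
  have h4 := 𝒜.tr_free
  constructor
  · refine Set.eq_empty_of_forall_notMem fun i hi => ?_
    simp only [sig0, Fm.imp, Fm.ex, Fm.fvN, Set.mem_diff, Set.mem_union, Set.mem_singleton_iff]
      at hi
    have g1 : i ∈ 𝒜.prf.fvN → i = 1 ∨ i = 2 := fun h => h1.1 h
    have g2 : i ∈ 𝒜.axIn.fvN → i = 0 ∨ i = 1 := fun h => h2.1 h
    have g3 : i ∈ 𝒜.isPi.fvN → i = 2 := fun h => h3.1 h
    have g4 : i ∈ 𝒜.tr.fvN → i = 2 := fun h => h4.1 h
    tauto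
  · simp only [sig0, Fm.imp, Fm.ex, Fm.fvS, h1.2, h2.2, h3.2, h4.2, Set.union_self]

theorem sig1_sentence (𝒜 : Arithmetization) : (sig1 𝒜).IsSentence := by
  have h2 := 𝒜.axIn_free
  constructor
  · refine Set.eq_empty_of_forall_notMem fun i hi => ?_
    simp only [sig1, Fm.imp, Fm.ex, Fm.fvN, Tm.fv, Set.mem_diff, Set.mem_union,
      Set.mem_singleton_iff] at hi
    have g2 : i ∈ 𝒜.axIn.fvN → i = 0 ∨ i = 1 := fun h => h2.1 h
    tauto
  · simp only [sig1, Fm.imp, Fm.ex, Fm.fvS, h2.2, Set.union_self]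

theorem TT_sentence (𝒜 : Arithmetization) : ∀ φ ∈ TT 𝒜, φ.IsSentence := by
  rintro φ (h | h | h)
  · exact U_sentence φ h
  · rw [h]; exact sig0_sentence 𝒜
  · rw [h]; exact sig1_sentence 𝒜

theorem std_TT {𝒜 : Arithmetization} (hfin : FiniteUse 𝒜) : ∀ φ ∈ TT 𝒜, std.Holds φ := by
  rintro φ (h | h | h)
  · exact std_U φ h
  · rw [h]; exact std_sig0 𝒜
  · rw [h]; exact std_sig1 hfin

theorem ad_TT (𝒜 : Arithmetization) : AD (fun w => ∃ χ ∈ TT 𝒜, χ.code = w 0) := by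
  refine ad_dc.iff (fun w => ?_) (ad_dc.or ad_U
    (ad_dc.or (ad_const (sig0 𝒜).code) (ad_const (sig1 𝒜).code)))
  constructor
  · rintro (⟨χ, h, h'⟩ | h | h)
    · exact ⟨χ, Or.inl h, h'⟩
    · exact ⟨_, Or.inr (Or.inl rfl), h.symm⟩
    · exact ⟨_, Or.inr (Or.inr rfl), h.symm⟩
  · rintro ⟨χ, (h | h | h), h'⟩
    · exact Or.inl ⟨χ, h, h'⟩
    · rw [← h', h]; exact Or.inr (Or.inl rfl)
    · rw [← h', h]; exact Or.inr (Or.inr rfl)

theorem tau_free {𝒜 : Arithmetization} {ax : Fm} (hax : ax.FreeIn {0}) {i : ℕ} {θ : Fm}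
    (htr : 𝒜.tr = .allS i θ) : (tau 𝒜 ax i θ).FreeIn {0} := by
  have h1 := 𝒜.prf_free
  have h2 := 𝒜.axIn_free
  have h3 := 𝒜.isPi_free
  have h4 := 𝒜.tr_free
  rw [htr] at h4
  constructor
  · intro j hj
    simp only [tau, Fm.imp, Fm.ex, Fm.fvN, Tm.fv, Set.mem_diff, Set.mem_union,
      Set.mem_singleton_iff] at hj
    have g0 : j ∈ ax.fvN → j = 0 := fun h => hax.1 h
    have g1 : j ∈ 𝒜.prf.fvN → j = 1 ∨ j = 2 := fun h => h1.1 h
    have g2 : j ∈ 𝒜.axIn.fvN → j = 0 ∨ j = 1 := fun h => h2.1 h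
    have g3 : j ∈ 𝒜.isPi.fvN → j = 2 := fun h => h3.1 h
    have g4 : j ∈ θ.fvN → j = 2 := fun h => h4.1 h
    show j = 0
    tauto
  · refine Set.eq_empty_of_forall_notMem fun j hj => ?_
    have h5 : θ.fvS \ {i} = ∅ := h4.2
    have g4 : j ∈ θ.fvS → j = i := fun h => by
      by_contra hne
      have : j ∈ θ.fvS \ {i} := ⟨h, hne⟩
      rw [h5] at this
      exact this
    simp only [tau, Fm.imp, Fm.ex, Fm.fvS, h1.2, h2.2, h3.2, hax.2, Set.union_self,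
      Set.empty_union, Set.mem_diff, Set.mem_singleton_iff] at hj
    exact hj.2 (g4 hj.1)

/-- For every arithmetization in which each proof uses finitely many axioms there is a theory
extending `Sigma^1_1-AC_0`, all of whose axioms are true, which is `Pi^1_1`-definable and proves
its own `Pi^1_1`-soundness. -/
theorem main (𝒜 : Arithmetization) (hfin : FiniteUse 𝒜) :
    ∃ T : Set Fm, ExtendsSigma11AC0 T ∧ (∀ φ ∈ T, std.Holds φ) ∧ Pi11Sound T ∧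
      ProvesOwnSoundnessPi 𝒜 T := by
  obtain ⟨i, θ, htr, hθ⟩ := 𝒜.tr_pi
  obtain ⟨ax, hax1, hax2, hax3⟩ := formula_of_ad (R := fun n => ∃ χ ∈ TT 𝒜, χ.code = n) (ad_TT 𝒜)
  have hfree := tau_free (𝒜 := 𝒜) hax2 htr
  refine ⟨TT 𝒜, ⟨TT_sentence 𝒜, fun φ hφ M hM => ?_⟩, std_TT hfin, fun φ _ hp => ?_,
    tau 𝒜 ax i θ, ⟨⟨i, _, rfl, ?_⟩, hfree, fun n => ?_⟩, fun M hM => ?_⟩
  · exact ac_of_U (fun χ hχ => hM χ (Or.inl hχ)) φ hφ
  · exact hp std (std_TT hfin)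
  · refine ⟨hax1, ?_⟩
    exact ⟨trivial, ⟨𝒜.isPi_arith, ⟨𝒜.prf_arith, 𝒜.axIn_arith, hax1, trivial⟩⟩, hθ⟩
  · have e : SatN n 0 0 (tau 𝒜 ax i θ) ↔ At std ax (n : ℕ) ∧
        ∀ x : ℕ, PiP 𝒜 std x → (∃ p : ℕ, PrfP 𝒜 std p x ∧
          ∀ b : ℕ, AxP 𝒜 std b p → At std ax b ∧ ¬ n < b) → TrP 𝒜 std x :=
      Sat_tau hax2 htr
    have hat : ∀ m : ℕ, At std ax m ↔ ∃ χ ∈ TT 𝒜, χ.code = m := fun m =>
      hax3 (asg (A := ℕ) m m m) (fun _ => ∅)
    rw [e, hat]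
    constructor
    · rintro ⟨h, _⟩
      exact h
    · intro h
      refine ⟨h, ?_⟩
      rintro x hx ⟨p, hp, hb⟩
      exact std_sound (TT 𝒜) (TT_sentence 𝒜) (std_TT hfin) x p hx hp
        (fun b hb' => (hat b).1 (hb b hb').1)
  · exact refl_of_sig hax2 htr hfree (hM _ (Or.inr (Or.inl rfl))) (hM _ (Or.inr (Or.inr rfl)))

end Pool.Agent.Run7.h915.SR
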