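import Pool.Agent.Run7.h915.SRCode
import Pool.Agent.H986R3.SOAFinal

/-! The base theory `U` consists of sentences, is true in the standard model and proves all axioms
of `Sigma^1_1-AC_0`. -/

set_option autoImplicit false

namespace Pool.Agent.Run7.h915.SR

open Pool.Agent.H986R3.SOA Function

theorem le_pr_left (a b : ℕ) : a ≤ pr a b := Nat.le_add_left _ _

theorem le_pr_right (a b : ℕ) : b ≤ pr a b := by
  have : a + b ≤ (a + b) * (a + b) := Nat.le_mul_self _
  unfold pr
  omega

theorem Tm_fv_le (t : Tm) : ∀ i ∈ t.fv, i ≤ t.code := by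
  induction t with
  | var j => intro i hi; rw [Set.mem_singleton_iff.1 hi]; exact le_pr_right _ _
  | zero => intro i hi; exact hi.elim
  | one => intro i hi; exact hi.elim
  | add s t hs ht =>
    rintro i (hi | hi)
    · exact (hs i hi).trans ((le_pr_left _ _).trans (le_pr_right _ _))
    · exact (ht i hi).trans ((le_pr_right _ _).trans (le_pr_right _ _))
  | mul s t hs ht =>
    rintro i (hi | hi)
    · exact (hs i hi).trans ((le_pr_left _ _).trans (le_pr_right _ _))
    · exact (ht i hi).trans ((le_pr_right _ _).trans (le_pr_right _ _))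

theorem fvN_le (φ : Fm) : ∀ i ∈ φ.fvN, i ≤ φ.code := by
  induction φ with
  | eq s t =>
    rintro i (hi | hi)
    · exact (Tm_fv_le s i hi).trans ((le_pr_left _ _).trans (le_pr_right _ _))
    · exact (Tm_fv_le t i hi).trans ((le_pr_right _ _).trans (le_pr_right _ _))
  | lt s t =>
    rintro i (hi | hi)
    · exact (Tm_fv_le s i hi).trans ((le_pr_left _ _).trans (le_pr_right _ _))
    · exact (Tm_fv_le t i hi).trans ((le_pr_right _ _).trans (le_pr_right _ _))
  | mem s j =>
    intro i hi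
    exact (Tm_fv_le s i hi).trans ((le_pr_left _ _).trans (le_pr_right _ _))
  | neg φ ih => intro i hi; exact (ih i hi).trans (le_pr_right _ _)
  | and φ ψ ih1 ih2 =>
    rintro i (hi | hi)
    · exact (ih1 i hi).trans ((le_pr_left _ _).trans (le_pr_right _ _))
    · exact (ih2 i hi).trans ((le_pr_right _ _).trans (le_pr_right _ _))
  | all j φ ih =>
    rintro i ⟨hi, _⟩
    exact (ih i hi).trans ((le_pr_right _ _).trans (le_pr_right _ _))
  | allS j φ ih =>
    intro i hi
    exact (ih i hi).trans ((le_pr_right _ _).trans (le_pr_right _ _))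

theorem fvS_le (φ : Fm) : ∀ i ∈ φ.fvS, i ≤ φ.code := by
  induction φ with
  | eq s t => intro i hi; exact hi.elim
  | lt s t => intro i hi; exact hi.elim
  | mem s j =>
    intro i hi
    rw [Set.mem_singleton_iff.1 hi]
    exact (le_pr_right _ _).trans (le_pr_right _ _)
  | neg φ ih => intro i hi; exact (ih i hi).trans (le_pr_right _ _)
  | and φ ψ ih1 ih2 =>
    rintro i (hi | hi)
    · exact (ih1 i hi).trans ((le_pr_left _ _).trans (le_pr_right _ _))
    · exact (ih2 i hi).trans ((le_pr_right _ _).trans (le_pr_right _ _))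
  | all j φ ih =>
    intro i hi
    exact (ih i hi).trans ((le_pr_right _ _).trans (le_pr_right _ _))
  | allS j φ ih =>
    rintro i ⟨hi, _⟩
    exact (ih i hi).trans ((le_pr_right _ _).trans (le_pr_right _ _))

theorem clN_fv (n : ℕ) (φ : Fm) :
    (∀ i ∈ (clN n φ).fvN, i ∈ φ.fvN ∧ n ≤ i) ∧ (clN n φ).fvS = φ.fvS := by
  induction n with
  | zero => exact ⟨fun i hi => ⟨hi, Nat.zero_le _⟩, rfl⟩
  | succ n ih =>
    refine ⟨?_, ih.2⟩
    rintro i ⟨hi, hne⟩
    have h := ih.1 i hi
    have hne' : i ≠ n := hne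
    exact ⟨h.1, by omega⟩

theorem clS_fv (n : ℕ) (φ : Fm) :
    (∀ i ∈ (clS n φ).fvS, i ∈ φ.fvS ∧ n ≤ i) ∧ (clS n φ).fvN = φ.fvN := by
  induction n with
  | zero => exact ⟨fun i hi => ⟨hi, Nat.zero_le _⟩, rfl⟩
  | succ n ih =>
    refine ⟨?_, ih.2⟩
    rintro i ⟨hi, hne⟩
    have h := ih.1 i hi
    have hne' : i ≠ n := hne
    exact ⟨h.1, by omega⟩

theorem cl_sentence (φ : Fm) : (cl φ).IsSentence := by
  constructor
  · rw [cl, (clS_fv _ _).2]
    refine Set.eq_empty_of_forall_notMem fun i hi => ?_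
    have h := (clN_fv _ _).1 i hi
    have := fvN_le φ i h.1
    omega
  · refine Set.eq_empty_of_forall_notMem fun i hi => ?_
    have h := (clS_fv _ _).1 i hi
    rw [(clN_fv _ _).2] at h
    have := fvS_le φ i h.1
    omega

theorem Sat_of_clN (M : Model) (n : ℕ) (φ : Fm) (v : ℕ → M.Num) (V : ℕ → Set M.Num)
    (h : Sat M v V (clN n φ)) : Sat M v V φ := by
  induction n with
  | zero => exact h
  | succ n ih =>
    have h1 := h (v n)
    rw [update_eq_self] at h1
    exact ih h1

theorem Sat_of_clS (M : Model) (n : ℕ) (φ : Fm) (v : ℕ → M.Num) (V : ℕ → Set M.Num)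
    (hV : ∀ j, V j ∈ M.sets) (h : Sat M v V (clS n φ)) : Sat M v V φ := by
  induction n with
  | zero => exact h
  | succ n ih =>
    have h1 := h (V n) (hV n)
    rw [update_eq_self] at h1
    exact ih h1

theorem holds_of_cl {M : Model} {φ : Fm} (h : M.Holds (cl φ)) : M.Holds φ := fun v V hV =>
  Sat_of_clN M _ _ v V (Sat_of_clS M _ _ v V hV (h v V hV))

theorem holds_clN {M : Model} {φ : Fm} (h : M.Holds φ) (n : ℕ) : M.Holds (clN n φ) := by
  induction n with
  | zero => exact h
  | succ n ih => intro v V hV a; exact ih _ V hV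

theorem holds_clS {M : Model} {φ : Fm} (h : M.Holds φ) (n : ℕ) : M.Holds (clS n φ) := by
  induction n with
  | zero => exact h
  | succ n ih =>
    intro v V hV A hA
    refine ih v _ (fun j => ?_)
    by_cases hj : j = n
    · subst hj; rw [update_self]; exact hA
    · rw [update_of_ne hj]; exact hV j

theorem holds_cl {M : Model} {φ : Fm} (h : M.Holds φ) : M.Holds (cl φ) :=
  holds_clS (holds_clN h _) _

/-- The meaning of comprehension. -/
theorem Sat_comp (M : Model) (φ : Fm) (i j : ℕ) (hj : j ∉ φ.fvS) (v : ℕ → M.Num)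
    (V : ℕ → Set M.Num) : Sat M v V (.exS j (.all i (.iff (.mem (.var i) j) φ))) ↔
      ∃ A ∈ M.sets, ∀ x, x ∈ A ↔ Sat M (update v i x) V φ := by
  rw [Sat_exS]
  refine exists_congr fun A => and_congr_right fun _ => ?_
  simp only [Sat]
  refine forall_congr' fun x => ?_
  rw [Sat_iff]
  refine iff_congr ?_ ?_
  · simp [Sat, Tm.val]
  · refine Sat_congr M φ _ _ _ _ (fun _ _ => rfl) (fun k hk => ?_)
    rw [update_of_ne]
    rintro rfl
    exact hj hk

/-- The meaning of choice. -/
theorem Sat_choice (M : Model) (η : Fm) (i j k l : ℕ) (hk : k ∉ η.fvS) (hkj : k ≠ j)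
    (hli : l ≠ i) (v : ℕ → M.Num) (V : ℕ → Set M.Num) :
    Sat M v V (.imp (.all i (.exS j η)) (.exS k (.all i (.exS j (.and (isSection j k i l) η))))) ↔
      ((∀ x, ∃ X ∈ M.sets, Sat M (update v i x) (update V j X) η) →
        ∃ Z ∈ M.sets, ∀ x, ∃ X ∈ M.sets, (∀ m, m ∈ X ↔ M.pr x m ∈ Z) ∧
          Sat M (update v i x) (update V j X) η) := by
  rw [Sat_imp]
  refine imp_congr ?_ ?_
  · simp only [Sat]
    exact forall_congr' fun x => Sat_exS _ _ _ _ _
  · rw [Sat_exS]
    refine exists_congr fun Z => and_congr_right fun _ => ?_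
    simp only [Sat]
    refine forall_congr' fun x => ?_
    rw [Sat_exS]
    refine exists_congr fun X => and_congr_right fun _ => ?_
    simp only [Sat]
    refine and_congr ?_ ?_
    · simp only [isSection, Sat]
      refine forall_congr' fun m => ?_
      rw [Sat_iff]
      refine iff_congr ?_ ?_
      · simp [Sat, Tm.val]
      · simp only [Sat]
        rw [update_of_ne hkj, update_self]
        have : (pairTm (.var i) (.var l)).val M (update (update v i x) l m) = M.pr x m := by
          simp only [pairTm, Tm.val, update_self, Model.pr]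
          rw [update_of_ne (Ne.symm hli), update_self]
        rw [this]
    · refine Sat_congr M η _ _ _ _ (fun _ _ => rfl) (fun n hn => ?_)
      by_cases h : n = j
      · subst h; rw [update_self, update_self]
      · rw [update_of_ne h, update_of_ne h, update_of_ne]
        rintro rfl
        exact hk hn

theorem compr_notMem (φ : Fm) : φ.code + 1 ∉ φ.fvS := fun h => by
  have := fvS_le φ _ h
  omega

theorem choice_notMem (j : ℕ) (φ : Fm) : j + φ.code + 1 ∉ φ.fvS := fun h => by
  have := fvS_le φ _ h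
  omega

/-- All sets are in the standard model. -/
theorem std_basics : ∀ ψ ∈ basics, std.Holds ψ := by
  intro ψ hψ v V _
  simp only [basics, List.mem_cons, List.not_mem_nil, or_false] at hψ
  rcases hψ with rfl | rfl | rfl | rfl | rfl | rfl | rfl | rfl | rfl
  · exact Nat.succ_ne_zero (v 0)
  · rw [Sat_imp]
    exact fun h => Nat.succ.inj h
  · exact Nat.add_zero (v 0)
  · exact (Nat.add_assoc (v 0) (v 1) 1).symm
  · exact Nat.mul_zero (v 0)
  · exact Nat.mul_succ (v 0) (v 1)
  · exact Nat.not_lt_zero (v 0)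
  · rw [Sat_iff, Sat_or]
    exact Nat.lt_succ_iff_lt_or_eq
  · rw [Sat_imp]
    rintro ⟨h0, h1⟩ n
    have h0' : (0 : ℕ) ∈ V 0 := h0
    have h1' : ∀ a : ℕ, a ∈ V 0 → a + 1 ∈ V 0 := by
      intro a ha
      have h2 := h1 a
      rw [Sat_imp] at h2
      have h3 := h2 (by
        show update v 0 a 0 ∈ V 0
        rw [update_self]
        exact ha)
      have e : (Tm.add (.var 0) .one).val std (update v 0 a) = a + 1 := by
        show std.add (update v 0 a 0) std.one = a + 1
        rw [update_self]; rfl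
      simp only [Sat] at h3
      rw [e] at h3
      exact h3
    show update v 0 n 0 ∈ V 0
    rw [update_self]
    exact Nat.rec (motive := fun n => n ∈ V 0) h0' (fun a ha => h1' a ha) n

theorem std_U : ∀ χ ∈ U, std.Holds χ := by
  rintro χ (⟨ψ, hψ, rfl⟩ | ⟨i, ψ, rfl⟩ | ⟨i, j, ψ, rfl⟩)
  · exact holds_cl (std_basics ψ hψ)
  · refine holds_cl fun v V _ => ?_
    rw [compr, Sat_comp _ _ _ _ (compr_notMem ψ)]
    exact ⟨{x | Sat std (update v i x) V ψ}, trivial, fun x => Iff.rfl⟩
  · refine holds_cl fun v V _ => ?_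
    rw [choice, Sat_choice _ _ _ _ _ _ (choice_notMem j ψ) (by omega) (by omega)]
    intro h
    choose f _ hf using h
    refine ⟨{n : ℕ | ∃ x m : ℕ, n = pr x m ∧ m ∈ f x}, trivial, fun x => ⟨f x, trivial, ?_, hf x⟩⟩
    intro m
    constructor
    · intro hm; exact ⟨x, m, rfl, hm⟩
    · rintro ⟨x', m', h1, h2⟩
      obtain ⟨e1, e2⟩ := pr_inj (show pr x m = pr x' m' from h1)
      rw [e1, e2]
      exact h2

theorem aca_of_U {M : Model} (h : ∀ χ ∈ U, M.Holds χ) : ∀ ψ, ACA0 ψ → M.Holds ψ := by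
  have hb : ∀ ψ ∈ basics, M.Holds ψ := fun ψ hψ => holds_of_cl (h _ (Or.inl ⟨ψ, hψ, rfl⟩))
  intro ψ hψ
  cases hψ with
  | comprehension φ i j _ hj =>
    intro v V hV
    have h1 := holds_of_cl (h _ (Or.inr (Or.inl ⟨i, φ, rfl⟩))) v V hV
    rw [compr, Sat_comp _ _ _ _ (compr_notMem φ)] at h1
    rw [Sat_comp _ _ _ _ hj]
    exact h1
  | _ => exact hb _ (by simp [basics])

theorem ac_of_U {M : Model} (h : ∀ χ ∈ U, M.Holds χ) : ∀ ψ, Sigma11AC0 ψ → M.Holds ψ := by
  intro ψ hψ
  cases hψ with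
  | aca φ hφ => exact aca_of_U h _ hφ
  | choice η i j k l _ hk hkj hli =>
    intro v V hV
    have h1 := holds_of_cl (h _ (Or.inr (Or.inr ⟨i, j, η, rfl⟩))) v V hV
    rw [choice, Sat_choice _ _ _ _ _ _ (choice_notMem j η) (by omega) (by omega)] at h1
    rw [Sat_choice _ _ _ _ _ _ hk hkj hli]
    exact h1

theorem U_sentence : ∀ χ ∈ U, χ.IsSentence := by
  rintro χ (⟨ψ, _, rfl⟩ | ⟨i, ψ, rfl⟩ | ⟨i, j, ψ, rfl⟩) <;> exact cl_sentence _

end Pool.Agent.Run7.h915.SR
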