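import Pool.Agent.Run7.h915.Defs

/-!
# The Strong Tietze Theorem in a structure for second order arithmetic

The definitions follow Simpson, *Subsystems of second order arithmetic*, sections II.4, II.5,
II.6, III.2 and IV.2, and Giusto and Simpson, *Located sets and reverse mathematics*, read in an
arbitrary structure `(M, S)` for the language of second order arithmetic.
-/

namespace Run7.h915

universe u v

variable {M : Type u} [CommSemiring M] [LinearOrder M]

/-- The pairing function of Simpson's book. -/
def pair (x y : M) : M := (x + y) * (x + y) + x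

open Classical in
/-- The first component of a pair. -/
noncomputable def left (z : M) : M := if h : ∃ x y, pair x y = z then h.choose else 0

open Classical in
/-- The second component of a pair. -/
noncomputable def right (z : M) : M := if h : ∃ y x, pair x y = z then h.choose else 0

/-- `(M, S)` is a model of `RCA_0`: `M` is a discretely ordered commutative semiring with
`x ≤ y ↔ ∃ z, y = x + z` (that is `P^-`, expressed by the type classes and the field `disc`),
and `(M, S)` satisfies `Σ^0_1` induction and `Δ^0_1` comprehension. -/
structure IsModelRCA0 (M : Type u) [CommSemiring M] [LinearOrder M] [IsStrictOrderedRing M]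
    [CanonicallyOrderedAdd M] (S : Set (Set M)) : Prop where
  disc : ∀ x : M, 0 < x → 1 ≤ x
  induction : SigmaOneInduction S
  comprehension : DeltaOneComprehension S

/-- `f` is a function of the structure `(M, S)`: its graph is one of the sets of `S`. Functions
of several variables are treated as functions of one variable, by means of `pair`. -/
def FunIn (S : Set (Set M)) (f : M → M) : Prop := {z | ∃ x, z = pair x (f x)} ∈ S

/-- The ordered field `F` of rational numbers of `M` (the ordered field of fractions of `M`),
together with the function `n ↦ 2 ^ n` of `(M, S)`. -/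
structure Rationals (S : Set (Set M)) (F : Type v) [Field F] [LinearOrder F] where
  /-- the embedding of `M` in `F` -/
  ι : M →+* F
  mono : ∀ a b : M, a < b → ι a < ι b
  frac : ∀ x : F, ∃ a b c : M, x = (ι a - ι b) / (ι c + 1)
  /-- the function `n ↦ 2 ^ n` -/
  two : M → M
  two_mem : FunIn S two
  two_zero : two 0 = 1
  two_succ : ∀ n, two (n + 1) = 2 * two n

/-- Data for a complete separable metric space: a set `A` and a function `D` such that
`k ↦ D (a, (b, k))` is the real number `d(a, b)`, for `a, b ∈ A`. -/
structure Space (M : Type u) where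
  /-- the dense set -/
  A : Set M
  /-- the distance function on the dense set -/
  D : M → M

namespace Rationals

variable {S : Set (Set M)} {F : Type v} [Field F] [LinearOrder F] (R : Rationals S F)

/-- The rational number `(a - b) / (c + 1)` coded by `z = (a, (b, c))`. -/
noncomputable def val (z : M) : F :=
  (R.ι (left z) - R.ι (left (right z))) / (R.ι (right (right z)) + 1)

/-- The rational number `2 ^ (-n)`. -/
noncomputable def half (n : M) : F := (R.ι (R.two n))⁻¹

/-- `lim x ≤ lim y`, for sequences `x`, `y` of rational numbers. -/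
def LimLE (x y : M → F) : Prop := ∀ n : M, ∃ N : M, ∀ k : M, N ≤ k → x k ≤ y k + R.half n

/-- `lim x < lim y`, for sequences `x`, `y` of rational numbers. -/
def LimLT (x y : M → F) : Prop := ∃ n N : M, ∀ k : M, N ≤ k → x k + R.half n ≤ y k

/-- `x` is (a code for) a real number of `(M, S)`: a sequence of codes of rational numbers
`q_k = val (x k)` with `|q_k - q_{k+i}| ≤ 2^{-k}`. -/
def IsReal (x : M → M) : Prop :=
  FunIn S x ∧ ∀ k i : M, |R.val (x k) - R.val (x (k + i))| ≤ R.half k

/-- The sequence of rational numbers which is the real number `d(a, b)`, for `a, b ∈ A`. -/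
noncomputable def dist (X : Space M) (a b : M) : M → F :=
  fun k => R.val (X.D (pair a (pair b k)))

/-- `X` is a code in `(M, S)` for a complete separable metric space. -/
structure IsSpace (X : Space M) : Prop where
  mem : X.A ∈ S
  nonempty : X.A.Nonempty
  dist_mem : FunIn S X.D
  dist_real : ∀ a ∈ X.A, ∀ b ∈ X.A, R.IsReal (fun k => X.D (pair a (pair b k)))
  dist_self : ∀ a ∈ X.A, R.LimLE (R.dist X a a) (fun _ => 0)
  dist_nonneg : ∀ a ∈ X.A, ∀ b ∈ X.A, R.LimLE (fun _ => 0) (R.dist X a b)
  dist_symm : ∀ a ∈ X.A, ∀ b ∈ X.A, R.LimLE (R.dist X a b) (R.dist X b a)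
  dist_triangle : ∀ a ∈ X.A, ∀ b ∈ X.A, ∀ c ∈ X.A,
    R.LimLE (R.dist X a c) (fun k => R.dist X a b k + R.dist X b c k)

/-- `x` is a point of the space coded by `X`: a sequence of elements of `A` with
`d(x_i, x_j) ≤ 2^{-i}` for `i < j`. -/
def IsPoint (X : Space M) (x : M → M) : Prop :=
  FunIn S x ∧ (∀ k, x k ∈ X.A) ∧
    ∀ i j : M, i < j → R.LimLE (R.dist X (x i) (x j)) (fun _ => R.half i)

/-- The sequence of rational numbers whose limit is the distance `d(x, y)` of two points: its
`k`-th term is the `k`-th term of the real number `d(x_k, y_k)`. The element `a ∈ A` is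
identified with the point `fun _ => a`. -/
noncomputable def pdist (X : Space M) (x y : M → M) : M → F :=
  fun k => R.dist X (x k) (y k) k

/-- The space coded by `X` is compact: there are a function `N` and a double sequence of points
`x_{j,i} = (P (j, (i, k)) : k)`, for `i ≤ N j`, such that every point `z` has distance `< 2^{-j}`
from one of the points `x_{j,i}` with `i ≤ N j`. -/
def IsCompact (X : Space M) : Prop :=
  ∃ N P : M → M, FunIn S N ∧ FunIn S P ∧
    (∀ j i : M, i ≤ N j → R.IsPoint X (fun k => P (pair j (pair i k)))) ∧
    ∀ z, R.IsPoint X z → ∀ j : M, ∃ i : M, i ≤ N j ∧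
      R.LimLT (R.pdist X (fun k => P (pair j (pair i k))) z) (fun _ => R.half j)

/-- `U` is a code for an open set: a set of triples `(n, (a, r))` with `a ∈ A` and `r` the code
of a positive rational number. -/
def IsOpenCode (X : Space M) (U : Set M) : Prop :=
  U ∈ S ∧ ∀ u ∈ U, ∃ n a r : M, u = pair n (pair a r) ∧ a ∈ X.A ∧ 0 < R.val r

/-- The point `x` belongs to the open set coded by `U`: `d(x, a) < r` for some `(n, (a, r))` in
`U`. -/
def InOpen (X : Space M) (U : Set M) (x : M → M) : Prop :=
  ∃ n a r : M, pair n (pair a r) ∈ U ∧ R.LimLT (R.pdist X x (fun _ => a)) (fun _ => R.val r)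

/-- `P` codes a sequence of points, the `i`-th one being `(P (i, k) : k)`. -/
def IsPointSeq (X : Space M) (P : M → M) : Prop :=
  FunIn S P ∧ ∀ i : M, R.IsPoint X (fun k => P (pair i k))

/-- The point `x` belongs to the closure of the sequence of points coded by `P`. -/
def InClosure (X : Space M) (P : M → M) (x : M → M) : Prop :=
  ∀ n : M, ∃ i : M, R.LimLT (R.pdist X x (fun k => P (pair i k))) (fun _ => R.half n)

/-- `(a, r) Φ (b, s)`: some quintuple `(n, (a, (r, (b, s))))` belongs to `Φ`. -/
def Rel (Φ : Set M) (a r b s : M) : Prop := ∃ n : M, pair n (pair a (pair r (pair b s))) ∈ Φ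

/-- `Φ` is a code for a continuous partial function from the space coded by `X` to the real
line. -/
structure IsFunCode (X : Space M) (Φ : Set M) : Prop where
  mem : Φ ∈ S
  shape : ∀ u ∈ Φ, ∃ n a r b s : M, u = pair n (pair a (pair r (pair b s))) ∧ a ∈ X.A ∧
    0 < R.val r ∧ 0 < R.val s
  consistent : ∀ a r b s b' s' : M, Rel Φ a r b s → Rel Φ a r b' s' →
    |R.val b - R.val b'| ≤ R.val s + R.val s'
  shrink : ∀ a r b s a' r' : M, Rel Φ a r b s → a' ∈ X.A → 0 < R.val r' →
    R.LimLT (fun k => R.dist X a a' k + R.val r') (fun _ => R.val r) → Rel Φ a' r' b s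
  enlarge : ∀ a r b s b' s' : M, Rel Φ a r b s → |R.val b - R.val b'| + R.val s < R.val s' →
    Rel Φ a r b' s'

/-- The point `x` belongs to the domain of the continuous partial function coded by `Φ`. -/
def InDom (X : Space M) (Φ : Set M) (x : M → M) : Prop :=
  ∀ n : M, ∃ a r b s : M, Rel Φ a r b s ∧
    R.LimLT (R.pdist X x (fun _ => a)) (fun _ => R.val r) ∧ R.val s < R.half n

/-- The real number `y` is the value at the point `x` of the continuous partial function coded
by `Φ`: `|y - b| ≤ s` whenever `(a, r) Φ (b, s)` and `d(x, a) < r`. (This is used only for points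
`x` of the domain; there it determines the real number `y` up to equality of reals.) -/
def IsVal (X : Space M) (Φ : Set M) (x y : M → M) : Prop :=
  R.IsReal y ∧ ∀ a r b s : M, Rel Φ a r b s →
    R.LimLT (R.pdist X x (fun _ => a)) (fun _ => R.val r) →
      R.LimLE (fun k => |R.val (y k) - R.val b|) (fun _ => R.val s)

/-- `Φ` codes an element of `C(K)`: a continuous real valued function which is defined at all
points of `K` and has a modulus of uniform continuity `h` on `K`, that is, `|y - y'| < 2^{-n}` for
the values `y`, `y'` at `x`, `x'` in `K` whenever `d(x, x') < 2^{-h(n)}`. Here `K` is a class of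
points. -/
structure InC (X : Space M) (K : (M → M) → Prop) (Φ : Set M) : Prop where
  code : R.IsFunCode X Φ
  dom : ∀ x, R.IsPoint X x → K x → R.InDom X Φ x
  modulus : ∃ h : M → M, FunIn S h ∧ ∀ n : M, ∀ x x', R.IsPoint X x → K x → R.IsPoint X x' →
    K x' → R.LimLT (R.pdist X x x') (fun _ => R.half (h n)) →
      ∀ y y', R.IsVal X Φ x y → R.IsVal X Φ x' y' →
        R.LimLT (fun k => |R.val (y k) - R.val (y' k)|) (fun _ => R.half n)

/-- The Strong Tietze Theorem for the class of points `K` of the space coded by `X`: every
`φ ∈ C(K)` has an extension in `C(X)`. -/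
def StrongTietze (X : Space M) (K : (M → M) → Prop) : Prop :=
  ∀ Φ, R.InC X K Φ → ∃ Φ', R.InC X (fun _ => True) Φ' ∧
    ∀ x, R.IsPoint X x → K x → ∀ y, R.IsVal X Φ x y → R.IsVal X Φ' x y

/-- The Strong Tietze Theorem for all closed sets in compact metric spaces. -/
def STTcl : Prop :=
  ∀ X : Space M, R.IsSpace X → R.IsCompact X →
    ∀ U, R.IsOpenCode X U → R.StrongTietze X (fun x => ¬ R.InOpen X U x)

/-- The Strong Tietze Theorem for all sets in compact metric spaces which are both closed and
separably closed. -/
def STcs : Prop :=
  ∀ X : Space M, R.IsSpace X → R.IsCompact X →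
    ∀ U, R.IsOpenCode X U → ∀ P, R.IsPointSeq X P →
      (∀ x, R.IsPoint X x → (¬ R.InOpen X U x ↔ R.InClosure X P x)) →
        R.StrongTietze X (fun x => ¬ R.InOpen X U x)

theorem STTcl.stcs {R : Rationals S F} (h : R.STTcl) : R.STcs :=
  fun X hX hc U hU _ _ _ => h X hX hc U hU

end Rationals

end Run7.h915
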