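import Pool.Agent.Run7.h915.Count

/-!
# A set computed by too many oracles is computable
-/

set_option linter.unusedSectionVars false

namespace Run7.h915

universe u v w

variable {M : Type u} [CommSemiring M] [LinearOrder M] [IsStrictOrderedRing M]
  [CanonicallyOrderedAdd M] [Disc M] [IS1 M]

/-- More than `2 ^ (t - q)` strings of length `t` compute `ξ`. -/
def VV (e q ξ t : M) : Prop := exp2 t < cK e ξ t * exp2 q

@[fun_prop] protected theorem Comp.VV {S : Set (Set M)} [IndS S] {α : Type v} [Cod M α]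
    {f g h k : α → M} (hf : Comp S f) (hg : Comp S g) (hh : Comp S h) (hk : Comp S k) :
    Comp S (fun x => VV (f x) (g x) (h x) (k x)) := by
  unfold h915.VV; fun_prop

theorem cK_succ (e ξ t : M) : 2 * cK e ξ t ≤ cK e ξ (t + 1) := by
  refine lev_up (S := ∅) (by fun_prop) (by fun_prop) (fun z hz _ hk => ⟨?_, ?_⟩)
  · have h1 := pre_two_mul hz (b := 0) two_pos
    rw [add_zero] at h1
    exact hk.mono (mul_pos two_pos hz) h1
  · exact hk.mono (lt_of_lt_of_le (mul_pos two_pos hz) le_self_add) (pre_two_mul hz one_lt_two)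

theorem VV.succ {e q ξ t : M} (h : VV e q ξ t) : VV e q ξ (t + 1) := by
  unfold VV at h ⊢
  rw [exp2_succ]
  calc 2 * exp2 t < 2 * (cK e ξ t * exp2 q) := by gcongr
    _ = (2 * cK e ξ t) * exp2 q := by ring
    _ ≤ cK e ξ (t + 1) * exp2 q := by gcongr; exact cK_succ e ξ t

theorem VV.mono {e q ξ t t' : M} (h : VV e q ξ t) (ht : t ≤ t') : VV e q ξ t' := by
  obtain ⟨d, rfl⟩ := le_iff_exists_add.1 ht
  clear ht
  refine Comp.induct (S := ∅) (by fun_prop) ?_ ?_ d
  · rw [add_zero]; exact h
  · intro x hx; rw [← add_assoc]; exact hx.succ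

theorem cK_anti {e ξ ξ' t : M} (hξ : 0 < ξ) (h : pre ξ' ξ) : cK e ξ t ≤ cK e ξ' t :=
  lev_mono (S := ∅) (by fun_prop) (by fun_prop) (fun _ _ _ hk => hk.anti hξ h)

theorem VV.anti {e q ξ ξ' t : M} (hξ : 0 < ξ) (h : pre ξ' ξ) (hv : VV e q ξ t) : VV e q ξ' t := by
  unfold VV at hv ⊢
  exact lt_of_lt_of_le hv (by gcongr; exact cK_anti hξ h)

theorem sacks {S : Set (Set M)} [IndS S] {X : Set M} (hX : Comp S (fun i => i ∈ X)) {e q : M}
    (h : ∀ n, ∃ t, VV e q (str (fun i => i ∈ X) n) t) :
    Comp (∅ : Set (Set M)) (fun i : M => i ∈ X) := by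
  by_cases hstar : ∃ n, ∀ ξ t, 0 < ξ → pre (str (fun i => i ∈ X) n) ξ → VV e q ξ t →
      ξ = str (fun i => i ∈ X) (len ξ)
  · obtain ⟨n0, hn0⟩ := hstar
    set x0 := str (fun i => i ∈ X) n0 with hx0
    have main : ∀ b : M, ∀ n, (∃ w, 0 < fs w ∧ pre x0 (fs w) ∧ VV e q (fs w) (sn w) ∧
        n < len (fs w) ∧ bit (fs w) n = b) ↔ chi (n ∈ X) = b := by
      intro b n
      constructor
      · rintro ⟨w, h1, h2, h3, h4, h5⟩
        have h6 := hn0 _ _ h1 h2 h3
        rw [h6, bit_str hX h4] at h5
        exact h5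
      · intro hb
        obtain ⟨t, ht⟩ := h (max n0 (n + 1))
        refine ⟨pr (str (fun i => i ∈ X) (max n0 (n + 1))) t, ?_⟩
        rw [fs_pr, sn_pr, len_str hX]
        have h7 : n < max n0 (n + 1) := lt_of_lt_of_le (lt_add_one n) (le_max_right _ _)
        exact ⟨str_pos hX _, pre_str hX (le_max_left _ _), ht, h7, by rw [bit_str hX h7, hb]⟩
    refine Comp.of_re (S := ∅)
      (Q := fun n w => 0 < fs w ∧ pre x0 (fs w) ∧ VV e q (fs w) (sn w) ∧
        n < len (fs w) ∧ bit (fs w) n = 1)
      (R := fun n w => 0 < fs w ∧ pre x0 (fs w) ∧ VV e q (fs w) (sn w) ∧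
        n < len (fs w) ∧ bit (fs w) n = 0) (by fun_prop) (by fun_prop) ?_ ?_
    · intro n; rw [main 1 n, chi_eq_one]
    · intro n; rw [main 0 n, chi_eq_zero]
  · exfalso
    push Not at hstar
    let G : M → M → Prop := fun n w => 0 < fs w ∧ pre (str (fun i => i ∈ X) n) (fs w) ∧
      VV e q (fs w) (sn w) ∧ fs w ≠ str (fun i => i ∈ X) (len (fs w))
    have hG : Comp S (fun z : M × M => G z.1 z.2) := by
      show Comp S (fun z : M × M => 0 < fs z.2 ∧ pre (str (fun i => i ∈ X) z.1) (fs z.2) ∧
        VV e q (fs z.2) (sn z.2) ∧ fs z.2 ≠ str (fun i => i ∈ X) (len (fs z.2)))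
      fun_prop
    have hGex : ∀ n, ∃ w, G n w := by
      intro n
      obtain ⟨ξ, t, h1, h2, h3, h4⟩ := hstar n
      refine ⟨pr ξ t, ?_⟩
      show 0 < fs (pr ξ t) ∧ _
      rw [fs_pr, sn_pr]
      exact ⟨h1, h2, h3, h4⟩
    let F : M → M := fun n => mu (G n)
    have hF : Comp S F := Comp.mu hG hGex
    have hFs : ∀ n, G n (F n) := by
      intro n
      have : Comp S (G n) := Comp.comp (f := fun z : M × M => G z.1 z.2) (g := fun w => (n, w)) hG
        (by fun_prop)
      exact mu_spec this (hGex n)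
    let nn : M → M := fun i => prec 0 (fun _ n => len (fs (F n))) i
    have hk : Comp S (fun z : M × M => (fun (_ n : M) => len (fs (F n))) z.1 z.2) := by
      show Comp S (fun z : M × M => len (fs (F z.2)))
      fun_prop
    have hnn : Comp S nn := Comp.prec (g := fun _ : M => (0 : M))
      (k := fun (_ _ n : M) => len (fs (F n))) (by fun_prop)
      (by show Comp S (fun z : M × M × M => len (fs (F z.2.2))); fun_prop) (by fun_prop)
    have hnn_succ : ∀ i, nn (i + 1) = len (fs (F (nn i))) := fun i => prec_succ hk i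
    -- the strings
    let xi : M → M := fun i => fs (F (nn i))
    let ti : M → M := fun i => sn (F (nn i))
    have hxi : Comp S xi := by show Comp S (fun i => fs (F (nn i))); fun_prop
    have hti : Comp S ti := by show Comp S (fun i => sn (F (nn i))); fun_prop
    have hxp : ∀ i, 0 < xi i := fun i => (hFs _).1
    have hpre : ∀ i, pre (str (fun i => i ∈ X) (nn i)) (xi i) := fun i => (hFs _).2.1
    have hV : ∀ i, VV e q (xi i) (ti i) := fun i => (hFs _).2.2.1
    have hne : ∀ i, xi i ≠ str (fun i => i ∈ X) (nn (i + 1)) := fun i => by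
      rw [hnn_succ]; exact (hFs _).2.2.2
    have hlen : ∀ i, len (xi i) = nn (i + 1) := fun i => (hnn_succ i).symm
    have hmono1 : ∀ i, nn i ≤ nn (i + 1) := fun i => by
      rw [← hlen]
      have := (hpre i).1
      rwa [len_str hX] at this
    have hmono : ∀ i d, nn i ≤ nn (i + d) := by
      intro i d
      refine Comp.induct (S := S) (by fun_prop) ?_ ?_ d
      · rw [add_zero]
      · intro x hx; rw [← add_assoc]; exact hx.trans (hmono1 _)
    have hdisj : ∀ i j z, i < j → KK e z (xi i) → KK e z (xi j) → False := by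
      intro i j z hij h1 h2
      obtain ⟨d, hd⟩ := le_iff_exists_add.1 (succ_le.2 hij)
      have h3 : nn (i + 1) ≤ nn j := by rw [hd]; exact hmono _ _
      have h4 : pre (str (fun i => i ∈ X) (nn (i + 1))) (xi j) :=
        pre_trans (hxp j) (pre_str hX h3) (hpre j)
      have h5 : KK e z (str (fun i => i ∈ X) (nn (i + 1))) := h2.anti (hxp j) h4
      have h6 : len (xi i) = len (str (fun i => i ∈ X) (nn (i + 1))) := by
        rw [len_str hX, hlen]
      have h7 := h1.pre (hxp i) (str_pos hX _) h6.le h5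
      exact hne i (pre_eq (str_pos hX _) h7 h6)
    obtain ⟨T, hT⟩ := hti.bounded (exp2 q)
    have hVT : ∀ i < exp2 q, VV e q (xi i) T := fun i hi => (hV i).mono (hT i hi).le
    have hcomp : ∀ m, Comp S (fun z => Bex m (fun i => KK e z (xi i))) := fun m => by fun_prop
    have key : ∀ m : M, m ≤ exp2 q → m * (exp2 T + 1) ≤
        lev (fun z => Bex m (fun i => KK e z (xi i))) T * exp2 q := by
      intro m
      refine Comp.induct (S := S) (Comp.imp (by fun_prop) (by fun_prop)) ?_ ?_ m
      · intro _; rw [zero_mul]; exact zero_le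
      · intro x ih hx
        have hx' := succ_le.1 hx
        have e1 : lev (fun z => Bex (x + 1) (fun i => KK e z (xi i))) T =
            lev (fun z => Bex x (fun i => KK e z (xi i)) ∨ KK e z (xi x)) T := by
          refine lev_congr (hcomp _) (by fun_prop) (fun z _ _ => ?_)
          constructor
          · rintro ⟨i, hi, hi2⟩
            rcases (lt_succ.1 hi).lt_or_eq with h3 | h3
            · exact Or.inl ⟨i, h3, hi2⟩
            · subst h3; exact Or.inr hi2
          · rintro (⟨i, hi, hi2⟩ | h3)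
            · exact ⟨i, lt_trans hi (lt_add_one x), hi2⟩
            · exact ⟨x, lt_add_one x, h3⟩
        have e2 : lev (fun z => Bex x (fun i => KK e z (xi i)) ∨ KK e z (xi x)) T =
            lev (fun z => Bex x (fun i => KK e z (xi i))) T + lev (fun z => KK e z (xi x)) T := by
          refine lev_or_disj (hcomp _) (by fun_prop) (fun z _ _ => ?_)
          rintro ⟨⟨i, hi, hi2⟩, h3⟩
          exact hdisj i x z hi hi2 h3
        have e3 : exp2 T + 1 ≤ lev (fun z => KK e z (xi x)) T * exp2 q := succ_le.2 (hVT x hx')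
        rw [e1, e2]
        calc (x + 1) * (exp2 T + 1) = x * (exp2 T + 1) + (exp2 T + 1) := by ring
          _ ≤ lev (fun z => Bex x (fun i => KK e z (xi i))) T * exp2 q +
              lev (fun z => KK e z (xi x)) T * exp2 q := add_le_add (ih hx'.le) e3
          _ = _ := by ring
    have h1 := key (exp2 q) le_rfl
    have h2 : lev (fun z => Bex (exp2 q) (fun i => KK e z (xi i))) T ≤ exp2 T :=
      lev_le (hcomp _) T
    have h3 : exp2 q * (exp2 T + 1) ≤ exp2 q * exp2 T := by
      calc exp2 q * (exp2 T + 1) ≤ _ := h1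
        _ ≤ exp2 T * exp2 q := by gcongr
        _ = _ := by ring
    have h4 : exp2 q * exp2 T < exp2 q * (exp2 T + 1) := by
      have := exp2_pos q
      gcongr
      exact lt_add_one _
    exact absurd h3 (not_le.2 h4)

end Run7.h915
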