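import Pool.Agent.Run7.h915.Univ

/-!
# Sanity checks for the definitions

`(ℕ, all sets)` is a model of `WKL_0` in the sense of `IsModelWKL0`, and Turing reducibility is
reflexive and transitive in every model.
-/

set_option linter.unusedSectionVars false

namespace Run7.h915

universe u

theorem standard_koenig : WeakKoenig (Set.univ : Set (Set ℕ)) := by
  classical
  intro T _ hT hinf
  let I : ℕ → Prop := fun s => ∀ n, ∃ t ∈ T, n ≤ t ∧ ∃ k, t / 2 ^ k = s
  have hpar : ∀ k t, t ∈ T → t / 2 ^ k ≠ 0 → t / 2 ^ k ∈ T := by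
    intro k
    induction k with
    | zero => intro t ht _; simpa using ht
    | succ k ih =>
      intro t ht h0
      have e : t / 2 ^ (k + 1) = (t / 2 ^ k) / 2 := by rw [pow_succ, Nat.div_div_eq_div_mul]
      have h1 : t / 2 ^ k ≠ 0 := by intro h; rw [e, h] at h0; simp at h0
      have h2 := ih t ht h1
      rw [e] at h0 ⊢
      apply hT.2 _ h0
      rcases Nat.mod_two_eq_zero_or_one (t / 2 ^ k) with h3 | h3
      · left; convert h2 using 1; omega
      · right; convert h2 using 1; omega
  have hI1 : I 1 := by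
    intro n
    obtain ⟨t, ht, hn⟩ := hinf n
    have ht0 : t ≠ 0 := fun h => hT.1 (h ▸ ht)
    exact ⟨t, ht, hn, Nat.log 2 t, by
      have h1 := Nat.pow_log_le_self 2 ht0
      have h2 := Nat.lt_pow_succ_log_self (b := 2) (by norm_num) t
      rw [Nat.div_eq_iff (by positivity)]
      rw [pow_succ] at h2
      omega⟩
  have hIT : ∀ s, s ≠ 0 → I s → s ∈ T := by
    intro s hs h
    obtain ⟨t, ht, _, k, hk⟩ := h 0
    rw [← hk]; exact hpar k t ht (by rw [hk]; exact hs)
  have hIc : ∀ s, I s → I (2 * s) ∨ I (2 * s + 1) := by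
    intro s h
    by_contra hc
    push Not at hc
    obtain ⟨h1, h2⟩ := hc
    simp only [I, not_forall, not_exists, not_and] at h1 h2
    obtain ⟨n1, h1⟩ := h1
    obtain ⟨n2, h2⟩ := h2
    obtain ⟨t, ht, hn, k, hk⟩ := h (max (max n1 n2) (s + 1))
    rcases k with _ | k
    · simp at hk; omega
    · have e : t / 2 ^ (k + 1) = (t / 2 ^ k) / 2 := by rw [pow_succ, Nat.div_div_eq_div_mul]
      rw [e] at hk
      rcases Nat.mod_two_eq_zero_or_one (t / 2 ^ k) with h3 | h3
      · exact h1 t ht (by omega) k (by omega)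
      · exact h2 t ht (by omega) k (by omega)
  let p : ℕ → ℕ := fun n => Nat.rec 1 (fun _ s => if I (2 * s) then 2 * s else 2 * s + 1) n
  have hp0 : p 0 = 1 := rfl
  have hps : ∀ n, p (n + 1) = if I (2 * p n) then 2 * p n else 2 * p n + 1 := fun n => rfl
  have hps2 : ∀ n, p (n + 1) = 2 * p n ∨ p (n + 1) = 2 * p n + 1 := by
    intro n; rw [hps]; split_ifs <;> simp
  have hpI : ∀ n, I (p n) := by
    intro n
    induction n with
    | zero => exact hI1
    | succ n ih =>
      rw [hps]
      split_ifs with h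
      · exact h
      · exact (hIc _ ih).resolve_left h
  have hplen : ∀ n, 2 ^ n ≤ p n ∧ p n < 2 ^ (n + 1) := by
    intro n
    induction n with
    | zero => simp [hp0]
    | succ n ih =>
      rw [pow_succ 2 (n + 1), pow_succ 2 n] at *
      rcases hps2 n with h | h <;> omega
  have hpinj : ∀ m n, p m / 2 = p n / 2 → 0 < m → 0 < n → m = n := by
    intro m n h hm hn
    obtain ⟨m, rfl⟩ := Nat.exists_eq_succ_of_ne_zero hm.ne'
    obtain ⟨n, rfl⟩ := Nat.exists_eq_succ_of_ne_zero hn.ne'
    have e1 : p (m + 1) / 2 = p m := by rcases hps2 m with h | h <;> omega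
    have e2 : p (n + 1) / 2 = p n := by rcases hps2 n with h | h <;> omega
    simp only [Nat.succ_eq_add_one] at *
    rw [e1, e2] at h
    have h1 := hplen m
    have h2 := hplen n
    rw [h] at h1
    have h3 : m < n + 1 := (Nat.pow_lt_pow_iff_right (a := 2) (by norm_num)).1 (by omega)
    have h4 : n < m + 1 := (Nat.pow_lt_pow_iff_right (a := 2) (by norm_num)).1 (by omega)
    omega
  refine ⟨Set.range p, Set.mem_univ _, ?_, ⟨?_, ?_⟩, ⟨0, rfl⟩, ?_⟩
  · rintro _ ⟨n, rfl⟩
    have h1 := (hplen n).1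
    have h2 : 0 < 2 ^ n := by positivity
    exact hIT _ (by omega) (hpI n)
  · rintro ⟨n, hn⟩
    have := (hplen n).1
    have : 0 < 2 ^ n := by positivity
    omega
  · intro s hs h
    have : ∃ n, p n / 2 = s := by
      rcases h with ⟨n, hn⟩ | ⟨n, hn⟩
      · exact ⟨n, by omega⟩
      · exact ⟨n, by omega⟩
    obtain ⟨n, hn⟩ := this
    rcases n with _ | n
    · rw [hp0] at hn; omega
    · exact ⟨n, by rcases hps2 n with h | h <;> omega⟩
  · rintro _ ⟨n, rfl⟩
    have hnot : ¬ (2 * p n ∈ Set.range p ∧ 2 * p n + 1 ∈ Set.range p) := by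
      rintro ⟨⟨a, ha⟩, ⟨b, hb⟩⟩
      have hpn : 0 < p n := lt_of_lt_of_le (by positivity) (hplen n).1
      have ha0 : 0 < a := by
        rcases a with _ | a
        · rw [hp0] at ha; omega
        · omega
      have hb0 : 0 < b := by
        rcases b with _ | b
        · rw [hp0] at hb; omega
        · omega
      have := hpinj a b (by omega) ha0 hb0
      subst this
      omega
    rcases hps2 n with h | h
    · left
      have h1 : 2 * p n ∈ Set.range p := ⟨n + 1, h⟩
      exact ⟨h1, fun h2 => hnot ⟨h1, h2⟩⟩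
    · right
      have h1 : 2 * p n + 1 ∈ Set.range p := ⟨n + 1, h⟩
      exact ⟨fun h2 => hnot ⟨h2, h1⟩, h1⟩

/-- The standard model of second order arithmetic is a model of `WKL_0`. -/
theorem standard_model : IsModelWKL0 ℕ (Set.univ : Set (Set ℕ)) where
  disc := fun x hx => hx
  induction := by
    intro φ v _ h0 hs x
    induction x with
    | zero => exact h0
    | succ n ih => exact hs n ih
  comprehension := fun _ _ _ _ _ _ => Set.mem_univ _
  koenig := standard_koenig

/-- There is a set which is not computable in the standard model. -/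
theorem standard_noncomputable : ∃ X : Set ℕ, ¬ TuringLE X (∅ : Set ℕ) := by
  by_contra hc
  push Not at hc
  have : Disc ℕ := ⟨fun x hx => hx⟩
  have : IndS (Set.univ : Set (Set ℕ)) := ⟨standard_model.induction⟩
  have : IS1 ℕ := IS1.of Set.univ
  have : IndS ({∅} : Set (Set ℕ)) := IndS.mono (Set.subset_univ _)
  have hE : Comp ({∅} : Set (Set ℕ)) (fun i : ℕ => i ∈ (∅ : Set ℕ)) := Comp.oracle rfl
  have h1 : ∀ W : Set ℕ, ∃ e : ℕ, ∀ n, ∃ s, ev e (str (fun i => i ∈ (∅ : Set ℕ)) s) n =
      chi (n ∈ W) := fun W => ev_univ (turingLE_iff.1 (hc W))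
  choose e he using h1
  apply Function.cantor_injective e
  intro W W' hWW
  ext n
  obtain ⟨s, hs⟩ := he W n
  obtain ⟨s', hs'⟩ := he W' n
  rw [← hWW] at hs'
  have h2 : ev (e W) (str (fun i => i ∈ (∅ : Set ℕ)) s) n =
      ev (e W) (str (fun i => i ∈ (∅ : Set ℕ)) s') n :=
    ev_unique (r := str (fun i => i ∈ (∅ : Set ℕ)) (max s s')) (str_pos hE _)
      (pre_str hE (le_max_left _ _)) (pre_str hE (le_max_right _ _))
      (by rw [hs]; exact chi_lt_two hE _) (by rw [hs']; exact chi_lt_two hE _)
  rw [hs, hs'] at h2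
  by_cases h3 : n ∈ W
  · rw [chi_true h3] at h2
    exact ⟨fun _ => chi_eq_one.1 h2.symm, fun _ => h3⟩
  · rw [chi_false h3] at h2
    exact ⟨fun h => absurd h h3, fun h => absurd h (chi_eq_zero.1 h2.symm)⟩

/-- Turing reducibility is reflexive in every model of `RCA_0`. -/
theorem turingLE_refl {M : Type u} [CommSemiring M] [LinearOrder M] [IsStrictOrderedRing M]
    [CanonicallyOrderedAdd M] [Disc M] (X : Set M) [IndS ({X} : Set (Set M))] : TuringLE X X :=
  turingLE_iff.2 (Comp.oracle rfl)

/-- Turing reducibility is transitive in every model of `RCA_0`. -/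
theorem turingLE_trans {M : Type u} [CommSemiring M] [LinearOrder M] [IsStrictOrderedRing M]
    [CanonicallyOrderedAdd M] [Disc M] {X Y Z : Set M} [IndS ({Y} : Set (Set M))]
    [IndS ({Z} : Set (Set M))] (h1 : TuringLE X Y) (h2 : TuringLE Y Z) : TuringLE X Z := by
  rw [turingLE_iff] at h1 h2 ⊢
  refine h1.trans (fun B hB => ?_)
  rw [Set.mem_singleton_iff.1 hB]
  exact h2

end Run7.h915
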