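import Pool.Agent.Run7.h915.Str

/-!
# Separation of disjoint enumerated sets implies weak Koenig's lemma
-/

set_option linter.unusedSectionVars false

namespace Run7.h915

universe u v w

variable {M : Type u} [CommSemiring M] [LinearOrder M] [IsStrictOrderedRing M]
  [CanonicallyOrderedAdd M] [Disc M] [IS1 M]

variable {S : Set (Set M)}

/-- The string `s` has an extension of length `n` in `T`. -/
def Ext (T : Set M) (s n : M) : Prop :=
  Bex (exp2 (n + 1)) (fun t => (0 < t ∧ t ∈ T) ∧ len t = n ∧ pre s t)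

theorem Comp.ext [IndS S] {α : Type v} [Cod M α] {T : Set M} (hT : T ∈ S) {f g : α → M}
    (hf : Comp S f) (hg : Comp S g) : Comp S (fun x => Ext T (f x) (g x)) := by
  unfold Ext
  have h1 : Comp S (fun z : α × M => z.2 ∈ T) :=
    Comp.comp (f := fun x => x ∈ T) (Comp.oracle hT) (by fun_prop)
  fun_prop

theorem ext_iff {T : Set M} {s n : M} : Ext T s n ↔ ∃ t, 0 < t ∧ t ∈ T ∧ len t = n ∧ pre s t := by
  constructor
  · rintro ⟨t, _, ⟨h1, h2⟩, h3, h4⟩
    exact ⟨t, h1, h2, h3, h4⟩
  · rintro ⟨t, h1, h2, h3, h4⟩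
    exact ⟨t, by rw [← h3]; exact lt_exp2_len t, ⟨h1, h2⟩, h3, h4⟩

theorem tree_res [IndS S] {T : Set M} (hT : T ∈ S) (hb : IsBinaryTree T) {t n : M} (ht : t ∈ T)
    (ht0 : 0 < t) (hn : n ≤ len t) : res t n ∈ T := by
  have hc : Comp S (fun k : M => res t (sb (len t) k) ∈ T) :=
    Comp.comp (f := fun x => x ∈ T) (Comp.oracle hT) (by fun_prop)
  have key : ∀ k : M, k ≤ len t → res t (sb (len t) k) ∈ T := by
    intro k
    refine Comp.induct (S := S) (Comp.imp (by fun_prop) hc) ?_ ?_ k
    · intro _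
      have h1 : sb (len t) 0 = len t := by
        have := sb_add (0 : M) (len t)
        rwa [zero_add] at this
      rw [h1, res_len ht0]
      exact ht
    · intro x ih hx
      have hx' : x ≤ len t := le_trans le_self_add hx
      have h1 := ih hx'
      have h2 := add_sb hx
      have h3 : sb (len t) x = sb (len t) (x + 1) + 1 := by
        conv_lhs => rw [← h2]
        rw [add_assoc, sb_add, add_comm]
      rw [h3] at h1
      have h4 : sb (len t) (x + 1) < len t := by
        conv_rhs => rw [← h2]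
        rw [add_comm (x + 1), ← succ_le]
        gcongr
        exact le_add_self
      rw [res_succ ht0 h4] at h1
      have h5 := res_pos ht0 h4.le
      rcases lt_two.1 (bit_lt t (sb (len t) (x + 1))) with h6 | h6
      · rw [h6, add_zero] at h1
        exact hb.2 _ h5.ne' (Or.inl h1)
      · rw [h6] at h1
        exact hb.2 _ h5.ne' (Or.inr h1)
  have h1 := key (sb (len t) n) (by
    conv_rhs => rw [← add_sb hn]
    exact le_add_self)
  have h2 : sb (len t) (sb (len t) n) = n := by
    have h3 := add_sb hn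
    set k := sb (len t) n
    rw [← h3, add_comm, sb_add]
  rwa [h2] at h1

theorem ext_mono [IndS S] {T : Set M} (hT : T ∈ S) (hb : IsBinaryTree T) {s n n' : M}
    (h : Ext T s n') (hn : n ≤ n') (hs : len s ≤ n) : Ext T s n := by
  rw [ext_iff] at h ⊢
  obtain ⟨t, h1, h2, h3, h4⟩ := h
  have hn' : n ≤ len t := by rw [h3]; exact hn
  refine ⟨res t n, res_pos h1 hn', tree_res hT hb h2 h1 hn', len_res h1 hn', ?_⟩
  refine ⟨by rw [len_res h1 hn']; exact hs, ?_⟩
  rw [res_res h1 hs hn', h4.2]

theorem ext_len {T : Set M} {s n : M} (h : Ext T s n) : len s ≤ n := by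
  rw [ext_iff] at h
  obtain ⟨t, _, _, h3, h4⟩ := h
  rw [← h3]; exact h4.1

/-- Separation of disjoint enumerated sets implies weak Koenig's lemma. -/
theorem weakKoenig_of_separation [IndS S] (hS : DeltaOneComprehension S)
    (hsep : ∀ A0 A1 : M → M → Prop, Comp S (fun z : M × M => A0 z.1 z.2) →
      Comp S (fun z : M × M => A1 z.1 z.2) → (∀ e k k', k ≤ k' → A0 e k → A0 e k') →
      (∀ e k k', k ≤ k' → A1 e k → A1 e k') → (∀ e k k', A0 e k → A1 e k' → False) →
      ∃ Z : M → Prop, Comp S Z ∧ (∀ e k, A0 e k → ¬ Z e) ∧ (∀ e k, A1 e k → Z e)) :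
    WeakKoenig S := by
  intro T hT hb hinf
  have c0 : Comp S (fun z : M × M => Bex (z.2 + 1) (fun n => 0 < z.1 ∧ ¬ Ext T (2 * z.1 + 1) n ∧
      Ext T (2 * z.1) n)) := by
    have h1 : Comp S (fun w : (M × M) × M => Ext T (2 * w.1.1 + 1) w.2) :=
      Comp.ext hT (by fun_prop) (by fun_prop)
    have h2 : Comp S (fun w : (M × M) × M => Ext T (2 * w.1.1) w.2) :=
      Comp.ext hT (by fun_prop) (by fun_prop)
    fun_prop
  have c1 : Comp S (fun z : M × M => Bex (z.2 + 1) (fun n => 0 < z.1 ∧ ¬ Ext T (2 * z.1) n ∧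
      Ext T (2 * z.1 + 1) n)) := by
    have h1 : Comp S (fun w : (M × M) × M => Ext T (2 * w.1.1 + 1) w.2) :=
      Comp.ext hT (by fun_prop) (by fun_prop)
    have h2 : Comp S (fun w : (M × M) × M => Ext T (2 * w.1.1) w.2) :=
      Comp.ext hT (by fun_prop) (by fun_prop)
    fun_prop
  obtain ⟨Z, hZ, hZ0, hZ1⟩ := hsep
    (fun s k => Bex (k + 1) (fun n => 0 < s ∧ ¬ Ext T (2 * s + 1) n ∧ Ext T (2 * s) n))
    (fun s k => Bex (k + 1) (fun n => 0 < s ∧ ¬ Ext T (2 * s) n ∧ Ext T (2 * s + 1) n))
    c0 c1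
    (fun e k k' hk ⟨n, hn, h⟩ => ⟨n, lt_of_lt_of_le hn (by gcongr), h⟩)
    (fun e k k' hk ⟨n, hn, h⟩ => ⟨n, lt_of_lt_of_le hn (by gcongr), h⟩)
    (by
      rintro s k k' ⟨n, _, hs, h1, h2⟩ ⟨n', _, _, h1', h2'⟩
      have e0 : len (2 * s) = len s + 1 := by
        have := len_two_mul (b := 0) hs two_pos
        rwa [add_zero] at this
      have e1 : len (2 * s + 1) = len s + 1 := len_two_mul hs one_lt_two
      have h3 := ext_len h2
      have h4 := ext_len h2'
      rcases le_total n n' with h | h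
      · exact h1 (ext_mono hT hb h2' h (by rw [e1, ← e0]; exact h3))
      · exact h1' (ext_mono hT hb h2 h (by rw [e0, ← e1]; exact h4)))
  have hk : Comp S (fun z : M × M => 2 * z.2 + chi (Z z.2)) := by
    have : Comp S (fun z : M × M => Z z.2) := Comp.comp hZ (by fun_prop)
    fun_prop
  set p : M → M := fun n => prec 1 (fun _ y => 2 * y + chi (Z y)) n with hp
  have hpc : Comp S p := by
    refine Comp.prec (k := fun (_ : M) (_ : M) (y : M) => 2 * y + chi (Z y)) (by fun_prop) ?_
      (by fun_prop)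
    have : Comp S (fun z : M × M × M => Z z.2.2) := Comp.comp hZ (by fun_prop)
    fun_prop
  have p0 : p 0 = 1 := prec_zero (S := S) hk
  have ps : ∀ n, p (n + 1) = 2 * p n + chi (Z (p n)) := fun n => prec_succ (S := S) hk n
  have chi2 : ∀ q : Prop, (chi q : M) < 2 := by
    intro q
    by_cases h : q
    · rw [chi_true h]; exact one_lt_two
    · rw [chi_false h]; exact two_pos
  have ppos : ∀ n, 0 < p n := by
    intro n
    refine Comp.induct (S := S) (by fun_prop) ?_ ?_ n
    · rw [p0]; exact one_pos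
    · intro x hx
      rw [ps]
      exact lt_of_lt_of_le (mul_pos two_pos hx) le_self_add
  have plen : ∀ n, len (p n) = n := by
    intro n
    refine Comp.induct (S := S) (by fun_prop) ?_ ?_ n
    · rw [p0]; exact len_one
    · intro x hx
      rw [ps, len_two_mul (ppos x) (chi2 _), hx]
  have hroot : ∀ l, Ext T 1 l := by
    intro l
    obtain ⟨s, hs, hs2⟩ := hinf (exp2 l)
    have hs0 : 0 < s := lt_of_lt_of_le (exp2_pos l) hs2
    have hl : l ≤ len s := by
      by_contra h
      have h1 := exp2_le (succ_le.2 (not_le.1 h))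
      exact absurd (lt_exp2_len s) (not_lt.2 (h1.trans hs2))
    rw [ext_iff]
    refine ⟨res s l, res_pos hs0 hl, tree_res hT hb hs hs0 hl, len_res hs0 hl, ?_⟩
    refine ⟨by rw [len_one]; exact zero_le, ?_⟩
    rw [len_one, res_zero (res_pos hs0 hl)]
  have hext : ∀ l n, n ≤ l → Ext T (p n) l := by
    intro l n
    refine Comp.induct (S := S) (Comp.imp (by fun_prop) ?_) ?_ ?_ n
    · exact Comp.ext hT (by fun_prop) (by fun_prop)
    · intro _
      rw [p0]; exact hroot l
    · intro x ih hx
      have hx' := succ_le.1 hx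
      have h1 := ih hx'.le
      have hor : Ext T (2 * p x) l ∨ Ext T (2 * p x + 1) l := by
        rw [ext_iff] at h1
        obtain ⟨t, h2, h3, h4, h5⟩ := h1
        have h6 : x < len t := by rw [h4]; exact hx'
        have h7 := res_succ h2 h6
        have h8 : res t x = p x := by
          have := h5.2
          rwa [plen] at this
        rw [h8] at h7
        have h9 := pre_res h2 (succ_le.2 h6)
        rw [h7] at h9
        rcases lt_two.1 (bit_lt t x) with h10 | h10
        · left
          rw [h10, add_zero] at h9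
          exact ext_iff.2 ⟨t, h2, h3, h4, h9⟩
        · right
          rw [h10] at h9
          exact ext_iff.2 ⟨t, h2, h3, h4, h9⟩
      rw [ps]
      by_cases hz : Z (p x)
      · rw [chi_true hz]
        by_contra h2
        have h3 := hor.resolve_right h2
        exact hZ0 (p x) l ⟨l, lt_add_one l, ppos x, h2, h3⟩ hz
      · rw [chi_false hz, add_zero]
        by_contra h2
        have h3 := hor.resolve_left h2
        exact hz (hZ1 (p x) l ⟨l, lt_add_one l, ppos x, h2, h3⟩)
  have pT : ∀ n, p n ∈ T := by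
    intro n
    obtain ⟨t, h2, h3, h4, h5⟩ := ext_iff.1 (hext n n le_rfl)
    have : p n = t := pre_eq h2 h5 (by rw [plen, h4])
    rw [this]; exact h3
  have hPc : Comp S (fun s : M => 0 < s ∧ s = p (len s)) := by
    have : Comp S (fun s : M => p (len s)) := Comp.comp hpc (by fun_prop)
    fun_prop
  have l0 : ∀ s : M, 0 < s → len (2 * s) = len s + 1 := fun s hs => by
    have := len_two_mul (b := 0) hs two_pos
    rwa [add_zero] at this
  have l1 : ∀ s : M, 0 < s → len (2 * s + 1) = len s + 1 := fun s hs => len_two_mul hs one_lt_two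
  have hhalf : ∀ (s s' b b' : M), b < 2 → b' < 2 → 2 * s + b = 2 * s' + b' → s = s' ∧ b = b' := by
    intro s s' b b' hb1 hb2 h
    have e1 : dv (2 * s + b) 2 = s := dv_unique (r := b) (by ring) hb1
    have e2 : dv (2 * s' + b') 2 = s' := dv_unique (r := b') (by ring) hb2
    have e3 : s = s' := by rw [← e1, h, e2]
    subst e3
    exact ⟨rfl, add_left_cancel h⟩
  refine ⟨{s | 0 < s ∧ s = p (len s)}, hPc.comprehension hS, ?_, ⟨?_, ?_⟩, ?_, ?_⟩
  · rintro s ⟨_, hs⟩
    rw [hs]; exact pT _
  · rintro ⟨h, _⟩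
    exact lt_irrefl _ h
  · intro s hs0 h
    have hs := pos_iff_ne_zero.2 hs0
    refine ⟨hs, ?_⟩
    rcases h with ⟨_, h⟩ | ⟨_, h⟩
    · rw [l0 s hs, ps] at h
      have h' : 2 * s + 0 = 2 * p (len s) + chi (Z (p (len s))) := by rw [add_zero]; exact h
      exact (hhalf _ _ _ _ two_pos (chi2 _) h').1
    · rw [l1 s hs, ps] at h
      exact (hhalf _ _ _ _ one_lt_two (chi2 _) h).1
  · refine ⟨one_pos, ?_⟩
    rw [len_one, p0]
  · rintro s ⟨hs, hsp⟩
    by_cases hz : Z s
    · right
      refine ⟨?_, ?_, ?_⟩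
      · rintro ⟨_, h⟩
        rw [l0 s hs, ps, ← hsp, chi_true hz] at h
        have h' : 2 * s + 0 = 2 * s + 1 := by rw [add_zero]; exact h
        exact zero_ne_one (add_left_cancel h')
      · exact lt_of_lt_of_le one_pos le_add_self
      · rw [l1 s hs, ps, ← hsp, chi_true hz]
    · left
      refine ⟨⟨mul_pos two_pos hs, ?_⟩, ?_⟩
      · rw [l0 s hs, ps, ← hsp, chi_false hz, add_zero]
      · rintro ⟨_, h⟩
        rw [l1 s hs, ps, ← hsp, chi_false hz] at h
        exact one_ne_zero (add_left_cancel h)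

end Run7.h915
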