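import Pool.Agent.Run7.h915.Decode

/-!
# Separation of disjoint enumerated sets
-/

set_option linter.unusedSectionVars false

namespace Run7.h915

universe u v w

variable {M : Type u} [CommSemiring M] [LinearOrder M] [IsStrictOrderedRing M]
  [CanonicallyOrderedAdd M] [Disc M] [IS1 M]

variable {S : Set (Set M)}

namespace Dat

variable (d : Dat S)

/-- Some number avoids two codes. -/
theorem avoid_two (m c c' : M) : ∃ t, t < p4 m ∧ Avoid m c t ∧ Avoid m c' t := by
  have h2 : (2 : M) < 4 := by norm_num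
  have h1 : (1 : M) < 4 := by norm_num
  have hδ : ∀ n, Ite (dg c n ≠ 0 ∧ dg c' n ≠ 0) (0 : M) (Ite (dg c n ≠ 1 ∧ dg c' n ≠ 1) 1 2) < 4 := by
    intro n
    by_cases g1 : dg c n ≠ 0 ∧ dg c' n ≠ 0
    · rw [Ite_pos g1]; exact four_pos'
    · rw [Ite_neg g1]
      by_cases g2 : dg c n ≠ 1 ∧ dg c' n ≠ 1
      · rw [Ite_pos g2]; exact h1
      · rw [Ite_neg g2]; exact h2
  obtain ⟨t, ht, htd⟩ := exists_digits (S := (∅ : Set (Set M)))
    (δ := fun n => Ite (dg c n ≠ 0 ∧ dg c' n ≠ 0) (0 : M) (Ite (dg c n ≠ 1 ∧ dg c' n ≠ 1) 1 2))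
    (by fun_prop) hδ m
  have key : ∀ n < m, dg c n ≠ dg t n ∧ dg c' n ≠ dg t n := by
    intro n hn
    rw [htd n hn]
    by_cases g1 : dg c n ≠ 0 ∧ dg c' n ≠ 0
    · rw [Ite_pos g1]; exact g1
    · rw [Ite_neg g1]
      by_cases g2 : dg c n ≠ 1 ∧ dg c' n ≠ 1
      · rw [Ite_pos g2]; exact g2
      · rw [Ite_neg g2]
        have n02 : (0 : M) ≠ 2 := by norm_num
        have n12 : (1 : M) ≠ 2 := by norm_num
        have n01 : (0 : M) ≠ 1 := zero_ne_one
        by_cases g3 : dg c n = 0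
        · rw [g3] at g2 ⊢
          have : dg c' n = 1 := by
            by_contra g4
            exact g2 ⟨n01, g4⟩
          rw [this]
          exact ⟨n02, n12⟩
        · have g4 : dg c' n = 0 := by
            by_contra g5
            exact g1 ⟨g3, g5⟩
          rw [g4] at g2 ⊢
          have : dg c n = 1 := by
            by_contra g5
            exact g2 ⟨g5, n01⟩
          rw [this]
          exact ⟨n12, n02⟩
  exact ⟨t, ht, fun n hn => (key n hn).1, fun n hn => (key n hn).2⟩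

theorem separate [IndS S] (hS : DeltaOneComprehension S) (hST : STcs S) :
    ∃ Z : M → Prop, Comp S Z ∧ (∀ e k, d.A0 e k → ¬ Z e) ∧ (∀ e k, d.A1 e k → Z e) := by
  obtain ⟨Φ, hC, hext⟩ := hST (X4 M) (X4_isSpace hS) (X4_isCompact hS) d.U (d.U_open hS) d.P
    (d.P_seq hS) (fun x hx => d.closure_iff hx) d.Ph (d.Ph_inC hS)
  obtain ⟨h, hh, hmod⟩ := hC.modulus
  have hhc := hh.comp
  have close := fun (e k t t' : M) (c : QF M) (h1 : (d.A0 e k ∧ c = 0) ∨ (d.A1 e k ∧ c = hf e))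
    (h2 : d.InK e t') (h3 : cg (h (e + 1 + 1 + 1)) t t') =>
      d.vl_close hC hS hext hmod h1 h2 h3
  have hvl : Comp S (fun z : M × M => vl Φ z.1 z.2) := by
    unfold vl
    have h0 : Comp S (fun w : (M × M) × M => Hit Φ (bl w.1.1 w.1.2) (w.1.1 + 1 + 1 + 1) w.2) :=
      Comp.hit (f := fun w : (M × M) × M => bl w.1.1 w.1.2)
        (g := fun w : (M × M) × M => w.1.1 + 1 + 1 + 1) (k := fun w : (M × M) × M => w.2)
        hC.code.mem (by fun_prop) (by fun_prop) (by fun_prop)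
    have h1 : Comp S (fun z : M × M => mu (fun u => Hit Φ (bl z.1 z.2) (z.1 + 1 + 1 + 1) u)) :=
      Comp.mu (P := fun (z : M × M) (u : M) => Hit Φ (bl z.1 z.2) (z.1 + 1 + 1 + 1) u) h0
        (fun z => hit_ex hC hS _ _)
    exact Comp.qv (Comp.fs (Comp.sn (Comp.sn (Comp.sn h1))))
  have hm : Comp S (fun e : M => h (e + 1 + 1 + 1)) := Comp.comp hhc (by fun_prop)
  refine ⟨fun e => d.A1 e (h (e + 1 + 1 + 1)) ∨ (¬ d.Hv e (h (e + 1 + 1 + 1)) ∧
    Bex (p4 (h (e + 1 + 1 + 1))) (fun c => Ball (p4 (h (e + 1 + 1 + 1))) (fun t =>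
      ¬ Avoid (h (e + 1 + 1 + 1)) c t ∨ hf (e + 1) < vl Φ e t))), ?_, ?_, ?_⟩
  · have h1 : Comp S (fun e : M => d.A1 e (h (e + 1 + 1 + 1))) := d.cA1 (by fun_prop) hm
    have h2 : Comp S (fun e : M => d.Hv e (h (e + 1 + 1 + 1))) := d.cHv (by fun_prop) hm
    have h3 : Comp S (fun z : (M × M) × M => Avoid (h (z.1.1 + 1 + 1 + 1)) z.1.2 z.2) :=
      cAvoid (Comp.comp (f := fun e : M => h (e + 1 + 1 + 1)) hm (by fun_prop)) (by fun_prop)
        (by fun_prop)
    have h4 : Comp S (fun z : (M × M) × M => vl Φ z.1.1 z.2) :=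
      Comp.comp (f := fun z : M × M => vl Φ z.1 z.2) (g := fun z : (M × M) × M => (z.1.1, z.2)) hvl
        (by fun_prop)
    have h5 : Comp S (fun z : M × M => Ball (p4 (h (z.1 + 1 + 1 + 1))) (fun t =>
      ¬ Avoid (h (z.1 + 1 + 1 + 1)) z.2 t ∨ hf (z.1 + 1) < vl Φ z.1 t)) := by
      refine Comp.ball ?_ (by fun_prop)
      exact Comp.p4 (Comp.comp (f := fun e : M => h (e + 1 + 1 + 1)) hm (by fun_prop))
    have h6 : Comp S (fun e : M => Bex (p4 (h (e + 1 + 1 + 1))) (fun c =>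
      Ball (p4 (h (e + 1 + 1 + 1))) (fun t =>
        ¬ Avoid (h (e + 1 + 1 + 1)) c t ∨ hf (e + 1) < vl Φ e t))) := Comp.bex (hm.p4) h5
    exact h1.or (h2.not.and h6)
  · rintro e k hk (h1 | ⟨h1, c, hc, h2⟩)
    · exact d.dj _ _ _ hk h1
    · obtain ⟨c0, hc0, h3⟩ := d.forb_code (Or.inl hk) h1
      obtain ⟨t, ht, h4, h5⟩ := avoid_two (h (e + 1 + 1 + 1)) c c0
      obtain ⟨t', h6, h7⟩ := h3 t h5
      have h8 := close e k t t' 0 (Or.inl ⟨hk, rfl⟩) h7 h6
      have h9 := (h2 t ht).resolve_left (fun g => g h4)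
      rw [sub_zero] at h8
      have h10 := le_abs_self (vl Φ e t)
      have h11 := hf_succ (e + 1)
      have h12 := hf_pos (e + 1 + 1)
      linarith
  · intro e k hk
    by_cases h1 : d.Hv e (h (e + 1 + 1 + 1))
    · left
      rcases h1 with h1 | h1
      · exact (d.dj _ _ _ h1 hk).elim
      · exact h1
    · right
      refine ⟨h1, ?_⟩
      obtain ⟨c, hc, h3⟩ := d.forb_code (Or.inr hk) h1
      refine ⟨c, hc, fun t ht => ?_⟩
      by_cases h4 : Avoid (h (e + 1 + 1 + 1)) c t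
      · right
        obtain ⟨t', h6, h7⟩ := h3 t h4
        have h8 := close e k t t' (hf e) (Or.inr ⟨hk, rfl⟩) h7 h6
        have h9 := (abs_lt.1 h8).1
        have h10 := hf_succ (e + 1)
        have h11 := hf_succ e
        have h12 := hf_pos (e + 1 + 1)
        linarith
      · exact Or.inl h4

end Dat

/-! ### The combinatorial alternative -/

section

variable {A0 A1 : M → M → Prop} (hA0 : Comp S (fun z : M × M => A0 z.1 z.2))
  (hA1 : Comp S (fun z : M × M => A1 z.1 z.2))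
  (mono0 : ∀ e k k', k ≤ k' → A0 e k → A0 e k')
  (mono1 : ∀ e k k', k ≤ k' → A1 e k → A1 e k')
  (dj : ∀ e k k', A0 e k → A1 e k' → False)

/-- The forbidden digits: at the pair `n = (a, b)` the digit `2 i + j` is forbidden where `i`,
`j` are the values at `a`, `b`. -/
def Fb (A0 A1 : M → M → Prop) (n m v : M) : Prop :=
  (v = 0 ∧ A0 (fs n) m ∧ A0 (sn n) m) ∨ (v = 1 ∧ A0 (fs n) m ∧ A1 (sn n) m) ∨
    (v = 2 ∧ A1 (fs n) m ∧ A0 (sn n) m) ∨ (v = 3 ∧ A1 (fs n) m ∧ A1 (sn n) m)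

include hA0 hA1 in
theorem Fb_comp [IndS S] : Comp S (fun z : M × M × M => Fb A0 A1 z.1 z.2.1 z.2.2) := by
  unfold Fb
  have h1 : Comp S (fun z : M × M × M => A0 (fs z.1) z.2.1) :=
    Comp.app2 hA0 (by fun_prop) (by fun_prop)
  have h2 : Comp S (fun z : M × M × M => A0 (sn z.1) z.2.1) :=
    Comp.app2 hA0 (by fun_prop) (by fun_prop)
  have h3 : Comp S (fun z : M × M × M => A1 (fs z.1) z.2.1) :=
    Comp.app2 hA1 (by fun_prop) (by fun_prop)
  have h4 : Comp S (fun z : M × M × M => A1 (sn z.1) z.2.1) :=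
    Comp.app2 hA1 (by fun_prop) (by fun_prop)
  fun_prop

include mono0 mono1 in
theorem Fb_mono (n m m' v : M) (hm : m ≤ m') (h : Fb A0 A1 n m v) : Fb A0 A1 n m' v := by
  rcases h with ⟨h, h1, h2⟩ | ⟨h, h1, h2⟩ | ⟨h, h1, h2⟩ | ⟨h, h1, h2⟩
  · exact Or.inl ⟨h, mono0 _ _ _ hm h1, mono0 _ _ _ hm h2⟩
  · exact Or.inr (Or.inl ⟨h, mono0 _ _ _ hm h1, mono1 _ _ _ hm h2⟩)
  · exact Or.inr (Or.inr (Or.inl ⟨h, mono1 _ _ _ hm h1, mono0 _ _ _ hm h2⟩))
  · exact Or.inr (Or.inr (Or.inr ⟨h, mono1 _ _ _ hm h1, mono1 _ _ _ hm h2⟩))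

include dj in
theorem Fb_uniq (n m m' v v' : M) (h : Fb A0 A1 n m v) (h' : Fb A0 A1 n m' v') : v = v' := by
  have dj' : ∀ e k k', A1 e k → A0 e k' → False := fun e k k' h1 h2 => dj _ _ _ h2 h1
  rcases h with ⟨h, h1, h2⟩ | ⟨h, h1, h2⟩ | ⟨h, h1, h2⟩ | ⟨h, h1, h2⟩ <;>
  rcases h' with ⟨h', h1', h2'⟩ | ⟨h', h1', h2'⟩ | ⟨h', h1', h2'⟩ | ⟨h', h1', h2'⟩ <;>
  first
    | exact h.trans h'.symm
    | exact (dj _ _ _ h1 h1').elim
    | exact (dj _ _ _ h2 h2').elim
    | exact (dj' _ _ _ h1 h1').elim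
    | exact (dj' _ _ _ h2 h2').elim

/-- A total function avoiding the forbidden digits yields a separating set. -/
theorem sep_of_path [IndS S] {y : M → M} (hy : Comp S y) (hy4 : ∀ n, y n < 4)
    (hF : ∀ n m, ¬ Fb A0 A1 n m (y n))
    (hA0 : Comp S (fun z : M × M => A0 z.1 z.2)) (hA1 : Comp S (fun z : M × M => A1 z.1 z.2))
    (mono0 : ∀ e k k', k ≤ k' → A0 e k → A0 e k')
    (mono1 : ∀ e k k', k ≤ k' → A1 e k → A1 e k') :
    ∃ Z : M → Prop, Comp S Z ∧ (∀ e k, A0 e k → ¬ Z e) ∧ (∀ e k, A1 e k → Z e) := by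
  -- `J a b`: the second bit is `0`; `I a b`: the first bit is `0`
  have hyp : Comp S (fun z : M × M => y (pr z.1 z.2)) := Comp.comp hy (by fun_prop)
  by_cases hcase : ∃ a, ∀ b k, (A0 b k → y (pr a b) = 1 ∨ y (pr a b) = 3) ∧
      (A1 b k → y (pr a b) = 0 ∨ y (pr a b) = 2)
  · obtain ⟨a, ha⟩ := hcase
    refine ⟨fun b => y (pr a b) = 0 ∨ y (pr a b) = 2, ?_, ?_, ?_⟩
    · have : Comp S (fun b : M => y (pr a b)) := Comp.comp hy (by fun_prop)
      fun_prop
    · rintro b k hk (h | h)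
      · rcases (ha b k).1 hk with h1 | h1
        · rw [h] at h1; exact zero_ne_one h1
        · rw [h] at h1; norm_num at h1
      · rcases (ha b k).1 hk with h1 | h1
        · rw [h] at h1; norm_num at h1
        · rw [h] at h1; norm_num at h1
    · intro b k hk
      exact (ha b k).2 hk
  · push Not at hcase
    have hs : ∀ a, ∃ z, (A0 (fs z) (sn z) ∧ (y (pr a (fs z)) = 0 ∨ y (pr a (fs z)) = 2)) ∨
        (A1 (fs z) (sn z) ∧ (y (pr a (fs z)) = 1 ∨ y (pr a (fs z)) = 3)) := by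
      intro a
      obtain ⟨b, k, h⟩ := hcase a
      refine ⟨pr b k, ?_⟩
      rw [fs_pr, sn_pr]
      have h4 := Dat.lt_four (hy4 (pr a b))
      by_cases h5 : A0 b k ∧ (y (pr a b) = 0 ∨ y (pr a b) = 2)
      · exact Or.inl h5
      · right
        have h6 : A0 b k → y (pr a b) = 1 ∨ y (pr a b) = 3 := by
          intro h7
          rcases h4 with h8 | h8 | h8 | h8
          · exact (h5 ⟨h7, Or.inl h8⟩).elim
          · exact Or.inl h8
          · exact (h5 ⟨h7, Or.inr h8⟩).elim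
          · exact Or.inr h8
        obtain ⟨h7, h8, h9⟩ := h h6
        refine ⟨h7, ?_⟩
        rcases h4 with h10 | h10 | h10 | h10
        · exact (h8 h10).elim
        · exact Or.inl h10
        · exact (h9 h10).elim
        · exact Or.inr h10
    have hcomp : Comp S (fun w : M × M => (A0 (fs w.2) (sn w.2) ∧
        (y (pr w.1 (fs w.2)) = 0 ∨ y (pr w.1 (fs w.2)) = 2)) ∨
        (A1 (fs w.2) (sn w.2) ∧ (y (pr w.1 (fs w.2)) = 1 ∨ y (pr w.1 (fs w.2)) = 3))) := by
      have h1 : Comp S (fun w : M × M => A0 (fs w.2) (sn w.2)) :=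
        Comp.app2 hA0 (by fun_prop) (by fun_prop)
      have h2 : Comp S (fun w : M × M => A1 (fs w.2) (sn w.2)) :=
        Comp.app2 hA1 (by fun_prop) (by fun_prop)
      have h3 : Comp S (fun w : M × M => y (pr w.1 (fs w.2))) := Comp.comp hy (by fun_prop)
      fun_prop
    have hmu := hcomp.mu (P := fun a z => (A0 (fs z) (sn z) ∧
        (y (pr a (fs z)) = 0 ∨ y (pr a (fs z)) = 2)) ∨
        (A1 (fs z) (sn z) ∧ (y (pr a (fs z)) = 1 ∨ y (pr a (fs z)) = 3))) hs
    have hspec : ∀ a, _ := fun a => mu_spec (P := fun z => (A0 (fs z) (sn z) ∧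
        (y (pr a (fs z)) = 0 ∨ y (pr a (fs z)) = 2)) ∨
        (A1 (fs z) (sn z) ∧ (y (pr a (fs z)) = 1 ∨ y (pr a (fs z)) = 3)))
        (Comp.comp (f := fun w : M × M => (A0 (fs w.2) (sn w.2) ∧
        (y (pr w.1 (fs w.2)) = 0 ∨ y (pr w.1 (fs w.2)) = 2)) ∨
        (A1 (fs w.2) (sn w.2) ∧ (y (pr w.1 (fs w.2)) = 1 ∨ y (pr w.1 (fs w.2)) = 3)))
        (g := fun z : M => (a, z)) hcomp (by fun_prop)) (hs a)
    set B : M → M := fun a => mu (fun z => (A0 (fs z) (sn z) ∧
        (y (pr a (fs z)) = 0 ∨ y (pr a (fs z)) = 2)) ∨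
        (A1 (fs z) (sn z) ∧ (y (pr a (fs z)) = 1 ∨ y (pr a (fs z)) = 3))) with hB
    refine ⟨fun a => y (pr a (fs (B a))) = 0 ∨ y (pr a (fs (B a))) = 1, ?_, ?_, ?_⟩
    · have h3 : Comp S (fun a : M => y (pr a (fs (B a)))) := Comp.comp hy (by fun_prop)
      fun_prop
    · intro a k hk hZ
      rcases hspec a with ⟨h1, h2⟩ | ⟨h1, h2⟩
      · have h3 : y (pr a (fs (B a))) = 0 := by
          rcases hZ with h3 | h3
          · exact h3
          · rcases h2 with h4 | h4
            · exact h4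
            · exfalso
              have : y (pr a (fs (B a))) = 2 := h4
              rw [h3] at this; norm_num at this
        refine hF (pr a (fs (B a))) (max k (sn (B a))) (Or.inl ⟨h3, ?_, ?_⟩)
        · rw [fs_pr]; exact mono0 _ _ _ (le_max_left _ _) hk
        · rw [sn_pr]; exact mono0 _ _ _ (le_max_right _ _) h1
      · have h3 : y (pr a (fs (B a))) = 1 := by
          rcases hZ with h3 | h3
          · rcases h2 with h4 | h4
            · exact h4
            · exfalso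
              have : y (pr a (fs (B a))) = 3 := h4
              rw [h3] at this; norm_num at this
          · exact h3
        refine hF (pr a (fs (B a))) (max k (sn (B a))) (Or.inr (Or.inl ⟨h3, ?_, ?_⟩))
        · rw [fs_pr]; exact mono0 _ _ _ (le_max_left _ _) hk
        · rw [sn_pr]; exact mono1 _ _ _ (le_max_right _ _) h1
    · intro a k hk
      have h4 := Dat.lt_four (hy4 (pr a (fs (B a))))
      rcases h4 with h5 | h5 | h5 | h5
      · exact Or.inl h5
      · exact Or.inr h5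
      · exfalso
        have h1 : A0 (fs (B a)) (sn (B a)) := by
          rcases hspec a with ⟨h1, h2⟩ | ⟨h1, h2⟩
          · exact h1
          · exfalso
            rcases h2 with h2 | h2
            · have : y (pr a (fs (B a))) = 1 := h2
              rw [h5] at this; norm_num at this
            · have : y (pr a (fs (B a))) = 3 := h2
              rw [h5] at this; norm_num at this
        refine hF (pr a (fs (B a))) (max k (sn (B a))) (Or.inr (Or.inr (Or.inl ⟨h5, ?_, ?_⟩)))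
        · rw [fs_pr]; exact mono1 _ _ _ (le_max_left _ _) hk
        · rw [sn_pr]; exact mono0 _ _ _ (le_max_right _ _) h1
      · exfalso
        have h1 : A1 (fs (B a)) (sn (B a)) := by
          rcases hspec a with ⟨h1, h2⟩ | ⟨h1, h2⟩
          · exfalso
            rcases h2 with h2 | h2
            · have : y (pr a (fs (B a))) = 0 := h2
              rw [h5] at this; norm_num at this
            · have : y (pr a (fs (B a))) = 2 := h2
              rw [h5] at this; norm_num at this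
          · exact h1
        refine hF (pr a (fs (B a))) (max k (sn (B a))) (Or.inr (Or.inr (Or.inr ⟨h5, ?_, ?_⟩)))
        · rw [fs_pr]; exact mono1 _ _ _ (le_max_left _ _) hk
        · rw [sn_pr]; exact mono1 _ _ _ (le_max_right _ _) h1

/-- In a model of `RCA_0` satisfying the Strong Tietze Theorem for closed and separably closed
sets, disjoint enumerated sets can be separated. -/
theorem separation [IndS S] (hS : DeltaOneComprehension S) (hST : STcs S)
    (hA0 : Comp S (fun z : M × M => A0 z.1 z.2)) (hA1 : Comp S (fun z : M × M => A1 z.1 z.2))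
    (mono0 : ∀ e k k', k ≤ k' → A0 e k → A0 e k')
    (mono1 : ∀ e k k', k ≤ k' → A1 e k → A1 e k')
    (dj : ∀ e k k', A0 e k → A1 e k' → False) :
    ∃ Z : M → Prop, Comp S Z ∧ (∀ e k, A0 e k → ¬ Z e) ∧ (∀ e k, A1 e k → Z e) := by
  by_cases hp : ∃ y : M → M, Comp S y ∧ (∀ n, y n < 4) ∧ ∀ n m, ¬ Fb A0 A1 n m (y n)
  · obtain ⟨y, hy, hy4, hF⟩ := hp
    exact sep_of_path hy hy4 hF hA0 hA1 mono0 mono1
  · let d : Dat S :=
      { A0 := A0
        A1 := A1
        F := Fb A0 A1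
        hA0 := hA0
        hA1 := hA1
        hF := Fb_comp hA0 hA1
        mono0 := mono0
        mono1 := mono1
        monoF := Fb_mono mono0 mono1
        dj := dj
        uniq := Fb_uniq dj
        no_path := fun y hy hy4 => by
          by_contra hno
          push Not at hno
          exact hp ⟨y, hy, hy4, hno⟩ }
    exact d.separate hS hST

end

end Run7.h915
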