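import Pool.Agent.Run7.h915.Defs

/-!
# Closure properties of bounded and `Σ^0_1` definable relations
-/

set_option linter.unusedSectionVars false

namespace Run7.h915

universe u

variable {M : Type u} [CommSemiring M] [LinearOrder M]

/-! ### Substitution -/

def Tm.subst (τ : ℕ → Tm M) : Tm M → Tm M
  | Tm.var i => τ i
  | Tm.const c => Tm.const c
  | Tm.add s t => Tm.add (s.subst τ) (t.subst τ)
  | Tm.mul s t => Tm.mul (s.subst τ) (t.subst τ)

def upS (τ : ℕ → Tm M) : ℕ → Tm M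
  | 0 => Tm.var 0
  | n + 1 => (τ n).subst (fun i => Tm.var (i + 1))

def BFml.subst : BFml M → (ℕ → Tm M) → BFml M
  | BFml.eq s t, τ => BFml.eq (s.subst τ) (t.subst τ)
  | BFml.lt s t, τ => BFml.lt (s.subst τ) (t.subst τ)
  | BFml.mem t A, τ => BFml.mem (t.subst τ) A
  | BFml.neg φ, τ => BFml.neg (φ.subst τ)
  | BFml.and φ ψ, τ => BFml.and (φ.subst τ) (ψ.subst τ)
  | BFml.ball t φ, τ => BFml.ball (t.subst τ) (φ.subst (upS τ))

theorem Tm.val_subst (τ : ℕ → Tm M) (v : ℕ → M) (t : Tm M) :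
    (t.subst τ).val v = t.val (fun i => (τ i).val v) := by
  induction t with
  | var i => rfl
  | const c => rfl
  | add s t hs ht => simp [Tm.subst, Tm.val, hs, ht]
  | mul s t hs ht => simp [Tm.subst, Tm.val, hs, ht]

theorem cons_upS (τ : ℕ → Tm M) (v : ℕ → M) (a : M) :
    (fun i => (upS τ i).val (cons a v)) = cons a (fun i => (τ i).val v) := by
  funext i
  cases i with
  | zero => rfl
  | succ n =>
    show ((τ n).subst (fun i => Tm.var (i + 1))).val (cons a v) = (τ n).val v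
    rw [Tm.val_subst]
    rfl

theorem BFml.holds_subst (φ : BFml M) : ∀ (τ : ℕ → Tm M) (v : ℕ → M),
    (φ.subst τ).Holds v ↔ φ.Holds (fun i => (τ i).val v) := by
  induction φ with
  | eq s t => intro τ v; simp [BFml.subst, BFml.Holds, Tm.val_subst]
  | lt s t => intro τ v; simp [BFml.subst, BFml.Holds, Tm.val_subst]
  | mem t A => intro τ v; simp [BFml.subst, BFml.Holds, Tm.val_subst]
  | neg φ ih => intro τ v; simp [BFml.subst, BFml.Holds, ih]
  | and φ ψ ih1 ih2 => intro τ v; simp [BFml.subst, BFml.Holds, ih1, ih2]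
  | ball t φ ih =>
    intro τ v
    simp only [BFml.subst, BFml.Holds, Tm.val_subst, ih, cons_upS]

theorem BFml.setsIn_subst {S : Set (Set M)} (φ : BFml M) : ∀ (τ : ℕ → Tm M),
    φ.SetsIn S → (φ.subst τ).SetsIn S := by
  induction φ with
  | eq s t => intro τ h; trivial
  | lt s t => intro τ h; trivial
  | mem t A => intro τ h; exact h
  | neg φ ih => intro τ h; exact ih τ h
  | and φ ψ ih1 ih2 => intro τ h; exact ⟨ih1 τ h.1, ih2 τ h.2⟩
  | ball t φ ih => intro τ h; exact ih _ h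

theorem BFml.SetsIn.mono {S S' : Set (Set M)} (hS : S ⊆ S') (φ : BFml M) :
    φ.SetsIn S → φ.SetsIn S' := by
  induction φ with
  | eq s t => intro h; trivial
  | lt s t => intro h; trivial
  | mem t A => intro h; exact hS h
  | neg φ ih => intro h; exact ih h
  | and φ ψ ih1 ih2 => intro h; exact ⟨ih1 h.1, ih2 h.2⟩
  | ball t φ ih => intro h; exact ih h

/-! ### Term definable functions and bounded relations -/

def TmF (f : (ℕ → M) → M) : Prop := ∃ t : Tm M, ∀ v, t.val v = f v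

theorem TmF.var (i : ℕ) : TmF (fun v : ℕ → M => v i) := ⟨Tm.var i, fun _ => rfl⟩

theorem TmF.const (c : M) : TmF (fun _ : ℕ → M => c) := ⟨Tm.const c, fun _ => rfl⟩

theorem TmF.add {f g : (ℕ → M) → M} (hf : TmF f) (hg : TmF g) : TmF (fun v => f v + g v) := by
  obtain ⟨s, hs⟩ := hf
  obtain ⟨t, ht⟩ := hg
  exact ⟨Tm.add s t, fun v => by simp [Tm.val, hs, ht]⟩

theorem TmF.mul {f g : (ℕ → M) → M} (hf : TmF f) (hg : TmF g) : TmF (fun v => f v * g v) := by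
  obtain ⟨s, hs⟩ := hf
  obtain ⟨t, ht⟩ := hg
  exact ⟨Tm.mul s t, fun v => by simp [Tm.val, hs, ht]⟩

theorem TmF.subst {f : (ℕ → M) → M} (hf : TmF f) {τ : (ℕ → M) → ℕ → M}
    (hτ : ∀ i, TmF (fun v => τ v i)) : TmF (fun v => f (τ v)) := by
  obtain ⟨s, hs⟩ := hf
  choose t ht using hτ
  refine ⟨s.subst t, fun v => ?_⟩
  rw [Tm.val_subst, hs]
  congr 1
  funext i
  exact ht i v

def D0 (S : Set (Set M)) (P : (ℕ → M) → Prop) : Prop :=
  ∃ φ : BFml M, φ.SetsIn S ∧ ∀ v, φ.Holds v ↔ P v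

variable {S : Set (Set M)} {P Q : (ℕ → M) → Prop} {f g : (ℕ → M) → M}

theorem D0.congr (hP : D0 S P) (h : ∀ v, P v ↔ Q v) : D0 S Q := by
  obtain ⟨φ, h1, h2⟩ := hP
  exact ⟨φ, h1, fun v => (h2 v).trans (h v)⟩

theorem D0.eq (hf : TmF f) (hg : TmF g) : D0 S (fun v => f v = g v) := by
  obtain ⟨s, hs⟩ := hf
  obtain ⟨t, ht⟩ := hg
  exact ⟨BFml.eq s t, trivial, fun v => by simp [BFml.Holds, hs, ht]⟩

theorem D0.lt (hf : TmF f) (hg : TmF g) : D0 S (fun v => f v < g v) := by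
  obtain ⟨s, hs⟩ := hf
  obtain ⟨t, ht⟩ := hg
  exact ⟨BFml.lt s t, trivial, fun v => by simp [BFml.Holds, hs, ht]⟩

theorem D0.mem (hf : TmF f) {A : Set M} (hA : A ∈ S) : D0 S (fun v => f v ∈ A) := by
  obtain ⟨s, hs⟩ := hf
  exact ⟨BFml.mem s A, hA, fun v => by simp [BFml.Holds, hs]⟩

theorem D0.not (hP : D0 S P) : D0 S (fun v => ¬ P v) := by
  obtain ⟨φ, h1, h2⟩ := hP
  exact ⟨BFml.neg φ, h1, fun v => by simp [BFml.Holds, h2]⟩

theorem D0.and (hP : D0 S P) (hQ : D0 S Q) : D0 S (fun v => P v ∧ Q v) := by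
  obtain ⟨φ, h1, h2⟩ := hP
  obtain ⟨ψ, h3, h4⟩ := hQ
  exact ⟨BFml.and φ ψ, ⟨h1, h3⟩, fun v => by simp [BFml.Holds, h2, h4]⟩

theorem D0.or (hP : D0 S P) (hQ : D0 S Q) : D0 S (fun v => P v ∨ Q v) :=
  (hP.not.and hQ.not).not.congr (fun v => by tauto)

theorem D0.imp (hP : D0 S P) (hQ : D0 S Q) : D0 S (fun v => P v → Q v) :=
  (hP.not.or hQ).congr (fun v => by tauto)

theorem D0.ball (hf : TmF f) (hP : D0 S P) : D0 S (fun v => ∀ a < f v, P (cons a v)) := by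
  obtain ⟨s, hs⟩ := hf
  obtain ⟨φ, h1, h2⟩ := hP
  exact ⟨BFml.ball s φ, h1, fun v => by simp [BFml.Holds, hs, h2]⟩

theorem D0.bex (hf : TmF f) (hP : D0 S P) : D0 S (fun v => ∃ a < f v, P (cons a v)) :=
  (D0.ball hf hP.not).not.congr (fun v => by push Not; rfl)

theorem D0.subst (hP : D0 S P) {τ : (ℕ → M) → ℕ → M}
    (hτ : ∀ i, TmF (fun v => τ v i)) : D0 S (fun v => P (τ v)) := by
  obtain ⟨φ, h1, h2⟩ := hP
  choose t ht using hτ
  refine ⟨φ.subst t, φ.setsIn_subst t h1, fun v => ?_⟩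
  rw [BFml.holds_subst, h2]
  have : (fun i => (t i).val v) = τ v := funext fun i => ht i v
  rw [this]

theorem D0.mono {S' : Set (Set M)} (hS : S ⊆ S') (hP : D0 S P) : D0 S' P := by
  obtain ⟨φ, h1, h2⟩ := hP
  exact ⟨φ, BFml.SetsIn.mono hS φ h1, h2⟩

theorem TmF.consS {τ : (ℕ → M) → ℕ → M} (hf : TmF f) (hτ : ∀ i, TmF (fun v => τ v i)) :
    ∀ i, TmF (fun v => cons (f v) (τ v) i) := by
  intro i
  cases i with
  | zero => exact hf
  | succ n => exact hτ n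

theorem TmF.tail (k : ℕ) : ∀ i : ℕ, TmF (fun v : ℕ → M => v (i + k)) := fun i => TmF.var (i + k)

/-! ### Discreteness -/

class Disc (M : Type u) [CommSemiring M] [LinearOrder M] : Prop where
  one_le : ∀ x : M, 0 < x → 1 ≤ x

class IndS (S : Set (Set M)) : Prop where
  ind : SigmaOneInduction S

section
variable [IsStrictOrderedRing M] [CanonicallyOrderedAdd M] [Disc M]

theorem lt_succ {x y : M} : x < y + 1 ↔ x ≤ y := by
  constructor
  · intro h
    by_contra hxy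
    push Not at hxy
    obtain ⟨z, hz⟩ := le_iff_exists_add.1 hxy.le
    have hz0 : 0 < z := by
      rcases eq_or_ne z 0 with h0 | h0
      · subst h0; simp at hz; exact absurd hz hxy.ne'
      · exact pos_iff_ne_zero.2 h0
    have := Disc.one_le z hz0
    have h2 : y + 1 ≤ x := by rw [hz]; gcongr
    exact absurd h (not_lt.2 h2)
  · intro h
    exact lt_of_le_of_lt h (lt_add_one y)

theorem succ_le {x y : M} : x + 1 ≤ y ↔ x < y := by
  rw [← not_lt, lt_succ, not_le]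

theorem not_lt_zero' (x : M) : ¬ x < 0 := not_lt.2 zero_le

/-! ### `Σ^0_1` relations -/

def Sg (S : Set (Set M)) (P : (ℕ → M) → Prop) : Prop :=
  ∃ Q : (ℕ → M) → Prop, D0 S Q ∧ ∀ v, P v ↔ ∃ w, Q (cons w v)

theorem Sg.congr (hP : Sg S P) (h : ∀ v, P v ↔ Q v) : Sg S Q := by
  obtain ⟨R, h1, h2⟩ := hP
  exact ⟨R, h1, fun v => (h v).symm.trans (h2 v)⟩

theorem Sg.mono {S' : Set (Set M)} (hS : S ⊆ S') (hP : Sg S P) : Sg S' P := by
  obtain ⟨R, h1, h2⟩ := hP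
  exact ⟨R, h1.mono hS, h2⟩

theorem D0.sg (hP : D0 S P) : Sg S P := by
  refine ⟨fun v => P (fun i => v (i + 1)), hP.subst (TmF.tail 1), fun v => ?_⟩
  constructor
  · intro h; exact ⟨0, h⟩
  · rintro ⟨w, h⟩; exact h

theorem Sg.subst (hP : Sg S P) {τ : (ℕ → M) → ℕ → M}
    (hτ : ∀ i, TmF (fun v => τ v i)) : Sg S (fun v => P (τ v)) := by
  obtain ⟨R, h1, h2⟩ := hP
  refine ⟨fun u => R (cons (u 0) (τ (fun i => u (i + 1)))), ?_, fun v => ?_⟩
  · exact h1.subst (TmF.consS (TmF.var 0) (fun i => (hτ i).subst (TmF.tail 1)))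
  · exact h2 (τ v)

theorem Sg.and (hP : Sg S P) (hQ : Sg S Q) : Sg S (fun v => P v ∧ Q v) := by
  obtain ⟨R, h1, h2⟩ := hP
  obtain ⟨R', h3, h4⟩ := hQ
  refine ⟨fun u => (∃ a < u 0 + 1, R (cons a (fun i => u (i + 1)))) ∧
    (∃ a < u 0 + 1, R' (cons a (fun i => u (i + 1)))), ?_, fun v => ?_⟩
  · apply D0.and
    · exact D0.bex (P := fun u => R (cons (u 0) (fun i => u (i + 2))))
        ((TmF.var 0).add (TmF.const 1)) (h1.subst (TmF.consS (TmF.var 0) (TmF.tail 2)))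
    · exact D0.bex (P := fun u => R' (cons (u 0) (fun i => u (i + 2))))
        ((TmF.var 0).add (TmF.const 1)) (h3.subst (TmF.consS (TmF.var 0) (TmF.tail 2)))
  · constructor
    · rintro ⟨hp, hq⟩
      obtain ⟨w, hw⟩ := (h2 v).1 hp
      obtain ⟨w', hw'⟩ := (h4 v).1 hq
      exact ⟨max w w', ⟨w, lt_succ.2 (le_max_left _ _), hw⟩, ⟨w', lt_succ.2 (le_max_right _ _), hw'⟩⟩
    · rintro ⟨w, ⟨a, _, ha⟩, ⟨b, _, hb⟩⟩
      exact ⟨(h2 v).2 ⟨a, ha⟩, (h4 v).2 ⟨b, hb⟩⟩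

theorem Sg.or (hP : Sg S P) (hQ : Sg S Q) : Sg S (fun v => P v ∨ Q v) := by
  obtain ⟨R, h1, h2⟩ := hP
  obtain ⟨R', h3, h4⟩ := hQ
  refine ⟨fun u => R u ∨ R' u, h1.or h3, fun v => ?_⟩
  show P v ∨ Q v ↔ ∃ w, R (cons w v) ∨ R' (cons w v)
  rw [h2, h4, exists_or]

theorem Sg.ex (hP : Sg S P) : Sg S (fun v => ∃ a, P (cons a v)) := by
  obtain ⟨R, h1, h2⟩ := hP
  refine ⟨fun u => ∃ a < u 0 + 1, ∃ b < u 0 + 1, R (cons b (cons a (fun i => u (i + 1)))),
    ?_, fun v => ?_⟩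
  · refine D0.bex (P := fun u => ∃ b < u 1 + 1, R (cons b (cons (u 0) (fun i => u (i + 2)))))
        ((TmF.var 0).add (TmF.const 1)) ?_
    refine D0.bex (P := fun u => R (cons (u 0) (cons (u 1) (fun i => u (i + 3)))))
        ((TmF.var 1).add (TmF.const 1)) ?_
    exact h1.subst (TmF.consS (TmF.var 0) (TmF.consS (TmF.var 1) (TmF.tail 3)))
  · constructor
    · rintro ⟨a, ha⟩
      obtain ⟨w, hw⟩ := (h2 _).1 ha
      exact ⟨max w a, a, lt_succ.2 (le_max_right _ _), w, lt_succ.2 (le_max_left _ _), hw⟩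
    · rintro ⟨_, a, _, w, _, hw⟩
      exact ⟨a, (h2 _).2 ⟨w, hw⟩⟩

theorem Sg.induct [IndS S] (hP : Sg S P) (v : ℕ → M) (h0 : P (cons 0 v))
    (hs : ∀ x, P (cons x v) → P (cons (x + 1) v)) (x : M) : P (cons x v) := by
  obtain ⟨R, ⟨φ, h1, h3⟩, h2⟩ := hP
  have key : ∀ x : M, x ∈ sigmaSet φ v ↔ P (cons x v) := by
    intro x
    rw [h2]
    exact exists_congr fun w => h3 _
  rw [← key]
  exact IndS.ind φ v h1 ((key 0).2 h0) (fun x hx => (key _).2 (hs x ((key x).1 hx))) x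

theorem collection [IndS S] (hP : D0 S P) (v : ℕ → M) (a : M)
    (h : ∀ i < a, ∃ w, P (cons w (cons i v))) : ∃ B, ∀ i < a, ∃ w < B, P (cons w (cons i v)) := by
  have hS : Sg S (fun u => ∃ B, u 0 ≤ a → ∀ i < u 0, ∃ w < B,
      P (cons w (cons i (fun j => u (j + 1))))) := by
    refine Sg.ex (P := fun u => u 1 ≤ a → ∀ i < u 1, ∃ w < u 0,
      P (cons w (cons i (fun j => u (j + 2))))) ?_
    apply D0.sg
    apply D0.imp
    · exact (D0.lt (TmF.const a) (TmF.var 1)).not.congr (fun v => not_lt)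
    · refine D0.ball (P := fun u => ∃ w < u 1, P (cons w (cons (u 0) (fun j => u (j + 3)))))
        (TmF.var 1) ?_
      refine D0.bex (P := fun u => P (cons (u 0) (cons (u 1) (fun j => u (j + 4)))))
        (TmF.var 1) ?_
      exact hP.subst (TmF.consS (TmF.var 0) (TmF.consS (TmF.var 1) (TmF.tail 4)))
  have := hS.induct v ⟨0, fun _ i hi => absurd hi (not_lt_zero' i)⟩ ?_ a
  · obtain ⟨B, hB⟩ := this
    exact ⟨B, hB le_rfl⟩
  · rintro x ⟨B, hB⟩
    by_cases hx : x < a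
    · obtain ⟨w, hw⟩ := h x hx
      refine ⟨max B (w + 1), fun _ i hi => ?_⟩
      rcases (lt_succ.1 hi).lt_or_eq with h1 | h1
      · obtain ⟨w', h2, h3⟩ := hB hx.le i h1
        exact ⟨w', lt_of_lt_of_le h2 (le_max_left _ _), h3⟩
      · exact ⟨w, lt_of_lt_of_le (lt_add_one w) (le_max_right _ _), h1 ▸ hw⟩
    · refine ⟨0, fun h' => ?_⟩
      exact absurd (lt_of_lt_of_le (lt_add_one x) h') hx

theorem Sg.ball [IndS S] (hf : TmF f) (hP : Sg S P) :
    Sg S (fun v => ∀ a < f v, P (cons a v)) := by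
  obtain ⟨R, h1, h2⟩ := hP
  refine ⟨fun u => ∀ a < f (fun i => u (i + 1)), ∃ w < u 0, R (cons w (cons a (fun i => u (i + 1)))),
    ?_, fun v => ?_⟩
  · refine D0.ball (P := fun u => ∃ w < u 1, R (cons w (cons (u 0) (fun i => u (i + 2)))))
      (hf.subst (TmF.tail 1)) ?_
    refine D0.bex (P := fun u => R (cons (u 0) (cons (u 1) (fun i => u (i + 3)))))
      (TmF.var 1) ?_
    exact h1.subst (TmF.consS (TmF.var 0) (TmF.consS (TmF.var 1) (TmF.tail 3)))
  · constructor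
    · intro h
      exact collection h1 v (f v) (fun i hi => (h2 _).1 (h i hi))
    · rintro ⟨B, hB⟩ a ha
      obtain ⟨w, _, hw⟩ := hB a ha
      exact (h2 _).2 ⟨w, hw⟩

end

end Run7.h915
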