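import Pool.Agent.Run7.h915.Arith

/-!
# Powers of two and binary strings
-/

set_option linter.unusedSectionVars false

namespace Run7.h915

universe u v w

variable {M : Type u} [CommSemiring M] [LinearOrder M] [IsStrictOrderedRing M]
  [CanonicallyOrderedAdd M] [Disc M] [IS1 M]

/-! ### Powers of two -/

noncomputable def exp2 (n : M) : M := prec 1 (fun _ y => 2 * y) n

section
variable {S : Set (Set M)} [IndS S] {α : Type v} [Cod M α]

@[fun_prop] protected theorem Comp.exp2 {f : α → M} (hf : Comp S f) :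
    Comp S (fun x => exp2 (f x)) := by
  unfold h915.exp2; fun_prop

end

theorem exp2_zero : exp2 (0 : M) = 1 := prec_zero (S := ∅) (by fun_prop)

theorem exp2_succ (n : M) : exp2 (n + 1) = 2 * exp2 n := prec_succ (S := ∅) (by fun_prop) n

theorem exp2_pos (n : M) : 0 < exp2 n := by
  refine Comp.induct (S := ∅) (by fun_prop) ?_ ?_ n
  · rw [exp2_zero]; exact zero_lt_one
  · intro x hx; rw [exp2_succ]; exact mul_pos two_pos hx

theorem lt_exp2 (n : M) : n < exp2 n := by
  refine Comp.induct (S := ∅) (by fun_prop) ?_ ?_ n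
  · rw [exp2_zero]; exact zero_lt_one
  · intro x hx
    rw [exp2_succ]
    have := pos_iff_one_le.1 (exp2_pos x)
    calc x + 1 < exp2 x + 1 := by gcongr
      _ ≤ exp2 x + exp2 x := by gcongr
      _ = _ := by ring

theorem exp2_add (a b : M) : exp2 (a + b) = exp2 a * exp2 b := by
  refine Comp.induct (S := ∅) (by fun_prop) ?_ ?_ b
  · rw [exp2_zero]; ring_nf
  · intro x hx
    rw [← add_assoc, exp2_succ, exp2_succ, hx]; ring

theorem exp2_le {a b : M} (h : a ≤ b) : exp2 a ≤ exp2 b := by
  obtain ⟨c, rfl⟩ := le_iff_exists_add.1 h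
  rw [exp2_add]
  have := pos_iff_one_le.1 (exp2_pos c)
  calc exp2 a = exp2 a * 1 := by ring
    _ ≤ _ := by gcongr

theorem exp2_lt_succ (a : M) : exp2 a < exp2 (a + 1) := by
  rw [exp2_succ]
  have := exp2_pos a
  calc exp2 a = exp2 a + 0 := by ring
    _ < exp2 a + exp2 a := by gcongr
    _ = _ := by ring

theorem exp2_lt {a b : M} (h : a < b) : exp2 a < exp2 b :=
  lt_of_lt_of_le (exp2_lt_succ a) (exp2_le (succ_le.2 h))

theorem exp2_lt_iff {a b : M} : exp2 a < exp2 b ↔ a < b := by
  constructor
  · intro h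
    by_contra h2
    exact absurd (exp2_le (not_lt.1 h2)) (not_le.2 h)
  · exact exp2_lt

theorem exp2_one : exp2 (1 : M) = 2 := by
  have := exp2_succ (0 : M)
  rw [zero_add, exp2_zero, mul_one] at this
  exact this

/-! ### Truncated subtraction -/

noncomputable def sb (x y : M) : M := mu (fun d => x ≤ y + d)

@[fun_prop] protected theorem Comp.sb {S : Set (Set M)} [IndS S] {α : Type v} [Cod M α]
    {f g : α → M} (hf : Comp S f) (hg : Comp S g) :
    Comp S (fun x => sb (f x) (g x)) := by
  unfold h915.sb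
  exact Comp.mu (P := fun x d => f x ≤ g x + d) (by fun_prop) (fun x => ⟨f x, le_add_self⟩)

theorem sb_add (y d : M) : sb (y + d) y = d := by
  apply mu_eq
  · exact le_rfl
  · intro z hz h
    exact absurd (lt_of_lt_of_le (add_lt_add_right hz y) h) (lt_irrefl _)

theorem add_sb {x y : M} (h : y ≤ x) : y + sb x y = x := by
  obtain ⟨d, rfl⟩ := le_iff_exists_add.1 h
  rw [sb_add]

/-! ### Length -/

noncomputable def len (z : M) : M := mu (fun n => z < exp2 (n + 1))

theorem len_ex (z : M) : ∃ n, z < exp2 (n + 1) :=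
  ⟨z, lt_trans (lt_exp2 z) (exp2_lt_succ z)⟩

@[fun_prop] protected theorem Comp.len {S : Set (Set M)} [IndS S] {α : Type v} [Cod M α]
    {f : α → M} (hf : Comp S f) :
    Comp S (fun x => len (f x)) := by
  unfold h915.len
  exact Comp.mu (P := fun x n => f x < h915.exp2 (n + 1)) (by fun_prop) (fun x => len_ex _)

theorem len_unique {z n : M} (h1 : exp2 n ≤ z) (h2 : z < exp2 (n + 1)) : len z = n := by
  refine mu_eq (P := fun n => z < exp2 (n + 1)) h2 ?_
  intro m hm h3
  have := exp2_le (succ_le.2 hm)
  exact absurd (lt_of_lt_of_le h3 (this.trans h1)) (lt_irrefl _)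

theorem lt_exp2_len (z : M) : z < exp2 (len z + 1) := by
  have hc : Comp (∅ : Set (Set M)) (fun n => z < exp2 (n + 1)) := by fun_prop
  exact mu_spec hc (len_ex z)

theorem exp2_len_le {z : M} (hz : 0 < z) : exp2 (len z) ≤ z := by
  have hc : Comp (∅ : Set (Set M)) (fun n => z < exp2 (n + 1)) := by fun_prop
  by_contra h
  rw [not_le] at h
  rcases eq_or_ne (len z) 0 with h0 | h0
  · rw [h0, exp2_zero] at h
    exact absurd (pos_iff_one_le.1 hz) (not_le.2 h)
  · obtain ⟨m, hm⟩ := le_iff_exists_add.1 (pos_iff_one_le.1 (pos_iff_ne_zero.2 h0))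
    have h2 : len z ≤ m := mu_min hc (by rwa [add_comm m 1, ← hm])
    rw [hm] at h2
    exact absurd h2 (not_le.2 (by rw [add_comm]; exact lt_add_one m))

theorem len_le {z n : M} (hz : 0 < z) (h : z < exp2 (n + 1)) : len z ≤ n := by
  have hc : Comp (∅ : Set (Set M)) (fun n => z < exp2 (n + 1)) := by fun_prop
  exact mu_min hc h

theorem len_lt_self {z : M} (hz : 0 < z) : len z < z := lt_of_lt_of_le (lt_exp2 _) (exp2_len_le hz)

theorem len_add {y k r : M} (hy : 0 < y) (hr : r < exp2 k) : len (y * exp2 k + r) = len y + k := by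
  apply len_unique
  · rw [exp2_add]
    calc exp2 (len y) * exp2 k ≤ y * exp2 k := by gcongr; exact exp2_len_le hy
      _ ≤ _ := le_self_add
  · have h1 := succ_le.2 (lt_exp2_len y)
    calc y * exp2 k + r < y * exp2 k + exp2 k := by gcongr
      _ = (y + 1) * exp2 k := by ring
      _ ≤ exp2 (len y + 1) * exp2 k := by gcongr
      _ = _ := by rw [← exp2_add]; congr 1; ring

/-! ### Restriction -/

noncomputable def res (z n : M) : M := dv z (exp2 (sb (len z) n))

noncomputable def bit (z i : M) : M := rm (res z (i + 1)) 2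

section
variable {S : Set (Set M)} [IndS S] {α : Type v} [Cod M α]

@[fun_prop] protected theorem Comp.res {f g : α → M} (hf : Comp S f) (hg : Comp S g) :
    Comp S (fun x => res (f x) (g x)) := by
  unfold h915.res; fun_prop

@[fun_prop] protected theorem Comp.bit {f g : α → M} (hf : Comp S f) (hg : Comp S g) :
    Comp S (fun x => bit (f x) (g x)) := by
  unfold h915.bit; fun_prop

end

theorem res_of {y k r : M} (hy : 0 < y) (hr : r < exp2 k) : res (y * exp2 k + r) (len y) = y := by
  unfold res
  rw [len_add hy hr, sb_add]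
  exact dv_unique rfl hr

theorem res_decomp {z n : M} (hz : 0 < z) (hn : n ≤ len z) :
    ∃ k r, z = res z n * exp2 k + r ∧ r < exp2 k ∧ len (res z n) = n ∧ 0 < res z n ∧
      len z = n + k := by
  have hk := add_sb hn
  refine ⟨sb (len z) n, rm z (exp2 (sb (len z) n)), dv_rm _ _, rm_lt (exp2_pos _), ?_⟩
  set k := sb (len z) n
  have h1 := dv_rm z (exp2 k)
  have h2 := rm_lt (x := z) (exp2_pos k)
  have h3 : exp2 n ≤ res z n := by
    by_contra h
    rw [not_le] at h
    have h4 := succ_le.2 h
    have h5 : z < exp2 (len z) := by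
      calc z = res z n * exp2 k + rm z (exp2 k) := h1
        _ < res z n * exp2 k + exp2 k := by gcongr
        _ = (res z n + 1) * exp2 k := by ring
        _ ≤ exp2 n * exp2 k := by gcongr
        _ = exp2 (len z) := by rw [← exp2_add, hk]
    exact absurd (exp2_len_le hz) (not_le.2 h5)
  have h4 : res z n < exp2 (n + 1) := by
    by_contra h
    rw [not_lt] at h
    have h5 : exp2 (len z + 1) ≤ z := by
      calc exp2 (len z + 1) = exp2 (n + 1) * exp2 k := by
            rw [← exp2_add, ← hk]; congr 1; ring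
        _ ≤ res z n * exp2 k := by gcongr
        _ ≤ _ := dv_mul_le _ _
    exact absurd (lt_exp2_len z) (not_lt.2 h5)
  exact ⟨len_unique h3 h4, lt_of_lt_of_le (exp2_pos n) h3, hk.symm⟩

theorem len_res {z n : M} (hz : 0 < z) (hn : n ≤ len z) : len (res z n) = n := by
  obtain ⟨k, r, _, _, h, _⟩ := res_decomp hz hn
  exact h

theorem res_pos {z n : M} (hz : 0 < z) (hn : n ≤ len z) : 0 < res z n := by
  obtain ⟨k, r, _, _, _, h, _⟩ := res_decomp hz hn
  exact h

theorem res_len {z : M} (hz : 0 < z) : res z (len z) = z := by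
  have := res_of (k := 0) (r := 0) hz (by rw [exp2_zero]; exact zero_lt_one)
  simpa [exp2_zero] using this

theorem res_res {z n m : M} (hz : 0 < z) (hm : m ≤ n) (hn : n ≤ len z) :
    res (res z n) m = res z m := by
  obtain ⟨k, r, h1, h2, h3, h4, h5⟩ := res_decomp hz hn
  obtain ⟨k', r', h1', h2', h3', h4', h5'⟩ := res_decomp (n := m) h4 (by rw [h3]; exact hm)
  set y := res z n
  set y' := res y m
  have h6 : z = y' * exp2 (k' + k) + (r' * exp2 k + r) := by
    rw [exp2_add]
    calc z = y * exp2 k + r := h1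
      _ = (y' * exp2 k' + r') * exp2 k + r := by rw [← h1']
      _ = _ := by ring
  have h7 : r' * exp2 k + r < exp2 (k' + k) := by
    calc r' * exp2 k + r < r' * exp2 k + exp2 k := by gcongr
      _ = (r' + 1) * exp2 k := by ring
      _ ≤ exp2 k' * exp2 k := by gcongr; exact succ_le.2 h2'
      _ = _ := (exp2_add _ _).symm
  have h8 := res_of h4' h7
  rw [← h6, h3'] at h8
  exact h8.symm

theorem len_two_mul {z b : M} (hz : 0 < z) (hb : b < 2) : len (2 * z + b) = len z + 1 := by
  have := len_add (k := 1) (r := b) hz (by rwa [exp2_one])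
  rwa [exp2_one, mul_comm z 2] at this

theorem res_two_mul {z b n : M} (hz : 0 < z) (hb : b < 2) (hn : n ≤ len z) :
    res (2 * z + b) n = res z n := by
  have h1 := res_of (k := 1) (r := b) hz (by rwa [exp2_one])
  rw [exp2_one, mul_comm z 2] at h1
  have h2 : 0 < 2 * z + b := lt_of_lt_of_le (mul_pos two_pos hz) le_self_add
  have h3 := res_res (z := 2 * z + b) h2 hn (by rw [len_two_mul hz hb]; exact le_self_add)
  rw [← h3, h1]

theorem len_one : len (1 : M) = 0 := by
  apply len_unique
  · rw [exp2_zero]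
  · rw [zero_add, exp2_one]; exact one_lt_two

theorem res_zero {z : M} (hz : 0 < z) : res z 0 = 1 := by
  obtain ⟨k, r, _, _, h3, h4, _⟩ := res_decomp hz (zero_le (a := len z))
  have h5 := lt_exp2_len (res z 0)
  rw [h3, zero_add, exp2_one] at h5
  have h6 := pos_iff_one_le.1 h4
  have h7 : res z 0 < 1 + 1 := by rw [one_add_one_eq_two]; exact h5
  exact le_antisymm (lt_succ.1 h7) h6

theorem lt_two {b : M} : b < 2 ↔ b = 0 ∨ b = 1 := by
  rw [← one_add_one_eq_two, lt_succ]
  constructor
  · intro h
    rcases h.lt_or_eq with h1 | h1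
    · left
      rw [← zero_add (1 : M), lt_succ] at h1
      exact le_antisymm h1 zero_le
    · exact Or.inr h1
  · rintro (h | h)
    · rw [h]; exact zero_le
    · rw [h]

theorem bit_lt (z i : M) : bit z i < 2 := rm_lt two_pos

theorem bit_last {z b : M} (hz : 0 < z) (hb : b < 2) : bit (2 * z + b) (len z) = b := by
  unfold bit
  rw [← len_two_mul hz hb, res_len (lt_of_lt_of_le (mul_pos two_pos hz) le_self_add)]
  exact rm_unique (q := z) (by ring) hb

theorem bit_res {z n i : M} (hz : 0 < z) (hi : i < n) (hn : n ≤ len z) :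
    bit (res z n) i = bit z i := by
  unfold bit
  rw [res_res hz (succ_le.2 hi) hn]

theorem bit_two_mul {z b i : M} (hz : 0 < z) (hb : b < 2) (hi : i < len z) :
    bit (2 * z + b) i = bit z i := by
  unfold bit
  rw [res_two_mul hz hb (succ_le.2 hi)]

theorem string_split {z : M} (hz : 0 < z) (h : 0 < len z) :
    ∃ y b, 0 < y ∧ b < 2 ∧ z = 2 * y + b ∧ len z = len y + 1 := by
  have h1 := dv_rm z 2
  have h2 := rm_lt (x := z) (y := 2) two_pos
  have h3 : 0 < dv z 2 := by
    rcases eq_or_ne (dv z 2) 0 with h0 | h0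
    · rw [h0, zero_mul, zero_add] at h1
      have h4 : z < exp2 (0 + 1) := by rw [zero_add, exp2_one, h1]; exact h2
      exact absurd (len_le hz h4) (not_le.2 h)
    · exact pos_iff_ne_zero.2 h0
  refine ⟨dv z 2, rm z 2, h3, h2, by rw [mul_comm]; exact h1, ?_⟩
  rw [← len_two_mul h3 h2]
  congr 1
  rw [mul_comm]; exact h1

theorem res_succ {z n : M} (hz : 0 < z) (hn : n < len z) :
    res z (n + 1) = 2 * res z n + bit z n := by
  have hn' := succ_le.2 hn
  have hp := res_pos hz hn'
  have hl := len_res hz hn'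
  obtain ⟨y, b, hy, hb, h1, h2⟩ := string_split hp (by rw [hl]; exact lt_of_le_of_lt zero_le (lt_add_one n))
  rw [hl] at h2
  have h3 : len y = n := (add_right_cancel h2).symm
  have h4 : res z n = y := by
    rw [← res_res hz (le_self_add (a := n) (b := 1)) hn', h1, res_two_mul hy hb (by rw [h3]), ← h3,
      res_len hy]
  have h5 : bit z n = b := by
    unfold bit
    rw [h1]
    exact rm_unique (q := y) (by ring) hb
  rw [h4, h5, h1]

theorem str_ext {z z' : M} (hz : 0 < z) (hz' : 0 < z') (hl : len z = len z')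
    (h : ∀ i < len z, bit z i = bit z' i) : z = z' := by
  have key : ∀ n : M, n ≤ len z → res z n = res z' n := by
    intro n
    refine Comp.induct (S := ∅) (Comp.imp (by fun_prop) (by fun_prop)) ?_ ?_ n
    · intro _; rw [res_zero hz, res_zero hz']
    · intro x ih hx
      have hx' := succ_le.1 hx
      rw [res_succ hz hx', res_succ hz' (hl ▸ hx'), ih hx'.le, h x hx']
  have h1 := key (len z) le_rfl
  rw [res_len hz, hl, res_len hz'] at h1
  exact h1

/-! ### Prefixes -/

def pre (s t : M) : Prop := len s ≤ len t ∧ res t (len s) = s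

@[fun_prop] protected theorem Comp.pre {S : Set (Set M)} [IndS S] {α : Type v} [Cod M α]
    {f g : α → M} (hf : Comp S f) (hg : Comp S g) :
    Comp S (fun x => pre (f x) (g x)) := by
  unfold h915.pre; fun_prop

theorem pre_refl {s : M} (hs : 0 < s) : pre s s := ⟨le_rfl, res_len hs⟩

theorem pre_trans {s t r : M} (hr : 0 < r) (h1 : pre s t) (h2 : pre t r) : pre s r := by
  refine ⟨h1.1.trans h2.1, ?_⟩
  rw [← res_res hr h1.1 h2.1, h2.2, h1.2]

theorem pre_res {z n : M} (hz : 0 < z) (hn : n ≤ len z) : pre (res z n) z := by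
  have := len_res hz hn
  refine ⟨by rw [this]; exact hn, by rw [this]⟩

theorem pre_two_mul {z b : M} (hz : 0 < z) (hb : b < 2) : pre z (2 * z + b) := by
  refine ⟨by rw [len_two_mul hz hb]; exact le_self_add, ?_⟩
  rw [res_two_mul hz hb le_rfl, res_len hz]

theorem pre_bit {s t i : M} (ht : 0 < t) (h : pre s t) (hi : i < len s) : bit s i = bit t i := by
  rw [← bit_res ht hi h.1, h.2]

theorem pre_of_pre {s s' t : M} (ht : 0 < t) (h : pre s t) (h' : pre s' t) (hl : len s ≤ len s') :
    pre s s' := by
  refine ⟨hl, ?_⟩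
  rw [← h'.2, res_res ht hl h'.1, h.2]

theorem pre_eq {s t : M} (ht : 0 < t) (h : pre s t) (hl : len s = len t) : s = t := by
  rw [← h.2, hl, res_len ht]

theorem pre_pos {s t : M} (ht : 0 < t) (h : pre s t) : 0 < s := by
  rw [← h.2]; exact res_pos ht h.1

theorem pre_of_bits {s t : M} (hs : 0 < s) (ht : 0 < t) (hl : len s ≤ len t)
    (h : ∀ i < len s, bit s i = bit t i) : pre s t := by
  refine ⟨hl, ?_⟩
  apply str_ext (res_pos ht hl) hs (len_res ht hl)
  intro i hi
  rw [len_res ht hl] at hi
  rw [bit_res ht hi hl, h i hi]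

/-! ### The string of a set -/

noncomputable def str (P : M → Prop) (n : M) : M := prec 1 (fun i y => 2 * y + chi (P i)) n

section
variable {S : Set (Set M)} [IndS S] {α : Type v} [Cod M α]

@[fun_prop] protected theorem Comp.str {P : α → M → Prop} {f : α → M}
    (hP : Comp S (fun z : α × M => P z.1 z.2)) (hf : Comp S f) :
    Comp S (fun x => str (P x) (f x)) := by
  unfold h915.str
  refine Comp.prec (k := fun x i y => 2 * y + h915.chi (P x i)) (by fun_prop) ?_ hf
  have : Comp S (fun z : α × M × M => P z.1 z.2.1) :=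
    Comp.comp (f := fun z : α × M => P z.1 z.2) (g := fun z : α × M × M => (z.1, z.2.1)) hP
      (by fun_prop)
  fun_prop

variable {P : M → Prop} (hP : Comp S P)
include hP

theorem str_comp_aux : Comp S (fun z : M × M => 2 * z.2 + chi (P z.1)) := by
  have : Comp S (fun z : M × M => P z.1) := Comp.comp hP (by fun_prop)
  fun_prop

theorem str_zero : str P 0 = 1 := prec_zero (S := S) (str_comp_aux hP)

theorem str_succ (n : M) : str P (n + 1) = 2 * str P n + chi (P n) :=
  prec_succ (S := S) (str_comp_aux hP) n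

theorem chi_lt_two (p : Prop) : (chi p : M) < 2 := by
  by_cases h : p
  · rw [chi_true h]; exact one_lt_two
  · rw [chi_false h]; exact two_pos

theorem str_pos (n : M) : 0 < str P n := by
  refine Comp.induct (S := S) (by fun_prop) ?_ ?_ n
  · rw [str_zero hP]; exact zero_lt_one
  · intro x hx; rw [str_succ hP]; exact lt_of_lt_of_le (mul_pos two_pos hx) le_self_add

theorem len_str (n : M) : len (str P n) = n := by
  refine Comp.induct (S := S) (by fun_prop) ?_ ?_ n
  · rw [str_zero hP]; exact len_one
  · intro x hx; rw [str_succ hP, len_two_mul (str_pos hP x) (chi_lt_two hP _), hx]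

theorem res_str {m n : M} (h : m ≤ n) : res (str P n) m = str P m := by
  obtain ⟨k, rfl⟩ := le_iff_exists_add.1 h
  clear h
  refine Comp.induct (S := S) (by fun_prop) ?_ ?_ k
  · rw [add_zero]
    conv_lhs => rw [← len_str hP m]
    rw [len_str hP m]
    conv_lhs => rw [show res (str P m) m = res (str P m) (len (str P m)) by rw [len_str hP m]]
    exact res_len (str_pos hP m)
  · intro x hx
    rw [← add_assoc, str_succ hP, res_two_mul (str_pos hP _) (chi_lt_two hP _), hx]
    rw [len_str hP]; exact le_self_add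

theorem bit_str {i n : M} (h : i < n) : bit (str P n) i = chi (P i) := by
  unfold bit
  rw [res_str hP (succ_le.2 h), str_succ hP]
  exact rm_unique (q := str P i) (by ring) (chi_lt_two hP _)

theorem pre_str {m n : M} (h : m ≤ n) : pre (str P m) (str P n) := by
  refine ⟨by rw [len_str hP, len_str hP]; exact h, ?_⟩
  rw [len_str hP, res_str hP h]

end

end Run7.h915
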