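import Pool.Agent.Run7.h915.TSpace

/-!
# The closed set `K` and the function on it
-/

set_option linter.unusedSectionVars false

namespace Run7.h915

universe u v w

variable {M : Type u} [CommSemiring M] [LinearOrder M] [IsStrictOrderedRing M]
  [CanonicallyOrderedAdd M] [Disc M] [IS1 M]

/-- Two disjoint enumerated sets `A0`, `A1` (given in stages), together with enumerated forbidden
digits `F n m v` (the digit `v` is forbidden at `n` by stage `m`), at most one for each `n`. -/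
structure Dat (S : Set (Set M)) where
  A0 : M → M → Prop
  A1 : M → M → Prop
  F : M → M → M → Prop
  hA0 : Comp S (fun z : M × M => A0 z.1 z.2)
  hA1 : Comp S (fun z : M × M => A1 z.1 z.2)
  hF : Comp S (fun z : M × M × M => F z.1 z.2.1 z.2.2)
  mono0 : ∀ e k k', k ≤ k' → A0 e k → A0 e k'
  mono1 : ∀ e k k', k ≤ k' → A1 e k → A1 e k'
  monoF : ∀ n m m' v, m ≤ m' → F n m v → F n m' v
  dj : ∀ e k k', A0 e k → A1 e k' → False
  uniq : ∀ n m m' v v', F n m v → F n m' v' → v = v'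
  no_path : ∀ y : M → M, Comp S y → (∀ n, y n < 4) → ∃ n m, F n m (y n)

namespace Dat

variable {S : Set (Set M)} (d : Dat S)

/-- The value at `e` is known at stage `k`. -/
def Hv (e k : M) : Prop := d.A0 e k ∨ d.A1 e k

/-- The first `m` digits of `y` are not forbidden at stage `m`. -/
def T (m y : M) : Prop := Ball m (fun n => ¬ d.F n m (dg y n))

section
variable [IndS S] {α : Type v} [Cod M α]

theorem cA0 {f g : α → M} (hf : Comp S f) (hg : Comp S g) : Comp S (fun x => d.A0 (f x) (g x)) :=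
  Comp.app2 d.hA0 hf hg

theorem cA1 {f g : α → M} (hf : Comp S f) (hg : Comp S g) : Comp S (fun x => d.A1 (f x) (g x)) :=
  Comp.app2 d.hA1 hf hg

theorem cF {f g h : α → M} (hf : Comp S f) (hg : Comp S g) (hh : Comp S h) :
    Comp S (fun x => d.F (f x) (g x) (h x)) :=
  Comp.comp (f := fun z : M × M × M => d.F z.1 z.2.1 z.2.2) (g := fun x => (f x, g x, h x)) d.hF
    (hf.mk (hg.mk hh))

theorem cHv {f g : α → M} (hf : Comp S f) (hg : Comp S g) : Comp S (fun x => d.Hv (f x) (g x)) :=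
  (d.cA0 hf hg).or (d.cA1 hf hg)

theorem cT {f g : α → M} (hf : Comp S f) (hg : Comp S g) : Comp S (fun x => d.T (f x) (g x)) := by
  unfold T
  refine Comp.ball hf ?_
  refine Comp.not (d.cF (by fun_prop) (by fun_prop) (by fun_prop))

end

theorem T_cg {m y y' : M} (h : cg m y y') (hT : d.T m y) : d.T m y' := by
  intro n hn
  rw [← h n hn]
  exact hT n hn

/-- The cylinder given by the first `L` digits of `a` is disjoint from `K`. -/
def Bad (L a : M) : Prop := Bex L (fun e => cg e a 0 ∧ ((dg a e ≠ 0 ∧ dg a e ≠ 1) ∨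
  (dg a e = 1 ∧ Bex L (fun m => e + 1 + m ≤ L ∧ ¬ d.Hv e m ∧ ¬ d.T m (dv a (p4 (e + 1)))))))

theorem cBad [IndS S] {α : Type v} [Cod M α] {f g : α → M} (hf : Comp S f) (hg : Comp S g) :
    Comp S (fun x => d.Bad (f x) (g x)) := by
  unfold Bad
  refine Comp.bex hf ?_
  have h1 : Comp S (fun z : α × M => Bex (f z.1) (fun m => z.2 + 1 + m ≤ f z.1 ∧ ¬ d.Hv z.2 m ∧
      ¬ d.T m (dv (g z.1) (p4 (z.2 + 1))))) := by
    refine Comp.bex (by fun_prop) ?_
    have h2 : Comp S (fun z : (α × M) × M => d.Hv z.1.2 z.2) := d.cHv (by fun_prop) (by fun_prop)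
    have h3 : Comp S (fun z : (α × M) × M => d.T z.2 (dv (g z.1.1) (p4 (z.1.2 + 1)))) :=
      d.cT (by fun_prop) (by fun_prop)
    fun_prop
  fun_prop

theorem dv_cg {e m L a b : M} (h : cg L a b) (hm : e + 1 + m ≤ L) :
    cg m (dv a (p4 (e + 1))) (dv b (p4 (e + 1))) := by
  intro n hn
  show dg (dv a (p4 (e + 1))) n = dg (dv b (p4 (e + 1))) n
  rw [dg_dv, dg_dv]
  exact h _ (lt_of_lt_of_le (by gcongr) hm)

theorem Bad_cg {L a b : M} (h : cg L a b) (hb : d.Bad L a) : d.Bad L b := by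
  obtain ⟨e, he, h0, h1⟩ := hb
  refine ⟨e, he, cg_trans (cg_symm (cg_mono he.le h)) h0, ?_⟩
  have h2 : dg a e = dg b e := h e he
  rcases h1 with h1 | ⟨h1, m, hm, h3, h4, h5⟩
  · left; rw [← h2]; exact h1
  · right
    refine ⟨h2 ▸ h1, m, hm, h3, h4, fun h6 => h5 ?_⟩
    exact d.T_cg (cg_symm (dv_cg h h3)) h6

theorem not_bad_zero (L : M) : ¬ d.Bad L 0 := by
  rintro ⟨e, _, _, h | h⟩
  · exact h.1 (dg_zero_left e)
  · have := h.1
    rw [dg_zero_left] at this
    exact zero_ne_one this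

theorem not_bad_bl {e t L : M} (h : ∀ m, e + 1 + m ≤ L → ¬ d.Hv e m → d.T m t) :
    ¬ d.Bad L (bl e t) := by
  rintro ⟨e', he', h0, h1⟩
  have hne : dg (bl e t) e' ≠ 0 := by
    rcases h1 with h1 | h1
    · exact h1.1
    · rw [h1.1]; exact one_ne_zero
  have : e' = e := first_unique h0 hne cg_bl_zero (by rw [dg_bl_self]; exact one_ne_zero)
  subst this
  rcases h1 with h1 | ⟨_, m, hm, h3, h4, h5⟩
  · exact h1.2 (dg_bl_self _ _)
  · rw [dv_bl] at h5
    exact h5 (h m h3 h4)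

theorem of_not_bad {L a : M} (h : ¬ d.Bad L a) (h0 : ¬ cg L a 0) : ∃ e, e < L ∧ cg e a 0 ∧
    dg a e = 1 ∧ ∀ m, e + 1 + m ≤ L → ¬ d.Hv e m → d.T m (dv a (p4 (e + 1))) := by
  obtain ⟨e, he, h1, h2⟩ := first_digit h0
  refine ⟨e, he, h1, ?_, ?_⟩
  · by_contra h3
    exact h ⟨e, he, h1, Or.inl ⟨h2, h3⟩⟩
  · intro m hm h3
    by_contra h4
    have h5 : dg a e = 1 := by
      by_contra h6
      exact h ⟨e, he, h1, Or.inl ⟨h2, h6⟩⟩
    refine h ⟨e, he, h1, Or.inr ⟨h5, m, ?_, hm, h3, h4⟩⟩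
    calc m < m + 1 := lt_add_one m
      _ ≤ e + 1 + m := by rw [add_comm m 1, add_assoc]; exact le_add_self
      _ ≤ L := hm

/-! ### The code of the complement of `K` -/

/-- The code of the complement of `K`. -/
def U : Set M := {u | u = pr (fs u) (pr (fs (sn u)) (qc (2 * hf (fs u)))) ∧ d.Bad (fs u) (fs (sn u))}

theorem mem_U {n a r : M} : pr n (pr a r) ∈ d.U ↔ r = qc (2 * hf n) ∧ d.Bad n a := by
  show pr n (pr a r) = _ ∧ _ ↔ _
  simp only [fs_pr, sn_pr]
  constructor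
  · rintro ⟨h, h2⟩
    exact ⟨(pr_inj (pr_inj h).2).2, h2⟩
  · rintro ⟨h, h2⟩
    exact ⟨by rw [← h], h2⟩

theorem two_hf_pos (n : M) : 0 < 2 * hf n := by
  have := hf_pos n
  linarith

variable (hS : DeltaOneComprehension S)

theorem U_open [IndS S] (hS : DeltaOneComprehension S) : IsOpenCode S (X4 M) d.U := by
  constructor
  · have h1 : Comp S (fun u : M => d.Bad (fs u) (fs (sn u))) := d.cBad (by fun_prop) (by fun_prop)
    have h2 : Comp S (fun u : M => iq (2 : M)) := Comp.const _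
    have h3 : Comp S (fun u : M => iq (2 : M) * hf (fs u)) := by fun_prop
    have h4 : Comp S (fun u : M => (2 : QF M) * hf (fs u)) := by
      have : iq (2 : M) = 2 := map_ofNat iq 2
      rwa [this] at h3
    refine Comp.comprehension (P := fun u => u = pr (fs u) (pr (fs (sn u)) (qc (2 * hf (fs u)))) ∧
      d.Bad (fs u) (fs (sn u))) hS ?_
    fun_prop
  · intro u hu
    obtain ⟨h1, h2⟩ := hu
    exact ⟨_, _, _, h1, trivial, by rw [qv_qc]; exact two_hf_pos _⟩

theorem inOpen_iff {x : M → M} (hx : Coh x) : InOpen (X4 M) d.U x ↔ ∃ L, d.Bad L (x L) := by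
  constructor
  · rintro ⟨n, a, r, h1, h2⟩
    obtain ⟨rfl, h3⟩ := d.mem_U.1 h1
    rw [qv_qc, X4_lt hx (coh_const a) (two_hf_pos n), nr_two_hf] at h2
    exact ⟨n, d.Bad_cg (cg_symm h2) h3⟩
  · rintro ⟨L, h⟩
    refine ⟨L, x L, qc (2 * hf L), d.mem_U.2 ⟨rfl, h⟩, ?_⟩
    rw [qv_qc, X4_lt hx (coh_const _) (two_hf_pos L), nr_two_hf]
    exact cg_refl _ _

/-- A point of `K` which is not `0` lies in a cylinder for which the value is known. -/
theorem known [IndS S] {x : M → M} (hx : InS S x) (hc : Coh x) (hK : ∀ L, ¬ d.Bad L (x L)) {n : M}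
    (hn : ¬ cg n (x n) 0) : ∃ e k, e < n ∧ d.Hv e k ∧ ∀ L, e < L → cg e (x L) 0 ∧ dg (x L) e = 1 ∧
      ∀ m, e + 1 + m ≤ L → ¬ d.Hv e m → d.T m (dv (x L) (p4 (e + 1))) := by
  obtain ⟨e, he, h1, h2, _⟩ := d.of_not_bad (hK n) hn
  have h1' : cg e (x e) 0 := cg_trans (hc e n he.le) h1
  have key : ∀ L, e < L → cg e (x L) 0 ∧ dg (x L) e = 1 ∧
      ∀ m, e + 1 + m ≤ L → ¬ d.Hv e m → d.T m (dv (x L) (p4 (e + 1))) := by
    intro L hL
    have h3 : cg e (x L) 0 := cg_trans (cg_symm (hc e L hL.le)) h1'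
    have h4 : dg (x L) e = 1 := by
      have h5 : cg (e + 1) (x L) (x n) :=
        cg_trans (cg_symm (hc _ L (succ_le.2 hL))) (hc _ n (succ_le.2 he))
      rw [← h2]
      exact h5 e (lt_add_one e)
    have h5 : ¬ cg L (x L) 0 := by
      intro h6
      have := cg_zero_iff.1 h6 e hL
      rw [h4] at this
      exact one_ne_zero this
    obtain ⟨e', he', h6, h7, h8⟩ := d.of_not_bad (hK L) h5
    have : e' = e := first_unique h6 (by rw [h7]; exact one_ne_zero) h3 (by rw [h4]; exact one_ne_zero)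
    subst this
    exact ⟨h3, h4, h8⟩
  have hex : ∃ k, d.Hv e k := by
    by_contra hno
    push Not at hno
    have hxc := hx.comp
    obtain ⟨i, m, him⟩ := d.no_path (fun i => dg (dv (x (e + 1 + (i + 1))) (p4 (e + 1))) i)
      (by
        have : Comp S (fun i => x (e + 1 + (i + 1))) := Comp.comp hxc (by fun_prop)
        fun_prop) (fun i => dg_lt _ _)
    set N := max m (i + 1) with hN
    have hi : i < N := lt_of_lt_of_le (lt_add_one i) (le_max_right _ _)
    have h3 := (key (e + 1 + N) (lt_of_lt_of_le (lt_add_one e) le_self_add)).2.2 N le_rfl (hno N)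
    have h4 := h3 i hi
    apply h4
    have h5 : dg (dv (x (e + 1 + N)) (p4 (e + 1))) i =
        dg (dv (x (e + 1 + (i + 1))) (p4 (e + 1))) i := by
      rw [dg_dv, dg_dv]
      have h6 : e + 1 + (i + 1) ≤ e + 1 + N := by gcongr; exact le_max_right _ _
      exact (hc _ _ h6 (e + 1 + i) (by gcongr; exact lt_add_one i)).symm
    rw [h5]
    exact d.monoF _ _ _ _ (le_max_left _ _) him
  obtain ⟨k, hk⟩ := hex
  exact ⟨e, k, he, hk, key⟩

/-! ### The dense sequence -/

/-- `z = (e, (k, t))` is good: the value at `e` is known at stage `k` and `t` is in `K_e`. -/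
def Gd (z : M) : Prop := d.Hv (fs z) (fs (sn z)) ∧
  Ball (fs (sn z)) (fun m => d.Hv (fs z) m ∨ d.T m (sn (sn z)))

/-- The dense sequence. -/
noncomputable def pt (i : M) : M := Ite (fs i ≠ 0 ∧ d.Gd (sn i)) (bl (fs (sn i)) (sn (sn (sn i)))) 0

theorem pt_comp [IndS S] : Comp S (fun i => d.pt i) := by
  unfold pt Gd
  have h1 : Comp S (fun i : M => d.Hv (fs (sn i)) (fs (sn (sn i)))) :=
    d.cHv (by fun_prop) (by fun_prop)
  have h2 : Comp S (fun z : M × M => d.Hv (fs (sn z.1)) z.2) := d.cHv (by fun_prop) (by fun_prop)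
  have h3 : Comp S (fun z : M × M => d.T z.2 (sn (sn (sn z.1)))) :=
    d.cT (by fun_prop) (by fun_prop)
  fun_prop

theorem pt_not_bad (L i : M) : ¬ d.Bad L (d.pt i) := by
  unfold pt
  by_cases h : fs i ≠ 0 ∧ d.Gd (sn i)
  · rw [Ite_pos h]
    apply d.not_bad_bl
    intro m _ hm
    obtain ⟨_, h1, h2⟩ := h
    have h3 : m < fs (sn (sn i)) := by
      by_contra h4
      rw [not_lt] at h4
      rcases h1 with h5 | h5
      · exact hm (Or.inl (d.mono0 _ _ _ h4 h5))
      · exact hm (Or.inr (d.mono1 _ _ _ h4 h5))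
    exact (h2 m h3).resolve_left hm
  · rw [Ite_neg h]
    exact d.not_bad_zero L

/-- The code of the dense sequence. -/
noncomputable def P : M → M := fun z => d.pt (fs z)

theorem P_seq [IndS S] (hS : DeltaOneComprehension S) : IsPointSeq S (X4 M) d.P := by
  have hc : Comp S (fun z => d.pt (fs z)) :=
    Comp.comp (f := fun i => d.pt i) d.pt_comp (by fun_prop)
  refine ⟨Comp.inS hS hc, fun i => ?_⟩
  rw [X4_isPoint]
  have h : (fun k => d.P (pr i k)) = fun _ => d.pt i := by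
    funext k
    show d.pt (fs (pr i k)) = _
    rw [fs_pr]
  rw [h]
  exact ⟨Comp.inS hS (Comp.const _), coh_const _⟩

theorem closure_iff [IndS S] {x : M → M} (hx : IsPoint S (X4 M) x) :
    ¬ InOpen (X4 M) d.U x ↔ InClosure (X4 M) d.P x := by
  obtain ⟨hx1, hx2⟩ := X4_isPoint.1 hx
  rw [d.inOpen_iff hx2]
  have h0 : ∀ i, (fun k => d.P (pr i k)) = fun _ => d.pt i := by
    intro i
    funext k
    show d.pt (fs (pr i k)) = _
    rw [fs_pr]
  unfold InClosure
  simp only [h0]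
  constructor
  · intro h
    push Not at h
    intro n
    simp only [X4_lt hx2 (coh_const _) (hf_pos n), nr_hf]
    by_cases h1 : cg (n + 1) (x (n + 1)) 0
    · refine ⟨0, ?_⟩
      have : d.pt 0 = 0 := by
        unfold pt
        rw [Ite_neg]
        rintro ⟨h2, _⟩
        exact h2 (le_antisymm (fs_le 0) zero_le)
      rw [this]
      exact h1
    · obtain ⟨e, k, he, hk, key⟩ := d.known hx1 hx2 h h1
      set L := max (n + 1) (e + 1 + k) with hL
      have heL : e < L := lt_of_lt_of_le he (le_max_left _ _)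
      obtain ⟨h2, h3, h4⟩ := key L heL
      refine ⟨pr 1 (pr e (pr k (dv (x L) (p4 (e + 1))))), ?_⟩
      have h5 : d.pt (pr 1 (pr e (pr k (dv (x L) (p4 (e + 1)))))) = x L := by
        unfold pt
        rw [Ite_pos]
        · simp only [fs_pr, sn_pr]
          exact (eq_bl h2 h3).symm
        · unfold Gd
          simp only [fs_pr, sn_pr]
          refine ⟨one_ne_zero, hk, fun m hm => ?_⟩
          by_cases h6 : d.Hv e m
          · exact Or.inl h6
          · refine Or.inr (h4 m ?_ h6)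
            calc e + 1 + m ≤ e + 1 + k := by gcongr
              _ ≤ L := le_max_right _ _
      rw [h5]
      exact hx2 _ _ (le_max_left _ _)
  · rintro h ⟨L, hL⟩
    obtain ⟨i, hi⟩ := h L
    rw [X4_lt hx2 (coh_const _) (hf_pos L), nr_hf] at hi
    refine d.pt_not_bad L i (d.Bad_cg ?_ hL)
    exact cg_trans (hx2 L (L + 1) (lt_add_one L).le) (cg_mono (lt_add_one L).le hi)

/-! ### The code of the function -/

/-- The quintuple `(k, a, r, b, s)` belongs to the code of the function. -/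
def FR (k a r b s : M) : Prop := 0 < qv r ∧ 0 < qv s ∧
  ((cg (nr (qv r)) a 0 ∧ |qv b| ≤ qv s ∧ |qv b - hf (nr (qv r))| ≤ qv s) ∨
    Bex (nr (qv r)) (fun e => cg e a 0 ∧ dg a e ≠ 0 ∧
      ((|qv b| ≤ qv s ∧ |qv b - hf e| ≤ qv s) ∨ (d.A0 e k ∧ |qv b| ≤ qv s) ∨
        (d.A1 e k ∧ |qv b - hf e| ≤ qv s))))

/-- The code of the function. -/
def Ph : Set M := {u | u = pr (fs u) (pr (fs (sn u)) (pr (fs (sn (sn u)))
    (pr (fs (sn (sn (sn u)))) (sn (sn (sn (sn u))))))) ∧
  d.FR (fs u) (fs (sn u)) (fs (sn (sn u))) (fs (sn (sn (sn u)))) (sn (sn (sn (sn u))))}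

theorem mem_Ph {k a r b s : M} : pr k (pr a (pr r (pr b s))) ∈ d.Ph ↔ d.FR k a r b s := by
  show _ ∧ _ ↔ _
  simp only [fs_pr, sn_pr, true_and]

theorem rel_Ph {a r b s : M} : Rel d.Ph a r b s ↔ ∃ k, d.FR k a r b s := by
  unfold Rel
  simp only [mem_Ph]

theorem Ph_mem [IndS S] (hS : DeltaOneComprehension S) : d.Ph ∈ S := by
  have h1 : Comp S (fun z : M × M => d.A0 z.2 (fs z.1)) := d.cA0 (by fun_prop) (by fun_prop)
  have h2 : Comp S (fun z : M × M => d.A1 z.2 (fs z.1)) := d.cA1 (by fun_prop) (by fun_prop)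
  have h0 : Comp S (fun _ : M => (0 : QF M)) := Comp.const _
  refine Comp.comprehension (P := fun u => u = pr (fs u) (pr (fs (sn u)) (pr (fs (sn (sn u)))
    (pr (fs (sn (sn (sn u)))) (sn (sn (sn (sn u))))))) ∧
    d.FR (fs u) (fs (sn u)) (fs (sn (sn u))) (fs (sn (sn (sn u)))) (sn (sn (sn (sn u))))) hS ?_
  unfold FR
  fun_prop

theorem FR.known0 {k a r b s e : M} (h : d.FR k a r b s) (he : e < nr (qv r)) (h0 : cg e a 0)
    (h1 : dg a e ≠ 0) : (|qv b| ≤ qv s ∧ |qv b - hf e| ≤ qv s) ∨ (d.A0 e k ∧ |qv b| ≤ qv s) ∨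
        (d.A1 e k ∧ |qv b - hf e| ≤ qv s) := by
  obtain ⟨_, _, h2 | ⟨e', he', h3, h4, h5⟩⟩ := h
  · exact absurd (cg_zero_iff.1 h2.1 e he) h1
  · have := first_unique h3 h4 h0 h1
    subst this
    exact h5

theorem Ph_code [IndS S] (hS : DeltaOneComprehension S) : IsFunCode S (X4 M) d.Ph where
  mem := d.Ph_mem hS
  shape := fun u hu => ⟨_, _, _, _, _, hu.1, trivial, hu.2.1, hu.2.2.1⟩
  consistent := by
    intro a r b s b' s' h h'
    rw [rel_Ph] at h h'
    obtain ⟨k, hr, hs, h⟩ := h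
    obtain ⟨k', _, hs', h'⟩ := h'
    have tri0 : |qv b| ≤ qv s → |qv b'| ≤ qv s' → |qv b - qv b'| ≤ qv s + qv s' := fun h1 h2 =>
      (abs_sub _ _).trans (add_le_add h1 h2)
    have tri1 : ∀ c : QF M, |qv b - c| ≤ qv s → |qv b' - c| ≤ qv s' →
        |qv b - qv b'| ≤ qv s + qv s' := fun c h1 h2 => by
      have : qv b - qv b' = (qv b - c) - (qv b' - c) := by ring
      rw [this]
      exact (abs_sub _ _).trans (add_le_add h1 h2)
    rcases h with h | ⟨e, he, h1, h2, h⟩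
    · rcases h' with h' | ⟨e', he', h1', h2', h'⟩
      · exact tri0 h.2.1 h'.2.1
      · exact absurd (cg_zero_iff.1 h.1 e' he') h2'
    · rcases h' with h' | ⟨e', he', h1', h2', h'⟩
      · exact absurd (cg_zero_iff.1 h'.1 e he) h2
      · have := first_unique h1 h2 h1' h2'
        subst this
        rcases h with h | h | h
        · rcases h' with h' | h' | h'
          · exact tri0 h.1 h'.1
          · exact tri0 h.1 h'.2
          · exact tri1 _ h.2 h'.2
        · rcases h' with h' | h' | h'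
          · exact tri0 h.2 h'.1
          · exact tri0 h.2 h'.2
          · exact (d.dj _ _ _ h.1 h'.1).elim
        · rcases h' with h' | h' | h'
          · exact tri1 _ h.2 h'.2
          · exact (d.dj _ _ _ h'.1 h.1).elim
          · exact tri1 _ h.2 h'.2
  shrink := by
    intro a r b s a' r' h _ hr' hlt
    rw [rel_Ph] at h ⊢
    obtain ⟨k, hr, hs, h⟩ := h
    refine ⟨k, hr', hs, ?_⟩
    rw [X4_da, limLT_const] at hlt
    have h1 : dd a a' < qv r := by linarith
    have h2 : cg (nr (qv r)) a a' := (dd_lt_iff hr).1 h1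
    have h3 : qv r' < qv r := by
      have := dd_nonneg a a'
      linarith
    have h4 : nr (qv r) ≤ nr (qv r') := nr_le (lt_trans (nr_spec hr') h3)
    have conv : ∀ c c' : QF M, 0 ≤ c' → c' ≤ c → |qv b| ≤ qv s → |qv b - c| ≤ qv s →
        |qv b - c'| ≤ qv s := by
      intro c c' h5 h6 h7 h8
      rw [abs_le] at *
      constructor <;> linarith
    rcases h with ⟨h5, h6, h7⟩ | ⟨e, he, h5, h6, h7⟩
    · by_cases h8 : cg (nr (qv r')) a' 0
      · exact Or.inl ⟨h8, h6, conv _ _ (hf_pos _).le (hf_le h4) h6 h7⟩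
      · obtain ⟨e, he, h9, h10⟩ := first_digit h8
        right
        refine ⟨e, he, h9, h10, Or.inl ⟨h6, conv _ _ (hf_pos _).le (hf_le ?_) h6 h7⟩⟩
        by_contra h11
        exact h10 (cg_zero_iff.1 (cg_trans (cg_symm h2) h5) e (not_le.1 h11))
    · right
      refine ⟨e, lt_of_lt_of_le he h4, cg_trans (cg_symm (cg_mono he.le h2)) h5, ?_, h7⟩
      have : dg a e = dg a' e := h2 e he
      rw [← this]; exact h6
  enlarge := by
    intro a r b s b' s' h hlt
    rw [rel_Ph] at h ⊢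
    obtain ⟨k, hr, hs, h⟩ := h
    have h0 := abs_nonneg (qv b - qv b')
    refine ⟨k, hr, by linarith, ?_⟩
    have e0 : |qv b| ≤ qv s → |qv b'| ≤ qv s' := by
      intro h1
      have h2 := abs_sub (qv b) (qv b - qv b')
      rw [sub_sub_cancel] at h2
      linarith
    have e1 : ∀ c : QF M, |qv b - c| ≤ qv s → |qv b' - c| ≤ qv s' := by
      intro c h1
      have h2 := abs_sub (qv b - c) (qv b - qv b')
      rw [sub_sub_sub_cancel_left] at h2
      have h3 := abs_sub_comm (qv b' - c) 0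
      have h4 : (qv b - c) - (qv b - qv b') = qv b' - c := by ring
      have h5 := abs_sub (qv b - c) (qv b - qv b')
      rw [h4] at h5
      linarith
    rcases h with ⟨h5, h6, h7⟩ | ⟨e, he, h5, h6, h7⟩
    · exact Or.inl ⟨h5, e0 h6, e1 _ h7⟩
    · right
      refine ⟨e, he, h5, h6, ?_⟩
      rcases h7 with h7 | h7 | h7
      · exact Or.inl ⟨e0 h7.1, e1 _ h7.2⟩
      · exact Or.inr (Or.inl ⟨h7.1, e0 h7.2⟩)
      · exact Or.inr (Or.inr ⟨h7.1, e1 _ h7.2⟩)

/-- Two nearby points of `K` are evaluated by a common quintuple. -/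
theorem common [IndS S] {x x' : M → M} (hx : InS S x) (hc : Coh x) (hc' : Coh x')
    (hK : ∀ L, ¬ d.Bad L (x L)) {n : M} (hn : cg n (x n) (x' n)) :
    ∃ a r b s, Rel d.Ph a r b s ∧ LimLT ((X4 M).dp x (fun _ => a)) (fun _ => qv r) ∧
      LimLT ((X4 M).dp x' (fun _ => a)) (fun _ => qv r) ∧ qv s = hf n := by
  have hb : ∀ (y : M → M), Coh y → cg n (y n) (x n) →
      LimLT ((X4 M).dp y (fun _ => x n)) (fun _ => qv (qc (2 * hf n))) := by
    intro y hy hyn
    rw [qv_qc, X4_lt hy (coh_const _) (two_hf_pos n), nr_two_hf]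
    exact hyn
  by_cases h0 : cg n (x n) 0
  · refine ⟨x n, qc (2 * hf n), qc 0, qc (hf n), ?_, hb x hc (cg_refl _ _),
      hb x' hc' (cg_symm hn), qv_qc _⟩
    rw [rel_Ph]
    refine ⟨0, by rw [qv_qc]; exact two_hf_pos n, by rw [qv_qc]; exact hf_pos n, Or.inl ?_⟩
    rw [qv_qc, qv_qc, qv_qc, nr_two_hf]
    refine ⟨h0, by rw [abs_zero]; exact (hf_pos n).le, ?_⟩
    rw [zero_sub, abs_neg, abs_of_pos (hf_pos n)]
  · obtain ⟨e, k, he, hk, key⟩ := d.known hx hc hK h0
    obtain ⟨h1, h2, _⟩ := key n he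
    have h2' : dg (x n) e ≠ 0 := by rw [h2]; exact one_ne_zero
    rcases hk with hk | hk
    · refine ⟨x n, qc (2 * hf n), qc 0, qc (hf n), ?_, hb x hc (cg_refl _ _),
        hb x' hc' (cg_symm hn), qv_qc _⟩
      rw [rel_Ph]
      refine ⟨k, by rw [qv_qc]; exact two_hf_pos n, by rw [qv_qc]; exact hf_pos n,
        Or.inr ⟨e, ?_, h1, h2', Or.inr (Or.inl ⟨hk, ?_⟩)⟩⟩
      · rw [qv_qc, nr_two_hf]; exact he
      · rw [qv_qc, qv_qc, abs_zero]; exact (hf_pos n).le
    · refine ⟨x n, qc (2 * hf n), qc (hf e), qc (hf n), ?_, hb x hc (cg_refl _ _),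
        hb x' hc' (cg_symm hn), qv_qc _⟩
      rw [rel_Ph]
      refine ⟨k, by rw [qv_qc]; exact two_hf_pos n, by rw [qv_qc]; exact hf_pos n,
        Or.inr ⟨e, ?_, h1, h2', Or.inr (Or.inr ⟨hk, ?_⟩)⟩⟩
      · rw [qv_qc, nr_two_hf]; exact he
      · rw [qv_qc, qv_qc, sub_self, abs_zero]; exact (hf_pos n).le

theorem Ph_inC [IndS S] (hS : DeltaOneComprehension S) :
    InC S (X4 M) (fun x => ¬ InOpen (X4 M) d.U x) d.Ph where
  code := d.Ph_code hS
  dom := by
    intro x hx hK n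
    obtain ⟨hx1, hx2⟩ := X4_isPoint.1 hx
    rw [d.inOpen_iff hx2] at hK
    push Not at hK
    obtain ⟨a, r, b, s, h1, h2, _, h3⟩ := d.common hx1 hx2 hx2 hK (cg_refl (n + 1) (x (n + 1)))
    exact ⟨a, r, b, s, h1, h2, by rw [h3]; exact hf_lt (lt_add_one n)⟩
  modulus := by
    refine ⟨fun n => n + 1, Comp.inS hS (by fun_prop), ?_⟩
    intro n x x' hx hK hx' _ hlt y y' hy hy'
    obtain ⟨hx1, hx2⟩ := X4_isPoint.1 hx
    obtain ⟨hx1', hx2'⟩ := X4_isPoint.1 hx'
    rw [d.inOpen_iff hx2] at hK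
    push Not at hK
    rw [X4_lt hx2 hx2' (hf_pos _), nr_hf] at hlt
    obtain ⟨a, r, b, s, h1, h2, h2', h3⟩ := d.common hx1 hx2 hx2' hK hlt
    obtain ⟨N, hN⟩ := hy.2 a r b s h1 h2 (n + 1 + 1 + 1)
    obtain ⟨N', hN'⟩ := hy'.2 a r b s h1 h2' (n + 1 + 1 + 1)
    refine ⟨n + 1 + 1 + 1, max N N', fun k hk => ?_⟩
    have h4 := hN k ((le_max_left _ _).trans hk)
    have h5 := hN' k ((le_max_right _ _).trans hk)
    rw [h3] at h4 h5
    have h6 := abs_sub (qv (y k) - qv b) (qv (y' k) - qv b)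
    rw [sub_sub_sub_cancel_right] at h6
    have h7 := hf_succ n
    have h8 := hf_succ (n + 1)
    have h9 := hf_succ (n + 1 + 1)
    have h10 := hf_pos (n + 1 + 1 + 1)
    linarith

end Dat

end Run7.h915
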