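import Pool.Agent.Run7.h915.TietzeDefs
import Pool.Agent.Run7.h915.Adic

/-!
# The compact space of base four expansions
-/

set_option linter.unusedSectionVars false

namespace Run7.h915

universe u v w

variable {M : Type u} [CommSemiring M] [LinearOrder M] [IsStrictOrderedRing M]
  [CanonicallyOrderedAdd M] [Disc M] [IS1 M]

/-! ### Functions of the model and limits -/

theorem Comp.inS {S : Set (Set M)} [IndS S] (hS : DeltaOneComprehension S) {f : M → M}
    (hf : Comp S f) : InS S f := by
  have h1 : Comp S (fun z : M => z = pr (fs z) (f (fs z))) := by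
    have : Comp S (fun z : M => f (fs z)) := Comp.comp hf (by fun_prop)
    fun_prop
  have h2 := h1.comprehension hS
  unfold InS
  convert h2 using 1
  ext z
  constructor
  · rintro ⟨x, rfl⟩
    show pr x (f x) = _
    rw [fs_pr]
  · intro h
    exact ⟨fs z, h⟩

theorem InS.comp {S : Set (Set M)} [IndS S] {f : M → M} (hf : InS S f) : Comp S f := by
  have h0 : Comp S (fun z : M × M => pr z.1 z.2 ∈ {z | ∃ x, z = pr x (f x)}) :=
    Comp.comp (f := fun z => z ∈ {z | ∃ x, z = pr x (f x)}) (Comp.oracle hf) (by fun_prop)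
  have h1 : Comp S (fun x => mu (fun y => pr x y ∈ {z | ∃ x, z = pr x (f x)})) :=
    Comp.mu (P := fun x y => pr x y ∈ {z | ∃ x, z = pr x (f x)}) h0
      (fun x => ⟨f x, x, rfl⟩)
  refine h1.congr (fun x => ?_)
  apply mu_eq
  · exact ⟨x, rfl⟩
  · rintro y hy ⟨x', h⟩
    obtain ⟨h2, h3⟩ := pr_inj h
    subst h2
    exact absurd h3 hy.ne

theorem limLE_const {a b : QF M} : LimLE (fun _ => a) (fun _ => b) ↔ a ≤ b := by
  constructor
  · intro h
    by_contra h2
    rw [not_le] at h2
    obtain ⟨n, hn⟩ := exists_hf_lt (sub_pos.2 h2)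
    obtain ⟨N, hN⟩ := h n
    have := hN N le_rfl
    linarith
  · intro h n
    refine ⟨0, fun k _ => ?_⟩
    have := hf_pos n
    linarith

theorem limLT_const {a b : QF M} : LimLT (fun _ => a) (fun _ => b) ↔ a < b := by
  constructor
  · rintro ⟨n, N, h⟩
    have h1 := h N le_rfl
    have := hf_pos n
    linarith
  · intro h
    obtain ⟨n, hn⟩ := exists_hf_lt (sub_pos.2 h)
    exact ⟨n, 0, fun k _ => by linarith⟩

/-! ### The distance -/

/-- The first position where the digits of `a` and `b` differ. -/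
noncomputable def vv (a b : M) : M := mu (fun n => dg a n ≠ dg b n ∨ a = b)

/-- The distance. -/
noncomputable def dd (a b : M) : QF M := iq (chi (a ≠ b)) * hf (vv a b)

theorem vv_ex (a b : M) : ∃ n, dg a n ≠ dg b n ∨ a = b := by
  by_cases h : a = b
  · exact ⟨0, Or.inr h⟩
  · obtain ⟨n, hn⟩ := exists_dg_ne h
    exact ⟨n, Or.inl hn⟩

section
variable {S : Set (Set M)} [IndS S] {α : Type v} [Cod M α]

@[fun_prop] protected theorem Comp.vv {f g : α → M} (hf : Comp S f) (hg : Comp S g) :
    Comp S (fun x => vv (f x) (g x)) := by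
  unfold h915.vv
  exact Comp.mu (P := fun x n => dg (f x) n ≠ dg (g x) n ∨ f x = g x) (by fun_prop)
    (fun x => vv_ex _ _)

@[fun_prop] protected theorem Comp.dd {f g : α → M} (hf : Comp S f) (hg : Comp S g) :
    Comp S (fun x => dd (f x) (g x)) := by
  unfold h915.dd
  fun_prop

end

theorem vv_spec {a b : M} (h : a ≠ b) : dg a (vv a b) ≠ dg b (vv a b) ∧ cg (vv a b) a b := by
  have hc : Comp (∅ : Set (Set M)) (fun n => dg a n ≠ dg b n ∨ a = b) := by fun_prop
  have h1 : dg a (vv a b) ≠ dg b (vv a b) ∨ a = b := mu_spec hc (vv_ex a b)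
  refine ⟨h1.resolve_right h, fun i hi => ?_⟩
  by_contra h2
  have h3 : vv a b ≤ i := mu_min hc (Or.inl h2)
  exact absurd hi (not_lt.2 h3)

theorem vv_le {a b n : M} (hn : dg a n ≠ dg b n) : vv a b ≤ n := by
  have hc : Comp (∅ : Set (Set M)) (fun n => dg a n ≠ dg b n ∨ a = b) := by fun_prop
  exact mu_min hc (Or.inl hn)

theorem le_vv {a b n : M} (h : a ≠ b) (hn : cg n a b) : n ≤ vv a b := by
  by_contra h1
  exact (vv_spec h).1 (hn _ (not_le.1 h1))

theorem dd_self (a : M) : dd a a = 0 := by
  unfold dd; rw [chi_false (by simp)]; simp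

theorem dd_ne {a b : M} (h : a ≠ b) : dd a b = hf (vv a b) := by
  unfold dd; rw [chi_true h]; simp

theorem dd_symm (a b : M) : dd a b = dd b a := by
  by_cases h : a = b
  · rw [h]
  · rw [dd_ne h, dd_ne (Ne.symm h)]
    congr 1
    exact le_antisymm (vv_le (vv_spec (Ne.symm h)).1.symm) (vv_le (vv_spec h).1.symm)

theorem dd_nonneg (a b : M) : 0 ≤ dd a b := by
  by_cases h : a = b
  · rw [h, dd_self]
  · rw [dd_ne h]; exact (hf_pos _).le

theorem dd_lt_iff {a b : M} {r : QF M} (hr : 0 < r) : dd a b < r ↔ cg (nr r) a b := by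
  constructor
  · intro h
    by_cases hab : a = b
    · rw [hab]; exact cg_refl _ _
    · rw [dd_ne hab] at h
      exact cg_mono (nr_le h) (vv_spec hab).2
  · intro h
    by_cases hab : a = b
    · rw [hab, dd_self]; exact hr
    · rw [dd_ne hab]
      exact lt_of_le_of_lt (hf_le (le_vv hab h)) (nr_spec hr)

theorem dd_le_iff {a b n : M} : dd a b ≤ hf n ↔ cg n a b := by
  constructor
  · intro h
    by_cases hab : a = b
    · rw [hab]; exact cg_refl _ _
    · rw [dd_ne hab, hf_le_iff] at h
      exact cg_mono h (vv_spec hab).2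
  · intro h
    by_cases hab : a = b
    · rw [hab, dd_self]; exact (hf_pos n).le
    · rw [dd_ne hab]
      exact hf_le (le_vv hab h)

theorem dd_triangle (a b c : M) : dd a c ≤ dd a b + dd b c := by
  by_cases hac : a = c
  · subst hac
    rw [dd_self]
    exact add_nonneg (dd_nonneg _ _) (dd_nonneg _ _)
  · rw [dd_ne hac]
    obtain ⟨h1, _⟩ := vv_spec hac
    by_cases h2 : dg a (vv a c) = dg b (vv a c)
    · have h3 : dg b (vv a c) ≠ dg c (vv a c) := h2 ▸ h1
      have h4 : b ≠ c := fun h => h3 (by rw [h])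
      have h5 := hf_le (vv_le h3)
      rw [← dd_ne h4] at h5
      have := dd_nonneg a b
      linarith
    · have h4 : a ≠ b := fun h => h2 (by rw [← h])
      have h5 := hf_le (vv_le h2)
      rw [← dd_ne h4] at h5
      have := dd_nonneg b c
      linarith

theorem nr_hf (n : M) : nr (hf n) = n + 1 := by
  apply le_antisymm
  · exact nr_le (hf_lt (lt_add_one n))
  · exact succ_le.2 (hf_lt_iff.1 (nr_spec (hf_pos n)))

theorem nr_two_hf (n : M) : nr (2 * hf n) = n := by
  have h1 := hf_pos n
  have h2 : 0 < 2 * hf n := by linarith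
  apply le_antisymm
  · exact nr_le (by linarith)
  · by_contra h3
    have h4 := hf_le (succ_le.2 (not_le.1 h3))
    have h5 := hf_succ (nr (2 * hf n))
    have h6 := nr_spec h2
    linarith

/-! ### The space -/

/-- The space of base four expansions. -/
noncomputable def X4 (M : Type u) [CommSemiring M] [LinearOrder M] [IsStrictOrderedRing M]
    [CanonicallyOrderedAdd M] [Disc M] [IS1 M] : Space M :=
  ⟨Set.univ, fun z => qc (dd (fs z) (fs (sn z)))⟩

theorem X4_da (a b : M) : (X4 M).da a b = fun _ => dd a b := by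
  funext k
  show qv (qc (dd (fs (pr a (pr b k))) (fs (sn (pr a (pr b k)))))) = _
  rw [qv_qc, fs_pr, sn_pr, fs_pr]

theorem X4_dp (x y : M → M) : (X4 M).dp x y = fun k => dd (x k) (y k) := by
  funext k
  show (X4 M).da (x k) (y k) k = _
  rw [X4_da]

theorem mem_univ' {S : Set (Set M)} [IndS S] (hS : DeltaOneComprehension S) :
    (Set.univ : Set M) ∈ S := by
  have h := Comp.comprehension (P := fun _ : M => True) hS (by fun_prop)
  exact h

theorem X4_isSpace {S : Set (Set M)} [IndS S] (hS : DeltaOneComprehension S) :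
    IsSpace S (X4 M) where
  mem := mem_univ' hS
  nonempty := ⟨0, trivial⟩
  dist_mem := by
    apply Comp.inS hS
    show Comp S (fun z => qc (dd (fs z) (fs (sn z))))
    fun_prop
  dist_real := fun a _ b _ => by
    constructor
    · apply Comp.inS hS
      show Comp S (fun k => qc (dd (fs (pr a (pr b k))) (fs (sn (pr a (pr b k))))))
      fun_prop
    · intro k i
      have h1 : ∀ k, qv ((X4 M).D (pr a (pr b k))) = dd a b := fun k => congrFun (X4_da a b) k
      rw [h1, h1, sub_self, abs_zero]
      exact (hf_pos k).le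
  dist_self := fun a _ => by rw [X4_da, limLE_const, dd_self]
  dist_nonneg := fun a _ b _ => by rw [X4_da, limLE_const]; exact dd_nonneg a b
  dist_symm := fun a _ b _ => by rw [X4_da, X4_da, limLE_const, dd_symm]
  dist_triangle := fun a _ b _ c _ => by
    simp only [X4_da]
    exact limLE_const.2 (dd_triangle a b c)

/-- Coherent sequences. -/
def Coh (x : M → M) : Prop := ∀ i j, i ≤ j → cg i (x i) (x j)

theorem coh_const (a : M) : Coh (fun _ : M => a) := fun _ _ _ => cg_refl _ _

theorem X4_isPoint {S : Set (Set M)} {x : M → M} : IsPoint S (X4 M) x ↔ InS S x ∧ Coh x := by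
  unfold IsPoint
  simp only [X4_da, limLE_const, dd_le_iff]
  constructor
  · rintro ⟨h1, _, h2⟩
    refine ⟨h1, fun i j hij => ?_⟩
    rcases hij.lt_or_eq with h | h
    · exact h2 i j h
    · subst h; exact cg_refl _ _
  · rintro ⟨h1, h2⟩
    exact ⟨h1, fun _ => trivial, fun i j hij => h2 i j hij.le⟩

theorem X4_lt {x y : M → M} (hx : Coh x) (hy : Coh y) {r : QF M} (hr : 0 < r) :
    LimLT ((X4 M).dp x y) (fun _ => r) ↔ cg (nr r) (x (nr r)) (y (nr r)) := by
  rw [X4_dp]
  constructor
  · rintro ⟨n, N, h⟩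
    have h1 := h (max N (nr r)) (le_max_left _ _)
    have h2 : dd (x (max N (nr r))) (y (max N (nr r))) < r := by
      have := hf_pos n
      linarith
    have h3 := (dd_lt_iff hr).1 h2
    exact cg_trans (hx _ _ (le_max_right N _)) (cg_trans h3 (cg_symm (hy _ _ (le_max_right N _))))
  · intro h
    obtain ⟨n, hn⟩ := exists_hf_lt (sub_pos.2 (nr_spec hr))
    refine ⟨n, nr r, fun k hk => ?_⟩
    have h1 : cg (nr r) (x k) (y k) :=
      cg_trans (cg_symm (hx _ _ hk)) (cg_trans h (hy _ _ hk))
    have h2 := dd_le_iff.2 h1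
    linarith

theorem X4_isCompact {S : Set (Set M)} [IndS S] (hS : DeltaOneComprehension S) :
    IsCompactCode S (X4 M) := by
  refine ⟨fun j => p4 (j + 1), fun z => fs (sn z), Comp.inS hS (by fun_prop),
    Comp.inS hS (by fun_prop), fun j i _ => ?_, fun z hz j => ?_⟩
  · rw [X4_isPoint]
    refine ⟨?_, ?_⟩
    · apply Comp.inS hS
      fun_prop
    · simp only [sn_pr, fs_pr]
      exact coh_const i
  · rw [X4_isPoint] at hz
    refine ⟨rm (z (j + 1)) (p4 (j + 1)), (rm_lt (p4_pos _)).le, ?_⟩
    simp only [sn_pr, fs_pr]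
    rw [X4_lt (coh_const _) hz.2 (hf_pos j), nr_hf]
    exact fun i hi => dg_rm hi

end Run7.h915
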