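import Pool.Agent.Run7.h915.RatF
import Pool.Agent.Run7.h915.STDefs

/-!
# The notions of `STDefs` for the concrete field of fractions `QF M`

The number `z = (a, (b, c))` codes the rational `qv z = (a - b) / (c + 1)`, every rational has a
code, and `hf n` is `2 ^ (-n)`.
-/

namespace Run7.h915

universe u

variable {M : Type u} [CommSemiring M] [LinearOrder M] [IsStrictOrderedRing M]
  [CanonicallyOrderedAdd M]

/-- `f` is a function of the structure `(M, S)`: its graph is one of the sets of `S`. Functions
of several variables are used through the pairing function `pr`. -/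
def InS (S : Set (Set M)) (f : M → M) : Prop := {z | ∃ x, z = pr x (f x)} ∈ S

/-- `lim x ≤ lim y`, for sequences `x`, `y` of rationals of `M`. -/
def LimLE (x y : M → QF M) : Prop := ∀ n : M, ∃ N : M, ∀ k : M, N ≤ k → x k ≤ y k + hf n

/-- `lim x < lim y`, for sequences `x`, `y` of rationals of `M`. -/
def LimLT (x y : M → QF M) : Prop := ∃ n N : M, ∀ k : M, N ≤ k → x k + hf n ≤ y k

/-- `x` is (a code for) a real number of `(M, S)`: a sequence of codes of rationals with
`|q_k - q_{k+i}| ≤ 2^{-k}`. -/
def IsReal (S : Set (Set M)) (x : M → M) : Prop :=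
  InS S x ∧ ∀ k i : M, |qv (x k) - qv (x (k + i))| ≤ hf k

/-- The sequence of rationals which is the real number `d(a, b)`, for `a, b ∈ A`. -/
noncomputable def Space.da (X : Space M) (a b : M) : M → QF M :=
  fun k => qv (X.D (pr a (pr b k)))

/-- `X` is a code in `(M, S)` for a complete separable metric space. -/
structure IsSpace (S : Set (Set M)) (X : Space M) : Prop where
  mem : X.A ∈ S
  nonempty : X.A.Nonempty
  dist_mem : InS S X.D
  dist_real : ∀ a ∈ X.A, ∀ b ∈ X.A, IsReal S (fun k => X.D (pr a (pr b k)))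
  dist_self : ∀ a ∈ X.A, LimLE (X.da a a) (fun _ => 0)
  dist_nonneg : ∀ a ∈ X.A, ∀ b ∈ X.A, LimLE (fun _ => 0) (X.da a b)
  dist_symm : ∀ a ∈ X.A, ∀ b ∈ X.A, LimLE (X.da a b) (X.da b a)
  dist_triangle : ∀ a ∈ X.A, ∀ b ∈ X.A, ∀ c ∈ X.A,
    LimLE (X.da a c) (fun k => X.da a b k + X.da b c k)

/-- `x` is a point of the space coded by `X`: a sequence of elements of `A` with
`d(x_i, x_j) ≤ 2^{-i}` for `i < j`. -/
def IsPoint (S : Set (Set M)) (X : Space M) (x : M → M) : Prop :=
  InS S x ∧ (∀ k, x k ∈ X.A) ∧ ∀ i j : M, i < j → LimLE (X.da (x i) (x j)) (fun _ => hf i)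

/-- The sequence of rationals whose limit is the distance `d(x, y)` of two points: its `k`-th
term is the `k`-th term of the real `d(x_k, y_k)`. The element `a ∈ A` is identified with the
point `fun _ => a`. -/
noncomputable def Space.dp (X : Space M) (x y : M → M) : M → QF M :=
  fun k => X.da (x k) (y k) k

/-- The space coded by `X` is compact: there are a function `N` and a double sequence of points
`x_{j,i} = (P (j, (i, k)) : k)`, for `i ≤ N j`, such that every point `z` has distance `< 2^{-j}`
from one of the points `x_{j,i}` with `i ≤ N j`. -/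
def IsCompactCode (S : Set (Set M)) (X : Space M) : Prop :=
  ∃ N P : M → M, InS S N ∧ InS S P ∧
    (∀ j i : M, i ≤ N j → IsPoint S X (fun k => P (pr j (pr i k)))) ∧
    ∀ z, IsPoint S X z → ∀ j : M, ∃ i : M, i ≤ N j ∧
      LimLT (X.dp (fun k => P (pr j (pr i k))) z) (fun _ => hf j)

/-- `U` is a code for an open set: a set of triples `(n, (a, r))` with `a ∈ A` and `r` the code
of a positive rational. -/
def IsOpenCode (S : Set (Set M)) (X : Space M) (U : Set M) : Prop :=
  U ∈ S ∧ ∀ u ∈ U, ∃ n a r : M, u = pr n (pr a r) ∧ a ∈ X.A ∧ 0 < qv r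

/-- The point `x` belongs to the open set coded by `U`: `d(x, a) < r` for some `(n, (a, r))` in
`U`. -/
def InOpen (X : Space M) (U : Set M) (x : M → M) : Prop :=
  ∃ n a r : M, pr n (pr a r) ∈ U ∧ LimLT (X.dp x (fun _ => a)) (fun _ => qv r)

/-- `P` codes a sequence of points, the `i`-th one being `(P (i, k) : k)`. -/
def IsPointSeq (S : Set (Set M)) (X : Space M) (P : M → M) : Prop :=
  InS S P ∧ ∀ i : M, IsPoint S X (fun k => P (pr i k))

/-- The point `x` belongs to the closure of the sequence of points coded by `P`. -/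
def InClosure (X : Space M) (P : M → M) (x : M → M) : Prop :=
  ∀ n : M, ∃ i : M, LimLT (X.dp x (fun k => P (pr i k))) (fun _ => hf n)

/-- `(a, r) Φ (b, s)`: some quintuple `(n, (a, (r, (b, s))))` belongs to `Φ`. -/
def Rel (Φ : Set M) (a r b s : M) : Prop := ∃ n : M, pr n (pr a (pr r (pr b s))) ∈ Φ

/-- `Φ` is a code for a continuous partial function from the space coded by `X` to the real
line. -/
structure IsFunCode (S : Set (Set M)) (X : Space M) (Φ : Set M) : Prop where
  mem : Φ ∈ S
  shape : ∀ u ∈ Φ, ∃ n a r b s : M, u = pr n (pr a (pr r (pr b s))) ∧ a ∈ X.A ∧ 0 < qv r ∧ 0 < qv s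
  consistent : ∀ a r b s b' s' : M, Rel Φ a r b s → Rel Φ a r b' s' →
    |qv b - qv b'| ≤ qv s + qv s'
  shrink : ∀ a r b s a' r' : M, Rel Φ a r b s → a' ∈ X.A → 0 < qv r' →
    LimLT (fun k => X.da a a' k + qv r') (fun _ => qv r) → Rel Φ a' r' b s
  enlarge : ∀ a r b s b' s' : M, Rel Φ a r b s → |qv b - qv b'| + qv s < qv s' → Rel Φ a r b' s'

/-- The point `x` belongs to the domain of the continuous partial function coded by `Φ`. -/
def InDom (X : Space M) (Φ : Set M) (x : M → M) : Prop :=
  ∀ n : M, ∃ a r b s : M, Rel Φ a r b s ∧ LimLT (X.dp x (fun _ => a)) (fun _ => qv r) ∧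
    qv s < hf n

/-- The real number `y` is the value at the point `x` of the continuous partial function coded
by `Φ`: `|y - b| ≤ s` whenever `(a, r) Φ (b, s)` and `d(x, a) < r`. (This is used only for points
`x` of the domain, where it determines the real number `y`.) -/
def IsVal (S : Set (Set M)) (X : Space M) (Φ : Set M) (x y : M → M) : Prop :=
  IsReal S y ∧ ∀ a r b s : M, Rel Φ a r b s → LimLT (X.dp x (fun _ => a)) (fun _ => qv r) →
    LimLE (fun k => |qv (y k) - qv b|) (fun _ => qv s)

/-- `Φ` codes an element of `C(K)`: a continuous real valued function which is defined at all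
points of `K` and has a modulus of uniform continuity on `K`. Here `K` is a class of points. -/
structure InC (S : Set (Set M)) (X : Space M) (K : (M → M) → Prop) (Φ : Set M) : Prop where
  code : IsFunCode S X Φ
  dom : ∀ x, IsPoint S X x → K x → InDom X Φ x
  modulus : ∃ h : M → M, InS S h ∧ ∀ n : M, ∀ x x', IsPoint S X x → K x → IsPoint S X x' → K x' →
    LimLT (X.dp x x') (fun _ => hf (h n)) → ∀ y y', IsVal S X Φ x y → IsVal S X Φ x' y' →
      LimLT (fun k => |qv (y k) - qv (y' k)|) (fun _ => hf n)

/-- The Strong Tietze Theorem for the class of points `K` of the space coded by `X`: every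
`φ ∈ C(K)` has an extension in `C(X)`. -/
def StrongTietze (S : Set (Set M)) (X : Space M) (K : (M → M) → Prop) : Prop :=
  ∀ Φ, InC S X K Φ → ∃ Φ', InC S X (fun _ => True) Φ' ∧
    ∀ x, IsPoint S X x → K x → ∀ y, IsVal S X Φ x y → IsVal S X Φ' x y

/-- The Strong Tietze Theorem for all closed sets in compact metric spaces. -/
def STTcl (S : Set (Set M)) : Prop :=
  ∀ X : Space M, IsSpace S X → IsCompactCode S X →
    ∀ U, IsOpenCode S X U → StrongTietze S X (fun x => ¬ InOpen X U x)

/-- The Strong Tietze Theorem for all sets in compact metric spaces which are both closed and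
separably closed. -/
def STcs (S : Set (Set M)) : Prop :=
  ∀ X : Space M, IsSpace S X → IsCompactCode S X →
    ∀ U, IsOpenCode S X U → ∀ P, IsPointSeq S X P →
      (∀ x, IsPoint S X x → (¬ InOpen X U x ↔ InClosure X P x)) →
        StrongTietze S X (fun x => ¬ InOpen X U x)

theorem STTcl.stcs {S : Set (Set M)} (h : STTcl S) : STcs S :=
  fun X hX hc U hU _ _ _ => h X hX hc U hU

end Run7.h915
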