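import Pool.Agent.Run7.h915.TSpace

/-!
# The notions of `STDefs` do not depend on the copy of the field of rational numbers
-/

set_option linter.unusedSectionVars false

namespace Run7.h915

universe u v

variable {M : Type u} [CommSemiring M] [LinearOrder M] [IsStrictOrderedRing M]
  [CanonicallyOrderedAdd M]

/-- The homomorphism from the ring of differences induced by a homomorphism from `M`. -/
def zlift {F : Type v} [Field F] (ι : M →+* F) : ZR M →+* F where
  toFun := Quotient.lift (fun p : M × M => ι p.1 - ι p.2) (by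
    rintro ⟨a, b⟩ ⟨c, d⟩ h
    change a + d = c + b at h
    show ι a - ι b = ι c - ι d
    have := congrArg ι h
    rw [map_add, map_add] at this
    linear_combination this)
  map_one' := by
    show ι 1 - ι 0 = 1
    rw [map_one, map_zero, sub_zero]
  map_zero' := by
    show ι 0 - ι 0 = 0
    rw [sub_self]
  map_add' := by
    refine ZR.ind' fun a b => ZR.ind' fun c d => ?_
    show ι (a + c) - ι (b + d) = (ι a - ι b) + (ι c - ι d)
    rw [map_add, map_add]; ring
  map_mul' := by
    refine ZR.ind' fun a b => ZR.ind' fun c d => ?_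
    show ι (a * c + b * d) - ι (a * d + b * c) = (ι a - ι b) * (ι c - ι d)
    rw [map_add, map_add, map_mul, map_mul, map_mul, map_mul]; ring

theorem zlift_mk {F : Type v} [Field F] (ι : M →+* F) (a b : M) :
    zlift ι (ZR.mk a b) = ι a - ι b := rfl

theorem zr_rep (x : ZR M) : ∃ a b, x = ZR.mk a b :=
  ZR.ind' (p := fun x => ∃ a b, x = ZR.mk a b) (fun a b => ⟨a, b, rfl⟩) x

theorem qf_zq_iq (a : M) : zq (ZR.mk a 0) = iq a := rfl

/-- The homomorphism of fields induced by an embedding of `M`. -/
theorem emb_exists {F : Type v} [Field F] [LinearOrder F] [IsStrictOrderedRing F] (ι : M →+* F)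
    (mono : ∀ a b : M, a < b → ι a < ι b) :
    ∃ e : QF M →+* F, (∀ a, e (iq a) = ι a) ∧ ∀ x y, x < y → e x < e y := by
  have hpos : ∀ x : ZR M, 0 < x → 0 < zlift ι x := by
    intro x hx
    obtain ⟨a, b, rfl⟩ := zr_rep x
    rw [ZR.zero_def, ZR.mk_lt, zero_add, add_zero] at hx
    rw [zlift_mk]
    exact sub_pos.2 (mono _ _ hx)
  have hinj : Function.Injective (zlift ι) := by
    rw [injective_iff_map_eq_zero]
    intro x hx
    rcases lt_trichotomy x 0 with h | h | h
    · have := hpos (-x) (neg_pos.2 h)
      rw [map_neg, hx, neg_zero] at this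
      exact absurd this (lt_irrefl _)
    · exact h
    · have := hpos x h
      rw [hx] at this
      exact absurd this (lt_irrefl _)
  let e : QF M →+* F := IsFractionRing.lift (A := ZR M) (K := FractionRing (ZR M)) hinj
  have he : ∀ x, e (zq x) = zlift ι x := fun x =>
    IsFractionRing.lift_algebraMap (A := ZR M) (K := FractionRing (ZR M)) hinj x
  refine ⟨e, fun a => ?_, fun x y hxy => ?_⟩
  · rw [← qf_zq_iq, he, zlift_mk, map_zero, sub_zero]
  · rw [← sub_pos, ← map_sub]
    rw [← sub_pos] at hxy
    obtain ⟨a, b, hb, hab⟩ := qf_rep (y - x)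
    rw [hab] at hxy ⊢
    have ha : 0 < a := by
      by_contra h
      have h1 := zq_mono (not_lt.1 h)
      rw [map_zero] at h1
      have h2 := zq_lt hb
      rw [map_zero] at h2
      exact absurd hxy (not_lt.2 (div_nonpos_of_nonpos_of_nonneg h1 h2.le))
    rw [map_div₀, he, he]
    exact div_pos (hpos a ha) (hpos b hb)

section
variable [Disc M] [IS1 M] {S : Set (Set M)} [IndS S] {F : Type v} [Field F] [LinearOrder F]
  [IsStrictOrderedRing F] (R : Rationals S F)

/-- The embedding of the concrete field of rational numbers. -/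
noncomputable def em : QF M →+* F := (emb_exists R.ι R.mono).choose

theorem em_iq (a : M) : em R (iq a) = R.ι a := (emb_exists R.ι R.mono).choose_spec.1 a

theorem em_mono {x y : QF M} (h : x < y) : em R x < em R y :=
  (emb_exists R.ι R.mono).choose_spec.2 x y h

theorem em_lt {x y : QF M} : em R x < em R y ↔ x < y := by
  constructor
  · intro h
    rcases lt_trichotomy x y with h1 | h1 | h1
    · exact h1
    · rw [h1] at h; exact absurd h (lt_irrefl _)
    · exact absurd h (em_mono R h1).not_gt
  · exact em_mono R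

theorem em_le {x y : QF M} : em R x ≤ em R y ↔ x ≤ y := by
  rw [← not_lt, ← not_lt, em_lt]

theorem em_abs (x : QF M) : em R |x| = |em R x| := by
  rcases le_total 0 x with h | h
  · rw [abs_of_nonneg h, abs_of_nonneg (by rw [← map_zero (em R), em_le]; exact h)]
  · rw [abs_of_nonpos h, abs_of_nonpos (by rw [← map_zero (em R), em_le]; exact h), map_neg]

theorem two_eq (n : M) : R.two n = exp2 n := by
  have h1 : Comp S R.two := InS.comp R.two_mem
  refine Comp.induct (S := S) (by fun_prop) ?_ ?_ n
  · rw [R.two_zero, exp2_zero]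
  · intro x hx
    rw [R.two_succ, exp2_succ, hx]

theorem val_eq (z : M) : R.val z = em R (qv z) := by
  unfold qv
  rw [map_div₀, map_sub, map_add, map_one, em_iq, em_iq, em_iq]
  rfl

theorem half_eq (n : M) : R.half n = em R (hf n) := by
  unfold Rationals.half hf
  rw [map_div₀, map_one, em_iq, two_eq, one_div]

theorem tr_limLE {x y : M → QF M} :
    R.LimLE (fun k => em R (x k)) (fun k => em R (y k)) ↔ LimLE x y := by
  unfold Rationals.LimLE LimLE
  simp only [half_eq, ← map_add, em_le]

theorem tr_limLT {x y : M → QF M} :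
    R.LimLT (fun k => em R (x k)) (fun k => em R (y k)) ↔ LimLT x y := by
  unfold Rationals.LimLT LimLT
  simp only [half_eq, ← map_add, em_le]

theorem tr_isReal {x : M → M} : R.IsReal x ↔ IsReal S x := by
  unfold Rationals.IsReal IsReal
  simp only [half_eq, val_eq, ← map_sub, ← em_abs, em_le]
  exact Iff.rfl

theorem tr_dist (X : Space M) (a b : M) : R.dist X a b = fun k => em R (X.da a b k) := by
  funext k
  exact val_eq R _

theorem tr_pdist (X : Space M) (x y : M → M) : R.pdist X x y = fun k => em R (X.dp x y k) := by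
  funext k
  exact val_eq R _

theorem tr_zero : (fun _ : M => (0 : F)) = fun _ => em R 0 := by rw [map_zero]

theorem tr_isSpace {X : Space M} : R.IsSpace X ↔ IsSpace S X := by
  constructor
  · intro h
    exact
      { mem := h.mem
        nonempty := h.nonempty
        dist_mem := h.dist_mem
        dist_real := fun a ha b hb => (tr_isReal R).1 (h.dist_real a ha b hb)
        dist_self := fun a ha => by
          have := h.dist_self a ha
          rwa [tr_dist, tr_zero R, tr_limLE] at this
        dist_nonneg := fun a ha b hb => by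
          have := h.dist_nonneg a ha b hb
          rwa [tr_dist, tr_zero R, tr_limLE] at this
        dist_symm := fun a ha b hb => by
          have := h.dist_symm a ha b hb
          rwa [tr_dist, tr_dist, tr_limLE] at this
        dist_triangle := fun a ha b hb c hc => by
          have := h.dist_triangle a ha b hb c hc
          simp only [tr_dist, ← map_add] at this
          exact (tr_limLE R).1 this }
  · intro h
    exact
      { mem := h.mem
        nonempty := h.nonempty
        dist_mem := h.dist_mem
        dist_real := fun a ha b hb => (tr_isReal R).2 (h.dist_real a ha b hb)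
        dist_self := fun a ha => by
          rw [tr_dist, tr_zero R, tr_limLE]
          exact h.dist_self a ha
        dist_nonneg := fun a ha b hb => by
          rw [tr_dist, tr_zero R, tr_limLE]
          exact h.dist_nonneg a ha b hb
        dist_symm := fun a ha b hb => by
          rw [tr_dist, tr_dist, tr_limLE]
          exact h.dist_symm a ha b hb
        dist_triangle := fun a ha b hb c hc => by
          simp only [tr_dist, ← map_add]
          exact (tr_limLE R).2 (h.dist_triangle a ha b hb c hc) }

theorem tr_isPoint {X : Space M} {x : M → M} : R.IsPoint X x ↔ IsPoint S X x := by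
  unfold Rationals.IsPoint IsPoint
  simp only [tr_dist, half_eq, tr_limLE]
  exact Iff.rfl

theorem tr_isCompact {X : Space M} : R.IsCompact X ↔ IsCompactCode S X := by
  unfold Rationals.IsCompact IsCompactCode
  simp only [tr_isPoint, tr_pdist, half_eq, tr_limLT]
  exact Iff.rfl

theorem tr_isOpenCode {X : Space M} {U : Set M} : R.IsOpenCode X U ↔ IsOpenCode S X U := by
  unfold Rationals.IsOpenCode IsOpenCode
  simp only [val_eq, ← map_zero (em R), em_lt]
  exact Iff.rfl

theorem tr_inOpen {X : Space M} {U : Set M} {x : M → M} : R.InOpen X U x ↔ InOpen X U x := by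
  unfold Rationals.InOpen InOpen
  simp only [tr_pdist, val_eq, tr_limLT]
  exact Iff.rfl

theorem tr_isPointSeq {X : Space M} {P : M → M} : R.IsPointSeq X P ↔ IsPointSeq S X P := by
  unfold Rationals.IsPointSeq IsPointSeq
  simp only [tr_isPoint]
  exact Iff.rfl

theorem tr_inClosure {X : Space M} {P x : M → M} : R.InClosure X P x ↔ InClosure X P x := by
  unfold Rationals.InClosure InClosure
  simp only [tr_pdist, half_eq, tr_limLT]
  exact Iff.rfl

theorem tr_isFunCode {X : Space M} {Φ : Set M} : R.IsFunCode X Φ ↔ IsFunCode S X Φ := by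
  have e1 : ∀ a a' r' r : M, R.LimLT (fun k => R.dist X a a' k + R.val r') (fun _ => R.val r) ↔
      LimLT (fun k => X.da a a' k + qv r') (fun _ => qv r) := by
    intro a a' r' r
    simp only [tr_dist, val_eq, ← map_add]
    exact tr_limLT R
  have e2 : ∀ b b' s s' : M, |R.val b - R.val b'| ≤ R.val s + R.val s' ↔
      |qv b - qv b'| ≤ qv s + qv s' := by
    intro b b' s s'
    simp only [val_eq, ← map_add, ← map_sub, ← em_abs, em_le]
  have e3 : ∀ b b' s s' : M, |R.val b - R.val b'| + R.val s < R.val s' ↔
      |qv b - qv b'| + qv s < qv s' := by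
    intro b b' s s'
    simp only [val_eq, ← map_add, ← map_sub, ← em_abs, em_lt]
  have e4 : ∀ r : M, 0 < R.val r ↔ 0 < qv r := by
    intro r
    rw [val_eq, ← map_zero (em R), em_lt]
  constructor
  · intro h
    refine ⟨h.mem, ?_, ?_, ?_, ?_⟩
    · intro u hu
      obtain ⟨n, a, r, b, s, h1, h2, h3, h4⟩ := h.shape u hu
      exact ⟨n, a, r, b, s, h1, h2, (e4 _).1 h3, (e4 _).1 h4⟩
    · intro a r b s b' s' h1 h2
      exact (e2 _ _ _ _).1 (h.consistent a r b s b' s' h1 h2)
    · intro a r b s a' r' h1 h2 h3 h4
      exact h.shrink a r b s a' r' h1 h2 ((e4 _).2 h3) ((e1 _ _ _ _).2 h4)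
    · intro a r b s b' s' h1 h2
      exact h.enlarge a r b s b' s' h1 ((e3 _ _ _ _).2 h2)
  · intro h
    refine ⟨h.mem, ?_, ?_, ?_, ?_⟩
    · intro u hu
      obtain ⟨n, a, r, b, s, h1, h2, h3, h4⟩ := h.shape u hu
      exact ⟨n, a, r, b, s, h1, h2, (e4 _).2 h3, (e4 _).2 h4⟩
    · intro a r b s b' s' h1 h2
      exact (e2 _ _ _ _).2 (h.consistent a r b s b' s' h1 h2)
    · intro a r b s a' r' h1 h2 h3 h4
      exact h.shrink a r b s a' r' h1 h2 ((e4 _).1 h3) ((e1 _ _ _ _).1 h4)
    · intro a r b s b' s' h1 h2
      exact h.enlarge a r b s b' s' h1 ((e3 _ _ _ _).1 h2)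

theorem tr_inDom {X : Space M} {Φ : Set M} {x : M → M} : R.InDom X Φ x ↔ InDom X Φ x := by
  unfold Rationals.InDom InDom
  simp only [tr_pdist, val_eq, half_eq, tr_limLT, em_lt]
  exact Iff.rfl

theorem tr_isVal {X : Space M} {Φ : Set M} {x y : M → M} : R.IsVal X Φ x y ↔ IsVal S X Φ x y := by
  unfold Rationals.IsVal IsVal
  simp only [tr_isReal, tr_pdist, val_eq, tr_limLT, ← map_sub, ← em_abs, tr_limLE]
  exact Iff.rfl

theorem tr_inC {X : Space M} {K : (M → M) → Prop} {Φ : Set M} : R.InC X K Φ ↔ InC S X K Φ := by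
  have e1 : ∀ y y' : M → M, (fun k => |R.val (y k) - R.val (y' k)|) =
      fun k => em R |qv (y k) - qv (y' k)| := by
    intro y y'
    funext k
    rw [val_eq, val_eq, em_abs, map_sub]
  constructor
  · intro h
    refine ⟨(tr_isFunCode R).1 h.code, ?_, ?_⟩
    · intro x hx hK
      exact (tr_inDom R).1 (h.dom x ((tr_isPoint R).2 hx) hK)
    · obtain ⟨g, hg, h1⟩ := h.modulus
      refine ⟨g, hg, ?_⟩
      simp only [e1, tr_isPoint, tr_pdist, half_eq, tr_limLT, tr_isVal] at h1
      exact h1
  · intro h
    refine ⟨(tr_isFunCode R).2 h.code, ?_, ?_⟩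
    · intro x hx hK
      exact (tr_inDom R).2 (h.dom x ((tr_isPoint R).1 hx) hK)
    · obtain ⟨g, hg, h1⟩ := h.modulus
      refine ⟨g, hg, ?_⟩
      simp only [e1, tr_isPoint, tr_pdist, half_eq, tr_limLT, tr_isVal]
      exact h1

theorem tr_strongTietze {X : Space M} {K : (M → M) → Prop} :
    R.StrongTietze X K ↔ StrongTietze S X K := by
  unfold Rationals.StrongTietze StrongTietze
  simp only [tr_inC, tr_isPoint, tr_isVal]

theorem tr_sttcl : R.STTcl ↔ STTcl S := by
  unfold Rationals.STTcl STTcl
  simp only [tr_isSpace, tr_isCompact, tr_isOpenCode, tr_inOpen, tr_strongTietze]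

theorem tr_stcs : R.STcs ↔ STcs S := by
  unfold Rationals.STcs STcs
  simp only [tr_isSpace, tr_isCompact, tr_isOpenCode, tr_isPointSeq, tr_isPoint, tr_inOpen,
    tr_inClosure, tr_strongTietze]

end

/-- The field of rational numbers exists. -/
theorem rationals_exist {S : Set (Set M)} (hS : IsModelRCA0 M S) :
    ∃ R : Rationals S (QF M), R.ι = iq := by
  have : Disc M := ⟨hS.disc⟩
  have : IndS S := ⟨hS.induction⟩
  have : IS1 M := IS1.of S
  refine ⟨⟨iq, fun a b h => iq_lt.2 h, ?_, exp2, ?_, exp2_zero, exp2_succ⟩, rfl⟩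
  · intro x
    obtain ⟨z, rfl⟩ := qv_surj x
    exact ⟨_, _, _, rfl⟩
  · exact Comp.inS hS.comprehension (by fun_prop)

end Run7.h915
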