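import Pool.Agent.Run7.h915.Separate
import Pool.Agent.Run7.h915.SepWKL
import Pool.Agent.Run7.h915.Transfer

/-!
# The Strong Tietze Theorem for closed and separably closed sets implies weak Koenig's lemma
-/

namespace Run7.h915

universe u v

variable {M : Type u} [CommSemiring M] [LinearOrder M] [IsStrictOrderedRing M]
  [CanonicallyOrderedAdd M] {S : Set (Set M)} {F : Type v} [Field F] [LinearOrder F]
  [IsStrictOrderedRing F]

theorem weakKoenig_of_stcs (h : IsModelRCA0 M S) (R : Rationals S F) (hST : R.STcs) :
    WeakKoenig S := by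
  have : Disc M := ⟨h.disc⟩
  have : IndS S := ⟨h.induction⟩
  have : IS1 M := IS1.of S
  have hST' := (tr_stcs R).1 hST
  exact weakKoenig_of_separation h.comprehension
    (fun A0 A1 h0 h1 m0 m1 dj => separation h.comprehension hST' h0 h1 m0 m1 dj)

theorem weakKoenig_of_sttcl (h : IsModelRCA0 M S) (R : Rationals S F) (hST : R.STTcl) :
    WeakKoenig S :=
  weakKoenig_of_stcs h R hST.stcs

end Run7.h915
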