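import Pool.Agent.Run7.h915.Str

/-!
# The universal evaluator
-/

set_option linter.unusedSectionVars false

namespace Run7.h915

universe u v w

variable {M : Type u} [CommSemiring M] [LinearOrder M] [IsStrictOrderedRing M]
  [CanonicallyOrderedAdd M] [Disc M] [IS1 M]

/-- Membership in the finite set coded by the string `c`. -/
def inn (x c : M) : Prop := x < len c ∧ bit c x = 1

noncomputable def fact (p x y : M) : M := pr p (pr x y)

theorem Gf_eq (k x : M) : Gf k x = Ite (k = 0) (fs x + sn x) (Ite (k = 1) (fs x * sn x)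
    (Ite (k = 2) (chi (fs x < sn x)) (Ite (k = 3) (fs x) (Ite (k = 4) (sn x) x)))) := by
  unfold Gf
  by_cases h0 : k = 0
  · rw [Ite_pos h0, if_pos h0]
  rw [Ite_neg h0, if_neg h0]
  by_cases h1 : k = 1
  · rw [Ite_pos h1, if_pos h1]
  rw [Ite_neg h1, if_neg h1]
  by_cases h2 : k = 2
  · rw [Ite_pos h2, if_pos h2]
  rw [Ite_neg h2, if_neg h2]
  by_cases h3 : k = 3
  · rw [Ite_pos h3, if_pos h3]
  rw [Ite_neg h3, if_neg h3]
  by_cases h4 : k = 4
  · rw [Ite_pos h4, if_pos h4]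
  rw [Ite_neg h4, if_neg h4]

/-- The fact `f` is justified by the facts in `c`. -/
def Just (O : M → Prop) (c f : M) : Prop :=
  (fs (fs f) = 0 ∧ sn (sn f) = Gf (sn (fs f)) (fs (sn f))) ∨
  (fs (fs f) = 1 ∧ sn (sn f) = sn (fs f)) ∨
  (fs (fs f) = 2 ∧ sn (sn f) = chi (O (fs (sn f)))) ∨
  (fs (fs f) = 3 ∧ Bex c (fun z => inn (fact (sn (sn (fs f))) (fs (sn f)) z) c ∧
    inn (fact (fs (sn (fs f))) z (sn (sn f))) c)) ∨
  (fs (fs f) = 4 ∧ inn (fact (fs (sn (fs f))) (fs (sn f)) (fs (sn (sn f)))) c ∧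
    inn (fact (sn (sn (fs f))) (fs (sn f)) (sn (sn (sn f)))) c ∧
    sn (sn f) = pr (fs (sn (sn f))) (sn (sn (sn f)))) ∨
  (fs (fs f) = 5 ∧ Bex c (fun z => z ≠ 0 ∧ inn (fact (sn (fs f)) (pr (sn (sn f)) (fs (sn f))) z) c) ∧
    Ball (sn (sn f)) (fun i => inn (fact (sn (fs f)) (pr i (fs (sn f))) 0) c))

def Valid (O : M → Prop) (c : M) : Prop :=
  0 < c ∧ Ball (len c) (fun f => ¬ inn f c ∨ Just O c f)

section
variable {S : Set (Set M)} [IndS S] {α : Type v} [Cod M α]

@[fun_prop] protected theorem Comp.inn {f g : α → M} (hf : Comp S f) (hg : Comp S g) :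
    Comp S (fun x => inn (f x) (g x)) := by
  unfold h915.inn; fun_prop

@[fun_prop] protected theorem Comp.fact {f g h : α → M} (hf : Comp S f) (hg : Comp S g)
    (hh : Comp S h) : Comp S (fun x => fact (f x) (g x) (h x)) := by
  unfold h915.fact; fun_prop

@[fun_prop] protected theorem Comp.Gf {f g : α → M} (hf : Comp S f) (hg : Comp S g) :
    Comp S (fun x => Gf (f x) (g x)) := by
  simp only [Gf_eq]; fun_prop

@[fun_prop] protected theorem Comp.Just {O : α → M → Prop} {f g : α → M}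
    (hO : Comp S (fun z : α × M => O z.1 z.2)) (hf : Comp S f) (hg : Comp S g) :
    Comp S (fun x => Just (O x) (f x) (g x)) := by
  have : Comp S (fun x => O x (fs (sn (g x)))) :=
    Comp.comp (f := fun z : α × M => O z.1 z.2) (g := fun x => (x, h915.fs (h915.sn (g x)))) hO
      (by fun_prop)
  unfold h915.Just; fun_prop

@[fun_prop] protected theorem Comp.Valid {O : α → M → Prop} {f : α → M}
    (hO : Comp S (fun z : α × M => O z.1 z.2)) (hf : Comp S f) :
    Comp S (fun x => Valid (O x) (f x)) := by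
  have : Comp S (fun z : α × M => h915.Just (O z.1) (f z.1) z.2) := by
    refine Comp.Just (O := fun z : α × M => O z.1) ?_ (by fun_prop) (by fun_prop)
    exact Comp.comp (f := fun z : α × M => O z.1 z.2) (g := fun z : (α × M) × M => (z.1.1, z.2)) hO
      (by fun_prop)
  unfold h915.Valid; fun_prop

end

theorem inn_lt {x c : M} (hc : 0 < c) (h : inn x c) : x < c := lt_trans h.1 (len_lt_self hc)

theorem fact_le3 (p x y : M) : y ≤ fact p x y :=
  (le_pr_right x y).trans (le_pr_right _ _)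

theorem Just.congr {O O' : M → Prop} {c f : M} (hf : f < c) (h : ∀ x < c, O x ↔ O' x)
    (hj : Just O c f) : Just O' c f := by
  have hx : fs (sn f) < c := lt_of_le_of_lt ((fs_le _).trans (sn_le _)) hf
  unfold Just at hj ⊢
  have e : (chi (O (fs (sn f))) : M) = chi (O' (fs (sn f))) := by rw [propext (h _ hx)]
  rw [e] at hj
  exact hj

theorem Valid.congr {O O' : M → Prop} {c : M} (h : ∀ x < c, O x ↔ O' x)
    (hv : Valid O c) : Valid O' c := by
  refine ⟨hv.1, fun f hf => ?_⟩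
  rcases hv.2 f hf with h1 | h1
  · exact Or.inl h1
  · exact Or.inr (h1.congr (lt_trans hf (len_lt_self hv.1)) h)

theorem Just.mono {O : M → Prop} {c c' f : M} (hc' : 0 < c') (h : ∀ x, inn x c → inn x c')
    (hj : Just O c f) : Just O c' f := by
  rcases hj with h1 | h1 | h1 | h1 | h1 | h1
  · exact Or.inl h1
  · exact Or.inr (Or.inl h1)
  · exact Or.inr (Or.inr (Or.inl h1))
  · refine Or.inr (Or.inr (Or.inr (Or.inl ⟨h1.1, ?_⟩)))
    obtain ⟨z, _, h2, h3⟩ := h1.2
    refine ⟨z, ?_, h _ h2, h _ h3⟩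
    exact lt_of_le_of_lt (fact_le3 _ _ _) (inn_lt hc' (h _ h2))
  · exact Or.inr (Or.inr (Or.inr (Or.inr (Or.inl ⟨h1.1, h _ h1.2.1, h _ h1.2.2.1, h1.2.2.2⟩))))
  · refine Or.inr (Or.inr (Or.inr (Or.inr (Or.inr ⟨h1.1, ?_, fun i hi => h _ (h1.2.2 i hi)⟩))))
    obtain ⟨z, _, h2, h3⟩ := h1.2.1
    exact ⟨z, lt_of_le_of_lt (fact_le3 _ _ _) (inn_lt hc' (h _ h3)), h2, h _ h3⟩

theorem Valid.just {O : M → Prop} {c f : M} (hv : Valid O c) (hf : inn f c) : Just O c f :=
  (hv.2 f hf.1).resolve_left (fun h => h hf)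

/-- Finite sets given by computable predicates. -/
theorem fin_ex {S : Set (Set M)} [IndS S] {P : M → Prop} (hP : Comp S P) (n : M) :
    ∃ c, 0 < c ∧ ∀ x, inn x c ↔ x < n ∧ P x := by
  refine ⟨str P n, str_pos hP n, fun x => ?_⟩
  unfold inn
  rw [len_str hP]
  constructor
  · rintro ⟨h1, h2⟩
    rw [bit_str hP h1] at h2
    exact ⟨h1, chi_eq_one.1 h2⟩
  · rintro ⟨h1, h2⟩
    exact ⟨h1, by rw [bit_str hP h1]; exact chi_eq_one.2 h2⟩

theorem union_ex (c c' : M) : ∃ d, 0 < d ∧ ∀ x, inn x d ↔ inn x c ∨ inn x c' := by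
  obtain ⟨d, h1, h2⟩ := fin_ex (S := (∅ : Set (Set M))) (P := fun x => inn x c ∨ inn x c')
    (by fun_prop) (max (len c) (len c'))
  refine ⟨d, h1, fun x => ?_⟩
  rw [h2]
  constructor
  · exact fun h => h.2
  · intro h
    refine ⟨?_, h⟩
    rcases h with h | h
    · exact lt_of_lt_of_le h.1 (le_max_left _ _)
    · exact lt_of_lt_of_le h.1 (le_max_right _ _)

theorem Valid.union {O : M → Prop} {c c' : M} (h : Valid O c) (h' : Valid O c') :
    ∃ d, Valid O d ∧ ∀ x, inn x d ↔ inn x c ∨ inn x c' := by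
  obtain ⟨d, h1, h2⟩ := union_ex c c'
  refine ⟨d, ⟨h1, fun f hf => ?_⟩, h2⟩
  by_cases hfd : inn f d
  · right
    rcases (h2 f).1 hfd with h3 | h3
    · exact (h.just h3).mono h1 (fun x hx => (h2 x).2 (Or.inl hx))
    · exact (h'.just h3).mono h1 (fun x hx => (h2 x).2 (Or.inr hx))
  · exact Or.inl hfd

theorem Valid.insert {O : M → Prop} {c f : M} (h : Valid O c)
    (hf : ∀ c', 0 < c' → (∀ x, inn x c → inn x c') → Just O c' f) :
    ∃ d, Valid O d ∧ inn f d ∧ ∀ x, inn x c → inn x d := by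
  obtain ⟨d0, _, h2⟩ := fin_ex (S := (∅ : Set (Set M))) (P := fun x => x = f)
    (by fun_prop) (f + 1)
  obtain ⟨d, h3, h4⟩ := union_ex c d0
  have hfd : inn f d := (h4 f).2 (Or.inr ((h2 f).2 ⟨lt_add_one f, rfl⟩))
  refine ⟨d, ⟨h3, fun g hg => ?_⟩, hfd, fun x hx => (h4 x).2 (Or.inl hx)⟩
  by_cases hgd : inn g d
  · right
    rcases (h4 g).1 hgd with h5 | h5
    · exact (h.just h5).mono h3 (fun x hx => (h4 x).2 (Or.inl hx))
    · have h6 := ((h2 g).1 h5).2
      subst h6
      exact hf d h3 (fun x hx => (h4 x).2 (Or.inl hx))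
  · exact Or.inl hgd

theorem inn_one (x : M) : ¬ inn x 1 := by
  intro h
  have := h.1
  rw [len_one] at this
  exact not_lt_zero' _ this

theorem valid_one (O : M → Prop) : Valid O (1 : M) :=
  ⟨zero_lt_one, fun f _ => Or.inl (inn_one f)⟩

theorem Valid.single {O : M → Prop} {f : M} (hf : ∀ c', Just O c' f) :
    ∃ d, Valid O d ∧ inn f d := by
  obtain ⟨d, h1, h2, _⟩ := (valid_one O).insert (f := f) (fun c' _ _ => hf c')
  exact ⟨d, h1, h2⟩

section
variable {O : M → Prop} {c a x y : M}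

theorem just_prim (h : Just O c (fact (pr 0 a) x y)) : y = Gf a x := by
  unfold Just fact at h
  simp only [fs_pr, sn_pr] at h
  norm_num at h
  exact h

theorem just_const (h : Just O c (fact (pr 1 a) x y)) : y = a := by
  unfold Just fact at h
  simp only [fs_pr, sn_pr] at h
  norm_num at h
  exact h

theorem just_oracle (h : Just O c (fact (pr 2 a) x y)) : y = chi (O x) := by
  unfold Just fact at h
  simp only [fs_pr, sn_pr] at h
  norm_num at h
  exact h

theorem just_comp (h : Just O c (fact (pr 3 a) x y)) :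
    ∃ z, inn (fact (sn a) x z) c ∧ inn (fact (fs a) z y) c := by
  unfold Just at h
  simp only [show fs (fact (pr 3 a) x y) = pr 3 a from fs_pr _ _,
    show sn (fact (pr 3 a) x y) = pr x y from sn_pr _ _, fs_pr, sn_pr] at h
  norm_num at h
  obtain ⟨z, _, hz⟩ := h
  exact ⟨z, hz⟩

theorem just_pair (h : Just O c (fact (pr 4 a) x y)) :
    inn (fact (fs a) x (fs y)) c ∧ inn (fact (sn a) x (sn y)) c ∧ y = pr (fs y) (sn y) := by
  unfold Just at h
  simp only [show fs (fact (pr 4 a) x y) = pr 4 a from fs_pr _ _,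
    show sn (fact (pr 4 a) x y) = pr x y from sn_pr _ _, fs_pr, sn_pr] at h
  norm_num at h
  exact h

theorem just_search (h : Just O c (fact (pr 5 a) x y)) :
    (∃ z, z ≠ 0 ∧ inn (fact a (pr y x) z) c) ∧ ∀ i < y, inn (fact a (pr i x) 0) c := by
  unfold Just at h
  simp only [show fs (fact (pr 5 a) x y) = pr 5 a from fs_pr _ _,
    show sn (fact (pr 5 a) x y) = pr x y from sn_pr _ _, fs_pr, sn_pr] at h
  norm_num at h
  obtain ⟨⟨z, _, hz⟩, h2⟩ := h
  exact ⟨⟨z, hz⟩, h2⟩

end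

/-- Every computable function has an index. -/
theorem univ_index {Y : Set M} [IndS ({Y} : Set (Set M))] {f : M → M} (hf : CompI {Y} f) :
    ∃ e, (∀ x, ∃ c, Valid (fun i => i ∈ Y) c ∧ inn (fact e x (f x)) c) ∧
      (∀ c x y, Valid (fun i => i ∈ Y) c → inn (fact e x y) c → y = f x) := by
  induction hf with
  | prim k =>
    refine ⟨pr 0 k, fun x => Valid.single (fun c' => ?_), fun c x y hv h => just_prim (hv.just h)⟩
    left
    simp [fact]
  | const a =>
    refine ⟨pr 1 a, fun x => Valid.single (fun c' => ?_), fun c x y hv h => just_const (hv.just h)⟩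
    right; left
    simp [fact]
  | oracle B hB =>
    have hB' : B = Y := hB
    subst hB'
    refine ⟨pr 2 0, fun x => Valid.single (fun c' => ?_), fun c x y hv h => just_oracle (hv.just h)⟩
    right; right; left
    simp [fact]
  | @comp f g _ _ hf hg =>
    obtain ⟨e1, h1, h2⟩ := hf
    obtain ⟨e2, h3, h4⟩ := hg
    refine ⟨pr 3 (pr e1 e2), fun x => ?_, fun c x y hv h => ?_⟩
    · obtain ⟨c1, hc1, hc1'⟩ := h1 (g x)
      obtain ⟨c2, hc2, hc2'⟩ := h3 x
      obtain ⟨d, hd, hd'⟩ := hc1.union hc2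
      obtain ⟨d', hd1, hd2, _⟩ := hd.insert (f := fact (pr 3 (pr e1 e2)) x (f (g x))) (by
        intro c' hc' hsub
        right; right; right; left
        unfold fact
        simp only [fs_pr, sn_pr]
        refine ⟨trivial, g x, ?_, hsub _ ((hd' _).2 (Or.inr hc2')), hsub _ ((hd' _).2 (Or.inl hc1'))⟩
        exact lt_of_le_of_lt (fact_le3 _ _ _) (inn_lt hc' (hsub _ ((hd' _).2 (Or.inr hc2')))))
      exact ⟨d', hd1, hd2⟩
    · obtain ⟨z, hz1, hz2⟩ := just_comp (hv.just h)
      rw [fs_pr] at hz2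
      rw [sn_pr] at hz1
      have := h4 c x z hv hz1
      subst this
      exact h2 c _ _ hv hz2
  | @pair f g _ _ hf hg =>
    obtain ⟨e1, h1, h2⟩ := hf
    obtain ⟨e2, h3, h4⟩ := hg
    refine ⟨pr 4 (pr e1 e2), fun x => ?_, fun c x y hv h => ?_⟩
    · obtain ⟨c1, hc1, hc1'⟩ := h1 x
      obtain ⟨c2, hc2, hc2'⟩ := h3 x
      obtain ⟨d, hd, hd'⟩ := hc1.union hc2
      obtain ⟨d', hd1, hd2, _⟩ := hd.insert (f := fact (pr 4 (pr e1 e2)) x (pr (f x) (g x))) (by
        intro c' hc' hsub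
        right; right; right; right; left
        unfold fact
        simp only [fs_pr, sn_pr]
        exact ⟨trivial, hsub _ ((hd' _).2 (Or.inl hc1')), hsub _ ((hd' _).2 (Or.inr hc2')), trivial⟩)
      exact ⟨d', hd1, hd2⟩
    · obtain ⟨hz1, hz2, hz3⟩ := just_pair (hv.just h)
      rw [fs_pr] at hz1
      rw [sn_pr] at hz2
      rw [hz3, h2 c _ _ hv hz1, h4 c _ _ hv hz2]
  | @search f h hf' h1 h2 hf =>
    obtain ⟨e, h3, h4⟩ := hf
    refine ⟨pr 5 e, fun x => ?_, fun c x y hv hh => ?_⟩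
    · have key : ∀ n : M, ∃ c, n ≤ h x → Valid (fun i => i ∈ Y) c ∧
          Ball n (fun i => inn (fact e (pr i x) 0) c) := by
        apply Comp.induct1 (S := {Y}) (Q := fun n c => n ≤ h x → Valid (fun i => i ∈ Y) c ∧
          Ball n (fun i => inn (fact e (pr i x) 0) c))
        · have : Comp {Y} (fun x : M => x ∈ Y) := Comp.oracle rfl
          exact Comp.imp (by fun_prop) (by fun_prop)
        · exact ⟨1, fun _ => ⟨valid_one _, fun i hi => absurd hi (not_lt_zero' i)⟩⟩
        · rintro n ⟨c, hc⟩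
          by_cases hn : n + 1 ≤ h x
          · have hn' := succ_le.1 hn
            obtain ⟨hc1, hc2⟩ := hc hn'.le
            obtain ⟨c', hc3, hc4⟩ := h3 (pr n x)
            rw [h2 x n hn'] at hc4
            obtain ⟨d, hd1, hd2⟩ := hc1.union hc3
            refine ⟨d, fun _ => ⟨hd1, fun i hi => ?_⟩⟩
            rcases (lt_succ.1 hi).lt_or_eq with h5 | h5
            · exact (hd2 _).2 (Or.inl (hc2 i h5))
            · subst h5; exact (hd2 _).2 (Or.inr hc4)
          · exact ⟨1, fun h' => absurd h' hn⟩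
      obtain ⟨c, hc⟩ := key (h x)
      obtain ⟨hc1, hc2⟩ := hc le_rfl
      obtain ⟨c', hc3, hc4⟩ := h3 (pr (h x) x)
      obtain ⟨d, hd, hd'⟩ := hc1.union hc3
      obtain ⟨d', hd1, hd2, _⟩ := hd.insert (f := fact (pr 5 e) x (h x)) (by
        intro c' hc' hsub
        right; right; right; right; right
        unfold fact
        simp only [fs_pr, sn_pr]
        refine ⟨trivial, ⟨f (pr (h x) x), ?_, h1 x, hsub _ ((hd' _).2 (Or.inr hc4))⟩,
          fun i hi => hsub _ ((hd' _).2 (Or.inl (hc2 i hi)))⟩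
        exact lt_of_le_of_lt (fact_le3 _ _ _) (inn_lt hc' (hsub _ ((hd' _).2 (Or.inr hc4)))))
      exact ⟨d', hd1, hd2⟩
    · obtain ⟨⟨z, hz1, hz2⟩, hz3⟩ := just_search (hv.just hh)
      have e1 := h4 c _ _ hv hz2
      rcases lt_trichotomy y (h x) with h5 | h5 | h5
      · rw [e1, h2 x y h5] at hz1; exact absurd rfl hz1
      · exact h5
      · have := h4 c _ _ hv (hz3 _ h5)
        exact absurd this.symm (h1 x)

/-! ### Evaluation with string oracles -/

def GG (O : M → Prop) (e n c : M) : Prop :=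
  Valid O c ∧ (inn (fact e n 0) c ∨ inn (fact e n 1) c)

noncomputable def evc (e s n : M) : M := mu (fun c => GG (fun i => inn i s) e n c ∨ len s < c)

/-- The result of the computation with index `e`, oracle string `s`, input `n`: `0`, `1` or `2`
(undefined). -/
noncomputable def ev (e s n : M) : M :=
  Ite (evc e s n ≤ len s) (Ite (inn (fact e n 0) (evc e s n)) 0 1) 2

section
variable {S : Set (Set M)} [IndS S] {α : Type v} [Cod M α]

@[fun_prop] protected theorem Comp.GG {O : α → M → Prop} {f g h : α → M}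
    (hO : Comp S (fun z : α × M => O z.1 z.2)) (hf : Comp S f) (hg : Comp S g) (hh : Comp S h) :
    Comp S (fun x => GG (O x) (f x) (g x) (h x)) := by
  unfold h915.GG; fun_prop

@[fun_prop] protected theorem Comp.evc {f g h : α → M}
    (hf : Comp S f) (hg : Comp S g) (hh : Comp S h) :
    Comp S (fun x => evc (f x) (g x) (h x)) := by
  unfold h915.evc
  refine Comp.mu (P := fun x c => h915.GG (fun i => h915.inn i (g x)) (f x) (h x) c ∨
    h915.len (g x) < c) (by fun_prop) (fun x => ⟨h915.len (g x) + 1, Or.inr (lt_add_one _)⟩)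

@[fun_prop] protected theorem Comp.ev {f g h : α → M}
    (hf : Comp S f) (hg : Comp S g) (hh : Comp S h) :
    Comp S (fun x => ev (f x) (g x) (h x)) := by
  unfold h915.ev; fun_prop

end

theorem ev_of {e s n c : M} (h1 : c ≤ len s) (h2 : GG (fun i => inn i s) e n c)
    (h3 : ∀ c' < c, ¬ GG (fun i => inn i s) e n c') :
    ev e s n = Ite (inn (fact e n 0) c) 0 1 := by
  have h4 : evc e s n = c := by
    refine mu_eq (P := fun c => GG (fun i => inn i s) e n c ∨ len s < c) (Or.inl h2) ?_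
    intro c' hc' h5
    rcases h5 with h5 | h5
    · exact h3 c' hc' h5
    · exact absurd (lt_trans h5 hc') (not_lt.2 h1)
  unfold ev
  rw [h4, Ite_pos h1]

theorem ev_elim {e s n : M} (h : ev e s n < 2) : ∃ c, c ≤ len s ∧ GG (fun i => inn i s) e n c ∧
    (∀ c' < c, ¬ GG (fun i => inn i s) e n c') ∧ ev e s n = Ite (inn (fact e n 0) c) 0 1 := by
  have hc : Comp (∅ : Set (Set M)) (fun c => GG (fun i => inn i s) e n c ∨ len s < c) := by
    fun_prop
  by_cases h1 : evc e s n ≤ len s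
  · have h2 : GG (fun i => inn i s) e n (evc e s n) ∨ len s < evc e s n :=
      mu_spec hc ⟨len s + 1, Or.inr (lt_add_one _)⟩
    refine ⟨evc e s n, h1, h2.resolve_right (not_lt.2 h1), fun c' hc' h3 => ?_, ?_⟩
    · exact absurd (mu_min hc (Or.inl h3)) (not_le.2 hc')
    · unfold ev; rw [Ite_pos h1]
  · unfold ev at h
    rw [Ite_neg h1] at h
    exact absurd h (lt_irrefl _)

theorem inn_pre {s t x : M} (ht : 0 < t) (h : pre s t) (hx : x < len s) : inn x s ↔ inn x t := by
  unfold inn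
  rw [pre_bit ht h hx]
  constructor
  · exact fun h' => ⟨lt_of_lt_of_le h'.1 h.1, h'.2⟩
  · exact fun h' => ⟨hx, h'.2⟩

theorem GG.congr {O O' : M → Prop} {e n c : M} (h : ∀ x < c, O x ↔ O' x)
    (hv : GG O e n c) : GG O' e n c := ⟨hv.1.congr h, hv.2⟩

theorem ev_mono {e s t n : M} (ht : 0 < t) (h : pre s t) (h2 : ev e s n < 2) :
    ev e t n = ev e s n := by
  obtain ⟨c, hc1, hc2, hc3, hc4⟩ := ev_elim h2
  rw [hc4]
  apply ev_of (hc1.trans h.1)
  · exact hc2.congr (fun x hx => inn_pre ht h (lt_of_lt_of_le hx hc1))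
  · intro c' hc' h3
    exact hc3 c' hc' (h3.congr (fun x hx =>
      (inn_pre ht h (lt_of_lt_of_le hx (hc'.le.trans hc1))).symm))

theorem ev_unique {e s t r n : M} (hr : 0 < r) (h : pre s r) (h' : pre t r) (h2 : ev e s n < 2)
    (h3 : ev e t n < 2) : ev e s n = ev e t n := by
  rw [← ev_mono hr h h2, ← ev_mono hr h' h3]

/-- Universality. -/
theorem ev_univ {Y W : Set M} [IndS ({Y} : Set (Set M))] (h : Comp {Y} (fun x => x ∈ W)) :
    ∃ e, ∀ n, ∃ s, ev e (str (fun i => i ∈ Y) s) n = chi (n ∈ W) := by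
  obtain ⟨e, h1, h2⟩ := univ_index (Y := Y) (f := fun n => chi (n ∈ W)) h
  have hY : Comp {Y} (fun i => i ∈ Y) := Comp.oracle rfl
  refine ⟨e, fun n => ?_⟩
  have hex : ∃ c, GG (fun i => i ∈ Y) e n c := by
    obtain ⟨c, hc1, hc2⟩ := h1 n
    refine ⟨c, hc1, ?_⟩
    by_cases hn : n ∈ W
    · right; rw [chi_true hn] at hc2; exact hc2
    · left; rw [chi_false hn] at hc2; exact hc2
  obtain ⟨c, hc1, hc2⟩ := Comp.lnp (S := {Y}) (P := fun c => GG (fun i => i ∈ Y) e n c)
    (by fun_prop) hex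
  have hin : ∀ x < c, (x ∈ Y ↔ inn x (str (fun i => i ∈ Y) c)) := by
    intro x hx
    unfold inn
    rw [len_str hY, bit_str hY hx, chi_eq_one]
    exact ⟨fun h => ⟨hx, h⟩, fun h => h.2⟩
  refine ⟨c, ?_⟩
  rw [ev_of (c := c) (by rw [len_str hY]) (hc1.congr hin)
    (fun c' hc' h3 => hc2 c' hc' (h3.congr (fun x hx => (hin x (lt_trans hx hc')).symm)))]
  rcases hc1.2 with h3 | h3
  · rw [Ite_pos h3]
    exact h2 c n 0 hc1.1 h3
  · have h4 : 1 = (chi (n ∈ W) : M) := h2 c n 1 hc1.1 h3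
    rw [Ite_neg, ← h4]
    intro h5
    have h6 : 0 = (chi (n ∈ W) : M) := h2 c n 0 hc1.1 h5
    rw [← h6] at h4
    exact absurd h4 one_ne_zero

theorem ev_univ_conv {Y W : Set M} [IndS ({Y} : Set (Set M))] {e : M}
    (h : ∀ n, ∃ s, ev e (str (fun i => i ∈ Y) s) n = chi (n ∈ W)) :
    Comp {Y} (fun x => x ∈ W) := by
  have hY : Comp {Y} (fun i => i ∈ Y) := Comp.oracle rfl
  have key : ∀ n s, ev e (str (fun i => i ∈ Y) s) n < 2 →
      ev e (str (fun i => i ∈ Y) s) n = chi (n ∈ W) := by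
    intro n s hs
    obtain ⟨s', hs'⟩ := h n
    rw [← hs']
    apply ev_unique (r := str (fun i => i ∈ Y) (max s s')) (str_pos hY _)
      (pre_str hY (le_max_left _ _)) (pre_str hY (le_max_right _ _)) hs
    rw [hs']; exact chi_lt_two hY _
  refine Comp.of_re (Q := fun n s => ev e (str (fun i => i ∈ Y) s) n = 1)
    (R := fun n s => ev e (str (fun i => i ∈ Y) s) n = 0) (by fun_prop) (by fun_prop) ?_ ?_
  · intro n
    constructor
    · intro hn
      obtain ⟨s, hs⟩ := h n
      exact ⟨s, by rw [hs, chi_true hn]⟩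
    · rintro ⟨s, hs⟩
      have h1 := key n s (by rw [hs]; exact one_lt_two)
      rw [hs] at h1
      exact chi_eq_one.1 h1.symm
  · intro n
    constructor
    · intro hn
      obtain ⟨s, hs⟩ := h n
      exact ⟨s, by rw [hs, chi_false hn]⟩
    · rintro ⟨s, hs⟩
      have h1 := key n s (by rw [hs]; exact two_pos)
      rw [hs] at h1
      exact chi_eq_zero.1 h1.symm

end Run7.h915
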